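import Pool.Agent.K4H61.HS.Cells

/-!
Discretisation of the space of configurations.
-/

set_option autoImplicit false
open MeasureTheory Set

namespace Pool.Agent.K4H61.HS

open Classical in
/-- independent tuples and independent sets -/
lemma tuples_card {X : Type} [Fintype X] (R : X → X → Prop) (hrefl : ∀ u, R u u)
    (hsymm : ∀ u v, R u v → R v u) (N : ℕ) :
    (Finset.univ.filter (fun c : Fin N → X => ∀ i j, i ≠ j → ¬ R (c i) (c j))).card =
      N.factorial * ic R Finset.univ N := by
  set T := Finset.univ.filter (fun c : Fin N → X => ∀ i j, i ≠ j → ¬ R (c i) (c j)) with hT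
  have hinj : ∀ c ∈ T, Function.Injective c := by
    intro c hc i j hij
    by_contra hne
    rw [hT, Finset.mem_filter] at hc
    exact hc.2 i j hne (hij ▸ hrefl _)
  have h1 : ∀ c ∈ T, Finset.univ.image c ∈ (Finset.powersetCard N Finset.univ).filter (Ind R) := by
    intro c hc
    rw [Finset.mem_filter, Finset.mem_powersetCard]
    refine ⟨⟨Finset.subset_univ _, ?_⟩, ?_⟩
    · rw [Finset.card_image_of_injective _ (hinj c hc), Finset.card_univ, Fintype.card_fin]
    · intro u hu v hv huv
      rw [Finset.mem_image] at hu hv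
      obtain ⟨i, _, rfl⟩ := hu
      obtain ⟨j, _, rfl⟩ := hv
      rw [hT, Finset.mem_filter] at hc
      exact hc.2 i j (fun h => huv (by rw [h]))
  rw [Finset.card_eq_sum_card_fiberwise (f := fun c : Fin N → X => Finset.univ.image c) h1]
  have h2 : ∀ I ∈ (Finset.powersetCard N (Finset.univ : Finset X)).filter (Ind R),
      (T.filter (fun c => Finset.univ.image c = I)).card = N.factorial := by
    intro I hI
    rw [Finset.mem_filter, Finset.mem_powersetCard] at hI
    obtain ⟨⟨_, hIc⟩, hI2⟩ := hI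
    have h3 : (Finset.univ : Finset (Fin N ↪ I)).card = N.factorial := by
      rw [Finset.card_univ, Fintype.card_embedding_eq, Fintype.card_coe, hIc, Fintype.card_fin,
        Nat.descFactorial_self]
    rw [← h3]
    symm
    refine Finset.card_bij (fun e _ => fun i => ((e i : I) : X)) ?_ ?_ ?_
    · intro e _
      rw [Finset.mem_filter, hT, Finset.mem_filter]
      have hcinj : Function.Injective (fun i => ((e i : I) : X)) :=
        Subtype.val_injective.comp e.injective
      refine ⟨⟨Finset.mem_univ _, fun i j hij => ?_⟩, ?_⟩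
      · exact hI2 _ (e i).2 _ (e j).2 (fun h => hij (hcinj h))
      · refine Finset.eq_of_subset_of_card_le ?_ ?_
        · intro x hx
          rw [Finset.mem_image] at hx
          obtain ⟨i, _, rfl⟩ := hx
          exact (e i).2
        · rw [hIc, Finset.card_image_of_injective _ hcinj, Finset.card_univ, Fintype.card_fin]
    · intro e _ e' _ he
      ext i
      exact congrFun he i
    · intro c hc
      rw [Finset.mem_filter] at hc
      have hmem : ∀ i, c i ∈ I := fun i => by
        rw [← hc.2]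
        exact Finset.mem_image_of_mem _ (Finset.mem_univ _)
      refine ⟨⟨fun i => ⟨c i, hmem i⟩, fun i j hij => hinj c hc.1 (congrArg Subtype.val hij)⟩,
        Finset.mem_univ _, rfl⟩
  rw [Finset.sum_congr rfl h2, Finset.sum_const, smul_eq_mul, mul_comm]
  rfl

variable {d m : ℕ}

/-- the box of a tuple of cells -/
def box {N : ℕ} (h : ℝ) (c : Fin N → Fin d → Fin m) : Set (Fin N → Fin d → ℝ) :=
  Set.univ.pi fun i => Set.univ.pi fun k =>
    Ico (((c i k : ℕ) : ℝ) * h) (((c i k : ℕ) : ℝ) * h + h)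

lemma box_vol {N : ℕ} {h : ℝ} (hh : 0 < h) (c : Fin N → Fin d → Fin m) :
    volume (box h c) = ENNReal.ofReal ((h ^ d) ^ N) := by
  unfold box
  rw [volume_pi_pi]
  simp_rw [Real.volume_pi_Ico]
  simp only [add_sub_cancel_left, Finset.prod_const, Finset.card_univ, Fintype.card_fin]
  rw [ENNReal.ofReal_pow (by positivity), ENNReal.ofReal_pow hh.le]

lemma box_meas {N : ℕ} (h : ℝ) (c : Fin N → Fin d → Fin m) : MeasurableSet (box h c) :=
  MeasurableSet.univ_pi fun _ => MeasurableSet.univ_pi fun _ => measurableSet_Ico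

lemma mem_box_iff {N : ℕ} (h : ℝ) (c : Fin N → Fin d → Fin m) (x : Fin N → Fin d → ℝ) :
    x ∈ box h c ↔ ∀ i, (WithLp.toLp 2 (x i) : ES d) ∈ cell h (c i) := by
  unfold box cell
  simp [Set.mem_pi]

lemma box_disj {N : ℕ} {h : ℝ} (hh : 0 < h) {c c' : Fin N → Fin d → Fin m} (hne : c ≠ c') :
    Disjoint (box h c) (box h c') := by
  rw [Set.disjoint_left]
  intro x hx hx'
  rw [mem_box_iff] at hx hx'
  apply hne
  funext i
  by_contra hi
  exact (cell_disj hh hi).le_bot ⟨hx i, hx' i⟩

lemma sum_eq_norm (x y : Fin d → ℝ) : ∑ k, (x k - y k) ^ 2 =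
    ‖(WithLp.toLp 2 x : ES d) - WithLp.toLp 2 y‖ ^ 2 := by
  rw [EuclideanSpace.norm_sq_eq]
  simp [sq_abs]

theorem config_le (r L h : ℝ) (N : ℕ) (hh : 0 < h)
    (hm : L < m * h) (hr : √d * h < r) :
    (volume (config d r L N)).toReal ≤
      (N.factorial : ℝ) * (ic (near (d := d) (m := m) h (r - √d * h)) Finset.univ N : ℝ) *
        (h ^ d) ^ N := by
  classical
  have hr0 : 0 < r := lt_of_le_of_lt (by positivity) hr
  set T := Finset.univ.filter (fun c : Fin N → Fin d → Fin m =>
    ∀ i j, i ≠ j → ¬ near h (r - √d * h) (c i) (c j)) with hT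
  have hTc := tuples_card (near (d := d) (m := m) h (r - √d * h)) (near_refl _ _) near_symm N
  have hsub : config d r L N ⊆ ⋃ c ∈ T, box h c := by
    intro x hx
    obtain ⟨hx1, hx2⟩ := hx
    have hfl : ∀ i k, ⌊x i k / h⌋₊ < m := by
      intro i k
      rw [Nat.floor_lt (div_nonneg (hx1 i k).1 hh.le), div_lt_iff₀ hh]
      exact lt_of_le_of_lt (hx1 i k).2 hm
    set c : Fin N → Fin d → Fin m := fun i k => ⟨⌊x i k / h⌋₊, hfl i k⟩ with hc
    have hxc : ∀ i, (WithLp.toLp 2 (x i) : ES d) ∈ cell h (c i) := by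
      intro i k
      have h1 : (⌊x i k / h⌋₊ : ℝ) ≤ x i k / h := Nat.floor_le (div_nonneg (hx1 i k).1 hh.le)
      have h2 : x i k / h < ⌊x i k / h⌋₊ + 1 := Nat.lt_floor_add_one _
      rw [le_div_iff₀ hh] at h1
      rw [div_lt_iff₀ hh] at h2
      refine ⟨h1, ?_⟩
      have : ((⌊x i k / h⌋₊ : ℝ) + 1) * h = (⌊x i k / h⌋₊ : ℝ) * h + h := by ring
      rw [this] at h2
      exact h2
    rw [mem_iUnion₂]
    refine ⟨c, ?_, (mem_box_iff h c x).2 hxc⟩
    rw [hT, Finset.mem_filter]
    refine ⟨Finset.mem_univ _, fun i j hij => ?_⟩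
    rw [near_iff (by linarith)]
    have h3 := hx2 i j hij
    rw [sum_eq_norm] at h3
    have h4 : r ≤ ‖(WithLp.toLp 2 (x i) : ES d) - WithLp.toLp 2 (x j)‖ :=
      le_of_sq_le_sq h3 (norm_nonneg _)
    have h5 := cell_dist hh (hxc i) (hxc j)
    set a := (WithLp.toLp 2 (x i) : ES d) - WithLp.toLp 2 (x j) with ha
    set b := corner h (c i) - corner h (c j) with hb
    have h6 : ‖a‖ ≤ ‖a - b‖ + ‖b‖ := by
      have := norm_add_le (a - b) b
      rwa [sub_add_cancel] at this
    push Not
    linarith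
  have hvol : volume (⋃ c ∈ T, box h c) ≤ ENNReal.ofReal (T.card * (h ^ d) ^ N) := by
    refine (measure_biUnion_finset_le _ _).trans ?_
    simp_rw [box_vol hh]
    rw [Finset.sum_const, nsmul_eq_mul, ENNReal.ofReal_mul (by positivity),
      ENNReal.ofReal_natCast]
  have h1 : (volume (config d r L N)).toReal ≤ T.card * (h ^ d) ^ N := by
    refine ENNReal.toReal_le_of_le_ofReal (by positivity) ((measure_mono hsub).trans hvol)
  refine h1.trans (le_of_eq ?_)
  rw [hT, hTc]
  push_cast
  ring

lemma config_lt_top (r L : ℝ) (N : ℕ) : volume (config d r L N) < ⊤ := by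
  have h1 : config d r L N ⊆ Set.univ.pi fun _ => Set.univ.pi fun _ => Icc (0:ℝ) L := by
    intro x hx
    rw [Set.mem_univ_pi]
    intro i
    rw [Set.mem_univ_pi]
    exact fun k => hx.1 i k
  refine lt_of_le_of_lt (measure_mono h1) ?_
  simp_rw [volume_pi_pi, Real.volume_Icc]
  refine ENNReal.prod_lt_top fun i _ => ENNReal.prod_lt_top fun k _ => ENNReal.ofReal_lt_top

theorem le_config (r L h : ℝ) (N : ℕ) (hh : 0 < h) (hr : 0 < r)
    (hm : m * h ≤ L) :
    (N.factorial : ℝ) * (ic (near (d := d) (m := m) h (r + √d * h)) Finset.univ N : ℝ) *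
      (h ^ d) ^ N ≤ (volume (config d r L N)).toReal := by
  classical
  set T := Finset.univ.filter (fun c : Fin N → Fin d → Fin m =>
    ∀ i j, i ≠ j → ¬ near h (r + √d * h) (c i) (c j)) with hT
  have hTc := tuples_card (near (d := d) (m := m) h (r + √d * h)) (near_refl _ _) near_symm N
  have hsub : ⋃ c ∈ T, box h c ⊆ config d r L N := by
    intro x hx
    rw [mem_iUnion₂] at hx
    obtain ⟨c, hc, hxc⟩ := hx
    rw [mem_box_iff] at hxc
    rw [hT, Finset.mem_filter] at hc
    refine ⟨fun i k => ?_, fun i j hij => ?_⟩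
    · have h1 := hxc i k
      simp only at h1
      have h2 : (((c i k : ℕ) : ℝ) + 1) * h ≤ m * h := by
        refine mul_le_mul_of_nonneg_right ?_ hh.le
        have := (c i k).2
        exact_mod_cast this
      have h3 : 0 ≤ ((c i k : ℕ) : ℝ) * h := by positivity
      have h4 := h1.1
      have h5 := h1.2
      constructor <;> linarith
    · have h3 := hc.2 i j hij
      rw [near_iff (by positivity)] at h3
      push Not at h3
      have h5 := cell_dist hh (hxc i) (hxc j)
      rw [sum_eq_norm]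
      set a := (WithLp.toLp 2 (x i) : ES d) - WithLp.toLp 2 (x j) with ha
      set b := corner h (c i) - corner h (c j) with hb
      have h6 : ‖b‖ ≤ ‖a - b‖ + ‖a‖ := by
        have := norm_sub_le a (a - b)
        rw [sub_sub_cancel] at this
        linarith
      exact pow_le_pow_left₀ hr.le (by linarith) 2
  have h1 : (T.card : ℝ) * (h ^ d) ^ N = (volume (⋃ c ∈ T, box h c)).toReal := by
    rw [measure_biUnion_finset (fun c _ c' _ hne => box_disj hh hne) (fun c _ => box_meas h c)]
    simp_rw [box_vol hh]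
    rw [Finset.sum_const, nsmul_eq_mul, ENNReal.toReal_mul, ENNReal.toReal_natCast,
      ENNReal.toReal_ofReal (by positivity)]
  have h2 : (T.card : ℝ) * (h ^ d) ^ N ≤ (volume (config d r L N)).toReal := by
    rw [h1]
    exact ENNReal.toReal_mono (config_lt_top r L N).ne (measure_mono hsub)
  refine le_trans (le_of_eq ?_) h2
  rw [hT, hTc]
  push_cast
  ring

end Pool.Agent.K4H61.HS
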