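import Pool.Agent.K4H61.HS.Defs

/-!
The counting method of Kleitman and Winston for independent sets, in a sharp form.
-/

set_option autoImplicit false
open Finset

namespace Pool.Agent.K4H61.HS

variable {X : Type}

/-- the shifts in the bound -/
noncomputable def th (q s : ℝ) : ℕ → ℝ
  | 0 => 0
  | j + 1 => 1 + (s + th q s j) / q

lemma th_nonneg {q s : ℝ} (hq : 0 < q) (hs : 0 ≤ s) (j : ℕ) : 0 ≤ th q s j := by
  induction j with
  | zero => simp [th]
  | succ j ih => simp only [th]; positivity

lemma th_succ_ge {q s : ℝ} (hq : 0 < q) (hs : 0 ≤ s) (j : ℕ) : 1 ≤ th q s (j + 1) := by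
  have := th_nonneg hq hs j
  simp only [th]
  have : 0 ≤ (s + th q s j) / q := by positivity
  linarith

lemma th_mono {q s : ℝ} (hq : 0 < q) (hq1 : q ≤ 1) (hs : 0 ≤ s) : Monotone (th q s) := by
  refine monotone_nat_of_le_succ fun j => ?_
  have h0 := th_nonneg hq hs j
  simp only [th]
  have : th q s j ≤ (s + th q s j) / q := by
    rw [le_div_iff₀ hq]
    nlinarith
  linarith

/-- explicit form -/
lemma th_eq {q s : ℝ} (hq : 0 < q) (hq1 : q < 1) (j : ℕ) :
    th q s j = (q + s) * ((1 / q) ^ j - 1) / (1 - q) := by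
  have h1 : 1 - q ≠ 0 := by linarith
  induction j with
  | zero => simp [th]
  | succ j ih =>
    simp only [th]
    rw [ih, pow_succ]
    field_simp
    ring

open Classical in
lemma ic_rec (R : X → X → Prop) (hrefl : ∀ u, R u u) (U : Finset X) (v : X) (M : ℕ) :
    ic R U (M + 1) ≤ ic R (U.erase v) (M + 1) + ic R (U.filter (fun u => ¬ R v u)) M := by
  unfold ic
  have hsub : ((U.powersetCard (M + 1)).filter (Ind R)) ⊆
      (((U.erase v).powersetCard (M + 1)).filter (Ind R)) ∪
      (((U.filter (fun u => ¬ R v u)).powersetCard M).filter (Ind R)).image (insert v) := by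
    intro I hI
    rw [mem_filter, mem_powersetCard] at hI
    obtain ⟨⟨hIU, hIc⟩, hI2⟩ := hI
    rw [mem_union]
    by_cases hv : v ∈ I
    · right
      rw [mem_image]
      refine ⟨I.erase v, ?_, insert_erase hv⟩
      rw [mem_filter, mem_powersetCard]
      refine ⟨⟨fun u hu => ?_, ?_⟩, fun u hu w hw => hI2 u (mem_of_mem_erase hu) w (mem_of_mem_erase hw)⟩
      · rw [mem_filter]
        exact ⟨hIU (mem_of_mem_erase hu), hI2 v hv u (mem_of_mem_erase hu) (ne_of_mem_erase hu).symm⟩
      · rw [card_erase_of_mem hv, hIc]; rfl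
    · left
      rw [mem_filter, mem_powersetCard]
      refine ⟨⟨fun u hu => mem_erase.2 ⟨fun h => hv (h ▸ hu), hIU hu⟩, hIc⟩, hI2⟩
  refine (card_le_card hsub).trans ((card_union_le _ _).trans ?_)
  exact Nat.add_le_add_left card_image_le _

lemma ic_empty_succ (R : X → X → Prop) (M : ℕ) : ic R ∅ (M + 1) = 0 := by
  unfold ic
  rw [powersetCard_eq_empty.2 (by simp)]
  simp

lemma ic_le_choose (R : X → X → Prop) (U : Finset X) (M : ℕ) : ic R U M ≤ U.card.choose M := by
  classical
  unfold ic
  exact (card_filter_le _ _).trans (card_powersetCard _ _).le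

open Classical in
/-- **Kleitman–Winston.** If every nonempty subset `U` of `U0` has an element whose closed
neighbourhood contains at least `(1-q)|U| - s` elements of `U`, then the number of independent sets
of size `j + K` is at most `q^(C(j,2) + jK) (|U| + θ_j)^(j+K) / (j+K)!`. -/
theorem kw (R : X → X → Prop) (hrefl : ∀ u, R u u) (q s : ℝ) (hq : 0 < q) (hs : 0 ≤ s)
    (U0 : Finset X)
    (h : ∀ U ⊆ U0, U.Nonempty → ∃ v ∈ U, (1 - q) * U.card - s ≤ ({u ∈ U | R v u}.card : ℝ)) :
    ∀ j K : ℕ, ∀ U ⊆ U0, (ic R U (j + K) : ℝ) ≤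
      q ^ (j.choose 2 + j * K) * ((U.card : ℝ) + th q s j) ^ (j + K) / ((j + K).factorial : ℝ) := by
  intro j
  induction j with
  | zero =>
    intro K U _
    have h1 : (ic R U (0 + K) : ℝ) ≤ ((U.card.choose (0 + K) : ℕ) : ℝ) := by
      exact_mod_cast ic_le_choose R U (0 + K)
    refine h1.trans ?_
    simp only [Nat.choose_zero_succ, zero_mul, add_zero, pow_zero, one_mul, th, zero_add]
    exact Nat.choose_le_pow_div K U.card
  | succ j ih =>
    intro K U
    induction hU : U.card using Nat.strong_induction_on generalizing U with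
    | _ n ihn =>
      intro hU0
      have hM : j + 1 + K = (j + K) + 1 := by ring
      rw [hM]
      rcases U.eq_empty_or_nonempty with rfl | hne
      · rw [ic_empty_succ]
        simp only [card_empty] at hU
        have := th_nonneg hq hs (j + 1)
        rw [← hU]
        push_cast
        positivity
      obtain ⟨v, hv, hdeg⟩ := h U hU0 hne
      have hn1 : 1 ≤ n := by rw [← hU]; exact card_pos.2 hne
      have hrec := ic_rec R hrefl U v (j + K)
      have h1 := ihn (n - 1) (by omega) (U.erase v) (by rw [card_erase_of_mem hv, hU])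
        ((erase_subset _ _).trans hU0)
      rw [hM] at h1
      have h2 := ih K (U.filter (fun u => ¬ R v u)) ((filter_subset _ _).trans hU0)
      have hcard : ((U.filter (fun u => ¬ R v u)).card : ℝ) ≤ q * n + s := by
        have h3 := card_filter_add_card_filter_not (s := U) (fun u => R v u)
        have h4 : ((U.filter (fun u => R v u)).card : ℝ) + ((U.filter (fun u => ¬ R v u)).card : ℝ)
            = n := by
          rw [← hU]; exact_mod_cast h3
        rw [hU] at hdeg
        linarith
      set a : ℝ := (n : ℝ) + th q s (j + 1) with ha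
      set b : ℝ := ((n - 1 : ℕ) : ℝ) + th q s (j + 1) with hb
      have hth := th_succ_ge hq hs j
      have hth0 := th_nonneg hq hs j
      have hab : a = b + 1 := by
        rw [ha, hb, Nat.cast_sub hn1]; push_cast; ring
      have hb0 : 0 ≤ b := by rw [hb]; positivity
      have hE : (j + 1).choose 2 + (j + 1) * K = (j.choose 2 + j * K) + (j + K) := by
        have : (j + 1).choose 2 = j.choose 2 + j := by
          rw [Nat.choose_succ_succ' j 1, Nat.choose_one_right]; ring
        rw [this]; ring
      have h3 : (ic R (U.filter (fun u => ¬ R v u)) (j + K) : ℝ) ≤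
          q ^ ((j + 1).choose 2 + (j + 1) * K) * b ^ (j + K) / ((j + K).factorial : ℝ) := by
        refine h2.trans ?_
        have h5 : ((U.filter (fun u => ¬ R v u)).card : ℝ) + th q s j ≤ q * b := by
          have h6 : q * b = q * n + s + th q s j := by
            rw [hb, Nat.cast_sub hn1]
            simp only [th]
            field_simp
            push_cast
            ring
          rw [h6]; linarith
        have h6 : (((U.filter (fun u => ¬ R v u)).card : ℝ) + th q s j) ^ (j + K) ≤
            q ^ (j + K) * b ^ (j + K) := by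
          rw [← mul_pow]
          exact pow_le_pow_left₀ (by positivity) h5 _
        have h7 : q ^ ((j + 1).choose 2 + (j + 1) * K) * b ^ (j + K) =
            q ^ (j.choose 2 + j * K) * (q ^ (j + K) * b ^ (j + K)) := by
          rw [hE, pow_add, mul_assoc]
        rw [h7]
        exact div_le_div_of_nonneg_right (mul_le_mul_of_nonneg_left h6 (by positivity))
          (by positivity)
      have h4 : (ic R (U.erase v) (j + K + 1) : ℝ) ≤
          q ^ ((j + 1).choose 2 + (j + 1) * K) * b ^ (j + K + 1) / ((j + K + 1).factorial : ℝ) := h1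
      have h5 : (ic R U (j + K + 1) : ℝ) ≤
          q ^ ((j + 1).choose 2 + (j + 1) * K) * b ^ (j + K + 1) / ((j + K + 1).factorial : ℝ) +
          q ^ ((j + 1).choose 2 + (j + 1) * K) * b ^ (j + K) / ((j + K).factorial : ℝ) := by
        refine le_trans ?_ (add_le_add h4 h3)
        exact_mod_cast hrec
      refine h5.trans ?_
      have hfac : ((j + K + 1).factorial : ℝ) = (j + K + 1 : ℝ) * ((j + K).factorial : ℝ) := by
        rw [Nat.factorial_succ]; push_cast; ring
      have hF : (0 : ℝ) < ((j + K).factorial : ℝ) := by positivity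
      have hF1 : (0 : ℝ) < (j + K + 1 : ℝ) := by positivity
      have hkey : b ^ (j + K + 1) + (j + K + 1 : ℝ) * b ^ (j + K) ≤ a ^ (j + K + 1) := by
        rw [hab]
        have := one_add_mul_le_pow_aux b hb0 (j + K)
        push_cast at this ⊢
        exact this
      have hqp : 0 ≤ q ^ ((j + 1).choose 2 + (j + 1) * K) := by positivity
      rw [hfac]
      have e1 : q ^ ((j + 1).choose 2 + (j + 1) * K) * b ^ (j + K + 1) /
            ((j + K + 1 : ℝ) * ((j + K).factorial : ℝ)) +
          q ^ ((j + 1).choose 2 + (j + 1) * K) * b ^ (j + K) / ((j + K).factorial : ℝ) =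
          q ^ ((j + 1).choose 2 + (j + 1) * K) * (b ^ (j + K + 1) + (j + K + 1 : ℝ) * b ^ (j + K)) /
            ((j + K + 1 : ℝ) * ((j + K).factorial : ℝ)) := by
        field_simp
      rw [e1]
      gcongr
where
  one_add_mul_le_pow_aux (b : ℝ) (hb : 0 ≤ b) (n : ℕ) :
      b ^ (n + 1) + (n + 1 : ℝ) * b ^ n ≤ (b + 1) ^ (n + 1) := by
    induction n with
    | zero => simp
    | succ n ih =>
      have h1 : (b + 1) ^ (n + 1 + 1) = (b + 1) * (b + 1) ^ (n + 1) := by ring
      rw [h1]
      have h2 : (b + 1) * (b ^ (n + 1) + (n + 1 : ℝ) * b ^ n) ≤ (b + 1) * (b + 1) ^ (n + 1) := by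
        gcongr
      refine le_trans ?_ h2
      have h3 : (b + 1) * (b ^ (n + 1) + (n + 1 : ℝ) * b ^ n) =
          b ^ (n + 1 + 1) + ((n : ℝ) + 1 + 1) * b ^ (n + 1) + (n + 1 : ℝ) * b ^ n := by
        ring
      rw [h3]
      push_cast
      have : 0 ≤ (n + 1 : ℝ) * b ^ n := by positivity
      linarith

end Pool.Agent.K4H61.HS
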