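import Pool.Agent.K4H61.HS.Gc2
import Pool.Agent.K4H61.HS.Comb

/-!
Trivial lower bound and Kleitman–Winston upper bound.
-/

set_option autoImplicit false
set_option maxHeartbeats 4000000
open Finset

namespace Pool.Agent.K4H61.HS

lemma exp_le_one_sub {u : ℝ} (h0 : 0 ≤ u) (h1 : u ≤ 1 / 2) : Real.exp (-(u + u ^ 2)) ≤ 1 - u := by
  have h2 : 1 + (u + u ^ 2) + (u + u ^ 2) ^ 2 / 2 ≤ Real.exp (u + u ^ 2) :=
    Real.quadratic_le_exp_of_nonneg (by positivity)
  have h3 : 1 ≤ (1 - u) * (1 + (u + u ^ 2) + (u + u ^ 2) ^ 2 / 2) := by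
    have h4 : (1 - u) * (1 + (u + u ^ 2) + (u + u ^ 2) ^ 2 / 2) =
        1 + u ^ 2 / 2 * ((1 - 2 * u) * (1 + u)) + u ^ 4 / 2 * (1 - u) := by ring
    rw [h4]
    have h5 : 0 ≤ (1 - 2 * u) * (1 + u) := mul_nonneg (by linarith) (by linarith)
    have h6 : 0 ≤ u ^ 4 / 2 * (1 - u) := mul_nonneg (by positivity) (by linarith)
    have h7 : 0 ≤ u ^ 2 / 2 * ((1 - 2 * u) * (1 + u)) := mul_nonneg (by positivity) h5
    linarith
  rw [Real.exp_neg, inv_le_iff_one_le_mul₀ (Real.exp_pos _)]
  refine h3.trans (mul_le_mul_of_nonneg_left h2 (by linarith))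

open Classical in
theorem small_lower {X : Type} [Fintype X] (R : X → X → Prop) (hrefl : ∀ u, R u u)
    (hsymm : ∀ u v, R u v → R v u) (hX : 0 < Fintype.card X) (D : ℝ) (N : ℕ)
    (hD0 : 0 < D) (hD : ∀ v, ((univ.filter (fun u => R v u)).card : ℝ) ≤ D)
    (hx : N * D / Fintype.card X ≤ 1 / 2) :
    0 < ic R univ N ∧
    -(N * D / Fintype.card X) ^ 2 / 2 - (N * D / Fintype.card X) ^ 3 / 2 ≤
      D / Fintype.card X *
        Real.log (ic R univ N * (N.factorial : ℝ) / (Fintype.card X : ℝ) ^ N) := by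
  set n : ℝ := (Fintype.card X : ℝ) with hn'
  have hn0 : 0 < n := by rw [hn']; exact_mod_cast hX
  set x : ℝ := N * D / n with hx'
  have hx0 : 0 ≤ x := by rw [hx']; positivity
  have key : ∀ k : ℕ, k ≤ N → Real.exp (-((1 + x) * (D / n) * (k ^ 2 / 2))) ≤
      ic R univ k * (k.factorial : ℝ) / n ^ k := by
    intro k
    induction k with
    | zero =>
      intro _
      have h1 : ic R univ 0 = 1 := by
        unfold ic
        rw [powersetCard_zero]
        rw [filter_singleton, if_pos (Ind_empty R)]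
        rfl
      rw [h1]
      simp
    | succ k ih =>
      intro hk
      have h1 := ih (by omega)
      have h2 := le_ic_succ R hrefl hsymm D hD k
      rw [← hn'] at h2
      set u : ℝ := k * D / n with hu
      have hu0 : 0 ≤ u := by rw [hu]; positivity
      have hux : u ≤ x := by
        rw [hu, hx']
        have : (k : ℝ) ≤ N := by exact_mod_cast (by omega : k ≤ N)
        gcongr
      have h3 := exp_le_one_sub hu0 (hux.trans hx)
      have h4 : (1 - u) * (ic R univ k * (k.factorial : ℝ) / n ^ k) ≤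
          ic R univ (k + 1) * ((k + 1).factorial : ℝ) / n ^ (k + 1) := by
        rw [Nat.factorial_succ]
        push_cast at h2 ⊢
        have h5 : (1 - u) * (ic R univ k * (k.factorial : ℝ) / n ^ k) =
            (n - k * D) * ic R univ k * ((k.factorial : ℝ) / n ^ (k + 1)) := by
          rw [hu, pow_succ]; field_simp
        have h6 : (ic R univ (k + 1) : ℝ) * (((k : ℝ) + 1) * (k.factorial : ℝ)) / n ^ (k + 1) =
            ((k : ℝ) + 1) * ic R univ (k + 1) * ((k.factorial : ℝ) / n ^ (k + 1)) := by ring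
        rw [h5, h6]
        exact mul_le_mul_of_nonneg_right h2 (by positivity)
      refine le_trans ?_ h4
      calc Real.exp (-((1 + x) * (D / n) * (((k + 1 : ℕ) : ℝ) ^ 2 / 2))) ≤
          Real.exp (-(u + u ^ 2)) * Real.exp (-((1 + x) * (D / n) * (k ^ 2 / 2))) := by
            rw [← Real.exp_add]
            refine Real.exp_le_exp.2 ?_
            push_cast
            have h5 : u ^ 2 ≤ x * u := by nlinarith
            have h6 : (1 + x) * (D / n) * ((k + 1) ^ 2 / 2) =
              (1 + x) * u + (1 + x) * (D / n) * (k ^ 2 / 2) + (1 + x) * (D / n) / 2 := by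
              rw [hu]; ring
            rw [h6]
            have h7 : 0 ≤ (1 + x) * (D / n) / 2 := by positivity
            nlinarith
        _ ≤ (1 - u) * (ic R univ k * (k.factorial : ℝ) / n ^ k) := by
            have : 0 ≤ 1 - u := by linarith
            gcongr
  have hN := key N le_rfl
  have hJ0 : 0 < ic R univ N * (N.factorial : ℝ) / n ^ N := lt_of_lt_of_le (Real.exp_pos _) hN
  refine ⟨?_, ?_⟩
  · by_contra hcon
    have h1 : ic R univ N = 0 := by omega
    rw [h1] at hJ0
    simp at hJ0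
  · have h1 : -((1 + x) * (D / n) * ((N : ℝ) ^ 2 / 2)) ≤
        Real.log (ic R univ N * (N.factorial : ℝ) / n ^ N) := by
      rw [Real.le_log_iff_exp_le hJ0]; exact hN
    have h2 := mul_le_mul_of_nonneg_left h1 (by positivity : 0 ≤ D / n)
    refine le_trans (le_of_eq ?_) h2
    rw [hx']
    field_simp
    ring

open Classical in
theorem fin_upper {X : Type} [Fintype X] (R : X → X → Prop) (hrefl : ∀ u, R u u)
    (hX : 0 < Fintype.card X) (q s T : ℝ) (N : ℕ) (hN : 1 ≤ N)
    (hq0 : 0 < q) (hq1 : q < 1) (hs : 0 ≤ s)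
    (hKW : ∀ U : Finset X, U.Nonempty → ∃ v ∈ U,
      (1 - q) * U.card - s ≤ ((U.filter (fun u => R v u)).card : ℝ))
    (hT : N * ((1 - q) / q) ≤ T) (hpos : 0 < ic R univ N) :
    Real.log (ic R univ N * (N.factorial : ℝ) / (Fintype.card X : ℝ) ^ N) / N ≤
      -((1 - q) * (N - 1) / 2) + (1 + s) / ((1 - q) * Fintype.card X) * Real.exp T := by
  set n : ℝ := (Fintype.card X : ℝ) with hn'
  have hn0 : 0 < n := by rw [hn']; exact_mod_cast hX
  have hκ0 : 0 < 1 - q := by linarith
  have hNr : (0 : ℝ) < N := by exact_mod_cast hN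
  have hkw := kw R hrefl q s hq0 hs univ (fun U _ hU => by
    obtain ⟨v, hv, hv2⟩ := hKW U hU
    exact ⟨v, hv, hv2⟩) N 0 univ (Subset.refl _)
  simp only [add_zero, mul_zero, card_univ] at hkw
  rw [← hn'] at hkw
  have hth := th_bound' hq0 hq1 hs N hT
  have hth0 : 0 ≤ th q s N := th_nonneg hq0 hs N
  have hposr : (0 : ℝ) < ic R univ N := by exact_mod_cast hpos
  have h1 : ic R univ N * (N.factorial : ℝ) / n ^ N ≤ q ^ (N.choose 2) * (1 + th q s N / n) ^ N := by
    rw [le_div_iff₀ (by positivity)] at hkw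
    rw [div_le_iff₀ (by positivity)]
    refine hkw.trans (le_of_eq ?_)
    rw [mul_assoc, ← mul_pow]
    congr 2
    field_simp
  have h2 : q ^ (N.choose 2) ≤ Real.exp (-((1 - q) * (N * (N - 1) / 2))) := by
    have h1 : q ≤ Real.exp (-(1 - q)) := by
      have := Real.add_one_le_exp (-(1 - q)); linarith
    calc q ^ (N.choose 2) ≤ Real.exp (-(1 - q)) ^ (N.choose 2) := pow_le_pow_left₀ hq0.le h1 _
      _ = Real.exp (-((1 - q) * (N * (N - 1) / 2))) := by
        rw [← Real.exp_nat_mul, Nat.cast_choose_two]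
        congr 1; ring
  set E := (1 + s) / ((1 - q) * n) * Real.exp T with hE
  have hthn : th q s N / n ≤ E := by
    rw [hE, div_le_iff₀ hn0]
    refine hth.trans (le_of_eq ?_)
    field_simp
  have h3 : (1 + th q s N / n) ^ N ≤ Real.exp (N * E) := by
    rw [Real.exp_nat_mul]
    refine pow_le_pow_left₀ (by positivity) ?_ N
    have := Real.add_one_le_exp E
    linarith
  have h4 : ic R univ N * (N.factorial : ℝ) / n ^ N ≤
      Real.exp (-((1 - q) * (N * (N - 1) / 2)) + N * E) := by
    rw [Real.exp_add]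
    refine h1.trans ?_
    gcongr
  have h5 : Real.log (ic R univ N * (N.factorial : ℝ) / n ^ N) ≤
      -((1 - q) * (N * (N - 1) / 2)) + N * E := by
    rw [Real.log_le_iff_le_exp (by positivity)]; exact h4
  rw [div_le_iff₀ hNr]
  refine h5.trans (le_of_eq ?_)
  ring
where
  th_bound' {q s T : ℝ} (hq0 : 0 < q) (hq1 : q < 1) (hs : 0 ≤ s) (M : ℕ)
      (hM : M * ((1 - q) / q) ≤ T) : th q s M ≤ (1 + s) / (1 - q) * Real.exp T := by
    rw [th_eq hq0 hq1]
    have h1 : (1 / q) ^ M ≤ Real.exp T := by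
      have h2 : 1 / q ≤ Real.exp ((1 - q) / q) := by
        have := Real.add_one_le_exp ((1 - q) / q)
        have h3 : (1 - q) / q + 1 = 1 / q := by field_simp; ring
        linarith
      calc (1 / q) ^ M ≤ Real.exp ((1 - q) / q) ^ M := pow_le_pow_left₀ (by positivity) h2 M
        _ = Real.exp (M * ((1 - q) / q)) := by rw [← Real.exp_nat_mul]
        _ ≤ Real.exp T := Real.exp_le_exp.2 hM
    have h0 : 0 < 1 - q := by linarith
    rw [div_mul_eq_mul_div]
    refine div_le_div_of_nonneg_right ?_ h0.le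
    calc (q + s) * ((1 / q) ^ M - 1) ≤ (q + s) * Real.exp T := by
          refine mul_le_mul_of_nonneg_left (by linarith) (by linarith)
      _ ≤ (1 + s) * Real.exp T := by
          refine mul_le_mul_of_nonneg_right (by linarith) (Real.exp_pos _).le

/-- upper bound for the factorial -/
lemma log_factorial_le (N : ℕ) (hN : 1 ≤ N) :
    Real.log (N.factorial : ℝ) ≤ N * Real.log N - N + 1 + Real.log N := by
  induction N, hN using Nat.le_induction with
  | base => simp
  | succ N hN ih =>
    have hN0 : (0 : ℝ) < N := by exact_mod_cast hN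
    rw [Nat.factorial_succ]
    push_cast
    rw [Real.log_mul (by positivity) (by positivity)]
    have h1 : 1 / ((N : ℝ) + 1) ≤ Real.log (((N : ℝ) + 1) / N) := by
      have h2 := Real.one_sub_inv_le_log_of_pos (by positivity : 0 < ((N : ℝ) + 1) / N)
      refine le_trans (le_of_eq ?_) h2
      field_simp
      ring
    rw [Real.log_div (by positivity) (by positivity)] at h1
    rw [div_le_iff₀ (by positivity)] at h1
    nlinarith

end Pool.Agent.K4H61.HS
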