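import Pool.Agent.K4H61.HS.Cells

/-!
Some closed neighbourhood is large.
-/

set_option autoImplicit false
open MeasureTheory Set

namespace Pool.Agent.K4H61.HS

variable {d m : ℕ}

/-- real valued indicator function -/
noncomputable def i1 (S : Set (ES d)) : ES d → ℝ := S.indicator (fun _ => 1)

lemma i1_mem {S : Set (ES d)} {x : ES d} (h : x ∈ S) : i1 S x = 1 := indicator_of_mem h _
lemma i1_nmem {S : Set (ES d)} {x : ES d} (h : x ∉ S) : i1 S x = 0 := indicator_of_notMem h _

lemma i1_nonneg (S : Set (ES d)) (x : ES d) : 0 ≤ i1 S x := by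
  by_cases h : x ∈ S
  · rw [i1_mem h]; norm_num
  · rw [i1_nmem h]

lemma i1_le_one (S : Set (ES d)) (x : ES d) : i1 S x ≤ 1 := by
  by_cases h : x ∈ S
  · rw [i1_mem h]
  · rw [i1_nmem h]; norm_num

lemma i1_memLp (S : Set (ES d)) (hS : MeasurableSet S) (hv : volume S < ⊤) :
    MemLp (i1 S) 2 volume :=
  memLp_indicator_const 2 hS 1 (Or.inr hv.ne)

lemma i1_integrable (S : Set (ES d)) (hS : MeasurableSet S) (hv : volume S < ⊤) :
    Integrable (i1 S) := by
  unfold i1
  rw [integrable_indicator_iff hS]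
  exact integrableOn_const hv.ne

lemma i1_integral (S : Set (ES d)) (hS : MeasurableSet S) :
    ∫ x, i1 S x = (volume S).toReal := by
  unfold i1
  rw [integral_indicator hS]
  simp [Measure.real]

lemma kr_nonneg (r : ℝ) (p : ES d × ES d) : 0 ≤ kr r p := by
  unfold kr; split_ifs <;> norm_num

lemma AA_ind (r : ℝ) (S T : Set (ES d)) (hS : MeasurableSet S) (hSv : volume S < ⊤)
    (hball : ∀ x ∈ S, Metric.ball x r ⊆ T) :
    AA r (i1 S) (i1 T) = (volume (Metric.ball (0 : ES d) r)).toReal * (volume S).toReal := by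
  rw [← i1_integral S hS, ← (kr_mul_left r (i1 S) (i1_integrable S hS hSv)).2]
  unfold AA
  refine integral_congr_ae (Filter.Eventually.of_forall fun p => ?_)
  dsimp only
  by_cases hp : p.1 ∈ S
  · rw [i1_mem hp, one_mul, mul_one]
    unfold kr
    by_cases hk : dist p.1 p.2 < r
    · rw [if_pos hk, i1_mem (hball _ hp (by rw [Metric.mem_ball']; exact hk)), one_mul]
    · rw [if_neg hk, zero_mul]
  · rw [i1_nmem hp, zero_mul]

lemma AA_ind' (r : ℝ) (S T : Set (ES d)) (hS : MeasurableSet S) (hSv : volume S < ⊤)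
    (hball : ∀ x ∈ S, Metric.ball x r ⊆ T) :
    AA r (i1 T) (i1 S) = (volume (Metric.ball (0 : ES d) r)).toReal * (volume S).toReal := by
  rw [← i1_integral S hS, ← (kr_mul_right r (i1 S) (i1_integrable S hS hSv)).2]
  unfold AA
  refine integral_congr_ae (Filter.Eventually.of_forall fun p => ?_)
  dsimp only
  by_cases hp : p.2 ∈ S
  · rw [i1_mem hp, mul_one, mul_one]
    unfold kr
    by_cases hk : dist p.1 p.2 < r
    · rw [if_pos hk, i1_mem (hball _ hp (by rw [Metric.mem_ball]; exact hk)), one_mul]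
    · rw [if_neg hk, zero_mul]
  · rw [i1_nmem hp, mul_zero]

lemma AA_ind_le (r : ℝ) (S : Set (ES d)) (hS : MeasurableSet S) (hSv : volume S < ⊤) :
    AA r (i1 S) (i1 S) ≤ (volume (Metric.ball (0 : ES d) r)).toReal * (volume S).toReal := by
  have hk := kr_mul_left r (i1 S) (i1_integrable S hS hSv)
  rw [← i1_integral S hS, ← hk.2]
  unfold AA
  refine integral_mono (AA_integrable r _ _ (i1_memLp S hS hSv) (i1_memLp S hS hSv)) hk.1
    fun p => ?_
  dsimp only
  refine mul_le_mul_of_nonneg_left ?_ (kr_nonneg r p)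
  have := i1_nonneg S p.1
  have := i1_le_one S p.2
  nlinarith

lemma AA_cells (s h : ℝ) (hh : 0 < h) (hs : √d * h < s) (U : Finset (Fin d → Fin m))
    (P : Finset ((Fin d → Fin m) × (Fin d → Fin m)))
    (hP : ∀ v ∈ U, ∀ u ∈ U, near h s v u → (v, u) ∈ P) :
    AA (s - √d * h) (i1 (cells h U)) (i1 (cells h U)) ≤ P.card * (h ^ d) ^ 2 := by
  have hUm := i1_memLp _ (cells_meas h U) (cells_vol_lt hh U)
  have hs0 : 0 < s := lt_of_le_of_lt (by positivity) hs
  have hci : ∀ c : Fin d → Fin m, Integrable (i1 (cell h c)) := fun c =>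
    i1_integrable _ (cell_meas h c) (by rw [cell_vol hh]; exact ENNReal.ofReal_lt_top)
  have hcI : ∀ c : Fin d → Fin m, ∫ x, i1 (cell h c) x = h ^ d := fun c => by
    rw [i1_integral _ (cell_meas h c), cell_vol hh, ENNReal.toReal_ofReal (by positivity)]
  have hprod : ∀ q : (Fin d → Fin m) × (Fin d → Fin m), Integrable
      (fun p : ES d × ES d => i1 (cell h q.1) p.1 * i1 (cell h q.2) p.2) (volume.prod volume) :=
    fun q => (hci q.1).mul_prod (hci q.2)
  have h1 : (P.card : ℝ) * (h ^ d) ^ 2 = ∫ p : ES d × ES d, ∑ q ∈ P,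
      i1 (cell h q.1) p.1 * i1 (cell h q.2) p.2 ∂(volume.prod volume) := by
    rw [integral_finsetSum _ fun q _ => hprod q]
    have h2 : ∀ q ∈ P, ∫ p : ES d × ES d, i1 (cell h q.1) p.1 * i1 (cell h q.2) p.2
        ∂(volume.prod volume) = (h ^ d) ^ 2 := by
      intro q _
      rw [integral_prod_mul, hcI, hcI, sq]
    rw [Finset.sum_congr rfl h2, Finset.sum_const, nsmul_eq_mul]
  rw [h1]
  unfold AA
  refine integral_mono (AA_integrable _ _ _ hUm hUm) (integrable_finsetSum _ fun q _ => hprod q)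
    fun p => ?_
  dsimp only
  have hnn : ∀ q ∈ P, 0 ≤ i1 (cell h q.1) p.1 * i1 (cell h q.2) p.2 := fun q _ =>
    mul_nonneg (i1_nonneg _ _) (i1_nonneg _ _)
  by_cases hp1 : p.1 ∈ cells h U
  · by_cases hp2 : p.2 ∈ cells h U
    · rw [i1_mem hp1, i1_mem hp2, one_mul, mul_one]
      unfold kr
      by_cases hk : dist p.1 p.2 < s - √d * h
      · rw [if_pos hk]
        unfold cells at hp1 hp2
        simp only [mem_iUnion, exists_prop] at hp1 hp2
        obtain ⟨v, hv, hxv⟩ := hp1
        obtain ⟨u, hu, hxu⟩ := hp2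
        have hnear : near h s v u := by
          rw [near_iff hs0]
          have h3 := cell_dist hh hxv hxu
          rw [dist_eq_norm] at hk
          have h4 : corner h v - corner h u =
            (p.1 - p.2) - ((p.1 - p.2) - (corner h v - corner h u)) := by abel
          calc ‖corner h v - corner h u‖ ≤
              ‖p.1 - p.2‖ + ‖(p.1 - p.2) - (corner h v - corner h u)‖ := by
                conv_lhs => rw [h4]
                exact norm_sub_le _ _
            _ < s := by linarith
        have h5 := Finset.single_le_sum hnn (hP v hv u hu hnear)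
        dsimp only at h5
        rw [i1_mem hxv, i1_mem hxu, one_mul] at h5
        exact h5
      · rw [if_neg hk]
        exact Finset.sum_nonneg hnn
    · rw [i1_nmem hp2, mul_zero, mul_zero]
      exact Finset.sum_nonneg hnn
  · rw [i1_nmem hp1, zero_mul, mul_zero]
    exact Finset.sum_nonneg hnn

/-- the enlarged cube -/
def bigW (d m : ℕ) (h s : ℝ) : Set (ES d) := {x | ∀ k, x k ∈ Ioo (-s) (m * h + s)}

lemma bigW_eq (h s : ℝ) : bigW d m h s =
    (@WithLp.ofLp 2 (Fin d → ℝ)) ⁻¹' (Set.univ.pi fun _ => Ioo (-s) (m * h + s)) := by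
  ext x
  simp [bigW, Set.mem_pi]

lemma bigW_meas (h s : ℝ) : MeasurableSet (bigW d m h s) := by
  rw [bigW_eq]
  exact (PiLp.volume_preserving_ofLp (Fin d)).measurable
    (MeasurableSet.univ_pi fun _ => measurableSet_Ioo)

lemma bigW_vol {h s : ℝ} (hh : 0 < h) (hs : 0 < s) :
    volume (bigW d m h s) = ENNReal.ofReal ((m * h + 2 * s) ^ d) := by
  rw [bigW_eq, (PiLp.volume_preserving_ofLp (Fin d)).measure_preimage
    (MeasurableSet.univ_pi fun _ => measurableSet_Ioo).nullMeasurableSet, Real.volume_pi_Ioo]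
  simp only [Finset.prod_const, Finset.card_univ, Fintype.card_fin]
  rw [ENNReal.ofReal_pow (by positivity)]
  congr 2
  ring

lemma cells_ball {h s : ℝ} (hh : 0 < h) (U : Finset (Fin d → Fin m)) :
    ∀ x ∈ cells h U, Metric.ball x s ⊆ bigW d m h s := by
  intro x hx y hy k
  unfold cells at hx
  simp only [mem_iUnion, exists_prop] at hx
  obtain ⟨c, _, hxc⟩ := hx
  have h1 := hxc k
  have h2 : |(y - x) k| < s := by
    rw [Metric.mem_ball, dist_eq_norm] at hy
    exact lt_of_le_of_lt (by simpa using PiLp.norm_apply_le (y - x) k) hy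
  rw [PiLp.sub_apply, abs_lt] at h2
  have h3 : (((c k : ℕ) : ℝ) + 1) * h ≤ m * h := by
    refine mul_le_mul_of_nonneg_right ?_ hh.le
    have := (c k).2
    exact_mod_cast this
  have h4 : 0 ≤ ((c k : ℕ) : ℝ) * h := by positivity
  constructor
  · linarith [h1.1, h2.1]
  · linarith [h1.2, h2.2]

open Classical in
theorem exists_large (hd : 1 ≤ d) (s h : ℝ) (hh : 0 < h) (hs : √d * h < s)
    (U : Finset (Fin d → Fin m)) (hU : U.Nonempty) : ∃ v ∈ U,
      bv d (s - √d * h) * ((U.card : ℝ) / (m * h + 2 * s) ^ d - eps d / h ^ d) ≤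
        ((U.filter (fun u => near h s v u)).card : ℝ) := by
  have hs0 : 0 < s - √d * h := by linarith
  have hsp : 0 < s := lt_of_le_of_lt (by positivity) hs
  set s0 := s - √d * h with hs0'
  set V := bv d s0 with hV
  have hVe : V = (volume (Metric.ball (0 : ES d) s0)).toReal := bv_eq d hs0
  have hV0 : 0 < V := bv_pos d hs0
  have heps : 0 < eps d := by unfold eps; positivity
  set A : Set (ES d) := cells h U with hA
  set W : Set (ES d) := bigW d m h s0 with hW
  have hAm : MeasurableSet A := cells_meas h U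
  have hWm : MeasurableSet W := bigW_meas h s0
  have hAv : volume A < ⊤ := cells_vol_lt hh U
  have hWv' : volume W = ENNReal.ofReal ((m * h + 2 * s0) ^ d) := bigW_vol hh hs0
  have hWv : volume W < ⊤ := by rw [hWv']; exact ENNReal.ofReal_lt_top
  set a : ℝ := U.card * h ^ d with ha
  have hAa : (volume A).toReal = a := cells_vol hh U
  set b : ℝ := (m * h + 2 * s0) ^ d with hb
  have hb0 : 0 < b := by rw [hb]; positivity
  have hWb : (volume W).toReal = b := by rw [hWv', ENNReal.toReal_ofReal hb0.le]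
  have hUc : 0 < (U.card : ℝ) := by exact_mod_cast Finset.card_pos.2 hU
  have ha0 : 0 < a := by rw [ha]; positivity
  set α := a / b with hα
  have hA2 := i1_memLp A hAm hAv
  have hW2 := i1_memLp W hWm hWv
  have hball : ∀ x ∈ A, Metric.ball x s0 ⊆ W := cells_ball hh U
  have hAW : ∀ x ∈ A, x ∈ W := fun x hx => hball x hx (Metric.mem_ball_self hs0)
  set g : ES d → ℝ := fun x => i1 A x - α * i1 W x with hg
  have hg2 : MemLp g 2 volume := hA2.sub (hW2.const_mul α)
  have hq := quad_L2 s0 (eps d * V) (by positivity) (fun ξ => by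
    have := ball_cos d hd s0 hs0 ξ
    linarith) g hg2
  have hgg : AA s0 g g = AA s0 (i1 A) (i1 A) - α * AA s0 (i1 A) (i1 W) - α * AA s0 (i1 W) (i1 A)
      + α ^ 2 * AA s0 (i1 W) (i1 W) := by
    unfold AA
    rw [← integral_const_mul, ← integral_const_mul, ← integral_const_mul, ← integral_sub,
      ← integral_sub, ← integral_add]
    · refine integral_congr_ae (Filter.Eventually.of_forall fun p => ?_)
      rw [hg]
      dsimp only
      ring
    · exact ((AA_integrable s0 _ _ hA2 hA2).sub ((AA_integrable s0 _ _ hA2 hW2).const_mul _)).sub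
        ((AA_integrable s0 _ _ hW2 hA2).const_mul _)
    · exact (AA_integrable s0 _ _ hW2 hW2).const_mul _
    · exact (AA_integrable s0 _ _ hA2 hA2).sub ((AA_integrable s0 _ _ hA2 hW2).const_mul _)
    · exact (AA_integrable s0 _ _ hW2 hA2).const_mul _
    · exact (AA_integrable s0 _ _ hA2 hA2)
    · exact (AA_integrable s0 _ _ hA2 hW2).const_mul _
  have hsq : ∫ x, g x ^ 2 = a - a ^ 2 / b := by
    have h1 : ∀ x, g x ^ 2 = (1 - 2 * α) * i1 A x + α ^ 2 * i1 W x := by
      intro x
      rw [hg]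
      dsimp only
      by_cases hx : x ∈ A
      · rw [i1_mem hx, i1_mem (hAW x hx)]
        ring
      · rw [i1_nmem hx]
        by_cases hx' : x ∈ W
        · rw [i1_mem hx']; ring
        · rw [i1_nmem hx']; ring
    simp_rw [h1]
    rw [integral_add ((i1_integrable A hAm hAv).const_mul _)
      ((i1_integrable W hWm hWv).const_mul _), integral_const_mul, integral_const_mul,
      i1_integral A hAm, i1_integral W hWm, hAa, hWb, hα]
    field_simp
    ring
  have e1 := AA_ind s0 A W hAm hAv hball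
  have e2 := AA_ind' s0 A W hAm hAv hball
  have e3 := AA_ind_le s0 W hWm hWv
  rw [← hVe, hAa] at e1 e2
  rw [← hVe, hWb] at e3
  rw [hgg, hsq, e1, e2] at hq
  set P : Finset ((Fin d → Fin m) × (Fin d → Fin m)) :=
    (U ×ˢ U).filter (fun p => near h s p.1 p.2) with hP
  have e4 := AA_cells s h hh hs U P (fun v hv u hu hn => by
    rw [hP, Finset.mem_filter, Finset.mem_product]
    exact ⟨⟨hv, hu⟩, hn⟩)
  rw [← hs0', ← hA] at e4
  have hα2 : α ^ 2 * AA s0 (i1 W) (i1 W) ≤ α ^ 2 * (V * b) :=
    mul_le_mul_of_nonneg_left e3 (by positivity)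
  have h5 : α ^ 2 * (V * b) = V * (a ^ 2 / b) := by
    rw [hα]; field_simp
  have h6 : α * (V * a) = V * (a ^ 2 / b) := by
    rw [hα]; field_simp
  rw [h6] at hq
  have h7 : V * (a ^ 2 / b) - eps d * V * a ≤ P.card * (h ^ d) ^ 2 := by
    have h8 : 0 ≤ eps d * V * (a ^ 2 / b) := by positivity
    have h9 : -(eps d * V) * (a - a ^ 2 / b) = -(eps d * V * a) + eps d * V * (a ^ 2 / b) := by ring
    rw [h9] at hq
    linarith
  have hbb : b ≤ (m * h + 2 * s) ^ d := by
    rw [hb]
    refine pow_le_pow_left₀ (by positivity) ?_ d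
    have : s0 ≤ s := by rw [hs0']; have : 0 ≤ √d * h := by positivity
                        linarith
    linarith
  set b' := (m * h + 2 * s) ^ d with hb'
  have hb'0 : 0 < b' := lt_of_lt_of_le hb0 hbb
  have h10 : V * (a ^ 2 / b') ≤ V * (a ^ 2 / b) := by gcongr
  have hPc : (P.card : ℝ) = ∑ v ∈ U, ((U.filter (fun u => near h s v u)).card : ℝ) := by
    rw [hP, Finset.card_filter, Finset.sum_product]
    push_cast
    refine Finset.sum_congr rfl fun v _ => ?_
    rw [Finset.card_filter]
    push_cast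
    rfl
  have hhd : 0 < h ^ d := by positivity
  have h11 : ∑ _v ∈ U, V * ((U.card : ℝ) / b' - eps d / h ^ d) ≤
      ∑ v ∈ U, ((U.filter (fun u => near h s v u)).card : ℝ) := by
    rw [← hPc, Finset.sum_const, nsmul_eq_mul]
    have h12 : (U.card : ℝ) * (V * ((U.card : ℝ) / b' - eps d / h ^ d)) * (h ^ d) ^ 2 =
        V * (a ^ 2 / b') - eps d * V * a := by
      rw [ha]
      field_simp
    have h13 : (U.card : ℝ) * (V * ((U.card : ℝ) / b' - eps d / h ^ d)) * (h ^ d) ^ 2 ≤
        P.card * (h ^ d) ^ 2 := by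
      rw [h12]; linarith
    exact le_of_mul_le_mul_right h13 (by positivity)
  obtain ⟨v, hv, hv2⟩ := Finset.exists_le_of_sum_le hU h11
  exact ⟨v, hv, hv2⟩

end Pool.Agent.K4H61.HS
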