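import Pool.Agent.K4H61.HS.Cells

/-!
Few edges inside the neighbourhoods.
-/

set_option autoImplicit false
open MeasureTheory Set

namespace Pool.Agent.K4H61.HS

variable {d m : ℕ}

lemma card_ball_le {h ρ : ℝ} (hh : 0 < h) (hρ : 0 < ρ) (z : ES d) (S : Finset (Fin d → Fin m))
    (hS : ∀ u ∈ S, ‖corner h u - z‖ < ρ) : (S.card : ℝ) * h ^ d ≤ bv d (ρ + √d * h) := by
  rw [← cells_vol hh, bv_eq d (by positivity)]
  rw [← Measure.addHaar_ball_center volume z]
  refine ENNReal.toReal_mono measure_ball_lt_top.ne (measure_mono ?_)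
  intro x hx
  unfold cells at hx
  simp only [mem_iUnion, exists_prop] at hx
  obtain ⟨u, hu, hxu⟩ := hx
  have h1 := cell_corner hh hxu
  have h0 := hS u hu
  rw [Metric.mem_ball, dist_eq_norm]
  have h2 : x - z = (x - corner h u) + (corner h u - z) := by abel
  calc ‖x - z‖ ≤ ‖x - corner h u‖ + ‖corner h u - z‖ := by
        rw [h2]; exact norm_add_le _ _
    _ < ρ + √d * h := by linarith

lemma mid_dist {s : ℝ} (a b c : ES d) (hs : 0 < s) (h1 : ‖b - a‖ < s) (h2 : ‖c - b‖ < s)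
    (h3 : ‖c - a‖ ≤ ‖b - a‖) : ‖c - (1 / 2 : ℝ) • (a + b)‖ < √(3 / 4) * s := by
  have e1 := parallelogram_law_with_norm ℝ (c - a) (c - b)
  have e2 : (c - a) + (c - b) = (2 : ℝ) • (c - (1 / 2 : ℝ) • (a + b)) := by
    rw [smul_sub, smul_smul, two_smul]
    norm_num
    abel
  have e3 : (c - a) - (c - b) = (b - a) := by abel
  rw [e2, e3, norm_smul] at e1
  simp only [Real.norm_eq_abs, abs_two] at e1
  have h4 : ‖c - (1 / 2 : ℝ) • (a + b)‖ ^ 2 < 3 / 4 * s ^ 2 := by
    have h5 : ‖c - b‖ ^ 2 < s ^ 2 := pow_lt_pow_left₀ h2 (norm_nonneg _) (by norm_num)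
    have h6 : ‖b - a‖ ^ 2 < s ^ 2 := pow_lt_pow_left₀ h1 (norm_nonneg _) (by norm_num)
    have h7 : ‖c - a‖ ^ 2 ≤ ‖b - a‖ ^ 2 := pow_le_pow_left₀ (norm_nonneg _) h3 2
    nlinarith
  have h5 : √(3 / 4) * s = √(3 / 4 * s ^ 2) := by
    rw [Real.sqrt_mul (by norm_num), Real.sqrt_sq hs.le]
  rw [h5]
  exact Real.lt_sqrt_of_sq_lt h4

open Classical in
/-- few edges inside the subsets of the neighbourhoods -/
theorem card_pairs_le (s h : ℝ) (hh : 0 < h) (hs : 0 < s) (v : Fin d → Fin m)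
    (T : Finset (Fin d → Fin m)) (hT : ∀ u ∈ T, near h s v u) :
    (((T ×ˢ T).filter (fun p => near h s p.1 p.2)).card : ℝ) * h ^ d ≤
      2 * bv d (√(3 / 4) * s + √d * h) * T.card := by
  set f : (Fin d → Fin m) → ℝ := fun u => ‖corner h u - corner h v‖ with hf
  set A := (T ×ˢ T).filter (fun p => near h s p.1 p.2 ∧ f p.2 ≤ f p.1) with hA
  set A' := (T ×ˢ T).filter (fun p => near h s p.1 p.2 ∧ f p.1 ≤ f p.2) with hA'
  have h1 : (T ×ˢ T).filter (fun p => near h s p.1 p.2) ⊆ A ∪ A' := by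
    intro p hp
    rw [Finset.mem_filter] at hp
    rw [Finset.mem_union, hA, hA', Finset.mem_filter, Finset.mem_filter]
    rcases le_total (f p.2) (f p.1) with h | h
    · exact Or.inl ⟨hp.1, hp.2, h⟩
    · exact Or.inr ⟨hp.1, hp.2, h⟩
  have h2 : A'.card ≤ A.card := by
    refine Finset.card_le_card_of_injOn Prod.swap ?_ Prod.swap_injective.injOn
    intro p hp
    rw [Finset.mem_coe, hA', Finset.mem_filter, Finset.mem_product] at hp
    rw [Finset.mem_coe, hA, Finset.mem_filter, Finset.mem_product]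
    exact ⟨⟨hp.1.2, hp.1.1⟩, near_symm _ _ hp.2.1, hp.2.2⟩
  have h3 : ((T ×ˢ T).filter (fun p => near h s p.1 p.2)).card ≤ 2 * A.card := by
    have := (Finset.card_le_card h1).trans (Finset.card_union_le _ _)
    omega
  have h4 : (A.card : ℝ) * h ^ d ≤ bv d (√(3 / 4) * s + √d * h) * T.card := by
    have h5 : (A.card : ℝ) = ∑ u ∈ T,
        ((T.filter (fun u' => near h s u u' ∧ f u' ≤ f u)).card : ℝ) := by
      rw [hA, Finset.card_filter, Finset.sum_product]
      push_cast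
      refine Finset.sum_congr rfl fun u _ => ?_
      rw [Finset.card_filter]
      push_cast
      rfl
    rw [h5, Finset.sum_mul]
    have h6 : ∀ u ∈ T, ((T.filter (fun u' => near h s u u' ∧ f u' ≤ f u)).card : ℝ) * h ^ d ≤
        bv d (√(3 / 4) * s + √d * h) := by
      intro u hu
      have hnu := hT u hu
      rw [near_iff hs, norm_sub_rev] at hnu
      refine card_ball_le hh (by positivity) ((1 / 2 : ℝ) • (corner h v + corner h u)) _ ?_
      intro u' hu'
      rw [Finset.mem_filter] at hu'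
      have hn := hu'.2.1
      rw [near_iff hs, norm_sub_rev] at hn
      exact mid_dist _ _ _ hs hnu hn hu'.2.2
    refine (Finset.sum_le_sum h6).trans (le_of_eq ?_)
    rw [Finset.sum_const, nsmul_eq_mul, mul_comm]
  have h5 : (((T ×ˢ T).filter (fun p => near h s p.1 p.2)).card : ℝ) ≤ 2 * A.card := by
    exact_mod_cast h3
  calc (((T ×ˢ T).filter (fun p => near h s p.1 p.2)).card : ℝ) * h ^ d ≤ 2 * A.card * h ^ d := by
        gcongr
    _ = 2 * (A.card * h ^ d) := by ring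
    _ ≤ 2 * (bv d (√(3 / 4) * s + √d * h) * T.card) := by gcongr
    _ = 2 * bv d (√(3 / 4) * s + √d * h) * T.card := by ring

end Pool.Agent.K4H61.HS
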