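import Pool.Agent.K4H61.HS.Fin
import Pool.Agent.K4H61.HS.Fin2
import Pool.Agent.K4H61.HS.Conf
import Pool.Agent.K4H61.HS.Pairs
import Pool.Agent.K4H61.HS.Large

/-!
Asymptotics: limits of the parameters.
-/

set_option autoImplicit false
set_option maxHeartbeats 4000000
open Filter Topology MeasureTheory

namespace Pool.Agent.K4H61.HS

/-- partition function of spheres of diameter `r` -/
noncomputable def ZZ (d : ℕ) (r L : ℝ) (N : ℕ) : ℝ :=
  (volume (config d r L N)).toReal / (N.factorial : ℝ)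

section

variable {d : ℕ} {L : ℕ → ℝ} {N : ℕ → ℕ} {ρ h : ℝ} {m : ℕ → ℕ}

lemma lim_m (hh : 0 < h) (hL : Tendsto L atTop atTop)
    (hm : Tendsto (fun k => (m k : ℝ) * h / L k) atTop (𝓝 1)) :
    Tendsto (fun k => (m k : ℝ)) atTop atTop := by
  have h1 : Tendsto (fun k => ((m k : ℝ) * h / L k) * L k) atTop atTop :=
    hm.pos_mul_atTop one_pos hL
  have h2 : Tendsto (fun k => ((m k : ℝ) * h / L k) * L k * (1 / h)) atTop atTop :=
    h1.atTop_mul_const (by positivity)
  refine h2.congr' ?_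
  filter_upwards [hL.eventually_gt_atTop 0] with k hk
  field_simp

lemma lim_n (hm : Tendsto (fun k => (m k : ℝ) * h / L k) atTop (𝓝 1)) :
    Tendsto (fun k => (m k : ℝ) ^ d * h ^ d / L k ^ d) atTop (𝓝 1) := by
  have := hm.pow d
  rw [one_pow] at this
  refine this.congr fun k => ?_
  rw [div_pow, mul_pow]

lemma lim_Nn (hh : 0 < h) (hL : Tendsto L atTop atTop)
    (hm : Tendsto (fun k => (m k : ℝ) * h / L k) atTop (𝓝 1))
    (hN : Tendsto (fun k => (N k : ℝ) / L k ^ d) atTop (𝓝 ρ)) :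
    Tendsto (fun k => (N k : ℝ) / (m k : ℝ) ^ d) atTop (𝓝 (ρ * h ^ d)) := by
  have h1 := (hN.div (lim_n (d := d) hm) one_ne_zero).mul_const (h ^ d)
  rw [div_one] at h1
  refine h1.congr' ?_
  filter_upwards [hL.eventually_gt_atTop 0, (lim_m hh hL hm).eventually_gt_atTop 0] with k hk hk2
  simp only [Pi.div_apply]
  field_simp

lemma lim_N (hd : 1 ≤ d) (hρ : 0 < ρ) (hL : Tendsto L atTop atTop)
    (hN : Tendsto (fun k => (N k : ℝ) / L k ^ d) atTop (𝓝 ρ)) :
    Tendsto (fun k => (N k : ℝ)) atTop atTop := by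
  have h1 : Tendsto (fun k => L k ^ d) atTop atTop :=
    (tendsto_pow_atTop (by omega)).comp hL
  have h2 := hN.pos_mul_atTop hρ h1
  refine h2.congr' ?_
  filter_upwards [hL.eventually_gt_atTop 0] with k hk
  field_simp

lemma lim_ratio {s : ℝ} (hh : 0 < h) (hs : 0 ≤ s) (hm : Tendsto (fun k => (m k : ℝ)) atTop atTop) :
    Tendsto (fun k => (m k : ℝ) / (m k * h + 2 * s)) atTop (𝓝 (1 / h)) := by
  have h1 : Tendsto (fun k => 2 * s / (m k : ℝ)) atTop (𝓝 0) := hm.const_div_atTop _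
  have h2 : Tendsto (fun k => 1 / (h + 2 * s / (m k : ℝ))) atTop (𝓝 (1 / (h + 0))) :=
    tendsto_const_nhds.div (tendsto_const_nhds.add h1) (by positivity)
  rw [add_zero] at h2
  refine h2.congr' ?_
  filter_upwards [hm.eventually_gt_atTop 0] with k hk
  field_simp

lemma lim_kn {s : ℝ} (B0 : ℝ) (hh : 0 < h) (hs : 0 ≤ s)
    (hm : Tendsto (fun k => (m k : ℝ)) atTop atTop) :
    Tendsto (fun k => B0 / (m k * h + 2 * s) ^ d * (m k : ℝ) ^ d) atTop (𝓝 (B0 / h ^ d)) := by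
  have h1 := ((lim_ratio hh hs hm).pow d).const_mul B0
  have h2 : B0 * (1 / h) ^ d = B0 / h ^ d := by rw [one_div, inv_pow]; rfl
  rw [h2] at h1
  refine h1.congr fun k => ?_
  rw [div_pow]
  ring

lemma lim_k {s : ℝ} (hd : 1 ≤ d) (B0 : ℝ) (hh : 0 < h)
    (hm : Tendsto (fun k => (m k : ℝ)) atTop atTop) :
    Tendsto (fun k => B0 / (m k * h + 2 * s) ^ d) atTop (𝓝 0) := by
  have h1 : Tendsto (fun k => (m k * h + 2 * s)) atTop atTop :=
    tendsto_atTop_add_const_right _ _ (hm.atTop_mul_const hh)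
  have h2 : Tendsto (fun k => (m k * h + 2 * s) ^ d) atTop atTop :=
    (tendsto_pow_atTop (by omega)).comp h1
  exact h2.const_div_atTop _

lemma lim_npow (hd : 1 ≤ d) (hm : Tendsto (fun k => (m k : ℝ)) atTop atTop) :
    Tendsto (fun k => (m k : ℝ) ^ d) atTop atTop :=
  (tendsto_pow_atTop (by omega)).comp hm

end

lemma lim_log {n : ℕ → ℝ} (hn : Tendsto n atTop atTop) (D : ℝ) :
    Tendsto (fun k => D / n k * Real.log (4 * n k)) atTop (𝓝 0) := by
  have h1 : Tendsto (fun x : ℝ => Real.log x / x) atTop (𝓝 0) :=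
    Real.isLittleO_log_id_atTop.tendsto_div_nhds_zero
  have h2 : Tendsto (fun k => 4 * n k) atTop atTop := hn.const_mul_atTop (by norm_num)
  have h3 := (h1.comp h2).const_mul (4 * D)
  rw [mul_zero] at h3
  refine h3.congr' ?_
  filter_upwards [hn.eventually_gt_atTop 0] with k hk
  simp only [Function.comp]
  field_simp

lemma lim_exp {n : ℕ → ℝ} (hn : Tendsto n atTop atTop) {c : ℝ} (hc : 0 < c) :
    Tendsto (fun k => (n k + 1) * Real.exp (-(n k * c))) atTop (𝓝 0) := by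
  have h1 : Tendsto (fun x : ℝ => x ^ 1 * Real.exp (-x)) atTop (𝓝 0) :=
    Real.tendsto_pow_mul_exp_neg_atTop_nhds_zero 1
  have h0 : Tendsto (fun x : ℝ => x ^ 0 * Real.exp (-x)) atTop (𝓝 0) :=
    Real.tendsto_pow_mul_exp_neg_atTop_nhds_zero 0
  have h2 : Tendsto (fun k => n k * c) atTop atTop := hn.atTop_mul_const hc
  have h3 := ((h1.comp h2).const_mul (1 / c)).add (h0.comp h2)
  rw [mul_zero, add_zero] at h3
  refine h3.congr fun k => ?_
  simp only [Function.comp, pow_one, pow_zero, one_mul]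
  field_simp

lemma lim_logN {N : ℕ → ℝ} (hN : Tendsto N atTop atTop) :
    Tendsto (fun k => (1 + Real.log (N k)) / N k) atTop (𝓝 0) := by
  have h1 : Tendsto (fun x : ℝ => Real.log x / x) atTop (𝓝 0) :=
    Real.isLittleO_log_id_atTop.tendsto_div_nhds_zero
  have h2 := (h1.comp hN).add (hN.const_div_atTop 1)
  rw [add_zero] at h2
  refine h2.congr fun k => ?_
  simp only [Function.comp]
  ring

lemma lim_floor {L : ℕ → ℝ} {h : ℝ} (hh : 0 < h) (hL : Tendsto L atTop atTop) :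
    Tendsto (fun k => (⌊L k / h⌋₊ : ℝ) * h / L k) atTop (𝓝 1) := by
  have h1 : Tendsto (fun x : ℝ => (⌊x⌋₊ : ℝ) / x) atTop (𝓝 1) := tendsto_nat_floor_div_atTop
  have h2 : Tendsto (fun k => L k / h) atTop atTop := hL.atTop_div_const hh
  refine (h1.comp h2).congr fun k => ?_
  simp only [Function.comp]
  rw [div_div_eq_mul_div]

lemma lim_floor' {L : ℕ → ℝ} {h : ℝ} (hh : 0 < h) (hL : Tendsto L atTop atTop) :
    Tendsto (fun k => ((⌊L k / h⌋₊ + 1 : ℕ) : ℝ) * h / L k) atTop (𝓝 1) := by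
  have h1 := (lim_floor hh hL).add (hL.const_div_atTop h)
  rw [add_zero] at h1
  refine h1.congr fun k => ?_
  push_cast
  ring

lemma eps_pos (d : ℕ) : 0 < eps d := by unfold eps; positivity

lemma card_cells (d m : ℕ) : (Fintype.card (Fin d → Fin m) : ℝ) = (m : ℝ) ^ d := by
  rw [Fintype.card_fun, Fintype.card_fin, Fintype.card_fin]
  push_cast
  rfl

open Classical in
lemma KW_near {d m : ℕ} (hd : 1 ≤ d) (s h : ℝ) (hh : 0 < h) (hs : √d * h < s) :
    ∀ U : Finset (Fin d → Fin m), U.Nonempty → ∃ v ∈ U,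
      (1 - (1 - bv d (s - √d * h) / (m * h + 2 * s) ^ d)) * U.card -
        bv d (s - √d * h) * eps d / h ^ d ≤ ((U.filter (fun u => near h s v u)).card : ℝ) := by
  intro U hU
  obtain ⟨v, hv, h1⟩ := exists_large hd s h hh hs U hU
  refine ⟨v, hv, le_trans (le_of_eq ?_) h1⟩
  ring

end Pool.Agent.K4H61.HS
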