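import Pool.Agent.K4H61.HS.Asym

/-!
Asymptotic upper and lower bounds for the free energy.
-/

set_option autoImplicit false
set_option maxHeartbeats 4000000
open Filter Topology MeasureTheory

namespace Pool.Agent.K4H61.HS

section

variable {d : ℕ} {L : ℕ → ℝ} {N : ℕ → ℕ} {ρ h : ℝ}

/-- from the lower bound of the number of independent sets to the free energy -/
lemma fe_le {r J : ℝ} {L : ℝ} {N m : ℕ} (hh : 0 < h) (hr : 0 < r) (hmL : m * h ≤ L)
    (hm : 0 < m) (hN : 1 ≤ N)
    (hpos : 0 < ic (near (d := d) (m := m) h (r + √d * h)) Finset.univ N)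
    (hJ : J ≤ Real.log (ic (near (d := d) (m := m) h (r + √d * h)) Finset.univ N *
      (N.factorial : ℝ) / ((m : ℝ) ^ d) ^ N) / N) :
    0 < ZZ d r L N ∧ -(1 / (N : ℝ)) * Real.log (ZZ d r L N) ≤
      -J + Real.log (N / (m : ℝ) ^ d / h ^ d) - 1 + (1 + Real.log N) / N := by
  have h1 := le_config (d := d) (m := m) r L h N hh hr hmL
  set i : ℝ := (ic (near (d := d) (m := m) h (r + √d * h)) Finset.univ N : ℝ) with hi
  have hi0 : 0 < i := by rw [hi]; exact_mod_cast hpos
  have hm0 : (0 : ℝ) < m := by exact_mod_cast hm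
  have hNr : (0 : ℝ) < N := by exact_mod_cast hN
  set V := (volume (config d r L N)).toReal with hV
  have hV0 : 0 < V := lt_of_lt_of_le (by positivity) h1
  have hZ0 : 0 < ZZ d r L N := by unfold ZZ; rw [← hV]; positivity
  refine ⟨hZ0, ?_⟩
  set n : ℝ := (m : ℝ) ^ d with hn
  have hn0 : 0 < n := by rw [hn]; positivity
  have h2 : Real.log (i * (N.factorial : ℝ) / n ^ N) + N * Real.log (n * h ^ d) ≤ Real.log V := by
    rw [← Real.log_pow, ← Real.log_mul (by positivity) (by positivity)]
    refine Real.log_le_log (by positivity) (le_trans (le_of_eq ?_) h1)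
    rw [mul_pow]
    field_simp
  have h3 : Real.log (ZZ d r L N) = Real.log V - Real.log (N.factorial : ℝ) := by
    unfold ZZ
    rw [Real.log_div (by positivity) (by positivity)]
  rw [le_div_iff₀ hNr] at hJ
  have h4 := log_factorial_le N hN
  have h5 : Real.log (N / n / h ^ d) = Real.log N - Real.log (n * h ^ d) := by
    rw [div_div, Real.log_div (by positivity) (by positivity)]
  rw [h3, h5]
  have h6 : -(1 / (N : ℝ)) * (Real.log V - Real.log (N.factorial : ℝ)) =
      (Real.log (N.factorial : ℝ) - Real.log V) / N := by ring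
  rw [h6, div_le_iff₀ hNr]
  have h7 : (-J + (Real.log N - Real.log (n * h ^ d)) - 1 + (1 + Real.log N) / N) * N =
      -(J * N) + N * Real.log N - N * Real.log (n * h ^ d) - N + (1 + Real.log N) := by
    field_simp
    ring
  rw [h7]
  linarith

theorem asym_lower (hd : 1 ≤ d) (r τ γ β C : ℝ) (hr : 0 < r) (hh : 0 < h) (hρ : 0 < ρ)
    (hτ : 0 < τ) (hτ1 : τ ≤ 1) (hγ : 1 ≤ γ) (x : ℝ) (hx : x = ρ * bv d (r + 2 * (√d * h)))
    (hβ : β = (γ - 1) * (x + τ))
    (ha : (x + 3 * τ) * (β + (h ^ d / bv d r + eps d) * Real.exp (x + 3 * τ + 1)) +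
      (1 - bv d r / bv d (r + 2 * (√d * h))) * (x + 3 * τ) ^ 2 / 2 < τ ^ 2 / 4)
    (hH2 : 1 < (1 - (x + τ) * Real.exp (γ * (x + τ)) *
      (2 * bv d (√(3 / 4) * (r + √d * h) + √d * h) / bv d (r + 2 * (√d * h)))) * γ)
    (hL : Tendsto L atTop atTop) (hN : Tendsto (fun k => (N k : ℝ) / L k ^ d) atTop (𝓝 ρ))
    (hC : (x ^ 2 / 2 + x * β + 3 * τ ^ 2 / x + 3 * τ * (x + τ + β)) / x + Real.log ρ - 1 < C) :
    ∀ᶠ k in atTop, 0 < ZZ d r (L k) (N k) ∧
      -(1 / (N k : ℝ)) * Real.log (ZZ d r (L k) (N k)) ≤ C := by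
  classical
  set B := bv d r with hB
  set B1 := bv d (r + 2 * (√d * h)) with hB1
  have hB0 : 0 < B := bv_pos d hr
  have hB10 : 0 < B1 := bv_pos d (by positivity)
  have hx0 : 0 < x := by rw [hx]; positivity
  set s := r + √d * h with hs
  have hs0 : 0 < s := by positivity
  have hss : s - √d * h = r := by rw [hs]; ring
  have hss' : s + √d * h = r + 2 * (√d * h) := by rw [hs]; ring
  set m : ℕ → ℕ := fun k => ⌊L k / h⌋₊ with hm
  have hmL : Tendsto (fun k => (m k : ℝ) * h / L k) atTop (𝓝 1) := lim_floor hh hL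
  have hminf := lim_m hh hL hmL
  have hhd : 0 < h ^ d := by positivity
  set D : ℝ := B1 / h ^ d with hD
  have hD0 : 0 < D := by rw [hD]; positivity
  set κP : ℝ := 2 * bv d (√(3 / 4) * s + √d * h) / h ^ d with hκP
  have hκP0 : 0 ≤ κP := by
    have := bv_nonneg d (√(3 / 4) * s + √d * h)
    rw [hκP]; positivity
  set sK : ℝ := B * eps d / h ^ d with hsK
  have hsK0 : 0 ≤ sK := by rw [hsK]; have := eps_pos d; positivity
  -- the sequences
  set n : ℕ → ℝ := fun k => (m k : ℝ) ^ d with hn
  set κ : ℕ → ℝ := fun k => B / (m k * h + 2 * s) ^ d with hκ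
  set X : ℕ → ℝ := fun k => N k * D / n k with hX
  have hninf : Tendsto n atTop atTop := lim_npow hd hminf
  have hNinf : Tendsto (fun k => (N k : ℝ)) atTop atTop := lim_N hd hρ hL hN
  have hκ0 : Tendsto κ atTop (𝓝 0) := lim_k hd B hh hminf
  have hκn : Tendsto (fun k => κ k * n k) atTop (𝓝 (B / h ^ d)) := lim_kn B hh hs0.le hminf
  have hXlim : Tendsto X atTop (𝓝 x) := by
    have h1 := (lim_Nn hh hL hmL hN).mul_const D
    have h2 : ρ * h ^ d * D = x := by rw [hD, hx]; field_simp
    rw [h2] at h1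
    refine h1.congr fun k => ?_
    simp only [hX, hn]
    ring
  set T : ℕ → ℝ := fun k => X k + 3 * τ with hT
  have hTlim : Tendsto T atTop (𝓝 (x + 3 * τ)) := hXlim.add_const _
  set b : ℕ → ℝ := fun k => (γ - 1) * (X k + τ) with hb
  have hblim : Tendsto b atTop (𝓝 β) := by
    rw [hβ]
    exact (hXlim.add_const τ).const_mul _
  -- eventual conditions
  have c1 : ∀ᶠ k in atTop, 0 < m k := by
    filter_upwards [hminf.eventually_gt_atTop 0] with k hk
    exact_mod_cast hk
  have c2 : ∀ᶠ k in atTop, 1 ≤ N k := by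
    filter_upwards [hNinf.eventually_ge_atTop 1] with k hk
    exact_mod_cast hk
  have c3 : ∀ᶠ k in atTop, κ k < 1 := hκ0.eventually_lt_const one_pos
  have c4 : ∀ᶠ k in atTop, D / n k ≤ τ := by
    have := (hninf.const_div_atTop D).eventually_lt_const hτ
    filter_upwards [this] with k hk using hk.le
  have c5 : ∀ᶠ k in atTop, T k * (b k + (1 + sK) / (κ k * n k) * Real.exp (T k + 1)) +
      (1 - κ k * n k / D) * T k ^ 2 / 2 + κ k * T k / 2 ≤ τ ^ 2 / 4 := by
    have l1 : Tendsto (fun k => T k * (b k + (1 + sK) / (κ k * n k) * Real.exp (T k + 1)) +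
      (1 - κ k * n k / D) * T k ^ 2 / 2 + κ k * T k / 2) atTop
      (𝓝 ((x + 3 * τ) * (β + (1 + sK) / (B / h ^ d) * Real.exp (x + 3 * τ + 1)) +
      (1 - B / h ^ d / D) * (x + 3 * τ) ^ 2 / 2 + 0 * (x + 3 * τ) / 2)) := by
      have hne : B / h ^ d ≠ 0 := by positivity
      have e1 := (Real.continuous_exp.tendsto _).comp (hTlim.add_const 1)
      have e2 : Tendsto (fun k => (1 + sK) / (κ k * n k)) atTop (𝓝 ((1 + sK) / (B / h ^ d))) :=
        tendsto_const_nhds.div hκn hne
      have e3 := hTlim.mul (hblim.add (e2.mul e1))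
      have e4 := (((hκn.div_const D).const_sub 1).mul (hTlim.pow 2)).div_const 2
      have e5 := (hκ0.mul hTlim).div_const 2
      exact (e3.add e4).add e5
    have l2 : (x + 3 * τ) * (β + (1 + sK) / (B / h ^ d) * Real.exp (x + 3 * τ + 1)) +
      (1 - B / h ^ d / D) * (x + 3 * τ) ^ 2 / 2 + 0 * (x + 3 * τ) / 2 < τ ^ 2 / 4 := by
      have e1 : (1 + sK) / (B / h ^ d) = h ^ d / B + eps d := by
        rw [hsK]; field_simp
      have e2 : B / h ^ d / D = B / B1 := by rw [hD]; field_simp
      rw [e1, e2, zero_mul, zero_div, add_zero]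
      exact ha
    filter_upwards [l1.eventually_lt_const l2] with k hk using hk.le
  have c6 : ∀ᶠ k in atTop, T k * (κ k / (1 - κ k)) ≤ 1 := by
    have l1 : Tendsto (fun k => T k * (κ k / (1 - κ k))) atTop
        (𝓝 ((x + 3 * τ) * (0 / (1 - 0)))) :=
      hTlim.mul (hκ0.div (hκ0.const_sub 1) (by norm_num))
    have l2 : (x + 3 * τ) * (0 / (1 - 0)) < 1 := by simp
    filter_upwards [l1.eventually_lt_const l2] with k hk using hk.le
  have c7 : ∀ᶠ k in atTop, 1 ≤ (1 - (X k + τ) * Real.exp (γ * (X k + τ)) / D * κP) * γ := by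
    have l1 : Tendsto (fun k => (1 - (X k + τ) * Real.exp (γ * (X k + τ)) / D * κP) * γ) atTop
        (𝓝 ((1 - (x + τ) * Real.exp (γ * (x + τ)) / D * κP) * γ)) := by
      have e1 := (Real.continuous_exp.tendsto _).comp ((hXlim.add_const τ).const_mul γ)
      exact (((((hXlim.add_const τ).mul e1).div_const D).mul_const κP).const_sub 1).mul_const γ
    have l2 : 1 < (1 - (x + τ) * Real.exp (γ * (x + τ)) / D * κP) * γ := by
      have e1 : (x + τ) * Real.exp (γ * (x + τ)) / D * κP =
          (x + τ) * Real.exp (γ * (x + τ)) *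
            (2 * bv d (√(3 / 4) * (r + √d * h) + √d * h) / B1) := by
        rw [hκP, hD, ← hs]
        field_simp
      rw [e1]
      exact hH2
    filter_upwards [l1.eventually_const_lt l2] with k hk using hk.le
  have c8 : ∀ᶠ k in atTop, (n k + 1) * Real.exp (-(n k / D * (τ ^ 2 / 4))) ≤ 1 / 2 := by
    have l1 := lim_exp hninf (by positivity : 0 < τ ^ 2 / 4 / D)
    filter_upwards [l1.eventually_lt_const (by norm_num : (0:ℝ) < 1 / 2)] with k hk
    refine le_trans (le_of_eq ?_) hk.le
    congr 2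
    ring
  have c9 : ∀ᶠ k in atTop, (X k ^ 2 / 2 + X k * b k + 3 * τ ^ 2 / X k + 3 * τ * (X k + τ + b k) +
      D / n k * Real.log (4 * n k)) / X k + Real.log (N k / n k / h ^ d) - 1 +
      (1 + Real.log (N k)) / N k ≤ C := by
    have e1 : Tendsto (fun k => (X k ^ 2 / 2 + X k * b k + 3 * τ ^ 2 / X k +
        3 * τ * (X k + τ + b k) + D / n k * Real.log (4 * n k)) / X k) atTop
        (𝓝 ((x ^ 2 / 2 + x * β + 3 * τ ^ 2 / x + 3 * τ * (x + τ + β) + 0) / x)) := by
      have f1 := (hXlim.pow 2).div_const 2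
      have f2 := hXlim.mul hblim
      have f3 : Tendsto (fun k => 3 * τ ^ 2 / X k) atTop (𝓝 (3 * τ ^ 2 / x)) :=
        tendsto_const_nhds.div hXlim hx0.ne'
      have f4 := ((hXlim.add_const τ).add hblim).const_mul (3 * τ)
      exact ((((f1.add f2).add f3).add f4).add (lim_log hninf D)).div hXlim hx0.ne'
    have e2 : Tendsto (fun k => Real.log (N k / n k / h ^ d)) atTop (𝓝 (Real.log ρ)) := by
      have f1 := (lim_Nn hh hL hmL hN).div_const (h ^ d)
      have f2 : ρ * h ^ d / h ^ d = ρ := by field_simp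
      rw [f2] at f1
      exact (Real.continuousAt_log hρ.ne').tendsto.comp f1
    have e3 := lim_logN hNinf
    have e4 := ((e1.add e2).sub_const 1).add e3
    rw [add_zero, add_zero] at e4
    filter_upwards [e4.eventually_lt_const hC] with k hk using hk.le
  filter_upwards [c1, c2, c3, c4, c5, c6, c7, c8, c9, hXlim.eventually_const_lt hx0,
    hL.eventually_gt_atTop 0] with k k1 k2 k3 k4 k5 k6 k7 k8 k9 k10 k11
  have hcard : (Fintype.card (Fin d → Fin (m k)) : ℝ) = n k := card_cells d (m k)
  have hmk : (0 : ℝ) < m k := by exact_mod_cast k1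
  have hκk : 0 < κ k := by simp only [hκ]; positivity
  have hnk : 0 < n k := by simp only [hn]; positivity
  have hq : 1 - (1 - κ k) = κ k := by ring
  have hfl := fin_lower (near (d := d) (m := m k) h s) (near_refl h s)
    (fun u v => near_symm u v) (by
      have : (0 : ℝ) < (Fintype.card (Fin d → Fin (m k)) : ℝ) := by rw [hcard]; exact hnk
      exact_mod_cast this) D κP γ (1 - κ k) sK (b k) τ (T k) (N k) k2 hD0
    (fun v => by
      have := card_near_le s h hh hs0 v
      rw [hss'] at this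
      rw [hD, le_div_iff₀ hhd]
      exact this)
    (fun v T hT => by
      have := card_pairs_le s h hh hs0 v T (fun u hu => (Finset.mem_filter.1 (hT hu)).2)
      rw [hκP, div_mul_eq_mul_div, le_div_iff₀ hhd]
      exact this)
    hκP0 hγ (by rw [hcard])
    (by linarith) (by linarith) hsK0
    (fun U hU => by
      have := KW_near hd s h hh (by rw [hs]; linarith) U hU
      rw [hss] at this
      exact this)
    (by
      rw [hq, hcard]
      simp only [hκ, hn, hD]
      rw [div_mul_eq_mul_div]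
      have hBB : B ≤ B1 := by
        rw [hB, hB1, bv_scale d hr, bv_scale d (by positivity : 0 < r + 2 * (√d * h))]
        have := bv_pos d one_pos
        have : r ≤ r + 2 * (√d * h) := by
          have : 0 ≤ √d * h := by positivity
          linarith
        gcongr
      have h1 : (m k : ℝ) ^ d * h ^ d ≤ (m k * h + 2 * s) ^ d := by
        rw [← mul_pow]
        exact pow_le_pow_left₀ (by positivity) (by linarith) d
      rw [div_le_div_iff₀ (by positivity) hhd]
      calc B * (m k : ℝ) ^ d * h ^ d = B * ((m k : ℝ) ^ d * h ^ d) := by ring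
        _ ≤ B1 * (m k * h + 2 * s) ^ d := by gcongr)
    hτ hτ1 (by rw [hcard]; exact k4) (by rw [hcard])
    (by rw [hq, hcard]; exact k5)
    (by rw [hq]; exact k6)
    (by rw [hcard]; exact k7)
    (by rw [hcard]; exact k8)
  rw [hcard] at hfl
  obtain ⟨hpos, hlow⟩ := hfl
  have hNk : (0 : ℝ) < N k := by exact_mod_cast k2
  have hXk : X k = N k * D / n k := rfl
  rw [← hXk] at hlow
  have hJ := fe_le (J := -((X k ^ 2 / 2 + X k * b k + 3 * τ ^ 2 / X k + 3 * τ * (X k + τ + b k) +
      D / n k * Real.log (4 * n k)) / X k)) (L := L k) hh hr (by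
        have := Nat.floor_le (div_nonneg k11.le hh.le)
        rw [le_div_iff₀ hh] at this
        exact this) k1 k2 hpos (by
        rw [neg_div', div_le_div_iff₀ k10 hNk]
        have h1 : D / n k = X k / N k := by rw [hXk]; field_simp
        have h2 : Real.log (ic (near (d := d) (m := m k) h s) Finset.univ (N k) *
            ((N k).factorial : ℝ) / n k ^ N k) * X k =
            (D / n k * Real.log (ic (near (d := d) (m := m k) h s) Finset.univ (N k) *
            ((N k).factorial : ℝ) / n k ^ N k)) * N k := by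
          rw [h1]
          field_simp
        have h3 : ((m k : ℝ) ^ d) = n k := rfl
        rw [h3, ← hs, h2]
        refine mul_le_mul_of_nonneg_right ?_ hNk.le
        linarith)
  refine ⟨hJ.1, hJ.2.trans (le_trans (le_of_eq ?_) k9)⟩
  rw [neg_neg]

end

end Pool.Agent.K4H61.HS
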