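import Pool.Agent.K4H61.HS.Asym2

/-!
Asymptotic upper and lower bounds for the free energy: small densities, and the lower bound.
-/

set_option autoImplicit false
set_option maxHeartbeats 4000000
open Filter Topology MeasureTheory

namespace Pool.Agent.K4H61.HS

variable {d : ℕ} {L : ℕ → ℝ} {N : ℕ → ℕ} {ρ h : ℝ}

theorem asym_small (hd : 1 ≤ d) (r C : ℝ) (hr : 0 < r) (hh : 0 < h) (hρ : 0 < ρ)
    (x : ℝ) (hx : x = ρ * bv d (r + 2 * (√d * h))) (hx1 : x < 1 / 2)
    (hL : Tendsto L atTop atTop) (hN : Tendsto (fun k => (N k : ℝ) / L k ^ d) atTop (𝓝 ρ))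
    (hC : (x ^ 2 / 2 + x ^ 3 / 2) / x + Real.log ρ - 1 < C) :
    ∀ᶠ k in atTop, 0 < ZZ d r (L k) (N k) ∧
      -(1 / (N k : ℝ)) * Real.log (ZZ d r (L k) (N k)) ≤ C := by
  classical
  set B1 := bv d (r + 2 * (√d * h)) with hB1
  have hB10 : 0 < B1 := bv_pos d (by positivity)
  have hx0 : 0 < x := by rw [hx]; positivity
  set s := r + √d * h with hs
  have hs0 : 0 < s := by positivity
  have hss' : s + √d * h = r + 2 * (√d * h) := by rw [hs]; ring
  set m : ℕ → ℕ := fun k => ⌊L k / h⌋₊ with hm
  have hmL : Tendsto (fun k => (m k : ℝ) * h / L k) atTop (𝓝 1) := lim_floor hh hL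
  have hminf := lim_m hh hL hmL
  have hhd : 0 < h ^ d := by positivity
  set D : ℝ := B1 / h ^ d with hD
  have hD0 : 0 < D := by rw [hD]; positivity
  set n : ℕ → ℝ := fun k => (m k : ℝ) ^ d with hn
  set X : ℕ → ℝ := fun k => N k * D / n k with hX
  have hNinf : Tendsto (fun k => (N k : ℝ)) atTop atTop := lim_N hd hρ hL hN
  have hXlim : Tendsto X atTop (𝓝 x) := by
    have h1 := (lim_Nn hh hL hmL hN).mul_const D
    have h2 : ρ * h ^ d * D = x := by rw [hD, hx]; field_simp
    rw [h2] at h1
    refine h1.congr fun k => ?_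
    simp only [hX, hn]
    ring
  have c1 : ∀ᶠ k in atTop, 0 < m k := by
    filter_upwards [hminf.eventually_gt_atTop 0] with k hk
    exact_mod_cast hk
  have c2 : ∀ᶠ k in atTop, 1 ≤ N k := by
    filter_upwards [hNinf.eventually_ge_atTop 1] with k hk
    exact_mod_cast hk
  have c9 : ∀ᶠ k in atTop, (X k ^ 2 / 2 + X k ^ 3 / 2) / X k +
      Real.log (N k / n k / h ^ d) - 1 + (1 + Real.log (N k)) / N k ≤ C := by
    have e1 : Tendsto (fun k => (X k ^ 2 / 2 + X k ^ 3 / 2) / X k) atTop
        (𝓝 ((x ^ 2 / 2 + x ^ 3 / 2) / x)) :=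
      (((hXlim.pow 2).div_const 2).add ((hXlim.pow 3).div_const 2)).div hXlim hx0.ne'
    have e2 : Tendsto (fun k => Real.log (N k / n k / h ^ d)) atTop (𝓝 (Real.log ρ)) := by
      have f1 := (lim_Nn hh hL hmL hN).div_const (h ^ d)
      have f2 : ρ * h ^ d / h ^ d = ρ := by field_simp
      rw [f2] at f1
      exact (Real.continuousAt_log hρ.ne').tendsto.comp f1
    have e3 := lim_logN hNinf
    have e4 := ((e1.add e2).sub_const 1).add e3
    rw [add_zero] at e4
    filter_upwards [e4.eventually_lt_const hC] with k hk using hk.le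
  filter_upwards [c1, c2, c9, hXlim.eventually_const_lt hx0, hXlim.eventually_lt_const hx1,
    hL.eventually_gt_atTop 0] with k k1 k2 k9 k10 k12 k11
  have hcard : (Fintype.card (Fin d → Fin (m k)) : ℝ) = n k := card_cells d (m k)
  have hmk : (0 : ℝ) < m k := by exact_mod_cast k1
  have hnk : 0 < n k := by simp only [hn]; positivity
  have hXk : X k = N k * D / n k := rfl
  have hfl := small_lower (near (d := d) (m := m k) h s) (near_refl h s)
    (fun u v => near_symm u v) (by
      have : (0 : ℝ) < (Fintype.card (Fin d → Fin (m k)) : ℝ) := by rw [hcard]; exact hnk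
      exact_mod_cast this) D (N k) hD0
    (fun v => by
      have := card_near_le s h hh hs0 v
      rw [hss'] at this
      rw [hD, le_div_iff₀ hhd]
      exact this)
    (by rw [hcard, ← hXk]; exact k12.le)
  rw [hcard] at hfl
  obtain ⟨hpos, hlow⟩ := hfl
  have hNk : (0 : ℝ) < N k := by exact_mod_cast k2
  rw [← hXk] at hlow
  have hJ := fe_le (J := -((X k ^ 2 / 2 + X k ^ 3 / 2) / X k)) (L := L k) hh hr (by
        have := Nat.floor_le (div_nonneg k11.le hh.le)
        rw [le_div_iff₀ hh] at this
        exact this) k1 k2 hpos (by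
        rw [neg_div', div_le_div_iff₀ k10 hNk]
        have h1 : D / n k = X k / N k := by rw [hXk]; field_simp
        have h2 : Real.log (ic (near (d := d) (m := m k) h s) Finset.univ (N k) *
            ((N k).factorial : ℝ) / n k ^ N k) * X k =
            (D / n k * Real.log (ic (near (d := d) (m := m k) h s) Finset.univ (N k) *
            ((N k).factorial : ℝ) / n k ^ N k)) * N k := by
          rw [h1]
          field_simp
        have h3 : ((m k : ℝ) ^ d) = n k := rfl
        rw [h3, ← hs, h2]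
        refine mul_le_mul_of_nonneg_right ?_ hNk.le
        linarith)
  refine ⟨hJ.1, hJ.2.trans (le_trans (le_of_eq ?_) k9)⟩
  rw [neg_neg]

/-- from the upper bound of the number of independent sets to the free energy -/
lemma fe_ge {r J : ℝ} {L : ℝ} {N m : ℕ} (hh : 0 < h) (hr : √d * h < r) (hmL : L < m * h)
    (hm : 0 < m) (hN : 1 ≤ N) (hZ : 0 < ZZ d r L N)
    (hJ : 0 < ic (near (d := d) (m := m) h (r - √d * h)) Finset.univ N →
      Real.log (ic (near (d := d) (m := m) h (r - √d * h)) Finset.univ N *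
      (N.factorial : ℝ) / ((m : ℝ) ^ d) ^ N) / N ≤ J) :
    -J + Real.log (N / (m : ℝ) ^ d / h ^ d) - 1 ≤ -(1 / (N : ℝ)) * Real.log (ZZ d r L N) := by
  have h1 := config_le (d := d) (m := m) r L h N hh hmL hr
  set i : ℝ := (ic (near (d := d) (m := m) h (r - √d * h)) Finset.univ N : ℝ) with hi
  have hm0 : (0 : ℝ) < m := by exact_mod_cast hm
  have hNr : (0 : ℝ) < N := by exact_mod_cast hN
  set V := (volume (config d r L N)).toReal with hV
  have hV0 : 0 < V := by
    unfold ZZ at hZ
    rw [← hV] at hZ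
    by_contra hcon
    have h2 : V ≤ 0 := not_lt.1 hcon
    have : V / (N.factorial : ℝ) ≤ 0 := div_nonpos_of_nonpos_of_nonneg h2 (by positivity)
    linarith
  have hi0 : 0 < i := by
    by_contra hcon
    have h2 : i = 0 := le_antisymm (not_lt.1 hcon) (by rw [hi]; positivity)
    rw [h2] at h1
    simp at h1
    linarith
  have hJ' := hJ (by rw [hi] at hi0; exact_mod_cast hi0)
  set n : ℝ := (m : ℝ) ^ d with hn
  have hn0 : 0 < n := by rw [hn]; positivity
  have h2 : Real.log V ≤ Real.log (i * (N.factorial : ℝ) / n ^ N) + N * Real.log (n * h ^ d) := by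
    rw [← Real.log_pow, ← Real.log_mul (by positivity) (by positivity)]
    refine Real.log_le_log (by positivity) (le_trans h1 (le_of_eq ?_))
    rw [mul_pow]
    field_simp
  have h3 : Real.log (ZZ d r L N) = Real.log V - Real.log (N.factorial : ℝ) := by
    unfold ZZ
    rw [Real.log_div (by positivity) (by positivity)]
  rw [div_le_iff₀ hNr] at hJ'
  have h4 : N * Real.log N - N ≤ Real.log (N.factorial : ℝ) := by
    have h1 := Real.pow_div_factorial_le_exp (N : ℝ) hNr.le N
    rw [div_le_iff₀ (by positivity)] at h1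
    have h2 := Real.log_le_log (by positivity) h1
    rw [Real.log_mul (by positivity) (by positivity), Real.log_exp, Real.log_pow] at h2
    linarith
  have h5 : Real.log (N / n / h ^ d) = Real.log N - Real.log (n * h ^ d) := by
    rw [div_div, Real.log_div (by positivity) (by positivity)]
  rw [h3, h5]
  have h6 : -(1 / (N : ℝ)) * (Real.log V - Real.log (N.factorial : ℝ)) =
      (Real.log (N.factorial : ℝ) - Real.log V) / N := by ring
  rw [h6, le_div_iff₀ hNr]
  have h7 : (-J + (Real.log N - Real.log (n * h ^ d)) - 1) * N =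
      -(J * N) + N * Real.log N - N * Real.log (n * h ^ d) - N := by
    ring
  rw [h7]
  linarith

theorem asym_upper (hd : 1 ≤ d) (r C : ℝ) (hh : 0 < h) (hρ : 0 < ρ)
    (hrh : 2 * (√d * h) < r) (x : ℝ) (hx : x = ρ * bv d (r - 2 * (√d * h)))
    (hL : Tendsto L atTop atTop) (hN : Tendsto (fun k => (N k : ℝ) / L k ^ d) atTop (𝓝 ρ))
    (hZ : ∀ᶠ k in atTop, 0 < ZZ d r (L k) (N k))
    (hC : C < x / 2 - (h ^ d / bv d (r - 2 * (√d * h)) + eps d) * Real.exp (x + 1) +
      Real.log ρ - 1) :
    ∀ᶠ k in atTop, C ≤ -(1 / (N k : ℝ)) * Real.log (ZZ d r (L k) (N k)) := by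
  classical
  have hdh : 0 ≤ √d * h := by positivity
  have hr : 0 < r := by linarith
  set B := bv d (r - 2 * (√d * h)) with hB
  have hB0 : 0 < B := bv_pos d (by linarith)
  have hx0 : 0 < x := by rw [hx]; positivity
  set s := r - √d * h with hs
  have hs0 : 0 < s := by linarith
  have hss : s - √d * h = r - 2 * (√d * h) := by rw [hs]; ring
  set m : ℕ → ℕ := fun k => ⌊L k / h⌋₊ + 1 with hm
  have hmL : Tendsto (fun k => (m k : ℝ) * h / L k) atTop (𝓝 1) := lim_floor' hh hL
  have hminf := lim_m hh hL hmL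
  have hhd : 0 < h ^ d := by positivity
  set sK : ℝ := B * eps d / h ^ d with hsK
  have hsK0 : 0 ≤ sK := by rw [hsK]; have := eps_pos d; positivity
  set n : ℕ → ℝ := fun k => (m k : ℝ) ^ d with hn
  set κ : ℕ → ℝ := fun k => B / (m k * h + 2 * s) ^ d with hκ
  have hninf : Tendsto n atTop atTop := lim_npow hd hminf
  have hNinf : Tendsto (fun k => (N k : ℝ)) atTop atTop := lim_N hd hρ hL hN
  have hκ0 : Tendsto κ atTop (𝓝 0) := lim_k hd B hh hminf
  have hκn : Tendsto (fun k => κ k * n k) atTop (𝓝 (B / h ^ d)) := lim_kn B hh hs0.le hminf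
  have c1 : ∀ᶠ k in atTop, 0 < m k := by
    filter_upwards [hminf.eventually_gt_atTop 0] with k hk
    exact_mod_cast hk
  have hκN : Tendsto (fun k => κ k * N k) atTop (𝓝 x) := by
    have h1 := hκn.mul (lim_Nn hh hL hmL hN)
    have h2 : B / h ^ d * (ρ * h ^ d) = x := by rw [hx]; field_simp
    rw [h2] at h1
    refine h1.congr' ?_
    filter_upwards [c1] with k hk
    have hmk : (0 : ℝ) < m k := by exact_mod_cast hk
    simp only [hn]
    field_simp
  have c2 : ∀ᶠ k in atTop, 1 ≤ N k := by
    filter_upwards [hNinf.eventually_ge_atTop 1] with k hk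
    exact_mod_cast hk
  have c3 : ∀ᶠ k in atTop, κ k < 1 := hκ0.eventually_lt_const one_pos
  have c4 : ∀ᶠ k in atTop, N k * (κ k / (1 - κ k)) ≤ x + 1 := by
    have l1 : Tendsto (fun k => (κ k * N k) / (1 - κ k)) atTop (𝓝 (x / (1 - 0))) :=
      hκN.div (hκ0.const_sub 1) (by norm_num)
    have l2 : x / (1 - 0) < x + 1 := by simp
    filter_upwards [l1.eventually_lt_const l2] with k hk
    refine le_trans (le_of_eq ?_) hk.le
    ring
  have c5 : ∀ᶠ k in atTop, C ≤ (κ k * (N k - 1) / 2 -
      (1 + sK) / (κ k * n k) * Real.exp (x + 1)) + Real.log (N k / n k / h ^ d) - 1 := by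
    have e0 : Tendsto (fun k => κ k * (N k - 1) / 2) atTop (𝓝 ((x - 0) / 2)) := by
      refine ((hκN.sub hκ0).div_const 2).congr fun k => ?_
      ring
    have e1 : Tendsto (fun k => (1 + sK) / (κ k * n k) * Real.exp (x + 1)) atTop
        (𝓝 ((1 + sK) / (B / h ^ d) * Real.exp (x + 1))) :=
      (tendsto_const_nhds.div hκn (by positivity)).mul_const _
    have e2 : Tendsto (fun k => Real.log (N k / n k / h ^ d)) atTop (𝓝 (Real.log ρ)) := by
      have f1 := (lim_Nn hh hL hmL hN).div_const (h ^ d)
      have f2 : ρ * h ^ d / h ^ d = ρ := by field_simp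
      rw [f2] at f1
      exact (Real.continuousAt_log hρ.ne').tendsto.comp f1
    have e4 := ((e0.sub e1).add e2).sub_const 1
    have e5 : (1 + sK) / (B / h ^ d) = h ^ d / B + eps d := by
      rw [hsK]; field_simp
    rw [e5, sub_zero] at e4
    filter_upwards [e4.eventually_const_lt hC] with k hk using hk.le
  filter_upwards [c1, c2, c3, c4, c5, hZ, hL.eventually_gt_atTop 0] with k k1 k2 k3 k4 k5 k6 k11
  have hcard : (Fintype.card (Fin d → Fin (m k)) : ℝ) = n k := card_cells d (m k)
  have hmk : (0 : ℝ) < m k := by exact_mod_cast k1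
  have hκk : 0 < κ k := by simp only [hκ]; positivity
  have hnk : 0 < n k := by simp only [hn]; positivity
  have hq : 1 - (1 - κ k) = κ k := by ring
  have hge := fe_ge (J := -(κ k * (N k - 1) / 2) + (1 + sK) / (κ k * n k) * Real.exp (x + 1))
    (L := L k) (m := m k) hh (by linarith : √d * h < r) (by
      have := Nat.lt_floor_add_one (L k / h)
      rw [div_lt_iff₀ hh] at this
      simp only [hm]
      push_cast
      exact this) k1 k2 k6 (fun hpos => by
      have hfu := fin_upper (near (d := d) (m := m k) h s) (near_refl h s) (by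
        have : (0 : ℝ) < (Fintype.card (Fin d → Fin (m k)) : ℝ) := by rw [hcard]; exact hnk
        exact_mod_cast this) (1 - κ k) sK (x + 1) (N k) k2 (by linarith) (by linarith) hsK0
        (fun U hU => by
          have := KW_near hd s h hh (by linarith) U hU
          rw [hss] at this
          exact this)
        (by rw [hq]; exact k4) hpos
      rw [hq, hcard] at hfu
      exact hfu)
  refine k5.trans (le_trans (le_of_eq ?_) hge)
  ring

end Pool.Agent.K4H61.HS
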