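import Mathlib

/-!
The quadratic form of the indicator function of the ball is bounded below by the minimum of its
Fourier transform.
-/

set_option autoImplicit false
open MeasureTheory FourierTransform Convolution ComplexConjugate SchwartzMap
open scoped ContDiff

namespace Pool.Agent.K4H61.HS

noncomputable section

abbrev ES (d : ℕ) := EuclideanSpace ℝ (Fin d)

/-- the indicator function of the ball -/
def KB (d : ℕ) (r : ℝ) : ES d → ℂ := (Metric.ball (0 : ES d) r).indicator (fun _ => 1)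

lemma KB_integrable (d : ℕ) (r : ℝ) : Integrable (KB d r) := by
  unfold KB
  rw [integrable_indicator_iff Metric.isOpen_ball.measurableSet]
  exact integrableOn_const (measure_ball_lt_top.ne)

lemma re_fourier_KB (d : ℕ) (r : ℝ) (ξ : ES d) : (𝓕 (KB d r) ξ).re =
    ∫ x in Metric.ball (0 : ES d) r, Real.cos (2 * Real.pi * inner ℝ x ξ) := by
  rw [Real.fourier_eq]
  have h1 : ∀ x : ES d, Real.fourierChar (-inner ℝ x ξ) • KB d r x =
      (Metric.ball (0 : ES d) r).indicator (fun x => ((Real.fourierChar (-inner ℝ x ξ) : Circle) : ℂ)) x := by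
    intro x
    unfold KB
    by_cases hx : x ∈ Metric.ball (0 : ES d) r
    · rw [Set.indicator_of_mem hx, Set.indicator_of_mem hx, Circle.smul_def, smul_eq_mul, mul_one]
    · rw [Set.indicator_of_notMem hx, Set.indicator_of_notMem hx, smul_zero]
  simp_rw [h1]
  rw [integral_indicator Metric.isOpen_ball.measurableSet]
  have hint : IntegrableOn (fun x : ES d => ((Real.fourierChar (-inner ℝ x ξ) : Circle) : ℂ))
      (Metric.ball (0 : ES d) r) := by
    have hc : Continuous (fun x : ES d => ((Real.fourierChar (-inner ℝ x ξ) : Circle) : ℂ)) := by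
      have := Real.continuous_fourierChar
      fun_prop
    exact (hc.continuousOn.integrableOn_compact (isCompact_closedBall (0 : ES d) r)).mono_set
      Metric.ball_subset_closedBall
  have h2 := (integral_re hint).symm
  have h3 : (∫ x in Metric.ball (0 : ES d) r, ((Real.fourierChar (-inner ℝ x ξ) : Circle) : ℂ)).re =
      ∫ x in Metric.ball (0 : ES d) r, (((Real.fourierChar (-inner ℝ x ξ) : Circle) : ℂ)).re := by
    exact h2
  rw [h3]
  refine integral_congr_ae (Filter.Eventually.of_forall fun x => ?_)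
  dsimp only
  rw [Real.fourierChar_apply, Complex.exp_ofReal_mul_I_re]
  rw [show 2 * Real.pi * -inner ℝ x ξ = -(2 * Real.pi * inner ℝ x ξ) by ring, Real.cos_neg]

/-- the real form of the statement for smooth functions -/
lemma quad_smooth {d : ℕ} (r c : ℝ)
    (h : ∀ ξ : ES d, -c ≤
      ∫ x in Metric.ball (0 : ES d) r, Real.cos (2 * Real.pi * inner ℝ x ξ))
    (φ : ES d → ℝ) (hφ : ContDiff ℝ ∞ φ) (hc : HasCompactSupport φ) :
    -c * ∫ x, φ x ^ 2 ≤ ∫ x, (∫ y, (if dist x y < r then φ y else 0)) * φ x := by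
  have hφ' : ContDiff ℝ ∞ (fun x => (φ x : ℂ)) := by
    exact Complex.ofRealCLM.contDiff.comp hφ
  have hc' : HasCompactSupport (fun x => (φ x : ℂ)) := by
    exact hc.comp_left (g := fun t : ℝ => (t : ℂ)) (by simp)
  set u : 𝓢(ES d, ℂ) := hc'.toSchwartzMap hφ' with hu
  have hux : ∀ x, u x = (φ x : ℂ) := fun x => rfl
  have hK := KB_integrable d r
  have hui : Integrable (u : ES d → ℂ) := u.integrable
  set F : ES d → ℂ := (KB d r) ⋆[ContinuousLinearMap.mul ℂ ℂ] (u : ES d → ℂ) with hF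
  have hFi : Integrable F := hK.integrable_convolution _ hui
  set v : ES d → ℂ := fun ξ => conj (𝓕 (u : ES d → ℂ) ξ) with hv
  have hsu : ∀ ξ, 𝓕 (u : ES d → ℂ) ξ = (𝓕 u) ξ := fun ξ => by rw [SchwartzMap.fourier_coe]
  have hvi : Integrable v := by
    have h1 : Integrable (fun ξ => (𝓕 u) ξ) := (𝓕 u).integrable
    have h2 : Integrable (fun ξ => conj ((𝓕 u) ξ)) := by
      exact (ContinuousLinearMap.integrable_comp (Complex.conjCLE.toContinuousLinearMap) h1)
    exact h2
  have hflip : ∫ ξ, 𝓕 F ξ * v ξ = ∫ x, F x * 𝓕 v x := by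
    have := VectorFourier.integral_bilin_fourierIntegral_eq_flip (ContinuousLinearMap.mul ℂ ℂ)
      (L := innerₗ (ES d)) Real.continuous_fourierChar continuous_inner hFi hvi
    simpa using! this
  have hFv : ∀ x, 𝓕 v x = (φ x : ℂ) := by
    intro x
    have h1 : 𝓕⁻ (𝓕 (u : ES d → ℂ)) x = u x := by
      have h2 : 𝓕⁻ (𝓕 u) = u := by simp
      have h3 : 𝓕⁻ (𝓕 (u : ES d → ℂ)) = (𝓕⁻ (𝓕 u) : 𝓢(ES d, ℂ)) := by
        rw [SchwartzMap.fourierInv_coe, SchwartzMap.fourier_coe]
      rw [h3, h2]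
    rw [Real.fourier_eq]
    rw [Real.fourierInv_eq] at h1
    have h4 : ∫ ξ, Real.fourierChar (-inner ℝ ξ x) • v ξ =
        conj (∫ ξ, Real.fourierChar (inner ℝ ξ x) • 𝓕 (u : ES d → ℂ) ξ) := by
      rw [← integral_conj]
      refine integral_congr_ae (Filter.Eventually.of_forall fun ξ => ?_)
      dsimp only
      rw [Circle.smul_def, Circle.smul_def, smul_eq_mul, smul_eq_mul, map_mul]
      rw [hv]
      dsimp only
      congr 1
      rw [AddChar.map_neg_eq_inv, Circle.coe_inv_eq_conj]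
    rw [h4, h1, hux]
    exact Complex.conj_ofReal _
  have hconv : ∀ x, F x = ((∫ y, (if dist x y < r then φ y else 0) : ℝ) : ℂ) := by
    intro x
    rw [hF, MeasureTheory.convolution_eq_swap, ← integral_complex_ofReal]
    refine integral_congr_ae (Filter.Eventually.of_forall fun y => ?_)
    dsimp only
    rw [ContinuousLinearMap.mul_apply', hux]
    unfold KB
    by_cases hxy : dist x y < r
    · rw [Set.indicator_of_mem (by rw [mem_ball_zero_iff, ← dist_eq_norm]; exact hxy), if_pos hxy,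
        one_mul]
    · rw [Set.indicator_of_notMem (by rw [mem_ball_zero_iff, ← dist_eq_norm]; exact hxy),
        if_neg hxy, zero_mul]
      simp
  have hmain : ∫ x, F x * 𝓕 v x =
      ((∫ x, (∫ y, (if dist x y < r then φ y else 0)) * φ x : ℝ) : ℂ) := by
    rw [← integral_complex_ofReal]
    refine integral_congr_ae (Filter.Eventually.of_forall fun x => ?_)
    dsimp only
    rw [hFv, hconv]
    push_cast
    rfl
  have hfou : ∀ ξ, 𝓕 F ξ * v ξ = 𝓕 (KB d r) ξ * ((‖(𝓕 u) ξ‖ ^ 2 : ℝ) : ℂ) := by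
    intro ξ
    rw [hF, Real.fourier_mul_convolution_eq hK hui ξ, hv, mul_assoc]
    dsimp only
    rw [hsu, Complex.mul_conj, Complex.normSq_eq_norm_sq]
  have hKb : ∀ ξ, ‖𝓕 (KB d r) ξ‖ ≤ ∫ x, ‖KB d r x‖ := fun ξ => by
    have := VectorFourier.norm_fourierIntegral_le_integral_norm Real.fourierChar volume
      (innerₗ (ES d)) (KB d r) ξ
    exact this
  have hsq : Integrable (fun ξ => ‖(𝓕 u) ξ‖ ^ 2) := by
    have := (𝓕 u).memLp 2 (μ := volume)
    have := this.integrable_norm_pow (by norm_num)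
    simpa using this
  have hKc : Continuous (𝓕 (KB d r)) :=
    VectorFourier.fourierIntegral_continuous Real.continuous_fourierChar
      (by exact continuous_inner) hK
  have hint : Integrable (fun ξ => 𝓕 (KB d r) ξ * ((‖(𝓕 u) ξ‖ ^ 2 : ℝ) : ℂ)) := by
    refine Integrable.bdd_mul (c := ∫ x, ‖KB d r x‖) hsq.ofReal hKc.aestronglyMeasurable ?_
    exact Filter.Eventually.of_forall hKb
  have hre : ∫ x, (∫ y, (if dist x y < r then φ y else 0)) * φ x =
      ∫ ξ, (𝓕 (KB d r) ξ).re * ‖(𝓕 u) ξ‖ ^ 2 := by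
    have h1 : ((∫ x, (∫ y, (if dist x y < r then φ y else 0)) * φ x : ℝ) : ℂ) =
        ∫ ξ, 𝓕 (KB d r) ξ * ((‖(𝓕 u) ξ‖ ^ 2 : ℝ) : ℂ) := by
      rw [← hmain, ← hflip]
      exact integral_congr_ae (Filter.Eventually.of_forall hfou)
    have h2 := congrArg Complex.re h1
    rw [Complex.ofReal_re] at h2
    rw [h2]
    have h3 := (integral_re hint).symm
    have h4 : (∫ ξ, 𝓕 (KB d r) ξ * ((‖(𝓕 u) ξ‖ ^ 2 : ℝ) : ℂ)).re =
      ∫ ξ, (𝓕 (KB d r) ξ * ((‖(𝓕 u) ξ‖ ^ 2 : ℝ) : ℂ)).re := h3
    rw [h4]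
    refine integral_congr_ae (Filter.Eventually.of_forall fun ξ => ?_)
    dsimp only
    rw [Complex.re_mul_ofReal]
  rw [hre]
  have hpl : ∫ x, φ x ^ 2 = ∫ ξ, ‖(𝓕 u) ξ‖ ^ 2 := by
    rw [SchwartzMap.integral_norm_sq_fourier]
    refine integral_congr_ae (Filter.Eventually.of_forall fun x => ?_)
    dsimp only
    rw [hux, Complex.norm_real, Real.norm_eq_abs, sq_abs]
  rw [hpl, ← integral_const_mul]
  refine integral_mono (hsq.const_mul _) ?_ ?_
  · have h5 := hint.re
    refine h5.congr (Filter.Eventually.of_forall fun ξ => ?_)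
    dsimp only
    exact Complex.re_mul_ofReal _ _
  · intro ξ
    dsimp only
    have h6 := h ξ
    rw [← re_fourier_KB] at h6
    exact mul_le_mul_of_nonneg_right h6 (by positivity)

end

end Pool.Agent.K4H61.HS
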