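import Pool.Agent.K4H61.HS.Ib
import Pool.Agent.K4H61.HS.Quad

/-!
The Fourier transform of the ball.
-/

set_option autoImplicit false
open MeasureTheory Set

namespace Pool.Agent.K4H61.HS

lemma norm_lt_iff_sum {d : ℕ} (x : ES d) {r : ℝ} (hr : 0 < r) : ‖x‖ < r ↔ ∑ k, x k ^ 2 < r ^ 2 := by
  rw [← sq_lt_sq₀ (norm_nonneg x) hr.le, EuclideanSpace.norm_sq_eq]
  simp only [Real.norm_eq_abs, sq_abs]

lemma bv_eq (d : ℕ) {r : ℝ} (hr : 0 < r) :
    bv d r = (volume (Metric.ball (0 : ES d) r)).toReal := by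
  unfold bv
  congr 1
  have h1 := (PiLp.volume_preserving_ofLp (Fin d)).measure_preimage
    (s := {x : Fin d → ℝ | ∑ k, x k ^ 2 < r ^ 2})
    (measurableSet_lt (by fun_prop) measurable_const).nullMeasurableSet
  rw [← h1]
  congr 1
  ext x
  rw [mem_ball_zero_iff, norm_lt_iff_sum x hr]
  rfl

lemma bv_scale (d : ℕ) {r : ℝ} (hr : 0 < r) : bv d r = r ^ d * bv d 1 := by
  rw [bv_eq d hr, bv_eq d one_pos, Measure.addHaar_ball_of_pos _ _ hr, ENNReal.toReal_mul,
    ENNReal.toReal_ofReal (by positivity), finrank_euclideanSpace_fin]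

lemma bv_pos (d : ℕ) {r : ℝ} (hr : 0 < r) : 0 < bv d r := by
  rw [bv_eq d hr]
  exact ENNReal.toReal_pos (Metric.measure_ball_pos _ _ hr).ne' measure_ball_lt_top.ne

lemma bv_nonneg (d : ℕ) (r : ℝ) : 0 ≤ bv d r := ENNReal.toReal_nonneg

/-- the measurable equivalence splitting off the first coordinate -/
noncomputable def splitE (k : ℕ) : ES (k + 1) ≃ᵐ ℝ × (Fin k → ℝ) :=
  (MeasurableEquiv.toLp 2 (Fin (k + 1) → ℝ)).symm.trans
    (MeasurableEquiv.piFinSuccAbove (fun _ => ℝ) 0)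

lemma splitE_mp (k : ℕ) : MeasurePreserving (splitE k) :=
  (EuclideanSpace.volume_preserving_symm_measurableEquiv_toLp (Fin (k + 1))).trans
    (volume_preserving_piFinSuccAbove (fun _ => ℝ) 0)

lemma splitE_fst (k : ℕ) (x : ES (k + 1)) : (splitE k x).1 = x 0 := rfl

lemma splitE_snd (k : ℕ) (x : ES (k + 1)) (j : Fin k) : (splitE k x).2 j = x j.succ := by
  unfold splitE
  simp [MeasurableEquiv.piFinSuccAbove, Fin.removeNth, Fin.tail]

lemma slice (k : ℕ) {r : ℝ} (hr : 0 < r) (φ : ℝ → ℝ) (hφ : Continuous φ) :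
    ∫ x in Metric.ball (0 : ES (k + 1)) r, φ (x 0) =
      (bv k 1 * r ^ (k + 1)) * ∫ u in (-1:ℝ)..1, φ (r * u) * √(1 - u ^ 2) ^ k := by
  set G : ℝ × (Fin k → ℝ) → ℝ := fun p =>
    {p : ℝ × (Fin k → ℝ) | p.1 ^ 2 + ∑ j, p.2 j ^ 2 < r ^ 2}.indicator (fun p => φ p.1) p with hG
  have h1 : ∀ x : ES (k + 1),
      (Metric.ball (0 : ES (k + 1)) r).indicator (fun x => φ (x 0)) x = G (splitE k x) := by
    intro x
    rw [hG]
    dsimp only
    have hiff : x ∈ Metric.ball (0 : ES (k + 1)) r ↔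
        splitE k x ∈ {p : ℝ × (Fin k → ℝ) | p.1 ^ 2 + ∑ j, p.2 j ^ 2 < r ^ 2} := by
      rw [mem_ball_zero_iff, norm_lt_iff_sum x hr, Fin.sum_univ_succ, mem_ofPred_eq, splitE_fst]
      simp only [splitE_snd]
    by_cases h : x ∈ Metric.ball (0 : ES (k + 1)) r
    · rw [indicator_of_mem h, indicator_of_mem (hiff.1 h), splitE_fst]
    · rw [indicator_of_notMem h, indicator_of_notMem (fun h' => h (hiff.2 h'))]
  have hcx : Continuous (fun x : ES (k + 1) => φ (x 0)) := by
    have : Continuous (fun x : ES (k + 1) => x 0) := by fun_prop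
    exact hφ.comp this
  have hint1 : Integrable ((Metric.ball (0 : ES (k + 1)) r).indicator (fun x => φ (x 0))) := by
    rw [integrable_indicator_iff Metric.isOpen_ball.measurableSet]
    exact (hcx.continuousOn.integrableOn_compact (isCompact_closedBall (0 : ES (k + 1)) r)).mono_set
      Metric.ball_subset_closedBall
  have hGint : Integrable G := by
    rw [← (splitE_mp k).integrable_comp_emb (splitE k).measurableEmbedding]
    refine hint1.congr (Filter.Eventually.of_forall fun x => ?_)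
    exact h1 x
  rw [← integral_indicator Metric.isOpen_ball.measurableSet]
  have h2 : ∫ x, (Metric.ball (0 : ES (k + 1)) r).indicator (fun x => φ (x 0)) x = ∫ p, G p := by
    rw [← (splitE_mp k).integral_comp' G]
    exact integral_congr_ae (Filter.Eventually.of_forall h1)
  rw [h2]
  have h3 : ∫ p, G p = ∫ s, ∫ z, G (s, z) := by
    rw [Measure.volume_eq_prod] at hGint ⊢
    exact integral_prod _ hGint
  rw [h3]
  have h4 : ∀ s : ℝ, ∫ z, G (s, z) =
      (Ioo (-r) r).indicator (fun s => bv k 1 * (φ s * √(r ^ 2 - s ^ 2) ^ k)) s := by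
    intro s
    by_cases hs : s ∈ Ioo (-r) r
    · rw [indicator_of_mem hs]
      have hpos : 0 < r ^ 2 - s ^ 2 := by nlinarith [hs.1, hs.2]
      have h5 : (fun z => G (s, z)) =
          {z : Fin k → ℝ | ∑ j, z j ^ 2 < √(r ^ 2 - s ^ 2) ^ 2}.indicator (fun _ => φ s) := by
        funext z
        rw [hG]
        dsimp only
        rw [Real.sq_sqrt hpos.le]
        have hiff : ((s, z) ∈ {p : ℝ × (Fin k → ℝ) | p.1 ^ 2 + ∑ j, p.2 j ^ 2 < r ^ 2}) ↔
            z ∈ {z : Fin k → ℝ | ∑ j, z j ^ 2 < r ^ 2 - s ^ 2} := by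
          simp only [mem_ofPred_eq]
          constructor <;> intro h <;> linarith
        by_cases h : z ∈ {z : Fin k → ℝ | ∑ j, z j ^ 2 < r ^ 2 - s ^ 2}
        · rw [indicator_of_mem h, indicator_of_mem (hiff.2 h)]
        · rw [indicator_of_notMem h, indicator_of_notMem (fun h' => h (hiff.1 h'))]
      rw [h5, integral_indicator (measurableSet_lt (by fun_prop) measurable_const)]
      simp only [integral_const, smul_eq_mul]
      rw [Measure.real, Measure.restrict_apply_univ]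
      have h6 : (volume {z : Fin k → ℝ | ∑ j, z j ^ 2 < √(r ^ 2 - s ^ 2) ^ 2}).toReal =
          bv k (√(r ^ 2 - s ^ 2)) := rfl
      rw [h6, bv_scale k (Real.sqrt_pos.2 hpos)]
      ring
    · rw [indicator_of_notMem hs]
      have hneg : r ^ 2 - s ^ 2 ≤ 0 := by
        have h7 : r ≤ |s| := by
          by_contra hcon
          push Not at hcon
          exact hs (abs_lt.1 hcon)
        have := sq_le_sq₀ hr.le (abs_nonneg s) |>.2 h7
        rw [sq_abs] at this
        linarith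
      have h5 : (fun z => G (s, z)) = fun _ => 0 := by
        funext z
        rw [hG]
        dsimp only
        rw [indicator_of_notMem]
        simp only [mem_ofPred_eq, not_lt]
        have : 0 ≤ ∑ j, z j ^ 2 := Finset.sum_nonneg fun j _ => sq_nonneg _
        linarith
      rw [h5, integral_zero]
  simp_rw [h4]
  rw [integral_indicator measurableSet_Ioo, ← integral_Ioc_eq_integral_Ioo,
    ← intervalIntegral.integral_of_le (by linarith), intervalIntegral.integral_const_mul]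
  have h5 := intervalIntegral.mul_integral_comp_mul_left (f := fun s => φ s * √(r ^ 2 - s ^ 2) ^ k)
    (a := -1) (b := 1) r
  rw [mul_one, mul_neg_one] at h5
  rw [← h5]
  have h6 : ∀ u : ℝ, √(r ^ 2 - (r * u) ^ 2) = r * √(1 - u ^ 2) := by
    intro u
    rw [show r ^ 2 - (r * u) ^ 2 = r ^ 2 * (1 - u ^ 2) by ring, Real.sqrt_mul (by positivity),
      Real.sqrt_sq hr.le]
  simp_rw [h6]
  have h7 : ∫ x in (-1:ℝ)..1, φ (r * x) * (r * √(1 - x ^ 2)) ^ k =
      r ^ k * ∫ x in (-1:ℝ)..1, φ (r * x) * √(1 - x ^ 2) ^ k := by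
    rw [← intervalIntegral.integral_const_mul]
    refine intervalIntegral.integral_congr fun x _ => ?_
    rw [mul_pow]
    ring
  rw [h7]
  ring

lemma exists_rotation {k : ℕ} (ξ : ES (k + 1)) : ∃ T : ES (k + 1) ≃ₗᵢ[ℝ] ES (k + 1),
    ∀ x, inner ℝ (T x) ξ = ‖ξ‖ * x 0 := by
  set e0 : ES (k + 1) := EuclideanSpace.single 0 (1 : ℝ) with he0
  have hn : ‖ξ‖ = ‖‖ξ‖ • e0‖ := by
    rw [norm_smul, he0]
    simp
  set T := (Submodule.span ℝ {ξ - ‖ξ‖ • e0})ᗮ.reflection with hT
  have hTξ : T ξ = ‖ξ‖ • e0 := Submodule.reflection_sub hn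
  refine ⟨T, fun x => ?_⟩
  have h1 : inner ℝ (T x) ξ = inner ℝ x (T ξ) := by
    have h2 := T.inner_map_map x (T ξ)
    rw [← h2]
    congr 1
    rw [hT]
    exact (Submodule.reflection_reflection _ ξ).symm
  rw [h1, hTξ, inner_smul_right]
  congr 1
  rw [he0]
  simp [EuclideanSpace.inner_single_right]

theorem ball_cos (d : ℕ) (hd : 1 ≤ d) (r : ℝ) (hr : 0 < r) (ξ : ES d) :
    -(eps d) * bv d r ≤
      ∫ x in Metric.ball (0 : ES d) r, Real.cos (2 * Real.pi * inner ℝ x ξ) := by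
  obtain ⟨k, rfl⟩ : ∃ k, d = k + 1 := ⟨d - 1, by omega⟩
  obtain ⟨T, hT⟩ := exists_rotation ξ
  have h1 : ∫ x in Metric.ball (0 : ES (k + 1)) r, Real.cos (2 * Real.pi * inner ℝ x ξ) =
      ∫ x in Metric.ball (0 : ES (k + 1)) r, Real.cos (2 * Real.pi * ‖ξ‖ * x 0) := by
    have hmp := T.measurePreserving
    have h2 := hmp.setIntegral_preimage_emb T.toMeasurableEquiv.measurableEmbedding
      (fun x => Real.cos (2 * Real.pi * inner ℝ x ξ)) (Metric.ball (0 : ES (k + 1)) r)
    have h3 : (T ⁻¹' Metric.ball (0 : ES (k + 1)) r) = Metric.ball (0 : ES (k + 1)) r := by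
      ext x
      simp [mem_ball_zero_iff]
    rw [h3] at h2
    rw [← h2]
    refine integral_congr_ae (Filter.Eventually.of_forall fun x => ?_)
    dsimp only
    rw [hT x]
    ring_nf
  rw [h1]
  have h2 := slice k hr (fun s => Real.cos (2 * Real.pi * ‖ξ‖ * s)) (by fun_prop)
  rw [h2]
  have h3 := slice k hr (fun _ => 1) continuous_const
  have h4 : ∫ x in Metric.ball (0 : ES (k + 1)) r, (1 : ℝ) = bv (k + 1) r := by
    rw [bv_eq _ hr]
    simp [Measure.real]
  rw [h4] at h3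
  rw [h3]
  have hIb0 : ∫ u in (-1:ℝ)..1, (1:ℝ) * √(1 - u ^ 2) ^ k = Ib (k + 1) 0 := by
    unfold Ib
    refine intervalIntegral.integral_congr fun x _ => ?_
    rw [zero_mul, Real.cos_zero]
    rfl
  have hIb1 : ∫ u in (-1:ℝ)..1, Real.cos (2 * Real.pi * ‖ξ‖ * (r * u)) * √(1 - u ^ 2) ^ k =
      Ib (k + 1) (2 * Real.pi * ‖ξ‖ * r) := by
    unfold Ib
    refine intervalIntegral.integral_congr fun x _ => ?_
    rw [mul_assoc (2 * Real.pi * ‖ξ‖)]
    rfl
  rw [hIb0, hIb1]
  have h5 := Ib_lower (k + 1) hd (2 * Real.pi * ‖ξ‖ * r)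
  have h6 : 0 ≤ bv k 1 * r ^ (k + 1) := by
    have := bv_nonneg k 1
    positivity
  have := mul_le_mul_of_nonneg_left h5 h6
  linarith

end Pool.Agent.K4H61.HS
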