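import Pool.Agent.K4H61.HS.Quad

/-!
The quadratic form of the indicator function of the ball: general square integrable functions.
-/

set_option autoImplicit false
open MeasureTheory
open scoped ContDiff

namespace Pool.Agent.K4H61.HS

variable {d : ℕ}

/-- the kernel -/
noncomputable def kr (r : ℝ) (p : ES d × ES d) : ℝ := if dist p.1 p.2 < r then 1 else 0

lemma kr_meas (r : ℝ) : Measurable (kr (d := d) r) := by
  unfold kr
  refine Measurable.ite ?_ measurable_const measurable_const
  exact measurableSet_lt (by fun_prop) measurable_const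

lemma kr_int (r : ℝ) (x : ES d) : ∫ y, kr r (x, y) =
    (volume (Metric.ball (0 : ES d) r)).toReal := by
  have h1 : (fun y => kr r (x, y)) = (Metric.ball x r).indicator (fun _ => (1:ℝ)) := by
    funext y
    unfold kr
    by_cases h : dist x y < r
    · rw [Set.indicator_of_mem (by rw [Metric.mem_ball']; exact h)]
      simp [h]
    · rw [Set.indicator_of_notMem (by rw [Metric.mem_ball']; exact h)]
      simp [h]
  rw [h1, integral_indicator Metric.isOpen_ball.measurableSet]
  simp only [integral_const, smul_eq_mul, mul_one]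
  rw [Measure.real, Measure.restrict_apply_univ, Measure.addHaar_ball_center]

lemma kr_int' (r : ℝ) (y : ES d) : ∫ x, kr r (x, y) =
    (volume (Metric.ball (0 : ES d) r)).toReal := by
  rw [← kr_int r y]
  refine integral_congr_ae (Filter.Eventually.of_forall fun x => ?_)
  dsimp only
  unfold kr
  simp only [dist_comm]

lemma kr_integrable (r : ℝ) (x : ES d) : Integrable (fun y => kr r (x, y)) := by
  have h1 : (fun y => kr r (x, y)) = (Metric.ball x r).indicator (fun _ => (1:ℝ)) := by
    funext y
    unfold kr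
    by_cases h : dist x y < r
    · rw [Set.indicator_of_mem (by rw [Metric.mem_ball']; exact h)]
      simp [h]
    · rw [Set.indicator_of_notMem (by rw [Metric.mem_ball']; exact h)]
      simp [h]
  rw [h1, integrable_indicator_iff Metric.isOpen_ball.measurableSet]
  exact integrableOn_const (measure_ball_lt_top.ne)

lemma kr_mul_left (r : ℝ) (f : ES d → ℝ) (hf : Integrable f) :
    Integrable (fun p : ES d × ES d => kr r p * f p.1) (volume.prod volume) ∧
    ∫ p : ES d × ES d, kr r p * f p.1 ∂(volume.prod volume) =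
      (volume (Metric.ball (0 : ES d) r)).toReal * ∫ x, f x := by
  have hm : AEStronglyMeasurable (fun p : ES d × ES d => kr r p * f p.1) (volume.prod volume) :=
    (kr_meas r).aestronglyMeasurable.mul hf.aestronglyMeasurable.comp_fst
  have h1 : Integrable (fun p : ES d × ES d => kr r p * f p.1) (volume.prod volume) := by
    rw [integrable_prod_iff hm]
    constructor
    · exact Filter.Eventually.of_forall fun x => (kr_integrable r x).mul_const (f x)
    · have h2 : ∀ x : ES d, ∫ y, ‖kr r (x, y) * f x‖ =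
          (volume (Metric.ball (0 : ES d) r)).toReal * ‖f x‖ := by
        intro x
        rw [← kr_int r x, ← integral_mul_const]
        refine integral_congr_ae (Filter.Eventually.of_forall fun y => ?_)
        dsimp only
        rw [norm_mul]
        congr 1
        unfold kr
        split_ifs <;> simp
      simp_rw [h2]
      exact hf.norm.const_mul _
  refine ⟨h1, ?_⟩
  rw [integral_prod _ h1, ← integral_const_mul]
  refine integral_congr_ae (Filter.Eventually.of_forall fun x => ?_)
  dsimp only
  rw [integral_mul_const, kr_int]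

lemma kr_swap (r : ℝ) (p : ES d × ES d) : kr r p.swap = kr r p := by
  unfold kr
  simp only [Prod.fst_swap, Prod.snd_swap, dist_comm]

lemma kr_mul_right (r : ℝ) (f : ES d → ℝ) (hf : Integrable f) :
    Integrable (fun p : ES d × ES d => kr r p * f p.2) (volume.prod volume) ∧
    ∫ p : ES d × ES d, kr r p * f p.2 ∂(volume.prod volume) =
      (volume (Metric.ball (0 : ES d) r)).toReal * ∫ x, f x := by
  obtain ⟨h1, h2⟩ := kr_mul_left r f hf
  constructor
  · have h3 := h1.swap
    refine h3.congr (Filter.Eventually.of_forall fun p => ?_)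
    simp only [Function.comp]
    rw [kr_swap]
    rfl
  · rw [← h2, ← integral_prod_swap]
    refine integral_congr_ae (Filter.Eventually.of_forall fun p => ?_)
    dsimp only
    rw [kr_swap]
    rfl

/-- the bilinear form -/
noncomputable def AA (r : ℝ) (f g : ES d → ℝ) : ℝ :=
  ∫ p : ES d × ES d, kr r p * (f p.1 * g p.2) ∂(volume.prod volume)

lemma AA_integrable (r : ℝ) (f g : ES d → ℝ) (hf : MemLp f 2 volume) (hg : MemLp g 2 volume) :
    Integrable (fun p : ES d × ES d => kr r p * (f p.1 * g p.2)) (volume.prod volume) := by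
  have h1 := (kr_mul_left r (fun x => f x ^ 2) hf.integrable_sq).1
  have h2 := (kr_mul_right r (fun x => g x ^ 2) hg.integrable_sq).1
  refine (h1.add h2).mono' ?_ ?_
  · exact (kr_meas r).aestronglyMeasurable.mul
      (hf.aestronglyMeasurable.comp_fst.mul hg.aestronglyMeasurable.comp_snd)
  · refine Filter.Eventually.of_forall fun p => ?_
    simp only [Pi.add_apply, Real.norm_eq_abs]
    have hk : 0 ≤ kr r p := by unfold kr; split_ifs <;> norm_num
    rw [abs_mul, abs_of_nonneg hk, ← mul_add]
    refine mul_le_mul_of_nonneg_left ?_ hk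
    rw [abs_mul]
    nlinarith [sq_nonneg (|f p.1| - |g p.2|), sq_abs (f p.1), sq_abs (g p.2),
      sq_nonneg (f p.1), sq_nonneg (g p.2)]

lemma AA_le (r : ℝ) (f g : ES d → ℝ) (hf : MemLp f 2 volume) (hg : MemLp g 2 volume)
    {t : ℝ} (ht : 0 < t) :
    |AA r f g| ≤ (volume (Metric.ball (0 : ES d) r)).toReal / 2 *
      (t * (∫ x, f x ^ 2) + t⁻¹ * ∫ x, g x ^ 2) := by
  have h1 := kr_mul_left r (fun x => f x ^ 2) hf.integrable_sq
  have h2 := kr_mul_right r (fun x => g x ^ 2) hg.integrable_sq
  unfold AA
  have h3 : ∀ p : ES d × ES d, ‖kr r p * (f p.1 * g p.2)‖ ≤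
      t / 2 * (kr r p * f p.1 ^ 2) + t⁻¹ / 2 * (kr r p * g p.2 ^ 2) := by
    intro p
    have hk : 0 ≤ kr r p := by unfold kr; split_ifs <;> norm_num
    rw [Real.norm_eq_abs, abs_mul, abs_of_nonneg hk]
    have h4 : |f p.1 * g p.2| ≤ t / 2 * f p.1 ^ 2 + t⁻¹ / 2 * g p.2 ^ 2 := by
      rw [abs_mul]
      have h5 : 0 ≤ (t * |f p.1| - |g p.2|) ^ 2 / t := by positivity
      have h6 : (t * |f p.1| - |g p.2|) ^ 2 / t =
          t * |f p.1| ^ 2 - 2 * (|f p.1| * |g p.2|) + t⁻¹ * |g p.2| ^ 2 := by
        field_simp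
        ring
      rw [h6, sq_abs, sq_abs] at h5
      linarith
    have := mul_le_mul_of_nonneg_left h4 hk
    linarith
  have h4 := norm_integral_le_of_norm_le ((h1.1.const_mul (t / 2)).add (h2.1.const_mul (t⁻¹ / 2)))
    (Filter.Eventually.of_forall h3)
  rw [Real.norm_eq_abs] at h4
  refine h4.trans (le_of_eq ?_)
  simp only [Pi.add_apply]
  rw [integral_add (h1.1.const_mul (t / 2)) (h2.1.const_mul (t⁻¹ / 2)), integral_const_mul,
    integral_const_mul, h1.2, h2.2]
  ring

lemma AA_eq (r : ℝ) (f g : ES d → ℝ) (hf : MemLp f 2 volume) (hg : MemLp g 2 volume) :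
    AA r f g = ∫ x, ∫ y, (if dist x y < r then f x * g y else 0) := by
  unfold AA
  rw [integral_prod _ (AA_integrable r f g hf hg)]
  refine integral_congr_ae (Filter.Eventually.of_forall fun x => ?_)
  refine integral_congr_ae (Filter.Eventually.of_forall fun y => ?_)
  dsimp only
  unfold kr
  split_ifs <;> simp

theorem quad_L2 (r c : ℝ) (hc : 0 ≤ c)
    (h : ∀ ξ : ES d, -c ≤
      ∫ x in Metric.ball (0 : ES d) r, Real.cos (2 * Real.pi * inner ℝ x ξ))
    (g : ES d → ℝ) (hg : MemLp g 2 volume) :
    -c * ∫ x, g x ^ 2 ≤ AA r g g := by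
  set V := (volume (Metric.ball (0 : ES d) r)).toReal with hV
  set G := ∫ x, g x ^ 2 with hG
  have hG0 : 0 ≤ G := integral_nonneg fun x => by positivity
  have hV0 : 0 ≤ V := ENNReal.toReal_nonneg
  have key : ∀ δ : ℝ, 0 < δ → δ ≤ 1 → -c * G - δ * (c * (G + 2) + V * (3 + 2 * G)) ≤ AA r g g := by
    intro δ hδ hδ1
    obtain ⟨φ, hφc, hφd, hφ⟩ := hg.exist_eLpNorm_sub_le (by norm_num) (by norm_num) hδ
    have hφm : MemLp φ 2 volume := hφd.continuous.memLp_of_hasCompactSupport hφc
    have hem : MemLp (g - φ) 2 volume := hg.sub hφm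
    set e := g - φ with he
    set P := ∫ x, e x ^ 2 with hP
    have hP0 : 0 ≤ P := integral_nonneg fun x => by positivity
    have hPd : P ≤ δ ^ 2 := by
      rw [hem.eLpNorm_eq_integral_rpow_norm (by norm_num) (by norm_num)] at hφ
      rw [ENNReal.ofReal_le_ofReal_iff hδ.le] at hφ
      have h1 : ∫ x, ‖e x‖ ^ (2 : ENNReal).toReal = P := by
        rw [hP]
        refine integral_congr_ae (Filter.Eventually.of_forall fun x => ?_)
        simp
      rw [h1] at hφ
      have h2 : P = (P ^ (2 : ENNReal).toReal⁻¹) ^ 2 := by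
        rw [← Real.rpow_natCast, ← Real.rpow_mul hP0]
        simp
      rw [h2]
      exact pow_le_pow_left₀ (Real.rpow_nonneg hP0 _) hφ 2
    set F := ∫ x, φ x ^ 2 with hF
    have hF1 : F ≤ (1 + δ) * G + (1 + δ⁻¹) * P := by
      rw [hF, hG, hP, ← integral_const_mul, ← integral_const_mul, ← integral_add
        (hg.integrable_sq.const_mul _) (hem.integrable_sq.const_mul _)]
      refine integral_mono hφm.integrable_sq
        ((hg.integrable_sq.const_mul _).add (hem.integrable_sq.const_mul _)) fun x => ?_
      dsimp only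
      have h1 : φ x = g x - e x := by rw [he]; simp
      rw [h1]
      have h2 : 0 ≤ (δ * g x + e x) ^ 2 / δ := by positivity
      have h3 : (δ * g x + e x) ^ 2 / δ = δ * g x ^ 2 + 2 * (g x * e x) + δ⁻¹ * e x ^ 2 := by
        field_simp
        ring
      rw [h3] at h2
      nlinarith
    have hF0 : 0 ≤ F := integral_nonneg fun x => by positivity
    have hF2 : F ≤ G + δ * (G + 2) := by
      have h1 : (1 + δ⁻¹) * P ≤ (1 + δ⁻¹) * δ ^ 2 := by gcongr
      have h2 : (1 + δ⁻¹) * δ ^ 2 = δ ^ 2 + δ := by field_simp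
      nlinarith
    have hsm := quad_smooth r c h φ hφd hφc
    have hφA : ∫ x, (∫ y, (if dist x y < r then φ y else 0)) * φ x = AA r φ φ := by
      rw [AA_eq r φ φ hφm hφm]
      refine integral_congr_ae (Filter.Eventually.of_forall fun x => ?_)
      dsimp only
      rw [← integral_mul_const]
      refine integral_congr_ae (Filter.Eventually.of_forall fun y => ?_)
      dsimp only
      split_ifs <;> ring
    rw [hφA] at hsm
    have hsplit : AA r g g = AA r φ φ + AA r φ e + AA r e g := by
      have i1 := integral_add (AA_integrable r φ φ hφm hφm) (AA_integrable r φ e hφm hem)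
      have i2 := integral_add ((AA_integrable r φ φ hφm hφm).add (AA_integrable r φ e hφm hem))
          (AA_integrable r e g hem hg)
      simp only [Pi.add_apply] at i2
      have i3 : AA r φ φ + AA r φ e + AA r e g = ∫ p : ES d × ES d,
          (kr r p * (φ p.1 * φ p.2) + kr r p * (φ p.1 * e p.2)) + kr r p * (e p.1 * g p.2)
            ∂(volume.prod volume) := by
        rw [i2, i1]
        rfl
      rw [i3]
      unfold AA
      refine integral_congr_ae (Filter.Eventually.of_forall fun p => ?_)
      dsimp only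
      have h1 : ∀ x, g x = φ x + e x := fun x => by rw [he]; simp
      rw [h1 p.1, h1 p.2]
      ring
    have hA1 := AA_le r φ e hφm hem hδ
    have hA2 := AA_le r e g hem hg (inv_pos.2 hδ)
    rw [inv_inv] at hA2
    rw [← hV, ← hF, ← hP] at hA1
    rw [← hV, ← hG, ← hP] at hA2
    have hA1' := (abs_le.1 hA1).1
    have hA2' := (abs_le.1 hA2).1
    have hδP : δ⁻¹ * P ≤ δ := by
      rw [inv_mul_le_iff₀ hδ]
      nlinarith
    have hFG : F ≤ 2 * G + 2 := by nlinarith
    have e1 : V / 2 * (δ * F + δ⁻¹ * P) ≤ V / 2 * (δ * (2 * G + 2) + δ) := by gcongr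
    have e2 : V / 2 * (δ⁻¹ * P + δ * G) ≤ V / 2 * (δ + δ * G) := by gcongr
    have e3 : -c * F ≥ -c * (G + δ * (G + 2)) := by nlinarith
    have e4 : V / 2 * (δ * (2 * G + 2) + δ) + V / 2 * (δ + δ * G) ≤ δ * (V * (3 + 2 * G)) := by
      nlinarith [mul_nonneg (mul_nonneg hδ.le hV0) hG0, mul_nonneg hδ.le hV0]
    rw [hsplit]
    nlinarith
  by_contra hcon
  push Not at hcon
  set C := c * (G + 2) + V * (3 + 2 * G) with hC
  have hC0 : 0 ≤ C := by positivity
  set η := -c * G - AA r g g with hη
  have hη0 : 0 < η := by rw [hη]; linarith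
  have h1 := key (min 1 (η / (2 * (C + 1)))) (by positivity) (min_le_left _ _)
  have h2 : min 1 (η / (2 * (C + 1))) * C ≤ η / 2 := by
    have h3 : min 1 (η / (2 * (C + 1))) ≤ η / (2 * (C + 1)) := min_le_right _ _
    have h4 : η / (2 * (C + 1)) * C ≤ η / 2 := by
      rw [div_mul_eq_mul_div, div_le_div_iff₀ (by positivity) (by norm_num)]
      nlinarith
    nlinarith
  linarith

end Pool.Agent.K4H61.HS
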