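import Pool.Agent.K4H61.HS.Ball
import Pool.Agent.K4H61.HS.Quad2

/-!
Cells of a cube.
-/

set_option autoImplicit false
open MeasureTheory Set

namespace Pool.Agent.K4H61.HS

variable {d m : ℕ}

/-- the corner of a cell -/
noncomputable def corner (h : ℝ) (c : Fin d → Fin m) : ES d :=
  WithLp.toLp 2 (fun k => ((c k : ℕ) : ℝ) * h)

lemma corner_apply (h : ℝ) (c : Fin d → Fin m) (k : Fin d) : corner h c k = ((c k : ℕ) : ℝ) * h :=
  rfl

/-- the half open cell -/
def cell (h : ℝ) (c : Fin d → Fin m) : Set (ES d) :=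
  {x | ∀ k, x k ∈ Ico (((c k : ℕ) : ℝ) * h) (((c k : ℕ) : ℝ) * h + h)}

lemma cell_eq (h : ℝ) (c : Fin d → Fin m) : cell h c =
    (@WithLp.ofLp 2 (Fin d → ℝ)) ⁻¹'
      (Set.univ.pi fun k => Ico (((c k : ℕ) : ℝ) * h) (((c k : ℕ) : ℝ) * h + h)) := by
  ext x
  simp [cell, Set.mem_pi]

lemma cell_meas (h : ℝ) (c : Fin d → Fin m) : MeasurableSet (cell h c) := by
  rw [cell_eq]
  exact (PiLp.volume_preserving_ofLp (Fin d)).measurable
    (MeasurableSet.univ_pi fun _ => measurableSet_Ico)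

lemma cell_vol {h : ℝ} (hh : 0 < h) (c : Fin d → Fin m) :
    volume (cell h c) = ENNReal.ofReal (h ^ d) := by
  rw [cell_eq, (PiLp.volume_preserving_ofLp (Fin d)).measure_preimage
    (MeasurableSet.univ_pi fun _ => measurableSet_Ico).nullMeasurableSet, Real.volume_pi_Ico]
  simp only [add_sub_cancel_left, Finset.prod_const, Finset.card_univ, Fintype.card_fin]
  rw [ENNReal.ofReal_pow hh.le]

lemma cell_disj {h : ℝ} (hh : 0 < h) {c c' : Fin d → Fin m} (hne : c ≠ c') :
    Disjoint (cell h c) (cell h c') := by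
  rw [Set.disjoint_left]
  intro x hx hx'
  apply hne
  funext k
  have h1 := hx k
  have h2 := hx' k
  have h3 : ((c k : ℕ) : ℝ) < (c' k : ℕ) + 1 := by
    have : ((c k : ℕ) : ℝ) * h < ((c' k : ℕ) + 1) * h := by nlinarith [h1.1, h2.2]
    exact lt_of_mul_lt_mul_right this hh.le
  have h4 : ((c' k : ℕ) : ℝ) < (c k : ℕ) + 1 := by
    have : ((c' k : ℕ) : ℝ) * h < ((c k : ℕ) + 1) * h := by nlinarith [h2.1, h1.2]
    exact lt_of_mul_lt_mul_right this hh.le
  have h5 : (c k : ℕ) < (c' k : ℕ) + 1 := by exact_mod_cast h3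
  have h6 : (c' k : ℕ) < (c k : ℕ) + 1 := by exact_mod_cast h4
  apply Fin.ext
  omega

lemma norm_le_of_abs {h : ℝ} (hh : 0 ≤ h) (p : ES d) (hp : ∀ k, |p k| ≤ h) : ‖p‖ ≤ √d * h := by
  rw [EuclideanSpace.norm_eq]
  have h1 : ∑ k, ‖p k‖ ^ 2 ≤ d * h ^ 2 := by
    have : ∀ k ∈ (Finset.univ : Finset (Fin d)), ‖p k‖ ^ 2 ≤ h ^ 2 := fun k _ =>
      pow_le_pow_left₀ (norm_nonneg _) (hp k) 2
    have h2 := Finset.sum_le_card_nsmul _ _ _ this
    simpa using h2
  calc √(∑ k, ‖p k‖ ^ 2) ≤ √(d * h ^ 2) := Real.sqrt_le_sqrt h1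
    _ = √d * h := by rw [Real.sqrt_mul (Nat.cast_nonneg _), Real.sqrt_sq hh]

lemma cell_sub {h : ℝ} (hh : 0 < h) {c : Fin d → Fin m} {x : ES d} (hx : x ∈ cell h c) (k : Fin d) :
    0 ≤ (x - corner h c) k ∧ (x - corner h c) k < h := by
  have h1 := hx k
  rw [PiLp.sub_apply, corner_apply]
  constructor
  · linarith [h1.1]
  · linarith [h1.2]

lemma cell_corner {h : ℝ} (hh : 0 < h) {c : Fin d → Fin m} {x : ES d} (hx : x ∈ cell h c) :
    ‖x - corner h c‖ ≤ √d * h := by
  refine norm_le_of_abs hh.le _ fun k => ?_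
  have := cell_sub hh hx k
  rw [abs_of_nonneg this.1]
  exact this.2.le

lemma cell_dist {h : ℝ} (hh : 0 < h) {c c' : Fin d → Fin m} {x x' : ES d} (hx : x ∈ cell h c)
    (hx' : x' ∈ cell h c') :
    ‖(x - x') - (corner h c - corner h c')‖ ≤ √d * h := by
  refine norm_le_of_abs hh.le _ fun k => ?_
  have h1 := cell_sub hh hx k
  have h2 := cell_sub hh hx' k
  have h3 : ((x - x') - (corner h c - corner h c')) k =
      (x - corner h c) k - (x' - corner h c') k := by
    simp only [PiLp.sub_apply]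
    ring
  rw [h3, abs_le]
  constructor <;> linarith [h1.1, h1.2, h2.1, h2.2]

lemma near_iff {h s : ℝ} (hs : 0 < s) (c c' : Fin d → Fin m) :
    near h s c c' ↔ ‖corner h c - corner h c'‖ < s := by
  rw [norm_lt_iff_sum _ hs]
  unfold near
  simp only [PiLp.sub_apply, corner_apply]
  constructor
  · rintro (rfl | h1)
    · have : (0 : ℝ) < s ^ 2 := by positivity
      simpa using this
    · exact h1
  · exact Or.inr

lemma near_refl (h s : ℝ) (c : Fin d → Fin m) : near h s c c := Or.inl rfl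

lemma near_symm {h s : ℝ} (c c' : Fin d → Fin m) (hn : near h s c c') : near h s c' c := by
  rcases hn with rfl | h1
  · exact Or.inl rfl
  · right
    refine lt_of_eq_of_lt (Finset.sum_congr rfl fun k _ => ?_) h1
    ring

/-- the union of the cells -/
def cells (h : ℝ) (U : Finset (Fin d → Fin m)) : Set (ES d) := ⋃ c ∈ U, cell h c

lemma cells_meas (h : ℝ) (U : Finset (Fin d → Fin m)) : MeasurableSet (cells h U) :=
  Finset.measurableSet_biUnion _ fun c _ => cell_meas h c

lemma cells_vol {h : ℝ} (hh : 0 < h) (U : Finset (Fin d → Fin m)) :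
    (volume (cells h U)).toReal = U.card * h ^ d := by
  unfold cells
  rw [measure_biUnion_finset (fun c _ c' _ hne => cell_disj hh hne) (fun c _ => cell_meas h c)]
  simp_rw [cell_vol hh]
  rw [Finset.sum_const, nsmul_eq_mul, ENNReal.toReal_mul, ENNReal.toReal_natCast,
    ENNReal.toReal_ofReal (by positivity)]

lemma cells_vol_lt {h : ℝ} (hh : 0 < h) (U : Finset (Fin d → Fin m)) :
    volume (cells h U) < ⊤ := by
  unfold cells
  rw [measure_biUnion_finset (fun c _ c' _ hne => cell_disj hh hne) (fun c _ => cell_meas h c)]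
  simp_rw [cell_vol hh]
  rw [Finset.sum_const, nsmul_eq_mul]
  exact ENNReal.mul_lt_top (ENNReal.natCast_lt_top _) ENNReal.ofReal_lt_top

open Classical in
/-- closed neighbourhoods are not large -/
theorem card_near_le (s h : ℝ) (hh : 0 < h) (hs : 0 < s)
    (v : Fin d → Fin m) :
    ((Finset.univ.filter (fun u : Fin d → Fin m => near h s v u)).card : ℝ) * h ^ d ≤
      bv d (s + √d * h) := by
  rw [← cells_vol hh, bv_eq d (by positivity)]
  rw [← Measure.addHaar_ball_center volume (corner h v)]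
  refine ENNReal.toReal_mono measure_ball_lt_top.ne (measure_mono ?_)
  intro x hx
  unfold cells at hx
  simp only [Finset.mem_filter, Finset.mem_univ, true_and, mem_iUnion, exists_prop] at hx
  obtain ⟨u, hu, hxu⟩ := hx
  rw [near_iff hs] at hu
  have h1 := cell_corner hh hxu
  rw [Metric.mem_ball, dist_eq_norm]
  have h2 : x - corner h v = (x - corner h u) - (corner h v - corner h u) := by abel
  calc ‖x - corner h v‖ ≤ ‖x - corner h u‖ + ‖corner h v - corner h u‖ := by
        rw [h2]; exact norm_sub_le _ _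
    _ < s + √d * h := by linarith

end Pool.Agent.K4H61.HS
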