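import Mathlib

/-!
Definitions for the mean field theorem for hard spheres in high dimension (MP_09cbbd_mp).
-/

set_option autoImplicit false
open MeasureTheory Finset

namespace Pool.Agent.K4H61.HS

/-- volume of the open euclidean ball of radius `r` in `ℝ^d` -/
noncomputable def bv (d : ℕ) (r : ℝ) : ℝ :=
  (volume {x : Fin d → ℝ | ∑ k, x k ^ 2 < r ^ 2}).toReal

/-- the exponent in the bound for the normalised Fourier transform of the ball -/
noncomputable def Phi (d : ℕ) (t : ℝ) : ℝ :=
  t ^ 2 / (2 * (d + 2)) + t ^ 4 / (4 * (d + 2) ^ 2 * (d + 4)) +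
    t ^ 6 / (3 * (d + 2) ^ 3 * (d + 4) * (d + 6))

/-- (minus) the lower bound of the normalised Fourier transform of the ball -/
noncomputable def eps (d : ℕ) : ℝ := 3 / 2 * Real.exp (-Phi d (d / 2))

/-- the configurations of `N` points of the cube `[0,L]^d` with mutual distances at least `r` -/
def config (d : ℕ) (r L : ℝ) (N : ℕ) : Set (Fin N → Fin d → ℝ) :=
  {x | (∀ i k, x i k ∈ Set.Icc (0 : ℝ) L) ∧ ∀ i j, i ≠ j → r ^ 2 ≤ ∑ k, (x i k - x j k) ^ 2}

/-- independent sets: `¬ R u v` for distinct `u`, `v` in `I` -/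
def Ind {X : Type} (R : X → X → Prop) (I : Finset X) : Prop :=
  ∀ u ∈ I, ∀ v ∈ I, u ≠ v → ¬ R u v

open Classical in
/-- the number of independent subsets of `U` with `k` elements -/
noncomputable def ic {X : Type} (R : X → X → Prop) (U : Finset X) (k : ℕ) : ℕ :=
  ((U.powersetCard k).filter (Ind R)).card

/-- the relation (equal or at distance less than `s`) between the cells `c h + [0,h)^d` -/
def near {d m : ℕ} (h s : ℝ) (c c' : Fin d → Fin m) : Prop :=
  c = c' ∨ ∑ k, (((c k : ℕ) : ℝ) * h - ((c' k : ℕ) : ℝ) * h) ^ 2 < s ^ 2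

end Pool.Agent.K4H61.HS
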