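import Pool.Agent.K4H61.HS.Gc2
import Pool.Agent.K4H61.HS.Comb

/-!
Combination of the two methods: lower bound for the number of independent sets of given size.
-/

set_option autoImplicit false
set_option maxHeartbeats 4000000
open Finset

namespace Pool.Agent.K4H61.HS

/-- the upper bound of Kleitman and Winston for the terms of the partition function -/
noncomputable def AK (q s n w : ℝ) (M : ℕ) : ℝ :=
  q ^ (M.choose 2) * ((n + th q s M) * w) ^ M / (M.factorial : ℝ)

lemma choose_two_cast (M : ℕ) : ((M.choose 2 : ℕ) : ℝ) = M * (M - 1) / 2 := Nat.cast_choose_two ℝ M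

lemma fact_lower (M : ℕ) (hM : 1 ≤ M) : 1 / (M.factorial : ℝ) ≤ (Real.exp 1 / M) ^ M := by
  have hM0 : (0 : ℝ) < M := by exact_mod_cast hM
  have h1 := Real.pow_div_factorial_le_exp (M : ℝ) hM0.le M
  rw [div_pow, ← Real.exp_nat_mul, mul_one]
  rw [div_le_div_iff₀ (by positivity) (by positivity), one_mul]
  rw [div_le_iff₀ (by positivity)] at h1
  exact h1

lemma th_bound {q s T : ℝ} (hq0 : 0 < q) (hq1 : q < 1) (hs : 0 ≤ s) (M : ℕ)
    (hM : M * ((1 - q) / q) ≤ T) : th q s M ≤ (1 + s) / (1 - q) * Real.exp T := by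
  rw [th_eq hq0 hq1]
  have h1 : (1 / q) ^ M ≤ Real.exp T := by
    have h2 : 1 / q ≤ Real.exp ((1 - q) / q) := by
      have := Real.add_one_le_exp ((1 - q) / q)
      have h3 : (1 - q) / q + 1 = 1 / q := by field_simp; ring
      linarith
    calc (1 / q) ^ M ≤ Real.exp ((1 - q) / q) ^ M := pow_le_pow_left₀ (by positivity) h2 M
      _ = Real.exp (M * ((1 - q) / q)) := by rw [← Real.exp_nat_mul]
      _ ≤ Real.exp T := Real.exp_le_exp.2 hM
  have h0 : 0 < 1 - q := by linarith
  rw [div_mul_eq_mul_div]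
  refine div_le_div_of_nonneg_right ?_ h0.le
  have h4 : 0 ≤ (1 / q) ^ M := by positivity
  calc (q + s) * ((1 / q) ^ M - 1) ≤ (q + s) * Real.exp T := by
        refine mul_le_mul_of_nonneg_left (by linarith) (by linarith)
    _ ≤ (1 + s) * Real.exp T := by
        refine mul_le_mul_of_nonneg_right (by linarith) (Real.exp_pos _).le

lemma AK_le {q s n D θ β τ T : ℝ} (hq0 : 0 < q) (hq1 : q < 1) (hs : 0 ≤ s) (hn : 0 < n)
    (hD : 0 < D) (hκD : (1 - q) * n ≤ D) (hθ : 0 < θ) (hβ : 0 ≤ β)
    (ha : T * (β + (1 + s) / ((1 - q) * n) * Real.exp (T + 1)) + (1 - (1 - q) * n / D) * T ^ 2 / 2 +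
      (1 - q) * T / 2 ≤ τ ^ 2 / 4)
    (hκT : T * ((1 - q) / q) ≤ 1) (M : ℕ) (hM : M * D / n ≤ T) :
    AK q s n (θ * Real.exp (θ + β) / D) M ≤
      Real.exp (n / D * (θ + θ ^ 2 / 2 - (M * D / n - θ) ^ 2 / 2 + τ ^ 2 / 4)) := by
  have hκ0 : 0 < 1 - q := by linarith
  set x : ℝ := M * D / n with hx
  have hx0 : 0 ≤ x := by rw [hx]; positivity
  have hT0 : 0 ≤ T := hx0.trans hM
  have hMx : (M : ℝ) = x * n / D := by rw [hx]; field_simp
  rcases Nat.eq_zero_or_pos M with hM0 | hMpos
  · have h1 : AK q s n (θ * Real.exp (θ + β) / D) M = 1 := by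
      unfold AK; rw [hM0]; simp
    rw [h1]
    refine Real.one_le_exp ?_
    have hx1 : x = 0 := by rw [hx, hM0]; simp
    rw [hx1]
    have : θ + θ ^ 2 / 2 - (0 - θ) ^ 2 / 2 + τ ^ 2 / 4 = θ + τ ^ 2 / 4 := by ring
    rw [this]
    positivity
  have hMr : (0 : ℝ) < M := by exact_mod_cast hMpos
  have hxp : 0 < x := by rw [hx]; positivity
  -- bound for th
  have hMq : M * ((1 - q) / q) ≤ T + 1 := by
    have h1 : M * ((1 - q) / q) = x * ((1 - q) * n / D) / q := by
      rw [hMx]; field_simp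
    have h2 : (1 - q) * n / D ≤ 1 := by rw [div_le_one hD]; exact hκD
    have h3 : x * ((1 - q) * n / D) ≤ T * 1 := by
      have : 0 ≤ (1 - q) * n / D := by positivity
      exact mul_le_mul hM h2 this hT0
    have h4 : T / q = T + T * ((1 - q) / q) := by field_simp; ring
    rw [h1]
    calc x * ((1 - q) * n / D) / q ≤ T * 1 / q := by gcongr
      _ = T + T * ((1 - q) / q) := by rw [mul_one, h4]
      _ ≤ T + 1 := by linarith
  have hth := th_bound hq0 hq1 hs M hMq
  have hth0 : 0 ≤ th q s M := th_nonneg hq0 hs M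
  set E := (1 + s) / ((1 - q) * n) * Real.exp (T + 1) with hE
  have hthn : th q s M / n ≤ E := by
    rw [hE, div_le_iff₀ hn]
    refine hth.trans (le_of_eq ?_)
    field_simp
  have hE0 : 0 ≤ E := by rw [hE]; positivity
  -- the three factors
  have f1 : q ^ (M.choose 2) ≤ Real.exp (-((1 - q) * (M * (M - 1) / 2))) := by
    have h1 : q ≤ Real.exp (-(1 - q)) := by
      have := Real.add_one_le_exp (-(1 - q)); linarith
    calc q ^ (M.choose 2) ≤ Real.exp (-(1 - q)) ^ (M.choose 2) := pow_le_pow_left₀ hq0.le h1 _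
      _ = Real.exp (-((1 - q) * (M * (M - 1) / 2))) := by
        rw [← Real.exp_nat_mul, choose_two_cast]
        congr 1; ring
  have f2 : (n + th q s M) * (θ * Real.exp (θ + β) / D) / M ≤
      Real.exp (E + (θ + β) + (θ / x - 1)) := by
    have h1 : (n + th q s M) * (θ * Real.exp (θ + β) / D) / M =
        (1 + th q s M / n) * Real.exp (θ + β) * (θ / x) := by
      rw [hMx]; field_simp
    have e1 : Real.exp (E + (θ + β) + (θ / x - 1)) =
        Real.exp E * Real.exp (θ + β) * Real.exp (θ / x - 1) := by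
      rw [Real.exp_add, Real.exp_add E]
    rw [h1, e1]
    have h2 : 1 + th q s M / n ≤ Real.exp E := by
      have := Real.add_one_le_exp E; linarith
    have h3 : θ / x ≤ Real.exp (θ / x - 1) := by
      have := Real.add_one_le_exp (θ / x - 1); linarith
    have h4 : 0 ≤ θ / x := by positivity
    have h5 : 0 ≤ 1 + th q s M / n := by positivity
    gcongr
  have f3 := fact_lower M hMpos
  have hw0 : 0 ≤ (n + th q s M) * (θ * Real.exp (θ + β) / D) := by positivity
  have h1 : AK q s n (θ * Real.exp (θ + β) / D) M ≤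
      Real.exp (-((1 - q) * (M * (M - 1) / 2))) *
        (((n + th q s M) * (θ * Real.exp (θ + β) / D)) ^ M * (Real.exp 1 / M) ^ M) := by
    unfold AK
    rw [mul_div_assoc, div_eq_mul_one_div (((n + th q s M) * (θ * Real.exp (θ + β) / D)) ^ M)]
    gcongr
  refine h1.trans ?_
  have h2 : ((n + th q s M) * (θ * Real.exp (θ + β) / D)) ^ M * (Real.exp 1 / M) ^ M =
      ((n + th q s M) * (θ * Real.exp (θ + β) / D) / M * Real.exp 1) ^ M := by
    rw [← mul_pow]
    congr 1
    field_simp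
  rw [h2]
  have h3 : ((n + th q s M) * (θ * Real.exp (θ + β) / D) / M * Real.exp 1) ^ M ≤
      Real.exp (M * (E + (θ + β) + (θ / x - 1) + 1)) := by
    rw [Real.exp_nat_mul, Real.exp_add (E + (θ + β) + (θ / x - 1)) 1]
    refine pow_le_pow_left₀ (by positivity) ?_ M
    gcongr
  calc Real.exp (-((1 - q) * (M * (M - 1) / 2))) *
      ((n + th q s M) * (θ * Real.exp (θ + β) / D) / M * Real.exp 1) ^ M ≤
      Real.exp (-((1 - q) * (M * (M - 1) / 2))) *
        Real.exp (M * (E + (θ + β) + (θ / x - 1) + 1)) := by gcongr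
    _ = Real.exp (-((1 - q) * (M * (M - 1) / 2)) + M * (E + (θ + β) + (θ / x - 1) + 1)) := by
        rw [← Real.exp_add]
    _ ≤ Real.exp (n / D * (θ + θ ^ 2 / 2 - (x - θ) ^ 2 / 2 + τ ^ 2 / 4)) := by
        refine Real.exp_le_exp.2 ?_
        have h4 : -((1 - q) * (M * (M - 1) / 2)) + M * (E + (θ + β) + (θ / x - 1) + 1) =
            n / D * (θ + θ ^ 2 / 2 - (x - θ) ^ 2 / 2 +
              (x * (β + E) + (1 - (1 - q) * n / D) * x ^ 2 / 2 + (1 - q) * x / 2)) := by
          rw [hMx]
          field_simp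
          ring
        rw [h4]
        refine mul_le_mul_of_nonneg_left ?_ (by positivity)
        have h5 : x * (β + E) ≤ T * (β + E) := mul_le_mul_of_nonneg_right hM (by linarith)
        have h6 : 0 ≤ 1 - (1 - q) * n / D := by
          have : (1 - q) * n / D ≤ 1 := by rw [div_le_one hD]; exact hκD
          linarith
        have h7 : (1 - (1 - q) * n / D) * x ^ 2 / 2 ≤ (1 - (1 - q) * n / D) * T ^ 2 / 2 := by
          have : x ^ 2 ≤ T ^ 2 := pow_le_pow_left₀ hx0 hM 2
          have := mul_le_mul_of_nonneg_left this h6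
          linarith
        have h8 : (1 - q) * x / 2 ≤ (1 - q) * T / 2 := by
          have := mul_le_mul_of_nonneg_left hM hκ0.le
          linarith
        linarith

lemma AK_tail {q s n w : ℝ} (hq0 : 0 < q) (hs : 0 ≤ s) (hn : 0 < n) (hw : 0 < w) (M K : ℕ)
    (h6 : q ^ M * ((n + th q s M) * w) ≤ M + 1) :
    q ^ (M.choose 2 + M * K) * (n + th q s M) ^ (M + K) / ((M + K).factorial : ℝ) * w ^ (M + K) ≤
      AK q s n w M := by
  have hth0 : 0 ≤ th q s M := th_nonneg hq0 hs M
  have hfac : (M.factorial : ℝ) * ((M : ℝ) + 1) ^ K ≤ ((M + K).factorial : ℝ) := by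
    exact_mod_cast Nat.factorial_mul_pow_le_factorial
  set b := (n + th q s M) * w with hb
  have hb0 : 0 < b := by positivity
  have h1 : q ^ (M.choose 2 + M * K) * (n + th q s M) ^ (M + K) / ((M + K).factorial : ℝ) *
      w ^ (M + K) = q ^ (M.choose 2) * b ^ M * (q ^ M * b) ^ K / ((M + K).factorial : ℝ) := by
    rw [pow_add q, pow_mul, mul_pow (q ^ M), div_mul_eq_mul_div]
    congr 1
    have : (n + th q s M) ^ (M + K) * w ^ (M + K) = b ^ M * b ^ K := by
      rw [← mul_pow, ← hb, pow_add]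
    rw [mul_assoc, this]
    ring
  rw [h1]
  unfold AK
  rw [← hb]
  have h2 : (q ^ M * b) ^ K ≤ ((M : ℝ) + 1) ^ K := pow_le_pow_left₀ (by positivity) h6 K
  rw [div_le_div_iff₀ (by positivity) (by positivity)]
  calc q ^ (M.choose 2) * b ^ M * (q ^ M * b) ^ K * (M.factorial : ℝ) ≤
      q ^ (M.choose 2) * b ^ M * ((M : ℝ) + 1) ^ K * (M.factorial : ℝ) := by gcongr
    _ = q ^ (M.choose 2) * b ^ M * ((M.factorial : ℝ) * ((M : ℝ) + 1) ^ K) := by ring
    _ ≤ q ^ (M.choose 2) * b ^ M * ((M + K).factorial : ℝ) := by gcongr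

open Classical in
/-- **Lower bound for the number of independent sets of size `N`.** -/
theorem fin_lower {X : Type} [Fintype X] (R : X → X → Prop) (hrefl : ∀ u, R u u)
    (hsymm : ∀ u v, R u v → R v u) (hX : 0 < Fintype.card X) (D κP γ q s β τ T : ℝ) (N : ℕ)
    (hN : 1 ≤ N) (hD0 : 0 < D) (hD : ∀ v, ((univ.filter (fun u => R v u)).card : ℝ) ≤ D)
    (hκP : ∀ v, ∀ T ⊆ univ.filter (fun u => R v u),
      (((T ×ˢ T).filter (fun p => R p.1 p.2)).card : ℝ) ≤ κP * T.card)
    (hκP0 : 0 ≤ κP) (hγ1 : 1 ≤ γ) (hβγ : β = (γ - 1) * (N * D / Fintype.card X + τ))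
    (hq0 : 0 < q) (hq1 : q < 1) (hs : 0 ≤ s)
    (hKW : ∀ U : Finset X, U.Nonempty → ∃ v ∈ U,
      (1 - q) * U.card - s ≤ ((U.filter (fun u => R v u)).card : ℝ))
    (hκD : (1 - q) * Fintype.card X ≤ D) (hτ : 0 < τ) (hτ1 : τ ≤ 1)
    (hDn : D / Fintype.card X ≤ τ) (hT : T = N * D / Fintype.card X + 3 * τ)
    (ha : T * (β + (1 + s) / ((1 - q) * Fintype.card X) * Real.exp (T + 1)) +
      (1 - (1 - q) * Fintype.card X / D) * T ^ 2 / 2 + (1 - q) * T / 2 ≤ τ ^ 2 / 4)
    (hκT : T * ((1 - q) / q) ≤ 1)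
    (hH2 : 1 ≤ (1 - (N * D / Fintype.card X + τ) *
      Real.exp (γ * (N * D / Fintype.card X + τ)) / D * κP) * γ)
    (hH4 : ((Fintype.card X : ℝ) + 1) * Real.exp (-(Fintype.card X / D * (τ ^ 2 / 4))) ≤ 1 / 2) :
    0 < ic R univ N ∧
    -(N * D / Fintype.card X) ^ 2 / 2 - N * D / Fintype.card X * β
      - 3 * τ ^ 2 / (N * D / Fintype.card X) - 3 * τ * (N * D / Fintype.card X + τ + β)
      - D / Fintype.card X * Real.log (4 * Fintype.card X) ≤
      D / Fintype.card X *
        Real.log (ic R univ N * (N.factorial : ℝ) / (Fintype.card X : ℝ) ^ N) := by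
  set n : ℝ := (Fintype.card X : ℝ) with hn'
  have hn0 : 0 < n := by rw [hn']; exact_mod_cast hX
  have hn1 : 1 ≤ n := by rw [hn']; exact_mod_cast hX
  have hNr : (0 : ℝ) < N := by exact_mod_cast hN
  set x : ℝ := N * D / n with hx
  have hx0 : 0 < x := by rw [hx]; positivity
  set θ : ℝ := x + τ with hθ
  have hθ0 : 0 < θ := by rw [hθ]; positivity
  have hκ0 : 0 < 1 - q := by linarith
  have hβ : 0 ≤ β := by
    rw [hβγ]
    exact mul_nonneg (by linarith) hθ0.le
  have hγθ : γ * θ = θ + β := by rw [hβγ]; ring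
  set w : ℝ := θ * Real.exp (θ + β) / D with hw
  have hw0 : 0 < w := by rw [hw]; positivity
  set Ξ := Xi R univ w with hΞ'
  have hΞ0 : 0 < Ξ := Xi_pos R univ hw0.le
  have hΞ : n / D * (θ + θ ^ 2 / 2) ≤ Real.log Ξ := by
    have := log_Xi_ge R hrefl hsymm κP γ D hD0 hD hκP hκP0 hγ1 hX θ hθ0.le hH2
    rw [hγθ] at this
    exact this
  have hΞe : Real.exp (n / D * (θ + θ ^ 2 / 2)) ≤ Ξ := by
    rw [← Real.exp_log hΞ0]; exact Real.exp_le_exp.2 hΞ
  have hkw := kw R hrefl q s hq0 hs univ (fun U _ hU => by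
    obtain ⟨v, hv, hv2⟩ := hKW U hU
    exact ⟨v, hv, hv2⟩)
  set M1 : ℕ := ⌈(θ + τ) * n / D⌉₊ with hM1
  have hM1a : (θ + τ) * n / D ≤ M1 := Nat.le_ceil _
  have hM1b : (M1 : ℝ) < (θ + τ) * n / D + 1 := Nat.ceil_lt_add_one (by positivity)
  set x1 : ℝ := M1 * D / n with hx1
  have hx1a : θ + τ ≤ x1 := by
    rw [hx1, le_div_iff₀ hn0]
    rw [div_le_iff₀ hD0] at hM1a
    exact hM1a
  have hx1b : x1 ≤ T := by
    have h1 : x1 ≤ ((θ + τ) * n / D + 1) * D / n := by
      rw [hx1]; gcongr
    have h2 : ((θ + τ) * n / D + 1) * D / n = θ + τ + D / n := by field_simp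
    rw [h2] at h1
    rw [hT, hθ] at *
    linarith
  have hNM1 : N ≤ M1 := by
    have h1 : (N : ℝ) ≤ (θ + τ) * n / D := by
      rw [le_div_iff₀ hD0]
      have : (N : ℝ) * D = x * n := by rw [hx]; field_simp
      rw [this, hθ]
      nlinarith
    exact_mod_cast h1.trans hM1a
  -- the sizes outside of the window
  set Y := Real.exp (n / D * (θ + θ ^ 2 / 2 - τ ^ 2 / 4)) with hY
  have hAK : ∀ M : ℕ, M * D / n ≤ T → τ ≤ |M * D / n - θ| → AK q s n w M ≤ Y := by
    intro M hM hMθ
    refine (AK_le hq0 hq1 hs hn0 hD0 hκD hθ0 hβ ha hκT M hM).trans ?_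
    rw [hY]
    refine Real.exp_le_exp.2 (mul_le_mul_of_nonneg_left ?_ (by positivity))
    have h1 : τ ^ 2 ≤ (M * D / n - θ) ^ 2 := by
      rw [← sq_abs (M * D / n - θ)]
      exact pow_le_pow_left₀ hτ.le hMθ 2
    linarith
  have hT3 : 3 * τ ≤ T := by rw [hT]; linarith
  have hT0 : 0 < T := by linarith
  set E := (1 + s) / ((1 - q) * n) * Real.exp (T + 1) with hE
  have hE0 : 0 ≤ E := by rw [hE]; positivity
  have hδ0 : 0 ≤ 1 - (1 - q) * n / D := by
    have : (1 - q) * n / D ≤ 1 := by rw [div_le_one hD0]; exact hκD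
    linarith
  have hlow : ∀ M : ℕ, M < N → (ic R univ M : ℝ) * w ^ M ≤ Y := by
    intro M hM
    have h1 := hkw M 0 univ (Subset.refl _)
    simp only [add_zero, mul_zero, card_univ] at h1
    rw [← hn'] at h1
    have h2 : (ic R univ M : ℝ) * w ^ M ≤ AK q s n w M := by
      unfold AK
      rw [mul_pow, ← mul_assoc, div_eq_mul_inv, mul_right_comm, ← div_eq_mul_inv]
      exact mul_le_mul_of_nonneg_right h1 (by positivity)
    refine h2.trans (hAK M ?_ ?_)
    · have h3 : (M : ℝ) * D / n ≤ x := by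
        rw [hx]
        have : (M : ℝ) ≤ N := by exact_mod_cast hM.le
        gcongr
      rw [hT]; linarith
    · have h3 : (M : ℝ) * D / n ≤ x := by
        rw [hx]
        have : (M : ℝ) ≤ N := by exact_mod_cast hM.le
        gcongr
      rw [abs_sub_comm]
      refine le_trans ?_ (le_abs_self _)
      rw [hθ]; linarith
  have h6 : q ^ M1 * ((n + th q s M1) * w) ≤ M1 + 1 := by
    have g1 : q ^ M1 ≤ Real.exp (-((1 - q) * M1)) := by
      have h1 : q ≤ Real.exp (-(1 - q)) := by
        have := Real.add_one_le_exp (-(1 - q)); linarith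
      calc q ^ M1 ≤ Real.exp (-(1 - q)) ^ M1 := pow_le_pow_left₀ hq0.le h1 _
        _ = Real.exp (-((1 - q) * M1)) := by rw [← Real.exp_nat_mul]; congr 1; ring
    have g2 : q ^ M1 * th q s M1 ≤ (1 + s) / (1 - q) := by
      rw [th_eq hq0 hq1]
      have h1 : q ^ M1 * ((q + s) * ((1 / q) ^ M1 - 1) / (1 - q)) =
          (q + s) * (1 - q ^ M1) / (1 - q) := by
        have : q ^ M1 * (1 / q) ^ M1 = 1 := by rw [← mul_pow]; rw [mul_one_div_cancel hq0.ne']; simp
        calc q ^ M1 * ((q + s) * ((1 / q) ^ M1 - 1) / (1 - q)) =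
            (q + s) * (q ^ M1 * (1 / q) ^ M1 - q ^ M1) / (1 - q) := by ring
          _ = _ := by rw [this]
      rw [h1]
      refine div_le_div_of_nonneg_right ?_ hκ0.le
      have h2 : 0 < q ^ M1 := by positivity
      have h3 : 0 < (q + s) * q ^ M1 := by positivity
      have h4 : (q + s) * (1 - q ^ M1) = q + s - (q + s) * q ^ M1 := by ring
      linarith
    -- smallness
    have hTE : T * (β + E) ≤ τ ^ 2 / 4 := by
      have h1 : 0 ≤ (1 - (1 - q) * n / D) * T ^ 2 / 2 := by positivity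
      have h2 : 0 ≤ (1 - q) * T / 2 := by positivity
      linarith
    have hTδ : (1 - (1 - q) * n / D) * T ^ 2 / 2 ≤ τ ^ 2 / 4 := by
      have h1 : 0 ≤ T * (β + E) := by positivity
      have h2 : 0 ≤ (1 - q) * T / 2 := by positivity
      linarith
    have hβτ : β ≤ τ / 12 := by
      have h1 : 3 * τ * β ≤ τ ^ 2 / 4 := by
        calc 3 * τ * β ≤ T * β := mul_le_mul_of_nonneg_right hT3 hβ
          _ ≤ T * (β + E) := mul_le_mul_of_nonneg_left (by linarith) hT0.le
          _ ≤ τ ^ 2 / 4 := hTE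
      by_contra hcon
      push Not at hcon
      nlinarith
    have hδT : (1 - (1 - q) * n / D) * T ≤ τ / 6 := by
      by_contra hcon
      push Not at hcon
      have h1 : τ / 6 * (3 * τ) < (1 - (1 - q) * n / D) * T * T := by
        calc τ / 6 * (3 * τ) < (1 - (1 - q) * n / D) * T * (3 * τ) :=
              mul_lt_mul_of_pos_right hcon (by positivity)
          _ ≤ (1 - (1 - q) * n / D) * T * T :=
              mul_le_mul_of_nonneg_left hT3 (by positivity)
      nlinarith
    have hκM1 : (1 - (1 - (1 - q) * n / D)) * (θ + τ) ≤ (1 - q) * M1 := by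
      have h1 : (1 - q) * M1 = (1 - q) * n / D * x1 := by rw [hx1]; field_simp
      rw [h1]
      have h2 : (1 - (1 - (1 - q) * n / D)) = (1 - q) * n / D := by ring
      rw [h2]
      exact mul_le_mul_of_nonneg_left hx1a (by positivity)
    have hθT : θ + τ ≤ T := by linarith
    have g3 : θ + β - (1 - q) * M1 ≤ 0 := by
      have h1 : (1 - (1 - q) * n / D) * (θ + τ) ≤ (1 - (1 - q) * n / D) * T :=
        mul_le_mul_of_nonneg_left hθT hδ0
      have h2 : (1 - (1 - (1 - q) * n / D)) * (θ + τ) =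
        (θ + τ) - (1 - (1 - q) * n / D) * (θ + τ) := by ring
      linarith
    have g4 : q ^ M1 * (n * w) ≤ n / D * θ := by
      have h1 : n * w = n / D * θ * Real.exp (θ + β) := by rw [hw]; ring
      rw [h1]
      calc q ^ M1 * (n / D * θ * Real.exp (θ + β)) ≤
          Real.exp (-((1 - q) * M1)) * (n / D * θ * Real.exp (θ + β)) := by gcongr
        _ = n / D * θ * Real.exp (θ + β - (1 - q) * M1) := by
            have e1 : Real.exp (θ + β - (1 - q) * M1) =
                Real.exp (θ + β) * Real.exp (-((1 - q) * M1)) := by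
              rw [← Real.exp_add]; congr 1
            rw [e1]; ring
        _ ≤ n / D * θ * 1 := by
            refine mul_le_mul_of_nonneg_left (Real.exp_le_one_iff.2 g3) (by positivity)
        _ = n / D * θ := mul_one _
    have g5 : q ^ M1 * (th q s M1 * w) ≤ n / D * τ := by
      have h1 : q ^ M1 * (th q s M1 * w) ≤ (1 + s) / (1 - q) * w := by
        rw [← mul_assoc]
        exact mul_le_mul_of_nonneg_right g2 hw0.le
      refine h1.trans ?_
      have h2 : (1 + s) / (1 - q) * w = n / D * (θ * ((1 + s) / ((1 - q) * n) *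
          Real.exp (θ + β))) := by
        rw [hw]; field_simp
      rw [h2]
      refine mul_le_mul_of_nonneg_left ?_ (by positivity)
      have h3 : θ * ((1 + s) / ((1 - q) * n) * Real.exp (θ + β)) ≤ T * E := by
        rw [hE]
        have h4 : θ ≤ T := by linarith
        have h5 : θ + β ≤ T + 1 := by linarith
        have h6 := Real.exp_le_exp.2 h5
        gcongr
      have h4 : T * E ≤ τ ^ 2 / 4 := by
        have h5 : T * (β + E) = T * β + T * E := by ring
        have h6 : 0 ≤ T * β := by positivity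
        linarith
      have h5 : τ ^ 2 ≤ τ := by nlinarith
      linarith
    have g6 : (n / D) * (θ + τ) ≤ M1 := by
      have : (n / D) * (θ + τ) = (θ + τ) * n / D := by ring
      rw [this]; exact hM1a
    calc q ^ M1 * ((n + th q s M1) * w) = q ^ M1 * (n * w) + q ^ M1 * (th q s M1 * w) := by ring
      _ ≤ n / D * θ + n / D * τ := add_le_add g4 g5
      _ = (n / D) * (θ + τ) := by ring
      _ ≤ M1 := g6
      _ ≤ M1 + 1 := by linarith
  have hhigh : ∀ M : ℕ, M1 ≤ M → (ic R univ M : ℝ) * w ^ M ≤ Y := by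
    intro M hM
    obtain ⟨K, rfl⟩ := Nat.exists_eq_add_of_le hM
    have h1 := hkw M1 K univ (Subset.refl _)
    rw [card_univ, ← hn'] at h1
    have h2 := mul_le_mul_of_nonneg_right h1 (by positivity : 0 ≤ w ^ (M1 + K))
    refine h2.trans ((AK_tail hq0 hs hn0 hw0 M1 K h6).trans (hAK M1 hx1b ?_))
    refine le_trans ?_ (le_abs_self _)
    rw [← hx1]; linarith
  -- the window
  set ratio := n * w / N with hratio
  have hratio1 : 1 ≤ ratio := by
    have h1 : ratio = θ / x * Real.exp (θ + β) := by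
      rw [hratio, hw, hx]; field_simp
    rw [h1]
    have h2 : 1 ≤ θ / x := by rw [one_le_div hx0]; rw [hθ]; linarith
    have h3 : 1 ≤ Real.exp (θ + β) := Real.one_le_exp (by linarith)
    nlinarith
  have hwin : ∀ M : ℕ, N ≤ M → (ic R univ M : ℝ) * w ^ M ≤
      (ic R univ N : ℝ) * w ^ N * ratio ^ (M - N) := by
    intro M hM
    induction M, hM using Nat.le_induction with
    | base => simp
    | succ M hM ih =>
      have h1 := ic_succ_le R M
      rw [← hn'] at h1
      have hMr : (N : ℝ) ≤ ((M + 1 : ℕ) : ℝ) := by exact_mod_cast hM.trans (Nat.le_succ M)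
      have hM1r : (0 : ℝ) < ((M + 1 : ℕ) : ℝ) := by positivity
      have h2 : (ic R univ (M + 1) : ℝ) ≤ n / ((M + 1 : ℕ) : ℝ) * ic R univ M := by
        rw [div_mul_eq_mul_div, le_div_iff₀ hM1r]
        linarith
      have h3 : n / ((M + 1 : ℕ) : ℝ) ≤ n / N := by gcongr
      have h4 : (ic R univ (M + 1) : ℝ) ≤ n / N * ic R univ M :=
        h2.trans (mul_le_mul_of_nonneg_right h3 (by positivity))
      have h5 : M + 1 - N = (M - N) + 1 := by omega
      calc (ic R univ (M + 1) : ℝ) * w ^ (M + 1) ≤ n / N * ic R univ M * w ^ (M + 1) := by gcongr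
        _ = ic R univ M * w ^ M * ratio := by rw [hratio, pow_succ]; ring
        _ ≤ (ic R univ N : ℝ) * w ^ N * ratio ^ (M - N) * ratio := by gcongr
        _ = (ic R univ N : ℝ) * w ^ N * ratio ^ (M + 1 - N) := by rw [h5, pow_succ]; ring
  have hsum : Ξ ≤ (n + 1) * Y + (n + 1) * ((ic R univ N : ℝ) * w ^ N * ratio ^ (M1 - N)) := by
    rw [hΞ', Xi_eq_sum]
    have h1 : ∀ M ∈ range (Fintype.card X + 1), (ic R univ M : ℝ) * w ^ M ≤
        Y + (ic R univ N : ℝ) * w ^ N * ratio ^ (M1 - N) := by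
      intro M _
      have hYp : 0 ≤ Y := (Real.exp_pos _).le
      have hZp : 0 ≤ (ic R univ N : ℝ) * w ^ N * ratio ^ (M1 - N) := by positivity
      rcases lt_or_ge M N with hM | hM
      · linarith [hlow M hM]
      · rcases le_or_gt M1 M with hM' | hM'
        · linarith [hhigh M hM']
        · have h2 := hwin M hM
          have h3 : ratio ^ (M - N) ≤ ratio ^ (M1 - N) :=
            pow_le_pow_right₀ hratio1 (by omega)
          have h4 : (ic R univ N : ℝ) * w ^ N * ratio ^ (M - N) ≤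
              (ic R univ N : ℝ) * w ^ N * ratio ^ (M1 - N) := by gcongr
          linarith
    refine (sum_le_card_nsmul _ _ _ h1).trans (le_of_eq ?_)
    rw [card_range, nsmul_eq_mul]
    push_cast
    rw [← hn']
    ring
  have hhalf : (n + 1) * Y ≤ Ξ / 2 := by
    have h1 : Y = Real.exp (-(n / D * (τ ^ 2 / 4))) * Real.exp (n / D * (θ + θ ^ 2 / 2)) := by
      rw [hY, ← Real.exp_add]; congr 1; ring
    rw [h1, ← mul_assoc]
    calc (n + 1) * Real.exp (-(n / D * (τ ^ 2 / 4))) * Real.exp (n / D * (θ + θ ^ 2 / 2)) ≤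
        1 / 2 * Ξ := by gcongr
      _ = Ξ / 2 := by ring
  have hmain : Ξ ≤ 2 * (n + 1) * ((ic R univ N : ℝ) * w ^ N * ratio ^ (M1 - N)) := by linarith
  have hicpos : 0 < (ic R univ N : ℝ) := by
    by_contra hcon
    have h1 : (ic R univ N : ℝ) = 0 := le_antisymm (not_lt.1 hcon) (by positivity)
    rw [h1] at hmain
    simp at hmain
    linarith
  refine ⟨by exact_mod_cast hicpos, ?_⟩
  have hratio0 : 0 < ratio := by linarith
  have hlog : Real.log Ξ ≤ Real.log (2 * (n + 1)) + (Real.log (ic R univ N : ℝ) +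
      N * Real.log w + ((M1 - N : ℕ) : ℝ) * Real.log ratio) := by
    have h1 := Real.log_le_log hΞ0 hmain
    have p1 : (2 * (n + 1)) ≠ 0 := by positivity
    have p2 : (ic R univ N : ℝ) * w ^ N * ratio ^ (M1 - N) ≠ 0 := by positivity
    have p3 : (ic R univ N : ℝ) * w ^ N ≠ 0 := by positivity
    have p4 : ratio ^ (M1 - N) ≠ 0 := by positivity
    have p5 : w ^ N ≠ 0 := by positivity
    rw [Real.log_mul p1 p2, Real.log_mul p3 p4, Real.log_mul hicpos.ne' p5, Real.log_pow,
      Real.log_pow] at h1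
    exact h1
  have hlogr : Real.log ratio ≤ τ / x + θ + β := by
    have h1 : ratio = θ / x * Real.exp (θ + β) := by
      rw [hratio, hw, hx]; field_simp
    rw [h1, Real.log_mul (by positivity) (by positivity), Real.log_exp]
    have h2 := Real.log_le_sub_one_of_pos (by positivity : 0 < θ / x)
    have h3 : θ / x - 1 = τ / x := by rw [hθ]; field_simp; ring
    linarith
  have hlogr0 : 0 ≤ Real.log ratio := Real.log_nonneg hratio1
  have hlogn : Real.log (2 * (n + 1)) ≤ Real.log (4 * n) :=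
    Real.log_le_log (by positivity) (by linarith)
  have hfacl : N * Real.log N - N ≤ Real.log (N.factorial : ℝ) := by
    have h1 := Real.pow_div_factorial_le_exp (N : ℝ) hNr.le N
    rw [div_le_iff₀ (by positivity)] at h1
    have h2 := Real.log_le_log (by positivity) h1
    rw [Real.log_mul (by positivity) (by positivity), Real.log_exp, Real.log_pow] at h2
    linarith
  have hlogratio : Real.log ratio = Real.log n + Real.log w - Real.log N := by
    rw [hratio, Real.log_div (by positivity) (by positivity),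
      Real.log_mul (by positivity) (by positivity)]
  have hlogj : Real.log (ic R univ N * (N.factorial : ℝ) / n ^ N) =
      Real.log (ic R univ N : ℝ) + Real.log (N.factorial : ℝ) - N * Real.log n := by
    rw [Real.log_div (by positivity) (by positivity), Real.log_mul (by positivity) (by positivity),
      Real.log_pow]
  have hgap : D / n * ((M1 - N : ℕ) : ℝ) ≤ 3 * τ := by
    rw [Nat.cast_sub hNM1, mul_sub]
    have h1 : D / n * M1 = x1 := by rw [hx1]; ring
    have h2 : D / n * N = x := by rw [hx]; ring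
    rw [h1, h2]
    linarith
  -- final computation
  have k1 : n / D * (θ + θ ^ 2 / 2) - Real.log (4 * n) -
      ((M1 - N : ℕ) : ℝ) * Real.log ratio - N * Real.log ratio - N ≤
      Real.log (ic R univ N * (N.factorial : ℝ) / n ^ N) := by
    rw [hlogj]
    have e1 : N * Real.log ratio = N * Real.log n + N * Real.log w - N * Real.log N := by
      rw [hlogratio]; ring
    linarith
  have k2 := mul_le_mul_of_nonneg_left k1 (by positivity : 0 ≤ D / n)
  refine le_trans ?_ k2
  have k3 : D / n * (n / D * (θ + θ ^ 2 / 2) - Real.log (4 * n) -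
      ((M1 - N : ℕ) : ℝ) * Real.log ratio - N * Real.log ratio - N) =
      (θ + θ ^ 2 / 2) - D / n * Real.log (4 * n) - (D / n * ((M1 - N : ℕ) : ℝ)) * Real.log ratio
      - x * Real.log ratio - x := by
    rw [hx]
    field_simp
  rw [k3]
  have k4 : (D / n * ((M1 - N : ℕ) : ℝ)) * Real.log ratio ≤ 3 * τ * (τ / x + θ + β) :=
    mul_le_mul hgap hlogr hlogr0 (by positivity)
  have k5 : x * Real.log ratio ≤ x * (τ / x + θ + β) := mul_le_mul_of_nonneg_left hlogr hx0.le
  have k6 : x * (τ / x + θ + β) = τ + x * (θ + β) := by field_simp; ring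
  have k7 : 3 * τ * (τ / x + θ + β) = 3 * τ ^ 2 / x + 3 * τ * (θ + β) := by ring
  rw [k6] at k5
  rw [k7] at k4
  have k8 : θ + θ ^ 2 / 2 - τ - x * θ - x = -x ^ 2 / 2 + τ ^ 2 / 2 := by rw [hθ]; ring
  have k9 : 0 ≤ τ ^ 2 := by positivity
  linarith

end Pool.Agent.K4H61.HS
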