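import Pool.Agent.K4H61.HS.Defs

/-!
The occupancy method for the hard core model on a finite graph with few triangles.
-/

set_option autoImplicit false
open Finset

namespace Pool.Agent.K4H61.HS

variable {X : Type}

open Classical in
/-- independent sets as a finset -/
noncomputable def Is (R : X → X → Prop) (T : Finset X) : Finset (Finset X) :=
  T.powerset.filter (Ind R)

lemma mem_Is {R : X → X → Prop} {T I : Finset X} : I ∈ Is R T ↔ I ⊆ T ∧ Ind R I := by
  classical
  unfold Is
  rw [mem_filter, mem_powerset]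

/-- partition function -/
noncomputable def Xi (R : X → X → Prop) (T : Finset X) (w : ℝ) : ℝ :=
  ∑ I ∈ Is R T, w ^ I.card

noncomputable def Mi (R : X → X → Prop) (T : Finset X) (w : ℝ) : ℝ :=
  ∑ I ∈ Is R T, (I.card : ℝ) * w ^ I.card

open Classical in
noncomputable def Pi' (R : X → X → Prop) (T : Finset X) (w : ℝ) (u : X) : ℝ :=
  ∑ I ∈ (Is R T).filter (fun I => u ∈ I), w ^ I.card

lemma Ind_empty (R : X → X → Prop) : Ind R ∅ := by intro u hu; simp at hu

lemma Ind_mono {R : X → X → Prop} {I J : Finset X} (h : I ⊆ J) (hJ : Ind R J) : Ind R I :=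
  fun u hu v hv => hJ u (h hu) v (h hv)

lemma one_le_Xi (R : X → X → Prop) (T : Finset X) {w : ℝ} (hw : 0 ≤ w) : 1 ≤ Xi R T w := by
  unfold Xi
  have h1 : (∅ : Finset X) ∈ Is R T := mem_Is.2 ⟨empty_subset _, Ind_empty R⟩
  have h2 := single_le_sum (f := fun I : Finset X => w ^ I.card) (fun i _ => by positivity) h1
  simpa using h2

lemma Xi_pos (R : X → X → Prop) (T : Finset X) {w : ℝ} (hw : 0 ≤ w) : 0 < Xi R T w :=
  lt_of_lt_of_le one_pos (one_le_Xi R T hw)

open Classical in
lemma Mi_eq (R : X → X → Prop) (T : Finset X) (w : ℝ) : Mi R T w = ∑ u ∈ T, Pi' R T w u := by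
  unfold Mi Pi'
  simp only [sum_filter]
  rw [sum_comm]
  refine sum_congr rfl fun I hI => ?_
  rw [← sum_filter, sum_const, nsmul_eq_mul]
  congr 2
  have := (mem_Is.1 hI).1
  congr 1
  ext x
  simp only [mem_filter]
  exact ⟨fun h => ⟨this h, h⟩, fun h => h.2⟩

open Classical in
lemma Pi_eq (R : X → X → Prop) (hrefl : ∀ u, R u u) (hsymm : ∀ u v, R u v → R v u)
    (T : Finset X) (w : ℝ) (u : X) (hu : u ∈ T) :
    Pi' R T w u = w * Xi R (T.filter (fun v => ¬ R u v)) w := by
  unfold Pi' Xi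
  rw [mul_sum]
  refine sum_nbij' (fun I => I.erase u) (fun I => insert u I) ?_ ?_ ?_ ?_ ?_
  · intro I hI
    rw [mem_filter, mem_Is] at hI
    rw [mem_Is]
    refine ⟨fun x hx => ?_, Ind_mono (erase_subset _ _) hI.1.2⟩
    rw [mem_filter]
    exact ⟨hI.1.1 (mem_of_mem_erase hx), hI.1.2 u hI.2 x (mem_of_mem_erase hx)
      (ne_of_mem_erase hx).symm⟩
  · intro I hI
    rw [mem_Is] at hI
    have hI1 : ∀ x ∈ I, ¬ R u x := fun x hx => (mem_filter.1 (hI.1 hx)).2
    rw [mem_filter, mem_Is]
    refine ⟨⟨fun x hx => ?_, ?_⟩, mem_insert_self _ _⟩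
    · rcases mem_insert.1 hx with rfl | hx
      · exact hu
      · exact (mem_filter.1 (hI.1 hx)).1
    · intro x hx y hy hxy
      rcases mem_insert.1 hx with hx' | hx'
      · rcases mem_insert.1 hy with hy' | hy'
        · exact absurd (hx'.trans hy'.symm) hxy
        · rw [hx']; exact hI1 y hy'
      · rcases mem_insert.1 hy with hy' | hy'
        · rw [hy']; exact fun h => hI1 x hx' (hsymm _ _ h)
        · exact hI.2 x hx' y hy' hxy
  · intro I hI
    exact insert_erase (mem_filter.1 hI).2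
  · intro I hI
    refine erase_insert fun h => ?_
    exact (mem_filter.1 ((mem_Is.1 hI).1 h)).2 (hrefl u)
  · intro I hI
    have h1 := (mem_filter.1 hI).2
    rw [card_erase_of_mem h1, ← pow_succ']
    congr 1
    have := card_pos.2 ⟨u, h1⟩
    omega

lemma Is_mono {R : X → X → Prop} {T T' : Finset X} (h : T ⊆ T') : Is R T ⊆ Is R T' :=
  fun _ hI => mem_Is.2 ⟨(mem_Is.1 hI).1.trans h, (mem_Is.1 hI).2⟩

lemma Xi_mono {R : X → X → Prop} {T T' : Finset X} (h : T ⊆ T') {w : ℝ} (hw : 0 ≤ w) :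
    Xi R T w ≤ Xi R T' w :=
  sum_le_sum_of_subset_of_nonneg (Is_mono h) fun _ _ _ => by positivity

open Classical in
lemma Xi_le (R : X → X → Prop) (T : Finset X) {w : ℝ} (hw : 0 ≤ w) (u : X) :
    Xi R T w ≤ Xi R (T.filter (fun v => ¬ R u v)) w + ∑ v ∈ T.filter (fun v => R u v), Pi' R T w v := by
  have h1 : ∀ I ∈ Is R T, w ^ I.card ≤
      (if I ∈ Is R (T.filter (fun v => ¬ R u v)) then w ^ I.card else 0) +
      ∑ v ∈ T.filter (fun v => R u v), (if v ∈ I then w ^ I.card else 0) := by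
    intro I hI
    by_cases h : I ∈ Is R (T.filter (fun v => ¬ R u v))
    · rw [if_pos h]
      have : 0 ≤ ∑ v ∈ T.filter (fun v => R u v), (if v ∈ I then w ^ I.card else 0) :=
        sum_nonneg fun v _ => by split_ifs <;> positivity
      linarith
    · rw [if_neg h, zero_add]
      rw [mem_Is] at h hI
      have h2 : ∃ v ∈ I, R u v := by
        by_contra hcon
        push Not at hcon
        exact h ⟨fun x hx => mem_filter.2 ⟨hI.1 hx, hcon x hx⟩, hI.2⟩
      obtain ⟨v, hv, hRv⟩ := h2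
      have h3 := single_le_sum (f := fun v => (if v ∈ I then w ^ I.card else 0))
        (s := T.filter (fun v => R u v)) (fun i _ => by split_ifs <;> positivity)
        (mem_filter.2 ⟨hI.1 hv, hRv⟩)
      simpa [hv] using h3
  unfold Xi Pi'
  refine (sum_le_sum h1).trans ?_
  rw [sum_add_distrib]
  refine add_le_add ?_ ?_
  · rw [← sum_filter]
    refine le_of_eq (sum_congr ?_ fun _ _ => rfl)
    ext I
    rw [mem_filter]
    exact ⟨fun h => h.2, fun h => ⟨Is_mono (filter_subset _ _) h, h⟩⟩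
  · rw [sum_comm]
    refine le_of_eq (sum_congr rfl fun v _ => ?_)
    rw [sum_filter]

lemma Pi_le (R : X → X → Prop) (hrefl : ∀ u, R u u) (hsymm : ∀ u v, R u v → R v u)
    (T : Finset X) {w : ℝ} (hw : 0 ≤ w) (u : X) (hu : u ∈ T) :
    Pi' R T w u ≤ w * Xi R T w := by
  classical
  rw [Pi_eq R hrefl hsymm T w u hu]
  exact mul_le_mul_of_nonneg_left (Xi_mono (filter_subset _ _) hw) hw

open Classical in
lemma log_Xi_le (R : X → X → Prop) (T : Finset X) {w : ℝ} (hw : 0 ≤ w) :
    Real.log (Xi R T w) ≤ w * T.card := by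
  have h1 : Xi R T w ≤ (1 + w) ^ T.card := by
    have h2 : (1 + w) ^ T.card = ∑ I ∈ T.powerset, w ^ I.card := by
      have := prod_one_add (f := fun _ : X => w) T
      simp only [prod_const] at this
      exact this
    rw [h2]
    exact sum_le_sum_of_subset_of_nonneg (filter_subset _ _) fun _ _ _ => by positivity
  have h3 : Xi R T w ≤ Real.exp (w * T.card) := by
    refine h1.trans ?_
    rw [mul_comm, Real.exp_nat_mul]
    exact pow_le_pow_left₀ (by linarith) (by linarith [Real.add_one_le_exp w]) _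
  calc Real.log (Xi R T w) ≤ Real.log (Real.exp (w * T.card)) :=
        Real.log_le_log (Xi_pos R T hw) h3
    _ = _ := Real.log_exp _

open Classical in
/-- the local inequality -/
lemma Xi_log_le (R : X → X → Prop) (hrefl : ∀ u, R u u) (hsymm : ∀ u v, R u v → R v u)
    (T : Finset X) {w : ℝ} (hw : 0 ≤ w) (κ γ : ℝ)
    (hκ : (((T ×ˢ T).filter (fun p => R p.1 p.2)).card : ℝ) ≤ κ * T.card)
    (hγ : 1 ≤ (1 - w * κ) * γ) (hγ0 : 0 ≤ γ) :
    Xi R T w * Real.log (Xi R T w) ≤ γ * Mi R T w := by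
  have hX := Xi_pos R T hw
  have h1 : ∀ u ∈ T, w * Xi R T w - w ^ 2 * ((T.filter (fun v => R u v)).card : ℝ) * Xi R T w ≤
      Pi' R T w u := by
    intro u hu
    rw [Pi_eq R hrefl hsymm T w u hu]
    have h2 := Xi_le R T hw u
    have h3 : ∑ v ∈ T.filter (fun v => R u v), Pi' R T w v ≤
        ((T.filter (fun v => R u v)).card : ℝ) * (w * Xi R T w) := by
      rw [← nsmul_eq_mul]
      exact sum_le_card_nsmul _ _ _ fun v hv => Pi_le R hrefl hsymm T hw v (mem_filter.1 hv).1
    have h4 : Xi R T w - ((T.filter (fun v => R u v)).card : ℝ) * (w * Xi R T w) ≤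
        Xi R (T.filter (fun v => ¬ R u v)) w := by linarith
    have h5 := mul_le_mul_of_nonneg_left h4 hw
    linarith
  have h2 : ∑ u ∈ T, (w * Xi R T w - w ^ 2 * ((T.filter (fun v => R u v)).card : ℝ) * Xi R T w) ≤
      Mi R T w := by
    rw [Mi_eq]
    exact sum_le_sum h1
  have h3 : ∑ u ∈ T, ((T.filter (fun v => R u v)).card : ℝ) =
      (((T ×ˢ T).filter (fun p => R p.1 p.2)).card : ℝ) := by
    rw [card_filter, sum_product]
    push_cast
    refine sum_congr rfl fun u _ => ?_
    rw [card_filter]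
    push_cast
    rfl
  have h4 : ∑ u ∈ T, (w * Xi R T w - w ^ 2 * ((T.filter (fun v => R u v)).card : ℝ) * Xi R T w) =
      T.card * (w * Xi R T w) - w ^ 2 * (((T ×ˢ T).filter (fun p => R p.1 p.2)).card : ℝ) *
        Xi R T w := by
    rw [sum_sub_distrib, sum_const, nsmul_eq_mul, ← h3, mul_sum, sum_mul]
  rw [h4] at h2
  have h5 := log_Xi_le R T hw
  have h6 : Xi R T w * Real.log (Xi R T w) ≤ Xi R T w * (w * T.card) :=
    mul_le_mul_of_nonneg_left h5 hX.le
  have h7 : w ^ 2 * (((T ×ˢ T).filter (fun p => R p.1 p.2)).card : ℝ) * Xi R T w ≤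
      w ^ 2 * (κ * T.card) * Xi R T w := by
    gcongr
  have h8 : (1 - w * κ) * (w * T.card * Xi R T w) ≤ Mi R T w := by linarith
  have h9 := mul_le_mul_of_nonneg_left h8 hγ0
  have h10 : 0 ≤ w * T.card * Xi R T w := by positivity
  have h11 := mul_le_mul_of_nonneg_right hγ h10
  linarith

open Classical in
lemma decomp [Fintype X] (R : X → X → Prop) (hsymm : ∀ u v, R u v → R v u) (v : X)
    (f : Finset X → ℝ) :
    ∑ I ∈ Is R univ, f I = ∑ J ∈ Is R (univ.filter (fun u => ¬ R v u)),
      ∑ K ∈ Is R (univ.filter (fun u => R v u ∧ ∀ x ∈ J, ¬ R x u)), f (J ∪ K) := by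
  rw [sum_sigma']
  refine sum_nbij' (fun I => ⟨I.filter (fun u => ¬ R v u), I.filter (fun u => R v u)⟩)
    (fun p => p.1 ∪ p.2) ?_ ?_ ?_ ?_ ?_
  · intro I hI
    rw [mem_Is] at hI
    rw [mem_sigma]
    constructor
    · rw [mem_Is]
      refine ⟨fun x hx => ?_, Ind_mono (filter_subset _ _) hI.2⟩
      rw [mem_filter] at hx ⊢
      exact ⟨mem_univ _, hx.2⟩
    · rw [mem_Is]
      refine ⟨fun x hx => ?_, Ind_mono (filter_subset _ _) hI.2⟩
      dsimp only at hx ⊢
      rw [mem_filter] at hx ⊢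
      refine ⟨mem_univ _, hx.2, fun y hy => ?_⟩
      rw [mem_filter] at hy
      refine hI.2 y hy.1 x hx.1 fun h => hy.2 (h ▸ hx.2)
  · rintro ⟨J, K⟩ hp
    rw [mem_sigma] at hp
    dsimp only at hp ⊢
    obtain ⟨hJ, hK⟩ := hp
    rw [mem_Is] at hJ hK ⊢
    refine ⟨subset_univ _, ?_⟩
    intro x hx y hy hxy
    rcases mem_union.1 hx with hx | hx
    · rcases mem_union.1 hy with hy | hy
      · exact hJ.2 x hx y hy hxy
      · exact (mem_filter.1 (hK.1 hy)).2.2 x hx
    · rcases mem_union.1 hy with hy | hy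
      · exact fun h => (mem_filter.1 (hK.1 hx)).2.2 y hy (hsymm _ _ h)
      · exact hK.2 x hx y hy hxy
  · intro I _
    dsimp only
    ext x
    simp only [mem_union, mem_filter]
    tauto
  · rintro ⟨J, K⟩ hp
    rw [mem_sigma] at hp
    dsimp only at hp ⊢
    obtain ⟨hJ, hK⟩ := hp
    rw [mem_Is] at hJ hK
    have e1 : (J ∪ K).filter (fun u => ¬ R v u) = J := by
      ext x
      rw [mem_filter, mem_union]
      constructor
      · rintro ⟨h | h, h2⟩
        · exact h
        · exact absurd (mem_filter.1 (hK.1 h)).2.1 h2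
      · intro h
        exact ⟨Or.inl h, (mem_filter.1 (hJ.1 h)).2⟩
    have e2 : (J ∪ K).filter (fun u => R v u) = K := by
      ext x
      rw [mem_filter, mem_union]
      constructor
      · rintro ⟨h | h, h2⟩
        · exact absurd h2 (mem_filter.1 (hJ.1 h)).2
        · exact h
      · intro h
        exact ⟨Or.inr h, (mem_filter.1 (hK.1 h)).2.1⟩
    rw [e1, e2]
  · intro I _
    dsimp only
    congr 1
    ext x
    simp only [mem_union, mem_filter]
    tauto

open Classical in
/-- the occupancy inequality at one vertex -/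
lemma occ_v [Fintype X] (R : X → X → Prop) (hrefl : ∀ u, R u u) (hsymm : ∀ u v, R u v → R v u)
    (v : X) {w : ℝ} (hw : 0 ≤ w) (κ γ : ℝ)
    (hκ : ∀ T ⊆ univ.filter (fun u => R v u),
      (((T ×ˢ T).filter (fun p => R p.1 p.2)).card : ℝ) ≤ κ * T.card)
    (hγ : 1 ≤ (1 - w * κ) * γ) (hγ0 : 0 ≤ γ) (c : ℝ) :
    w * Real.exp (-c) * ((1 + c) * Xi R univ w -
      γ * ∑ I ∈ Is R univ, ((I.filter (fun u => R v u)).card : ℝ) * w ^ I.card) ≤
        Pi' R univ w v := by
  have h1 : Pi' R univ w v = ∑ J ∈ Is R (univ.filter (fun u => ¬ R v u)), w ^ J.card * w := by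
    unfold Pi'
    rw [sum_filter, decomp R hsymm v]
    refine sum_congr rfl fun J hJ => ?_
    rw [mem_Is] at hJ
    have hvJ : v ∉ J := fun h => (mem_filter.1 (hJ.1 h)).2 (hrefl v)
    rw [sum_eq_single {v}]
    · rw [if_pos (by simp)]
      rw [card_union_of_disjoint (by simpa using hvJ), card_singleton, pow_succ]
    · intro K hK hne
      rw [mem_Is] at hK
      rw [if_neg]
      intro h
      rcases mem_union.1 h with h | h
      · exact hvJ h
      · apply hne
        ext x
        rw [mem_singleton]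
        constructor
        · intro hx
          by_contra hxv
          exact hK.2 v h x hx (Ne.symm hxv) (mem_filter.1 (hK.1 hx)).2.1
        · rintro rfl
          exact h
    · intro h
      exfalso
      apply h
      rw [mem_Is]
      refine ⟨?_, ?_⟩
      · intro x hx
        rw [mem_singleton] at hx
        subst hx
        rw [mem_filter]
        exact ⟨mem_univ _, hrefl _, fun y hy h => (mem_filter.1 (hJ.1 hy)).2 (hsymm _ _ h)⟩
      · intro x hx y hy hxy
        rw [mem_singleton] at hx hy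
        exact absurd (hx.trans hy.symm) hxy
  have hdis : ∀ J ∈ Is R (univ.filter (fun u => ¬ R v u)),
      ∀ K ∈ Is R (univ.filter (fun u => R v u ∧ ∀ x ∈ J, ¬ R x u)), (J ∪ K).card = J.card + K.card ∧
        ((J ∪ K).filter (fun u => R v u)) = K := by
    intro J hJ K hK
    rw [mem_Is] at hJ hK
    constructor
    · refine card_union_of_disjoint (disjoint_left.2 fun x hx hx2 => ?_)
      exact (mem_filter.1 (hJ.1 hx)).2 (mem_filter.1 (hK.1 hx2)).2.1
    · ext x
      rw [mem_filter, mem_union]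
      constructor
      · rintro ⟨h | h, h2⟩
        · exact absurd h2 (mem_filter.1 (hJ.1 h)).2
        · exact h
      · intro h
        exact ⟨Or.inr h, (mem_filter.1 (hK.1 h)).2.1⟩
  have h2 : Xi R univ w = ∑ J ∈ Is R (univ.filter (fun u => ¬ R v u)), w ^ J.card *
      Xi R (univ.filter (fun u => R v u ∧ ∀ x ∈ J, ¬ R x u)) w := by
    conv_lhs => unfold Xi
    rw [decomp R hsymm v]
    refine sum_congr rfl fun J hJ => ?_
    unfold Xi
    rw [mul_sum]
    refine sum_congr rfl fun K hK => ?_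
    rw [(hdis J hJ K hK).1, pow_add]
  have h3 : ∑ I ∈ Is R univ, ((I.filter (fun u => R v u)).card : ℝ) * w ^ I.card =
      ∑ J ∈ Is R (univ.filter (fun u => ¬ R v u)), w ^ J.card *
      Mi R (univ.filter (fun u => R v u ∧ ∀ x ∈ J, ¬ R x u)) w := by
    rw [decomp R hsymm v]
    refine sum_congr rfl fun J hJ => ?_
    unfold Mi
    rw [mul_sum]
    refine sum_congr rfl fun K hK => ?_
    rw [(hdis J hJ K hK).1, (hdis J hJ K hK).2, pow_add]
    ring
  rw [h1, h2, h3, mul_sum, mul_sum, ← sum_sub_distrib, mul_sum]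
  refine sum_le_sum fun J hJ => ?_
  set T := univ.filter (fun u => R v u ∧ ∀ x ∈ J, ¬ R x u) with hT
  have h4 := Xi_log_le R hrefl hsymm T hw κ γ (hκ T (fun u hu => by
    rw [hT, mem_filter] at hu
    rw [mem_filter]
    exact ⟨mem_univ _, hu.2.1⟩)) hγ hγ0
  have hX := Xi_pos R T hw
  have h5 : (1 + c - Real.log (Xi R T w)) ≤ Real.exp (c - Real.log (Xi R T w)) := by
    have := Real.add_one_le_exp (c - Real.log (Xi R T w))
    linarith
  have h6 : Xi R T w * Real.exp (c - Real.log (Xi R T w)) = Real.exp c := by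
    rw [Real.exp_sub, Real.exp_log hX]
    field_simp
  have h7 : (1 + c) * Xi R T w - γ * Mi R T w ≤ Real.exp c := by
    rw [← h6]
    have := mul_le_mul_of_nonneg_left h5 hX.le
    linarith
  have h8 : w * Real.exp (-c) * ((1 + c) * Xi R T w - γ * Mi R T w) ≤ w := by
    have h9 := mul_le_mul_of_nonneg_left h7 (by positivity : 0 ≤ w * Real.exp (-c))
    refine h9.trans (le_of_eq ?_)
    rw [mul_assoc, ← Real.exp_add]
    simp
  have h9 := mul_le_mul_of_nonneg_left h8 (by positivity : (0:ℝ) ≤ w ^ J.card)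
  refine le_trans (le_of_eq ?_) h9
  ring

open Classical in
/-- the occupancy inequality -/
theorem occ [Fintype X] (R : X → X → Prop) (hrefl : ∀ u, R u u) (hsymm : ∀ u v, R u v → R v u)
    {w : ℝ} (hw : 0 ≤ w) (κ γ D : ℝ) (hD : ∀ v, ((univ.filter (fun u => R v u)).card : ℝ) ≤ D)
    (hκ : ∀ v, ∀ T ⊆ univ.filter (fun u => R v u),
      (((T ×ˢ T).filter (fun p => R p.1 p.2)).card : ℝ) ≤ κ * T.card)
    (hγ : 1 ≤ (1 - w * κ) * γ) (hγ0 : 0 ≤ γ) (hn : 0 < Fintype.card X) :
    w * Fintype.card X * Real.exp (-(γ * (D * (Mi R univ w / Xi R univ w) / Fintype.card X))) ≤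
      Mi R univ w / Xi R univ w := by
  have hX := Xi_pos R univ hw
  set n : ℝ := (Fintype.card X : ℝ) with hnn
  have hn0 : 0 < n := by rw [hnn]; exact_mod_cast hn
  set c := γ * (D * (Mi R univ w / Xi R univ w) / n) with hc
  have h1 : ∑ v : X, (w * Real.exp (-c) * ((1 + c) * Xi R univ w -
      γ * ∑ I ∈ Is R univ, ((I.filter (fun u => R v u)).card : ℝ) * w ^ I.card)) ≤
        Mi R univ w := by
    rw [Mi_eq]
    exact sum_le_sum fun v _ => occ_v R hrefl hsymm v hw κ γ (hκ v) hγ hγ0 c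
  have h2 : ∑ v : X, ∑ I ∈ Is R univ, ((I.filter (fun u => R v u)).card : ℝ) * w ^ I.card ≤
      D * Mi R univ w := by
    rw [sum_comm]
    unfold Mi
    rw [mul_sum]
    refine sum_le_sum fun I _ => ?_
    rw [← sum_mul]
    have h3 : ∑ v : X, ((I.filter (fun u => R v u)).card : ℝ) ≤ D * I.card := by
      simp only [card_filter]
      push_cast
      rw [sum_comm]
      have h4 : ∀ u ∈ I, ∑ v : X, (if R v u then (1 : ℝ) else 0) ≤ D := by
        intro u _
        refine le_trans (le_of_eq ?_) (hD u)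
        rw [card_filter]
        push_cast
        refine sum_congr rfl fun v _ => ?_
        by_cases h : R v u
        · rw [if_pos h, if_pos (hsymm _ _ h)]
        · rw [if_neg h, if_neg (fun h' => h (hsymm _ _ h'))]
      have h5 := sum_le_card_nsmul I _ D h4
      rw [nsmul_eq_mul] at h5
      linarith
    have := mul_le_mul_of_nonneg_right h3 (by positivity : (0:ℝ) ≤ w ^ I.card)
    linarith
  rw [← mul_sum, sum_sub_distrib, sum_const, card_univ, nsmul_eq_mul, ← hnn, ← mul_sum] at h1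
  have h3 : n * ((1 + c) * Xi R univ w) - γ * (D * Mi R univ w) = n * Xi R univ w := by
    rw [hc]
    field_simp
    ring
  have h4 : w * Real.exp (-c) * (n * Xi R univ w) ≤ Mi R univ w := by
    rw [← h3]
    refine le_trans (mul_le_mul_of_nonneg_left ?_ (by positivity)) h1
    have := mul_le_mul_of_nonneg_left h2 hγ0
    linarith
  rw [le_div_iff₀ hX]
  linarith

end Pool.Agent.K4H61.HS
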