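import Pool.Agent.K4H61.HS.Gc

/-!
The lower bound for the grand canonical partition function, and relations between the numbers of
independent sets.
-/

set_option autoImplicit false
open Finset

namespace Pool.Agent.K4H61.HS

variable {X : Type}

lemma hasDerivAt_Xi (R : X → X → Prop) (T : Finset X) {w : ℝ} (hw : w ≠ 0) :
    HasDerivAt (Xi R T) (Mi R T w / w) w := by
  have h1 : HasDerivAt (fun w : ℝ => ∑ I ∈ Is R T, w ^ I.card)
      (∑ I ∈ Is R T, (I.card : ℝ) * w ^ (I.card - 1)) w := by
    refine HasDerivAt.fun_sum fun I _ => ?_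
    exact hasDerivAt_pow I.card w
  have h2 : ∑ I ∈ Is R T, (I.card : ℝ) * w ^ (I.card - 1) = Mi R T w / w := by
    unfold Mi
    rw [sum_div]
    refine sum_congr rfl fun I _ => ?_
    rcases Nat.eq_zero_or_pos I.card with h | h
    · rw [h]; simp
    · rw [mul_div_assoc]
      congr 1
      rw [eq_div_iff hw, ← pow_succ]
      congr 1
      omega
  rw [← h2]
  exact h1

lemma continuous_Xi (R : X → X → Prop) (T : Finset X) : Continuous (Xi R T) := by
  unfold Xi
  fun_prop

lemma Xi_zero (R : X → X → Prop) (T : Finset X) : Xi R T 0 = 1 := by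
  unfold Xi
  rw [sum_eq_single (∅ : Finset X)]
  · simp
  · intro I _ hI
    rw [zero_pow]
    exact fun h => hI (card_eq_zero.1 h)
  · intro h
    exact absurd (mem_Is.2 ⟨empty_subset _, Ind_empty R⟩) h

open Classical in
/-- **Lower bound for the partition function.** -/
theorem log_Xi_ge [Fintype X] (R : X → X → Prop) (hrefl : ∀ u, R u u)
    (hsymm : ∀ u v, R u v → R v u) (κ γ D : ℝ) (hD0 : 0 < D)
    (hD : ∀ v, ((univ.filter (fun u => R v u)).card : ℝ) ≤ D)
    (hκ : ∀ v, ∀ T ⊆ univ.filter (fun u => R v u),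
      (((T ×ˢ T).filter (fun p => R p.1 p.2)).card : ℝ) ≤ κ * T.card)
    (hκ0 : 0 ≤ κ) (hγ1 : 1 ≤ γ) (hn : 0 < Fintype.card X)
    (θ : ℝ) (hθ : 0 ≤ θ) (hγ : 1 ≤ (1 - θ * Real.exp (γ * θ) / D * κ) * γ) :
    Fintype.card X / D * (θ + θ ^ 2 / 2) ≤
      Real.log (Xi R univ (θ * Real.exp (γ * θ) / D)) := by
  set n : ℝ := (Fintype.card X : ℝ) with hnn
  have hn0 : 0 < n := by rw [hnn]; exact_mod_cast hn
  have hγ0 : 0 ≤ γ := by linarith
  have hw0 : ∀ x : ℝ, 0 ≤ x → 0 ≤ x * Real.exp (γ * x) / D := fun x hx => by positivity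
  set W : ℝ → ℝ := fun x => x * Real.exp (γ * x) / D with hW
  set G : ℝ → ℝ := fun x => Real.log (Xi R univ (W x)) - n / D * (x + x ^ 2 / 2) with hG
  have hWc : Continuous W := by
    rw [hW]
    fun_prop
  have hWd : ∀ x : ℝ, HasDerivAt W ((1 + γ * x) * Real.exp (γ * x) / D) x := by
    intro x
    have h1 : HasDerivAt (fun x : ℝ => Real.exp (γ * x)) (Real.exp (γ * x) * (γ * 1)) x :=
      ((hasDerivAt_id' x).const_mul γ).exp
    have h2 := ((hasDerivAt_id' x).mul h1).div_const D
    refine h2.congr_deriv ?_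
    ring
  have hGc : ContinuousOn G (Set.Icc 0 θ) := by
    rw [hG]
    refine ContinuousOn.sub ?_ (by fun_prop)
    refine ContinuousOn.log ?_ ?_
    · exact ((continuous_Xi R univ).comp hWc).continuousOn
    · intro x hx
      exact (Xi_pos R univ (hw0 x hx.1)).ne'
  have hGd : ∀ x ∈ Set.Ioo 0 θ, HasDerivAt G (Mi R univ (W x) / (W x) *
      ((1 + γ * x) * Real.exp (γ * x) / D) / Xi R univ (W x) - n / D * (1 + x)) x := by
    intro x hx
    have hWx : 0 < W x := by
      rw [hW]
      have := hx.1
      positivity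
    have h1 := ((hasDerivAt_Xi R univ hWx.ne').comp x (hWd x)).log (Xi_pos R univ hWx.le).ne'
    have h2 : HasDerivAt (fun x : ℝ => n / D * (x + x ^ 2 / 2)) (n / D * (1 + x)) x := by
      have h3 := (((hasDerivAt_id' x).add ((hasDerivAt_pow 2 x).div_const 2)).const_mul (n / D))
      refine h3.congr_deriv ?_
      norm_num
    exact h1.sub h2
  have hmono : MonotoneOn G (Set.Icc 0 θ) := by
    refine monotoneOn_of_deriv_nonneg (convex_Icc _ _) hGc ?_ ?_
    · rw [interior_Icc]
      exact fun x hx => (hGd x hx).differentiableAt.differentiableWithinAt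
    · rw [interior_Icc]
      intro x hx
      rw [(hGd x hx).deriv]
      have hx0 := hx.1
      have hWx : 0 < W x := by
        rw [hW]
        positivity
      have hX := Xi_pos R univ hWx.le
      have hWle : W x ≤ W θ := by
        rw [hW]
        dsimp only
        have hx1 := hx.2.le
        gcongr
      have hγx : 1 ≤ (1 - W x * κ) * γ := by
        refine hγ.trans (mul_le_mul_of_nonneg_right ?_ hγ0)
        have := mul_le_mul_of_nonneg_right hWle hκ0
        linarith
      have h1 := occ R hrefl hsymm hWx.le κ γ D hD hκ hγx hγ0 hn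
      rw [← hnn] at h1
      set m := Mi R univ (W x) / Xi R univ (W x) with hm
      have h4 : x ≤ D * m / n := by
        by_contra hcon
        push Not at hcon
        have h5 : W x * n * Real.exp (-(γ * (D * m / n))) =
            n / D * (x * Real.exp (γ * (x - D * m / n))) := by
          rw [hW]
          dsimp only
          have : Real.exp (γ * (x - D * m / n)) =
              Real.exp (γ * x) * Real.exp (-(γ * (D * m / n))) := by
            rw [← Real.exp_add]; congr 1; ring
          rw [this]
          ring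
        rw [h5] at h1
        have h6 : 1 ≤ Real.exp (γ * (x - D * m / n)) :=
          Real.one_le_exp (mul_nonneg hγ0 (by linarith))
        have h7 : n / D * x ≤ m := by
          refine le_trans ?_ h1
          have : x ≤ x * Real.exp (γ * (x - D * m / n)) := by nlinarith
          gcongr
        have h8 : x ≤ D * m / n := by
          rw [le_div_iff₀ hn0]
          rw [div_mul_eq_mul_div, div_le_iff₀ hD0] at h7
          linarith
        linarith
      have h5 : n * x / D ≤ m := by
        rw [div_le_iff₀ hD0]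
        rw [le_div_iff₀ hn0] at h4
        linarith
      have h6 : Mi R univ (W x) / (W x) * ((1 + γ * x) * Real.exp (γ * x) / D) /
          Xi R univ (W x) = m * ((1 + γ * x) / x) := by
        rw [hm]
        have e1 : W x = x * Real.exp (γ * x) / D := rfl
        rw [div_mul_eq_mul_div, div_div, div_mul_div_comm]
        rw [div_eq_div_iff (by positivity) (by positivity)]
        conv_rhs => rw [e1]
        field_simp
        rw [e1]
      rw [h6]
      have h7 : n / D * (1 + x) ≤ n * x / D * ((1 + γ * x) / x) := by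
        have e2 : n * x / D * ((1 + γ * x) / x) = n / D * (1 + γ * x) := by field_simp
        rw [e2]
        have : 1 + x ≤ 1 + γ * x := by nlinarith
        gcongr
      have h8 : n * x / D * ((1 + γ * x) / x) ≤ m * ((1 + γ * x) / x) := by
        have : 0 ≤ (1 + γ * x) / x := by positivity
        gcongr
      linarith
  have h1 := hmono (Set.left_mem_Icc.2 hθ) (Set.right_mem_Icc.2 hθ) hθ
  have h2 : G 0 = 0 := by
    rw [hG]
    dsimp only
    have : W 0 = 0 := by rw [hW]; simp
    rw [this, Xi_zero]
    simp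
  rw [h2] at h1
  have h3 : G θ = Real.log (Xi R univ (W θ)) - n / D * (θ + θ ^ 2 / 2) := rfl
  rw [h3] at h1
  linarith

open Classical in
lemma Xi_eq_sum [Fintype X] (R : X → X → Prop) (w : ℝ) :
    Xi R univ w = ∑ k ∈ range (Fintype.card X + 1), (ic R univ k : ℝ) * w ^ k := by
  unfold Xi
  rw [← sum_fiberwise_of_maps_to (g := fun I : Finset X => I.card) (t := range (Fintype.card X + 1))]
  · refine sum_congr rfl fun k _ => ?_
    have h1 : (Is R univ).filter (fun I => I.card = k) = (powersetCard k univ).filter (Ind R) := by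
      ext I
      rw [mem_filter, mem_filter, mem_Is, mem_powersetCard]
      tauto
    rw [h1]
    have h2 : ∀ I ∈ (powersetCard k univ).filter (Ind R), w ^ I.card = w ^ k := by
      intro I hI
      rw [(mem_powersetCard.1 (mem_filter.1 hI).1).2]
    rw [sum_congr rfl h2, sum_const, nsmul_eq_mul]
    rfl
  · intro I _
    rw [mem_range]
    have := card_le_univ I
    omega

open Classical in
lemma ic_double [Fintype X] (R : X → X → Prop) (k : ℕ) :
    (k + 1) * ic R univ (k + 1) = ∑ I ∈ (powersetCard k univ).filter (Ind R),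
      (univ.filter (fun u => u ∉ I ∧ Ind R (insert u I))).card := by
  have h1 : (k + 1) * ic R univ (k + 1) =
      ∑ J ∈ (powersetCard (k + 1) univ).filter (Ind R), J.card := by
    have h2 : ∀ J ∈ (powersetCard (k + 1) (univ : Finset X)).filter (Ind R), J.card = k + 1 := by
      intro J hJ
      exact (mem_powersetCard.1 (mem_filter.1 hJ).1).2
    rw [sum_congr rfl h2, sum_const, smul_eq_mul, mul_comm]
    rfl
  rw [h1, ← card_sigma, ← card_sigma]
  refine card_nbij' (fun p => ⟨p.1.erase p.2, p.2⟩) (fun p => ⟨insert p.2 p.1, p.2⟩) ?_ ?_ ?_ ?_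
  · rintro ⟨J, u⟩ hp
    simp only [coe_sigma, Set.mem_sigma_iff, mem_coe, mem_filter, mem_powersetCard, mem_univ,
      true_and] at hp ⊢
    obtain ⟨⟨⟨_, hc⟩, hI⟩, hu⟩ := hp
    refine ⟨⟨⟨subset_univ _, ?_⟩, Ind_mono (erase_subset _ _) hI⟩, notMem_erase _ _, ?_⟩
    · rw [card_erase_of_mem hu, hc]; rfl
    · rw [insert_erase hu]; exact hI
  · rintro ⟨I, u⟩ hp
    simp only [coe_sigma, Set.mem_sigma_iff, mem_coe, mem_filter, mem_powersetCard, mem_univ,
      true_and] at hp ⊢
    obtain ⟨⟨⟨_, hc⟩, _⟩, hu, hI2⟩ := hp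
    refine ⟨⟨⟨subset_univ _, ?_⟩, hI2⟩, mem_insert_self _ _⟩
    rw [card_insert_of_notMem hu, hc]
  · rintro ⟨J, u⟩ hp
    simp only [coe_sigma, Set.mem_sigma_iff, mem_coe, mem_filter, mem_powersetCard, mem_univ,
      true_and] at hp ⊢
    rw [insert_erase hp.2]
  · rintro ⟨I, u⟩ hp
    simp only [coe_sigma, Set.mem_sigma_iff, mem_coe, mem_filter, mem_powersetCard, mem_univ,
      true_and] at hp ⊢
    rw [erase_insert hp.2.1]

lemma ic_succ_le [Fintype X] (R : X → X → Prop) (k : ℕ) :
    ((k + 1 : ℕ) : ℝ) * ic R univ (k + 1) ≤ Fintype.card X * ic R univ k := by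
  classical
  have h1 := ic_double R k
  have h2 : ∑ I ∈ (powersetCard k univ).filter (Ind R),
      (univ.filter (fun u => u ∉ I ∧ Ind R (insert u I))).card ≤
      ic R univ k * Fintype.card X := by
    have := sum_le_card_nsmul ((powersetCard k univ).filter (Ind R))
      (fun I => (univ.filter (fun u => u ∉ I ∧ Ind R (insert u I))).card) (Fintype.card X)
      (fun I _ => (card_filter_le _ _).trans (le_of_eq card_univ))
    simpa [ic] using this
  have h3 : (k + 1) * ic R univ (k + 1) ≤ ic R univ k * Fintype.card X := by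
    rw [h1]; exact h2
  have h4 : (((k + 1) * ic R univ (k + 1) : ℕ) : ℝ) ≤ ((ic R univ k * Fintype.card X : ℕ) : ℝ) := by
    exact_mod_cast h3
  push_cast at h4 ⊢
  linarith

open Classical in
lemma le_ic_succ [Fintype X] (R : X → X → Prop) (hrefl : ∀ u, R u u)
    (hsymm : ∀ u v, R u v → R v u) (D : ℝ)
    (hD : ∀ v, ((univ.filter (fun u => R v u)).card : ℝ) ≤ D) (k : ℕ) :
    (Fintype.card X - k * D) * ic R univ k ≤ ((k + 1 : ℕ) : ℝ) * ic R univ (k + 1) := by
  have h1 := ic_double R k
  have h2 : ∀ I ∈ (powersetCard k univ).filter (Ind R), (Fintype.card X - k * D : ℝ) ≤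
      ((univ.filter (fun u => u ∉ I ∧ Ind R (insert u I))).card : ℝ) := by
    intro I hI
    rw [mem_filter, mem_powersetCard] at hI
    have h3 : (univ : Finset X) ⊆ (univ.filter (fun u => u ∉ I ∧ Ind R (insert u I))) ∪
        I.biUnion (fun v => univ.filter (fun u => R v u)) := by
      intro u _
      rw [mem_union]
      by_cases h : ∃ v ∈ I, R v u
      · right
        obtain ⟨v, hv, hvu⟩ := h
        exact mem_biUnion.2 ⟨v, hv, mem_filter.2 ⟨mem_univ _, hvu⟩⟩
      · left
        push Not at h
        rw [mem_filter]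
        refine ⟨mem_univ _, fun hu => h u hu (hrefl u), ?_⟩
        intro x hx y hy hxy
        rcases mem_insert.1 hx with hx' | hx'
        · rcases mem_insert.1 hy with hy' | hy'
          · exact absurd (hx'.trans hy'.symm) hxy
          · rw [hx']; exact fun h' => h y hy' (hsymm _ _ h')
        · rcases mem_insert.1 hy with hy' | hy'
          · rw [hy']; exact h x hx'
          · exact hI.2 x hx' y hy' hxy
    have h4 := (card_le_card h3).trans (card_union_le _ _)
    have h5 : ((I.biUnion (fun v => univ.filter (fun u => R v u))).card : ℝ) ≤ k * D := by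
      have h6 : (I.biUnion (fun v => univ.filter (fun u => R v u))).card ≤
          ∑ v ∈ I, (univ.filter (fun u => R v u)).card := card_biUnion_le
      have h7 : ((∑ v ∈ I, (univ.filter (fun u => R v u)).card : ℕ) : ℝ) ≤ I.card * D := by
        push_cast
        rw [← nsmul_eq_mul]
        exact sum_le_card_nsmul _ _ _ fun v _ => hD v
      rw [hI.1.2] at h7
      exact le_trans (by exact_mod_cast h6) h7
    rw [card_univ] at h4
    have h6 : (Fintype.card X : ℝ) ≤
        ((univ.filter (fun u => u ∉ I ∧ Ind R (insert u I))).card : ℝ) +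
        ((I.biUnion (fun v => univ.filter (fun u => R v u))).card : ℝ) := by exact_mod_cast h4
    linarith
  have h3 := card_nsmul_le_sum _ _ _ h2
  rw [nsmul_eq_mul] at h3
  have h4 : (((k + 1) * ic R univ (k + 1) : ℕ) : ℝ) =
      ((∑ I ∈ (powersetCard k univ).filter (Ind R),
      (univ.filter (fun u => u ∉ I ∧ Ind R (insert u I))).card : ℕ) : ℝ) := by rw [h1]
  push_cast at h4 ⊢
  rw [h4]
  have h5 : (((powersetCard k univ).filter (Ind R)).card : ℝ) = (ic R univ k : ℝ) := rfl
  rw [h5] at h3
  linarith

end Pool.Agent.K4H61.HS
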