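import Pool.Agent.K4H61.HS.Ode

/-!
The integrals of the Bessel functions.
-/

set_option autoImplicit false
open Set MeasureTheory

namespace Pool.Agent.K4H61.HS

noncomputable def Ib (d : ℕ) (t : ℝ) : ℝ :=
  ∫ s in (-1:ℝ)..1, Real.cos (t * s) * √(1 - s ^ 2) ^ (d - 1)

lemma Ib_deriv (d : ℕ) (t : ℝ) : HasDerivAt (Ib d)
    (∫ s in (-1:ℝ)..1, -(s * Real.sin (t * s)) * √(1 - s ^ 2) ^ (d - 1)) t := by
  have hc1 : ∀ t : ℝ, Continuous (fun s : ℝ => Real.cos (t * s) * √(1 - s ^ 2) ^ (d - 1)) := by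
    intro t; fun_prop
  have hc2 : Continuous (fun s : ℝ => -(s * Real.sin (t * s)) * √(1 - s ^ 2) ^ (d - 1)) := by
    fun_prop
  have := intervalIntegral.hasDerivAt_integral_of_dominated_loc_of_deriv_le
    (F := fun (t s : ℝ) => Real.cos (t * s) * √(1 - s ^ 2) ^ (d - 1))
    (F' := fun (t s : ℝ) => -(s * Real.sin (t * s)) * √(1 - s ^ 2) ^ (d - 1))
    (x₀ := t) (s := univ) (a := -1) (b := 1) (bound := fun _ => 1) (μ := volume)
    Filter.univ_mem
    (Filter.Eventually.of_forall fun t => (hc1 t).aestronglyMeasurable)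
    ((hc1 t).intervalIntegrable _ _) hc2.aestronglyMeasurable ?_ ?_ ?_
  · exact this.2
  · refine Filter.Eventually.of_forall fun s hs t _ => ?_
    rw [uIoc_of_le (by norm_num)] at hs
    rw [norm_mul, norm_neg, norm_mul]
    have h1 : ‖s‖ ≤ 1 := by
      rw [Real.norm_eq_abs, abs_le]; exact ⟨hs.1.le, hs.2⟩
    have h2 : ‖Real.sin (t * s)‖ ≤ 1 := Real.abs_sin_le_one _
    have h3 : ‖√(1 - s ^ 2) ^ (d - 1)‖ ≤ 1 := by
      rw [norm_pow]
      refine pow_le_one₀ (norm_nonneg _) ?_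
      rw [Real.norm_eq_abs, abs_of_nonneg (Real.sqrt_nonneg _)]
      rw [Real.sqrt_le_one]
      nlinarith [sq_nonneg s]
    calc ‖s‖ * ‖Real.sin (t * s)‖ * ‖√(1 - s ^ 2) ^ (d - 1)‖ ≤ 1 * 1 * 1 := by gcongr
      _ = 1 := by norm_num
  · exact intervalIntegrable_const
  · refine Filter.Eventually.of_forall fun s hs t _ => ?_
    have h1 : HasDerivAt (fun t : ℝ => Real.cos (t * s)) (-Real.sin (t * s) * (1 * s)) t :=
      ((hasDerivAt_id' t).mul_const s).cos
    refine (h1.mul_const _).congr_deriv ?_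
    ring

lemma sqrt_pow_deriv (k : ℕ) (s : ℝ) (hs : s ∈ Ioo (-1:ℝ) 1) :
    HasDerivAt (fun s : ℝ => √(1 - s ^ 2) ^ (k + 2)) (-((k + 2 : ℝ) * s * √(1 - s ^ 2) ^ k)) s := by
  have h0 : 0 < 1 - s ^ 2 := by nlinarith [hs.1, hs.2]
  have h1 : HasDerivAt (fun s : ℝ => 1 - s ^ 2) (-(2 * s)) s := by
    have := (hasDerivAt_pow 2 s).const_sub 1
    refine this.congr_deriv ?_
    norm_num
  have h2 := (h1.sqrt h0.ne').pow (k + 2)
  refine h2.congr_deriv ?_
  have h3 : √(1 - s ^ 2) ≠ 0 := (Real.sqrt_pos.2 h0).ne'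
  have h4 : k + 2 - 1 = k + 1 := rfl
  rw [h4]
  push_cast
  rw [pow_succ]
  field_simp

lemma Ib_rel1 (d : ℕ) (hd : 1 ≤ d) (t : ℝ) :
    ∫ s in (-1:ℝ)..1, -(s * Real.sin (t * s)) * √(1 - s ^ 2) ^ (d - 1) =
      -(t / (d + 1)) * Ib (d + 2) t := by
  obtain ⟨k, rfl⟩ : ∃ k, d = k + 1 := ⟨d - 1, by omega⟩
  have e1 : k + 1 - 1 = k := rfl
  have e2 : k + 1 + 2 - 1 = k + 2 := rfl
  unfold Ib
  rw [e1, e2]
  have hk : (k : ℝ) + 2 ≠ 0 := by positivity
  have h1 := intervalIntegral.integral_eq_sub_of_hasDerivAt_of_le (a := -1) (b := 1)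
    (f := fun s : ℝ => Real.sin (t * s) * √(1 - s ^ 2) ^ (k + 2) / (k + 2))
    (f' := fun s : ℝ => -(s * Real.sin (t * s)) * √(1 - s ^ 2) ^ k +
      t / (k + 2) * (Real.cos (t * s) * √(1 - s ^ 2) ^ (k + 2))) (by norm_num)
    (by fun_prop) ?_ ?_
  · rw [intervalIntegral.integral_add, intervalIntegral.integral_const_mul] at h1
    · have h2 : √(1 - (1:ℝ) ^ 2) = 0 := by norm_num
      have h3 : √(1 - (-1:ℝ) ^ 2) = 0 := by norm_num
      rw [h2, h3] at h1
      simp only [ne_eq, Nat.add_eq_zero_iff, OfNat.ofNat_ne_zero, and_false, not_false_eq_true,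
        zero_pow, mul_zero, zero_div, sub_zero] at h1
      push_cast
      rw [show (k : ℝ) + 1 + 1 = k + 2 by ring]
      linarith
    · exact (by fun_prop : Continuous _).intervalIntegrable _ _
    · exact (by fun_prop : Continuous _).intervalIntegrable _ _
  · intro s hs
    have h1 : HasDerivAt (fun s : ℝ => Real.sin (t * s)) (Real.cos (t * s) * (t * 1)) s :=
      ((hasDerivAt_id' s).const_mul t).sin
    refine ((h1.mul (sqrt_pow_deriv k s hs)).div_const _).congr_deriv ?_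
    field_simp
    ring
  · exact (by fun_prop : Continuous _).intervalIntegrable _ _

lemma Ib_rel2 (d : ℕ) (hd : 1 ≤ d) (t : ℝ) :
    t * ∫ s in (-1:ℝ)..1, -(s * Real.sin (t * s)) * √(1 - s ^ 2) ^ (d + 2 - 1) =
      (d + 1) * Ib d t - (d + 2) * Ib (d + 2) t := by
  obtain ⟨k, rfl⟩ : ∃ k, d = k + 1 := ⟨d - 1, by omega⟩
  have e1 : k + 1 - 1 = k := rfl
  have e2 : k + 1 + 2 - 1 = k + 2 := rfl
  unfold Ib
  rw [e1, e2]
  rw [← intervalIntegral.integral_const_mul]
  have h1 := intervalIntegral.integral_eq_sub_of_hasDerivAt_of_le (a := -1) (b := 1)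
    (f := fun s : ℝ => s * Real.cos (t * s) * √(1 - s ^ 2) ^ (k + 2))
    (f' := fun s : ℝ => t * (-(s * Real.sin (t * s)) * √(1 - s ^ 2) ^ (k + 2)) +
      ((k + 3) * (Real.cos (t * s) * √(1 - s ^ 2) ^ (k + 2)) -
        (k + 2) * (Real.cos (t * s) * √(1 - s ^ 2) ^ k))) (by norm_num)
    (by fun_prop) ?_ ?_
  · rw [intervalIntegral.integral_add, intervalIntegral.integral_sub,
      intervalIntegral.integral_const_mul ((k : ℝ) + 3),
      intervalIntegral.integral_const_mul ((k : ℝ) + 2)] at h1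
    · have h2 : √(1 - (1:ℝ) ^ 2) = 0 := by norm_num
      have h3 : √(1 - (-1:ℝ) ^ 2) = 0 := by norm_num
      rw [h2, h3] at h1
      simp only [ne_eq, Nat.add_eq_zero_iff, OfNat.ofNat_ne_zero, and_false, not_false_eq_true,
        zero_pow, mul_zero, sub_zero] at h1
      push_cast
      rw [show (k : ℝ) + 1 + 1 = k + 2 by ring, show (k : ℝ) + 1 + 2 = k + 3 by ring]
      linarith
    · exact (by fun_prop : Continuous _).intervalIntegrable _ _
    · exact (by fun_prop : Continuous _).intervalIntegrable _ _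
    · exact (by fun_prop : Continuous _).intervalIntegrable _ _
    · exact (by fun_prop : Continuous _).intervalIntegrable _ _
  · intro s hs
    have h0 : 0 < 1 - s ^ 2 := by nlinarith [hs.1, hs.2]
    have h1 : HasDerivAt (fun s : ℝ => s * Real.cos (t * s))
        (1 * Real.cos (t * s) + s * (-Real.sin (t * s) * (t * 1))) s :=
      (hasDerivAt_id' s).mul ((hasDerivAt_id' s).const_mul t).cos
    refine (h1.mul (sqrt_pow_deriv k s hs)).congr_deriv ?_
    have h5 : √(1 - s ^ 2) ^ (k + 2) = √(1 - s ^ 2) ^ k * (1 - s ^ 2) := by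
      rw [pow_add, Real.sq_sqrt h0.le]
    rw [h5]
    ring
  · exact (by fun_prop : Continuous _).intervalIntegrable _ _

lemma Ib_zero_pos (d : ℕ) : 0 < Ib d 0 := by
  unfold Ib
  refine intervalIntegral.intervalIntegral_pos_of_pos_on
    ((by fun_prop : Continuous _).intervalIntegrable _ _) ?_ (by norm_num)
  intro s hs
  have h0 : 0 < 1 - s ^ 2 := by nlinarith [hs.1, hs.2]
  rw [zero_mul, Real.cos_zero, one_mul]
  have := Real.sqrt_pos.2 h0
  positivity

theorem Ib_lower (d : ℕ) (hd : 1 ≤ d) : ∀ t, -(eps d) * Ib d 0 ≤ Ib d t := by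
  have h0 := Ib_zero_pos d
  have h2 := Ib_zero_pos (d + 2)
  have hrel0 : ((d : ℝ) + 1) * Ib d 0 = (d + 2) * Ib (d + 2) 0 := by
    have := Ib_rel2 d hd 0
    rw [zero_mul] at this
    linarith
  have key := ode d hd (fun t => Ib d t / Ib d 0) (fun t => Ib (d + 2) t / Ib (d + 2) 0)
    (fun t => (∫ s in (-1:ℝ)..1, -(s * Real.sin (t * s)) * √(1 - s ^ 2) ^ (d + 2 - 1)) /
      Ib (d + 2) 0) ?_ ?_ ?_ ?_
  · have hpos : ∀ t, 0 ≤ t → -(eps d) * Ib d 0 ≤ Ib d t := by
      intro t ht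
      have := key t ht
      rw [le_div_iff₀ h0] at this
      exact this
    intro t
    rcases le_total 0 t with ht | ht
    · exact hpos t ht
    · have h3 := hpos (-t) (by linarith)
      have h4 : Ib d (-t) = Ib d t := by
        unfold Ib
        refine intervalIntegral.integral_congr fun s _ => ?_
        rw [neg_mul, Real.cos_neg]
      rwa [h4] at h3
  · intro t
    have h3 := Ib_deriv d t
    rw [Ib_rel1 d hd t] at h3
    refine (h3.div_const (Ib d 0)).congr_deriv ?_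
    have hd1 : (d : ℝ) + 1 ≠ 0 := by positivity
    have hd2 : (d : ℝ) + 2 ≠ 0 := by positivity
    rw [neg_mul, neg_mul, neg_div, neg_inj, div_mul_eq_mul_div, div_mul_div_comm, div_div,
      div_eq_div_iff (by positivity) (by positivity)]
    rw [hrel0]
  · intro t
    exact (Ib_deriv (d + 2) t).div_const _
  · intro t
    have h3 := Ib_rel2 d hd t
    rw [← mul_div_assoc, h3]
    have hd1 : (d : ℝ) + 1 ≠ 0 := by positivity
    have hd2 : (d : ℝ) + 2 ≠ 0 := by positivity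
    have h4 : Ib d 0 = (d + 2) * Ib (d + 2) 0 / (d + 1) := by
      rw [eq_div_iff hd1]; linarith
    rw [h4]
    field_simp
  · exact div_self h0.ne'

end Pool.Agent.K4H61.HS
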