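import Pool.Agent.K4H61.HS.Main

/-!
The partition function as an integral, and the length of the affine pieces.
-/

set_option autoImplicit false
open MeasureTheory Set

namespace Pool.Agent.K4H61.HS

/-- convexity of `t log t` -/
lemma xlogx_gap {a b : ℝ} (ha : 0 < a) (hab : a < b) :
    (b - a) ^ 2 / (8 * b) ≤ a * Real.log a + b * Real.log b -
      2 * ((a + b) / 2 * Real.log ((a + b) / 2)) := by
  have hb : 0 < b := ha.trans hab
  set c := (a + b) / 2 with hc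
  have hc0 : 0 < c := by rw [hc]; positivity
  have key : ∀ x : ℝ, 0 < x → 2 * (x - √(x * c)) ≤ x * (Real.log x - Real.log c) := by
    intro x hx
    have h1 := Real.one_sub_inv_le_log_of_pos (Real.sqrt_pos.2 (by positivity : 0 < x / c))
    rw [Real.log_sqrt (by positivity), Real.log_div hx.ne' hc0.ne'] at h1
    have h2 : x * (√(x / c))⁻¹ = √(x * c) := by
      rw [← Real.sqrt_inv, inv_div]
      have : x = √(x ^ 2) := (Real.sqrt_sq hx.le).symm
      conv_lhs => rw [this]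
      rw [← Real.sqrt_mul (by positivity)]
      congr 1
      rw [← this]
      field_simp
    have h3 := mul_le_mul_of_nonneg_left h1 hx.le
    rw [mul_sub, mul_one, h2] at h3
    linarith
  have k1 := key a ha
  have k2 := key b hb
  have hs : √(a * c) + √(b * c) ≤ 2 * c - (b - a) ^ 2 / (16 * c) := by
    have h1 : (√(a * c) + √(b * c)) ^ 2 ≤ (2 * c - (b - a) ^ 2 / (16 * c)) ^ 2 := by
      have e1 : (√(a * c) + √(b * c)) ^ 2 = 2 * c ^ 2 + 2 * (c * √(a * b)) := by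
        rw [add_sq, Real.sq_sqrt (by positivity), Real.sq_sqrt (by positivity)]
        have : √(a * c) * √(b * c) = c * √(a * b) := by
          rw [← Real.sqrt_mul (by positivity), show a * c * (b * c) = c ^ 2 * (a * b) by ring,
            Real.sqrt_mul (by positivity), Real.sqrt_sq hc0.le]
        rw [mul_assoc, this, hc]
        ring
      have e2 : √(a * b) ≤ c - (b - a) ^ 2 / (8 * c) := by
        refine Real.sqrt_le_iff.2 ⟨?_, ?_⟩
        · rw [sub_nonneg, div_le_iff₀ (by positivity), hc]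
          nlinarith
        · have : (c - (b - a) ^ 2 / (8 * c)) ^ 2 = a * b + ((b - a) ^ 2 / (8 * c)) ^ 2 := by
            rw [hc]
            field_simp
            ring
          rw [this]
          have : 0 ≤ ((b - a) ^ 2 / (8 * c)) ^ 2 := by positivity
          linarith
      rw [e1]
      have e3 : (2 * c - (b - a) ^ 2 / (16 * c)) ^ 2 =
          4 * c ^ 2 - (b - a) ^ 2 / 4 + ((b - a) ^ 2 / (16 * c)) ^ 2 := by
        field_simp
        ring
      rw [e3]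
      have e4 : c * √(a * b) ≤ c ^ 2 - (b - a) ^ 2 / 8 := by
        have := mul_le_mul_of_nonneg_left e2 hc0.le
        have e5 : c * (c - (b - a) ^ 2 / (8 * c)) = c ^ 2 - (b - a) ^ 2 / 8 := by
          field_simp
        linarith
      have : 0 ≤ ((b - a) ^ 2 / (16 * c)) ^ 2 := by positivity
      linarith
    refine le_of_sq_le_sq h1 ?_
    rw [sub_nonneg, div_le_iff₀ (by positivity), hc]
    nlinarith
  have h2 : (b - a) ^ 2 / (8 * b) ≤ (b - a) ^ 2 / (8 * c) := by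
    have : c ≤ b := by rw [hc]; linarith
    gcongr
  have h3 : (b - a) ^ 2 / (8 * c) = 2 * ((b - a) ^ 2 / (16 * c)) := by field_simp; ring
  have h4 : a + b = 2 * c := by rw [hc]; ring
  have h5 : a * Real.log a + b * Real.log b - 2 * (c * Real.log c) =
      a * (Real.log a - Real.log c) + b * (Real.log b - Real.log c) := by
    have : 2 * (c * Real.log c) = (a + b) * Real.log c := by rw [h4]; ring
    rw [this]; ring
  rw [h5]
  linarith

/-- affine pieces are short -/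
lemma jump_le {B δ ρ₁ ρ₂ A P : ℝ} {f : ℝ → ℝ} (hB : 0 ≤ B) (hδ : 0 ≤ δ) (h1 : 0 < ρ₁)
    (h12 : ρ₁ < ρ₂)
    (hf : ∀ ρ ∈ Icc ρ₁ ρ₂, |f ρ - (Real.log ρ - 1 + ρ * B / 2)| ≤ δ)
    (haff : ∀ ρ ∈ Icc ρ₁ ρ₂, f ρ = A - P / ρ) : (ρ₂ - ρ₁) ^ 2 ≤ 32 * δ * ρ₂ ^ 2 := by
  have h2 : 0 < ρ₂ := h1.trans h12
  set c := (ρ₁ + ρ₂) / 2 with hc
  have hc0 : 0 < c := by rw [hc]; positivity
  have m1 : ρ₁ ∈ Icc ρ₁ ρ₂ := ⟨le_rfl, h12.le⟩
  have m2 : ρ₂ ∈ Icc ρ₁ ρ₂ := ⟨h12.le, le_rfl⟩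
  have m3 : c ∈ Icc ρ₁ ρ₂ := ⟨by rw [hc]; linarith, by rw [hc]; linarith⟩
  have key : ∀ ρ ∈ Icc ρ₁ ρ₂, 0 < ρ → |(A * ρ - P) - (ρ * Real.log ρ - ρ + ρ ^ 2 * B / 2)| ≤
      δ * ρ := by
    intro ρ hρ hρ0
    have h3 := hf ρ hρ
    rw [haff ρ hρ] at h3
    have h4 : (A * ρ - P) - (ρ * Real.log ρ - ρ + ρ ^ 2 * B / 2) =
        (A - P / ρ - (Real.log ρ - 1 + ρ * B / 2)) * ρ := by
      field_simp
    rw [h4, abs_mul, abs_of_pos hρ0]
    exact mul_le_mul_of_nonneg_right h3 hρ0.le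
  have k1 := (abs_le.1 (key ρ₁ m1 h1)).1
  have k2 := (abs_le.1 (key ρ₂ m2 h2)).1
  have k3 := (abs_le.1 (key c m3 hc0)).2
  have g := xlogx_gap h1 h12
  rw [← hc] at g
  have hBc : 0 ≤ (ρ₁ ^ 2 * B / 2 + ρ₂ ^ 2 * B / 2) - 2 * (c ^ 2 * B / 2) := by
    have : (ρ₁ ^ 2 * B / 2 + ρ₂ ^ 2 * B / 2) - 2 * (c ^ 2 * B / 2) = B * (ρ₂ - ρ₁) ^ 2 / 4 := by
      rw [hc]; ring
    rw [this]
    positivity
  have h4 : ρ₁ + ρ₂ = 2 * c := by rw [hc]; ring
  have hδc : δ * ρ₁ + δ * ρ₂ + 2 * (δ * c) ≤ 4 * δ * ρ₂ := by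
    have : δ * ρ₁ + δ * ρ₂ + 2 * (δ * c) = 4 * (δ * c) := by rw [hc]; ring
    rw [this]
    have : δ * c ≤ δ * ρ₂ := mul_le_mul_of_nonneg_left m3.2 hδ
    linarith
  have hAc : A * ρ₁ + A * ρ₂ = 2 * (A * c) := by rw [hc]; ring
  have h5 : (ρ₂ - ρ₁) ^ 2 / (8 * ρ₂) ≤ 4 * δ * ρ₂ := by linarith
  rw [div_le_iff₀ (by positivity)] at h5
  linarith

end Pool.Agent.K4H61.HS
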