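import Pool.Agent.K4H61.HS.Asym3

/-!
The mean field theorem for hard spheres in high dimension.
-/

set_option autoImplicit false
set_option maxHeartbeats 4000000
open Filter Topology MeasureTheory

namespace Pool.Agent.K4H61.HS

lemma exp_small (C c1 c2 : ℝ) (k : ℕ) (hc : c2 < c1) :
    ∀ᶠ d : ℕ in atTop, C * (d : ℝ) ^ k * Real.exp (-(c1 * d)) ≤ Real.exp (-(c2 * d)) := by
  have h1 := tendsto_rpow_mul_exp_neg_mul_atTop_nhds_zero (k : ℝ) (c1 - c2) (by linarith)
  have h2 := (h1.comp tendsto_natCast_atTop_atTop).const_mul C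
  rw [mul_zero] at h2
  filter_upwards [h2.eventually_lt_const one_pos] with d hd
  simp only [Function.comp, Real.rpow_natCast] at hd
  have h3 : Real.exp (-(c1 * d)) = Real.exp (-(c1 - c2) * d) * Real.exp (-(c2 * d)) := by
    rw [← Real.exp_add]; congr 1; ring
  rw [h3]
  have h4 := (Real.exp_pos (-(c2 * d))).le
  calc C * (d : ℝ) ^ k * (Real.exp (-(c1 - c2) * d) * Real.exp (-(c2 * d))) =
      C * ((d : ℝ) ^ k * Real.exp (-(c1 - c2) * d)) * Real.exp (-(c2 * d)) := by ring
    _ ≤ 1 * Real.exp (-(c2 * d)) := mul_le_mul_of_nonneg_right hd.le h4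
    _ = _ := one_mul _

/-- the unit ball is not too small -/
lemma bv_one_ge (d : ℕ) (hd : 1 ≤ d) : (1 / √d) ^ d ≤ bv d 1 := by
  have hd0 : (0 : ℝ) < d := by exact_mod_cast hd
  have hs : 0 < √(d : ℝ) := Real.sqrt_pos.2 hd0
  unfold bv
  have h1 : (Set.univ.pi fun _ : Fin d => Set.Ioo (0 : ℝ) (1 / √d)) ⊆
      {x : Fin d → ℝ | ∑ k, x k ^ 2 < 1 ^ 2} := by
    intro x hx
    rw [Set.mem_univ_pi] at hx
    have h2 : ∀ k ∈ (Finset.univ : Finset (Fin d)), x k ^ 2 < 1 / d := by
      intro k _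
      have h3 := hx k
      have h4 : x k ^ 2 < (1 / √d) ^ 2 := pow_lt_pow_left₀ h3.2 h3.1.le (by norm_num)
      rwa [div_pow, one_pow, Real.sq_sqrt hd0.le] at h4
    have h3 := Finset.sum_lt_sum_of_nonempty (s := (Finset.univ : Finset (Fin d)))
      ⟨⟨0, hd⟩, Finset.mem_univ _⟩ h2
    rw [Finset.sum_const, Finset.card_univ, Fintype.card_fin, nsmul_eq_mul,
      mul_one_div_cancel hd0.ne'] at h3
    simpa using h3
  have h2 : volume (Set.univ.pi fun _ : Fin d => Set.Ioo (0 : ℝ) (1 / √d)) =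
      ENNReal.ofReal ((1 / √d) ^ d) := by
    rw [Real.volume_pi_Ioo]
    simp only [sub_zero, Finset.prod_const, Finset.card_univ, Fintype.card_fin]
    rw [ENNReal.ofReal_pow (by positivity)]
  have h3 : volume {x : Fin d → ℝ | ∑ k, x k ^ 2 < 1 ^ 2} ≠ ⊤ := by
    intro h
    have := bv_pos d one_pos
    unfold bv at this
    rw [h] at this
    simp at this
  exact (ENNReal.ofReal_le_iff_le_toReal h3).1 (h2 ▸ measure_mono h1)

lemma exp_le_two {y : ℝ} (h0 : 0 ≤ y) (h1 : y ≤ 1 / 2) : Real.exp y ≤ 1 + 2 * y := by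
  have h2 := Real.add_one_le_exp (-y)
  have h3 : Real.exp y = (Real.exp (-y))⁻¹ := by rw [Real.exp_neg, inv_inv]
  rw [h3, inv_le_iff_one_le_mul₀ (Real.exp_pos _)]
  nlinarith

/-- the constant `log (2 / √3)` -/
noncomputable def eta : ℝ := Real.log (2 / √3)

lemma eta_eq : Real.exp (-eta) = √(3 / 4) := by
  unfold eta
  rw [← Real.log_inv, Real.exp_log (by positivity), inv_div]
  rw [Real.sqrt_div (by norm_num)]
  congr 1
  rw [show (4 : ℝ) = 2 ^ 2 by norm_num, Real.sqrt_sq (by norm_num)]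

lemma eta_pos : 0 < eta := by
  unfold eta
  refine Real.log_pos ?_
  rw [one_lt_div (by positivity), Real.sqrt_lt' (by norm_num)]
  norm_num

lemma eta_le : eta ≤ 7 / 48 := by
  have h1 : Real.exp (-(7 / 48)) ≤ √(3 / 4) := by
    refine Real.le_sqrt_of_sq_le ?_
    rw [← Real.exp_nat_mul]
    have h2 := Real.quadratic_le_exp_of_nonneg (by norm_num : (0:ℝ) ≤ 7 / 24)
    have h3 : Real.exp (((2 : ℕ) : ℝ) * -(7 / 48)) = (Real.exp (7 / 24))⁻¹ := by
      rw [← Real.exp_neg]; congr 1; norm_num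
    rw [h3, inv_le_comm₀ (Real.exp_pos _) (by norm_num)]
    refine le_trans ?_ h2
    norm_num
  rw [← eta_eq] at h1
  have := Real.exp_le_exp.1 h1
  linarith

lemma Phi_ge (d : ℕ) : 7 / 48 * (d : ℝ) - 11 / 24 ≤ Phi d (d / 2) := by
  unfold Phi
  have hd : (0 : ℝ) ≤ d := Nat.cast_nonneg d
  have h1 : 1 / 8 * (d : ℝ) - 1 / 4 ≤ ((d : ℝ) / 2) ^ 2 / (2 * (d + 2)) := by
    rw [le_div_iff₀ (by positivity)]
    nlinarith
  have h2 : 1 / 64 * (d : ℝ) - 1 / 8 ≤ ((d : ℝ) / 2) ^ 4 / (4 * (d + 2) ^ 2 * (d + 4)) := by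
    rw [le_div_iff₀ (by positivity)]
    have : (1 / 64 * (d : ℝ) - 1 / 8) * (4 * (d + 2) ^ 2 * (d + 4)) =
        ((d : ℝ) / 2) ^ 4 - (44 * d ^ 2 + 144 * d + 128) / 16 := by ring
    rw [this]
    have : 0 ≤ (44 * (d : ℝ) ^ 2 + 144 * d + 128) / 16 := by positivity
    linarith
  have h3 : 1 / 192 * (d : ℝ) - 1 / 12 ≤
      ((d : ℝ) / 2) ^ 6 / (3 * (d + 2) ^ 3 * (d + 4) * (d + 6)) := by
    rw [le_div_iff₀ (by positivity)]
    have : (1 / 192 * (d : ℝ) - 1 / 12) * (3 * (d + 2) ^ 3 * (d + 4) * (d + 6)) =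
        ((d : ℝ) / 2) ^ 6 - (160 * d ^ 4 + 1264 * d ^ 3 + 3984 * d ^ 2 + 5696 * d + 3072) / 64 := by
      ring
    rw [this]
    have : 0 ≤ (160 * (d : ℝ) ^ 4 + 1264 * d ^ 3 + 3984 * d ^ 2 + 5696 * d + 3072) / 64 := by
      positivity
    linarith
  linarith

lemma eps_le (d : ℕ) : eps d ≤ 3 * Real.exp (-(7 / 48 * (d : ℝ))) := by
  unfold eps
  have h1 : Real.exp (-Phi d (d / 2)) ≤ Real.exp (-(7 / 48 * (d : ℝ)) + 11 / 24) := by
    refine Real.exp_le_exp.2 ?_
    have := Phi_ge d
    linarith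
  have h2 : Real.exp (11 / 24) ≤ 2 := by
    have h3 := Real.add_one_le_exp (-(11 / 24 : ℝ))
    have h4 : Real.exp (11 / 24) = (Real.exp (-(11 / 24)))⁻¹ := by rw [Real.exp_neg, inv_inv]
    rw [h4, inv_le_comm₀ (Real.exp_pos _) (by norm_num)]
    linarith
  rw [Real.exp_add] at h1
  have h3 := Real.exp_pos (-(7 / 48 * (d : ℝ)))
  nlinarith

theorem free_energy (ε : ℝ) (hε : 0 < ε) : ∀ᶠ d : ℕ in atTop, ∀ r : ℝ, 0 < r → ∀ ρ : ℝ, 0 < ρ →
    ρ * bv d r ≤ (eta - ε) * d → ∀ (L : ℕ → ℝ) (N : ℕ → ℕ), Tendsto L atTop atTop →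
    Tendsto (fun k => (N k : ℝ) / L k ^ d) atTop (𝓝 ρ) →
    ∀ᶠ k in atTop, 0 < ZZ d r (L k) (N k) ∧
      |-(1 / (N k : ℝ)) * Real.log (ZZ d r (L k) (N k)) - (Real.log ρ - 1 + ρ * bv d r / 2)| ≤
        Real.exp (-(ε / 6 * (d : ℝ))) / 64 := by
  have heta := eta_le
  have heta0 := eta_pos
  by_cases hε1 : eta < ε
  · filter_upwards [eventually_ge_atTop 1] with d hd
    intro r hr ρ hρ hlam
    exfalso
    have h1 : 0 < ρ * bv d r := mul_pos hρ (bv_pos d hr)
    have h2 : (eta - ε) * d ≤ 0 :=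
      mul_nonpos_of_nonpos_of_nonneg (by linarith) (Nat.cast_nonneg d)
    linarith
  push Not at hε1
  filter_upwards [eventually_ge_atTop 20, exp_small 16 (ε / 2) (2 * ε / 5) 2 (by linarith),
    exp_small (16 * 4 * Real.exp 2) ε (2 * ε / 5) 1 (by linarith),
    exp_small 64 1 (2 * ε / 5) 2 (by linarith),
    exp_small (16 * Real.exp 2) ε (ε / 2) 1 (by linarith),
    exp_small 1 1 (ε / 5) 1 (by linarith),
    exp_small (5 * Real.exp 1) ε (ε / 5) 0 (by linarith),
    exp_small 1024 (ε / 5) (ε / 6) 0 (by linarith),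
    exp_small 64 (ε / 5) 0 0 (by linarith),
    exp_small 1 (ε / 2) (ε / 5) 1 (by linarith)] with d hd E2 E3 E4 E5 E6 E7 E8 E9 E10
  intro r hr ρ hρ hlam L N hL hN
  have hd1 : 1 ≤ d := by omega
  have hdr : (20 : ℝ) ≤ d := by exact_mod_cast hd
  have hd0 : (0 : ℝ) < d := by linarith
  set τ := Real.exp (-(ε / 5 * (d : ℝ))) with hτ
  set g := Real.exp (-(ε / 2 * (d : ℝ))) with hg
  set u := Real.exp (-(1 * (d : ℝ))) with hu
  set v := Real.exp (-(7 / 48 * (d : ℝ))) with hv
  set e := Real.exp (-(ε / 6 * (d : ℝ))) with he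
  set z := Real.exp (-(ε * (d : ℝ))) with hz
  have hτ0 : 0 < τ := Real.exp_pos _
  have hg0 : 0 < g := Real.exp_pos _
  have hu0 : 0 < u := Real.exp_pos _
  have hv0 : 0 < v := Real.exp_pos _
  have hz0 : 0 < z := Real.exp_pos _
  have hτ2 : τ ^ 2 = Real.exp (-(2 * ε / 5 * (d : ℝ))) := by
    rw [hτ, ← Real.exp_nat_mul]; congr 1; push_cast; ring
  rw [← hτ2] at E2 E3 E4
  simp only [pow_one, pow_zero, mul_one, one_mul] at E2 E3 E5 E6 E7 E8 E9 E10
  have hτ64 : τ ≤ 1 / 64 := by
    rw [zero_mul, neg_zero, Real.exp_zero] at E9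
    linarith
  have huv : u ≤ v := by
    rw [hu, hv]
    refine Real.exp_le_exp.2 ?_
    linarith
  have hudτ : d * u ≤ τ := E6
  have hgdτ : d * g ≤ τ := E10
  have huτ : u ≤ τ := by
    have h1 : 1 * u ≤ d * u := mul_le_mul_of_nonneg_right (by linarith) hu0.le
    linarith
  have hgτ : g ≤ τ := by
    have h1 : 1 * g ≤ d * g := mul_le_mul_of_nonneg_right (by linarith) hg0.le
    linarith
  have heps := eps_le d
  rw [← hv] at heps
  have heps0 := eps_pos d
  set B := bv d r with hB
  have hB0 : 0 < B := bv_pos d hr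
  have hb1 := bv_pos d one_pos
  set lam := ρ * B with hlam'
  have hlam0 : 0 < lam := by positivity
  set K : ℝ := (eta - ε) * d with hK
  have hKd : K ≤ d / 6 := by
    rw [hK]
    have : eta - ε ≤ 1 / 6 := by linarith
    have := mul_le_mul_of_nonneg_right this hd0.le
    linarith
  -- exponentials
  have hvK : Real.exp K * v ≤ z := by
    rw [hv, hz, ← Real.exp_add]
    refine Real.exp_le_exp.2 ?_
    rw [hK]
    have := mul_le_mul_of_nonneg_right heta hd0.le
    linarith
  have hsK : Real.exp K * √(3 / 4) ^ d = z := by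
    rw [← eta_eq, ← Real.exp_nat_mul, ← Real.exp_add, hz]
    congr 1
    rw [hK]
    ring
  set ω := u / d with hω
  have hω0 : 0 < ω := by positivity
  have hωd : d * ω = u := by rw [hω]; field_simp
  have hωu : ω ≤ u := by
    rw [hω]
    exact div_le_self hu0.le (by linarith)
  have hω1 : ω ≤ 1 := by linarith
  set h := r * ω / √d with hh'
  have hsd : 0 < √(d : ℝ) := Real.sqrt_pos.2 hd0
  have hh : 0 < h := by positivity
  have hdh : √d * h = r * ω := by rw [hh']; field_simp
  -- scaling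
  have hscale : ∀ c : ℝ, 0 < c → bv d (r * c) = c ^ d * B := by
    intro c hc
    rw [hB, bv_scale d (by positivity : 0 < r * c), bv_scale d hr]
    ring
  set p := (1 + 2 * ω) ^ d with hp
  set p' := (1 - 2 * ω) ^ d with hp'
  have hB1 : bv d (r + 2 * (√d * h)) = p * B := by
    rw [hdh, hp, ← hscale _ (by positivity)]; congr 1; ring
  have hB2 : bv d (r - 2 * (√d * h)) = p' * B := by
    rw [hdh, hp', ← hscale _ (by linarith)]; congr 1; ring
  have hp1 : 1 ≤ p := one_le_pow₀ (by linarith)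
  have hp0 : 0 < p := by linarith
  have hpow : ∀ c : ℝ, 0 ≤ c → (1 + c * ω) ^ d ≤ Real.exp (c * u) := by
    intro c hc
    have h1 : 1 + c * ω ≤ Real.exp (c * ω) := by
      have := Real.add_one_le_exp (c * ω); linarith
    calc (1 + c * ω) ^ d ≤ Real.exp (c * ω) ^ d := pow_le_pow_left₀ (by positivity) h1 d
      _ = Real.exp (c * u) := by rw [← Real.exp_nat_mul]; congr 1; rw [← hωd]; ring
  have hp2 : p ≤ 1 + 4 * u := by
    calc p ≤ Real.exp (2 * u) := hpow 2 (by norm_num)
      _ ≤ 1 + 2 * (2 * u) := exp_le_two (by positivity) (by linarith)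
      _ = 1 + 4 * u := by ring
  have hp'1 : 1 - 2 * u ≤ p' := by
    have h1 := one_add_mul_le_pow (a := -(2 * ω)) (by linarith) d
    have h2 : 1 + (d : ℝ) * -(2 * ω) = 1 - 2 * u := by rw [← hωd]; ring
    rw [h2] at h1
    rw [hp']
    refine h1.trans (le_of_eq ?_)
    congr 1
  have hp'2 : p' ≤ 1 := pow_le_one₀ (by linarith) (by linarith)
  have hhB : h ^ d ≤ u * B := by
    have h1 : h ^ d = ω ^ d * (1 / √d) ^ d * r ^ d := by
      rw [hh', ← mul_pow, ← mul_pow]; congr 1; ring
    have h2 : ω ^ d ≤ u := (pow_le_of_le_one hω0.le hω1 (by omega)).trans hωu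
    have h3 := bv_one_ge d hd1
    have h4 : u * B = u * bv d 1 * r ^ d := by rw [hB, bv_scale d hr]; ring
    rw [h1, h4]
    gcongr
  have hhB' : h ^ d / B ≤ u := by rw [div_le_iff₀ hB0]; exact hhB
  have hlamd : lam ≤ K := hlam
  -- the upper bound for the free energy
  set x := ρ * bv d (r + 2 * (√d * h)) with hx
  have hxp : x = lam * p := by rw [hx, hB1, hlam']; ring
  have hx0 : 0 < x := by rw [hxp]; positivity
  have hxl : x ≤ lam + τ := by
    rw [hxp]
    have h1 : lam * p ≤ lam * (1 + 4 * u) := mul_le_mul_of_nonneg_left hp2 hlam0.le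
    have h2 : lam * (4 * u) ≤ d / 6 * (4 * u) :=
      mul_le_mul_of_nonneg_right (hlamd.trans hKd) (by positivity)
    have h3 : 0 ≤ d * u := by positivity
    have h4 : lam * (1 + 4 * u) = lam + lam * (4 * u) := by ring
    linarith
  have hxK : x ≤ K + τ := by linarith
  have hxτd : x + τ ≤ d := by linarith
  have hex2 : Real.exp (K + 2) * v ≤ Real.exp 2 * z := by
    calc Real.exp (K + 2) * v = Real.exp 2 * (Real.exp K * v) := by rw [Real.exp_add]; ring
      _ ≤ Real.exp 2 * z := mul_le_mul_of_nonneg_left hvK (Real.exp_pos _).le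
  have upper : ∀ᶠ k in atTop, 0 < ZZ d r (L k) (N k) ∧
      -(1 / (N k : ℝ)) * Real.log (ZZ d r (L k) (N k)) ≤ Real.log ρ - 1 + lam / 2 + e / 64 := by
    by_cases hcase : x < √τ
    · have hst : √τ ≤ 1 / 8 := by
        rw [Real.sqrt_le_left (by norm_num)]; norm_num; linarith
      refine asym_small hd1 r _ hr hh hρ x hx (by linarith) hL hN ?_
      have h1 : (x ^ 2 / 2 + x ^ 3 / 2) / x = x / 2 + x ^ 2 / 2 := by field_simp
      rw [h1]
      have h2 : x ^ 2 ≤ τ := by
        have := pow_le_pow_left₀ hx0.le hcase.le 2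
        rwa [Real.sq_sqrt hτ0.le] at this
      linarith
    · push Not at hcase
      have hxx : τ ≤ x ^ 2 := by
        have := pow_le_pow_left₀ (Real.sqrt_nonneg τ) hcase 2
        rwa [Real.sq_sqrt hτ0.le] at this
      have hxτ : τ ≤ x := by
        refine le_trans ?_ hcase
        rw [Real.le_sqrt hτ0.le hτ0.le, sq]
        have := mul_le_mul_of_nonneg_left hτ64 hτ0.le
        linarith
      set β := (1 + g - 1) * (x + τ) with hβ'
      have hβg : β = g * (x + τ) := by rw [hβ']; ring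
      have hβ0 : 0 ≤ β := by rw [hβg]; positivity
      have hβgd : β ≤ d * g := by
        rw [hβg, mul_comm]
        exact mul_le_mul_of_nonneg_right hxτd hg0.le
      have hβτ : β ≤ τ := hβgd.trans hgdτ
      refine asym_lower hd1 r τ (1 + g) β _ hr hh hρ hτ0 (by linarith) (by linarith) x hx hβ'
        ?_ ?_ hL hN ?_
      · -- condition (a)
        have hTd : x + 3 * τ ≤ d := by linarith
        have hT0 : 0 ≤ x + 3 * τ := by positivity
        have hex : Real.exp (x + 3 * τ + 1) ≤ Real.exp (K + 2) :=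
          Real.exp_le_exp.2 (by linarith)
        have hsum : h ^ d / B + eps d ≤ 4 * v := by linarith
        have hsum0 : 0 ≤ h ^ d / B + eps d := by positivity
        have k1 : (x + 3 * τ) * (β + (h ^ d / B + eps d) * Real.exp (x + 3 * τ + 1)) ≤
            d * (d * g + 4 * v * Real.exp (K + 2)) := by
          gcongr
        have k2 : d * (d * g + 4 * v * Real.exp (K + 2)) ≤ (d : ℝ) ^ 2 * g +
            4 * Real.exp 2 * d * z := by
          have h1 : d * (d * g + 4 * v * Real.exp (K + 2)) = (d : ℝ) ^ 2 * g +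
            4 * d * (Real.exp (K + 2) * v) := by ring
          rw [h1]
          have h2 : 4 * d * (Real.exp (K + 2) * v) ≤ 4 * d * (Real.exp 2 * z) := by gcongr
          linarith
        have k3 : 1 - B / bv d (r + 2 * (√d * h)) ≤ 4 * u := by
          rw [hB1]
          have h1 : B / (p * B) = 1 / p := by field_simp
          rw [h1]
          have h2 : 1 - 4 * u ≤ 1 / p := by
            rw [le_div_iff₀ hp0]
            have h3 := mul_le_mul_of_nonneg_left hp2 (by linarith : 0 ≤ 1 - 4 * u)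
            have h4 : (1 - 4 * u) * (1 + 4 * u) = 1 - 16 * (u * u) := by ring
            have h5 : 0 < u * u := by positivity
            linarith
          linarith
        have k4 : (1 - B / bv d (r + 2 * (√d * h))) * (x + 3 * τ) ^ 2 / 2 ≤ 4 * u * d ^ 2 / 2 := by
          have h1 : (x + 3 * τ) ^ 2 ≤ (d : ℝ) ^ 2 := pow_le_pow_left₀ hT0 hTd 2
          have h2 : (1 - B / bv d (r + 2 * (√d * h))) * (x + 3 * τ) ^ 2 ≤ 4 * u * d ^ 2 :=
            mul_le_mul k3 h1 (by positivity) (by positivity)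
          linarith
        have k5 : 64 * (d : ℝ) ^ 2 * u ≤ τ ^ 2 := E4
        have k6 : 16 * (d : ℝ) ^ 2 * g ≤ τ ^ 2 := E2
        have k7 : 16 * 4 * Real.exp 2 * d * z ≤ τ ^ 2 := E3
        have k8 : 0 < τ ^ 2 := by positivity
        linarith
      · -- condition (b)
        have h34 : (1 / 2 : ℝ) ≤ √(3 / 4) := by
          refine Real.le_sqrt_of_sq_le ?_
          norm_num
        have hs0 : 0 < √(3 / 4 : ℝ) := by positivity
        have h1 : bv d (√(3 / 4) * (r + √d * h) + √d * h) ≤ √(3 / 4) ^ d * Real.exp (3 * u) * B := by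
          rw [hdh]
          have e1 : √(3 / 4) * (r + r * ω) + r * ω = r * (√(3 / 4) * (1 + ω) + ω) := by ring
          rw [e1, hscale _ (by positivity)]
          have e2 : √(3 / 4) * (1 + ω) + ω ≤ √(3 / 4) * (1 + 3 * ω) := by
            have := mul_le_mul_of_nonneg_right h34 hω0.le
            linarith
          have e3 : (√(3 / 4) * (1 + ω) + ω) ^ d ≤ (√(3 / 4) * (1 + 3 * ω)) ^ d :=
            pow_le_pow_left₀ (by positivity) e2 d
          rw [mul_pow] at e3
          have e4 := hpow 3 (by norm_num)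
          have e5 : √(3 / 4) ^ d * (1 + 3 * ω) ^ d ≤ √(3 / 4) ^ d * Real.exp (3 * u) := by gcongr
          exact mul_le_mul_of_nonneg_right (e3.trans e5) hB0.le
        have h2 : Real.exp (3 * u) ≤ 2 := by
          have := exp_le_two (by positivity : 0 ≤ 3 * u) (by linarith)
          linarith
        have h3 : 2 * bv d (√(3 / 4) * (r + √d * h) + √d * h) / bv d (r + 2 * (√d * h)) ≤
            4 * √(3 / 4) ^ d := by
          rw [hB1, div_le_iff₀ (by positivity)]
          calc 2 * bv d (√(3 / 4) * (r + √d * h) + √d * h) ≤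
              2 * (√(3 / 4) ^ d * Real.exp (3 * u) * B) := by linarith
            _ ≤ 2 * (√(3 / 4) ^ d * 2 * B) := by gcongr
            _ = 4 * √(3 / 4) ^ d * (1 * B) := by ring
            _ ≤ 4 * √(3 / 4) ^ d * (p * B) := by gcongr
        have h4 : (1 + g) * (x + τ) ≤ K + 2 := by
          have : (1 + g) * (x + τ) = x + τ + β := by rw [hβg]; ring
          rw [this]
          linarith
        have h5 : (x + τ) * Real.exp ((1 + g) * (x + τ)) ≤ d * Real.exp (K + 2) := by
          have := Real.exp_le_exp.2 h4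
          gcongr
        have h6 : (x + τ) * Real.exp ((1 + g) * (x + τ)) *
            (2 * bv d (√(3 / 4) * (r + √d * h) + √d * h) / bv d (r + 2 * (√d * h))) ≤
            d * Real.exp (K + 2) * (4 * √(3 / 4) ^ d) := by
          refine mul_le_mul h5 h3 ?_ (by positivity)
          have := bv_nonneg d (√(3 / 4) * (r + √d * h) + √d * h)
          have := bv_nonneg d (r + 2 * (√d * h))
          positivity
        have h7 : d * Real.exp (K + 2) * (4 * √(3 / 4) ^ d) = 4 * Real.exp 2 * d * z := by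
          rw [← hsK, Real.exp_add]; ring
        rw [h7] at h6
        have h8 : 16 * Real.exp 2 * d * z ≤ g := E5
        have h9 : (x + τ) * Real.exp ((1 + g) * (x + τ)) *
            (2 * bv d (√(3 / 4) * (r + √d * h) + √d * h) / bv d (r + 2 * (√d * h))) ≤ g / 4 := by
          linarith
        have h10 : (1 - g / 4) * (1 + g) ≤ (1 - (x + τ) * Real.exp ((1 + g) * (x + τ)) *
            (2 * bv d (√(3 / 4) * (r + √d * h) + √d * h) / bv d (r + 2 * (√d * h)))) *
            (1 + g) := by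
          refine mul_le_mul_of_nonneg_right ?_ (by positivity)
          linarith
        refine lt_of_lt_of_le ?_ h10
        have h11 : g * g ≤ g * 1 := mul_le_mul_of_nonneg_left (by linarith) hg0.le
        have h12 : (1 - g / 4) * (1 + g) = 1 + 3 / 4 * g - g * g / 4 := by ring
        rw [h12]
        linarith
      · -- the error
        have h1 : (x ^ 2 / 2 + x * β + 3 * τ ^ 2 / x + 3 * τ * (x + τ + β)) / x =
            x / 2 + β + 3 * (τ * (τ / x ^ 2)) + 3 * τ + 3 * τ * (τ / x + β / x) := by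
          field_simp
          ring
        rw [h1]
        have h2 : τ / x ^ 2 ≤ 1 := by rw [div_le_one (by positivity)]; exact hxx
        have h3 : τ / x ≤ 1 := by rw [div_le_one hx0]; exact hxτ
        have h4 : β / x ≤ 1 := by rw [div_le_one hx0]; linarith
        have h5 : τ * (τ / x ^ 2) ≤ τ * 1 := mul_le_mul_of_nonneg_left h2 hτ0.le
        have h6 : 3 * τ * (τ / x + β / x) ≤ 3 * τ * 2 :=
          mul_le_mul_of_nonneg_left (by linarith) (by positivity)
        linarith
  -- the lower bound for the free energy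
  set y := ρ * bv d (r - 2 * (√d * h)) with hy
  have hyp : y = lam * p' := by rw [hy, hB2, hlam']; ring
  have hyl : lam - τ ≤ y := by
    rw [hyp]
    have h1 : lam * (1 - 2 * u) ≤ lam * p' := mul_le_mul_of_nonneg_left hp'1 hlam0.le
    have h2 : lam * (2 * u) ≤ d / 6 * (2 * u) :=
      mul_le_mul_of_nonneg_right (hlamd.trans hKd) (by positivity)
    have h3 : 0 ≤ d * u := by positivity
    have h4 : lam * (1 - 2 * u) = lam - lam * (2 * u) := by ring
    linarith
  have hyu : y ≤ K := by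
    rw [hyp]
    have := mul_le_mul_of_nonneg_left hp'2 hlam0.le
    linarith
  have lower : ∀ᶠ k in atTop, Real.log ρ - 1 + lam / 2 - e / 64 ≤
      -(1 / (N k : ℝ)) * Real.log (ZZ d r (L k) (N k)) := by
    refine asym_upper hd1 r _ hh hρ (by
      rw [hdh]
      have := mul_le_mul_of_nonneg_left (by linarith : ω ≤ 1 / 64) hr.le
      linarith) y hy hL hN
      (upper.mono fun k hk => hk.1) ?_
    have h1 : h ^ d / bv d (r - 2 * (√d * h)) ≤ 2 * u := by
      rw [hB2, div_le_iff₀ (by
        have : 0 < p' := by linarith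
        positivity)]
      have h2 : u * B ≤ 2 * u * (p' * B) := by
        have h3 : 1 ≤ 2 * p' := by linarith
        have h4 : 0 < u * B := by positivity
        have := mul_le_mul_of_nonneg_left h3 h4.le
        linarith
      linarith
    have h2 : h ^ d / bv d (r - 2 * (√d * h)) + eps d ≤ 5 * v := by linarith
    have h3 : Real.exp (y + 1) ≤ Real.exp (K + 1) := Real.exp_le_exp.2 (by linarith)
    have h4 : (h ^ d / bv d (r - 2 * (√d * h)) + eps d) * Real.exp (y + 1) ≤
        5 * v * Real.exp (K + 1) :=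
      mul_le_mul h2 h3 (Real.exp_pos _).le (by positivity)
    have h5 : 5 * v * Real.exp (K + 1) ≤ 5 * Real.exp 1 * z := by
      have h6 : 5 * v * Real.exp (K + 1) = 5 * Real.exp 1 * (Real.exp K * v) := by
        rw [Real.exp_add]; ring
      rw [h6]
      gcongr
    have h6 : 5 * Real.exp 1 * z ≤ τ := E7
    linarith
  filter_upwards [upper, lower] with k k1 k2
  refine ⟨k1.1, ?_⟩
  rw [abs_le]
  constructor <;> linarith [k1.2]

end Pool.Agent.K4H61.HS
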