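import Pool.Agent.K4H61.HS.Defs

/-!
A lower bound for the solution of the differential equation of the Bessel functions.
-/

set_option autoImplicit false
open Set

namespace Pool.Agent.K4H61.HS

lemma mono_of (f f' : ℝ → ℝ) (a b : ℝ) (hf : ∀ t, HasDerivAt f (f' t) t)
    (h : ∀ t ∈ Ioo a b, 0 ≤ f' t) : ∀ s t, a ≤ s → s ≤ t → t ≤ b → f s ≤ f t := by
  intro s t has hst htb
  have h1 : MonotoneOn f (Icc a b) := by
    refine monotoneOn_of_deriv_nonneg (convex_Icc _ _)
      (fun x _ => (hf x).continuousAt.continuousWithinAt)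
      (fun x _ => (hf x).differentiableAt.differentiableWithinAt) ?_
    rw [interior_Icc]
    intro x hx
    rw [(hf x).deriv]
    exact h x hx
  exact h1 ⟨has, hst.trans htb⟩ ⟨has.trans hst, htb⟩ hst

theorem ode (d : ℕ) (hd : 1 ≤ d) (F G G' : ℝ → ℝ)
    (hF : ∀ t, HasDerivAt F (-(t / (d + 2)) * G t) t) (hG : ∀ t, HasDerivAt G (G' t) t)
    (hG' : ∀ t, t * G' t = (d + 2) * (F t - G t)) (h0 : F 0 = 1) :
    ∀ t, 0 ≤ t → -eps d ≤ F t := by
  set μ : ℝ := (d : ℝ) + 2 with hμ
  set ν : ℝ := (d : ℝ) / 2 with hν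
  have hd0 : (1 : ℝ) ≤ d := by exact_mod_cast hd
  have hν0 : 0 < ν := by rw [hν]; linarith
  have hμ0 : 0 < μ := by rw [hμ]; linarith
  have hμν : μ = 2 * ν + 2 := by rw [hμ, hν]; ring
  -- the function `E`
  set E : ℝ → ℝ := fun t => t ^ (d + 2) * Real.exp (-(t ^ 2 / (2 * ν))) * (μ / ν * F t - G t) with hE
  have hexp1 : ∀ c t : ℝ, HasDerivAt (fun t : ℝ => Real.exp (-(t ^ 2 / (2 * c))))
      (Real.exp (-(t ^ 2 / (2 * c))) * (-(t / c))) t := by
    intro c t
    have h1 := (((hasDerivAt_pow 2 t).div_const (2 * c)).neg).exp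
    refine h1.congr_deriv ?_
    simp only [Nat.cast_ofNat, Nat.add_one_sub_one, pow_one]
    rw [mul_div_mul_left _ _ (two_ne_zero)]
    rfl
  have hexp2 : ∀ c t : ℝ, HasDerivAt (fun t : ℝ => Real.exp (t ^ 2 / (2 * c)))
      (Real.exp (t ^ 2 / (2 * c)) * (t / c)) t := by
    intro c t
    have h1 := (((hasDerivAt_pow 2 t).div_const (2 * c))).exp
    refine h1.congr_deriv ?_
    simp only [Nat.cast_ofNat, Nat.add_one_sub_one, pow_one]
    rw [mul_div_mul_left _ _ (two_ne_zero)]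
  have hpow : ∀ t : ℝ, HasDerivAt (fun t : ℝ => t ^ (d + 2)) (μ * t ^ (d + 1)) t := by
    intro t
    have h1 := hasDerivAt_pow (d + 2) t
    refine h1.congr_deriv ?_
    push_cast
    rfl
  have hEd : ∀ t, HasDerivAt E ((μ * t ^ (d + 1) * Real.exp (-(t ^ 2 / (2 * ν))) +
      t ^ (d + 2) * (Real.exp (-(t ^ 2 / (2 * ν))) * (-(t / ν)))) * (μ / ν * F t - G t) +
      t ^ (d + 2) * Real.exp (-(t ^ 2 / (2 * ν))) * (μ / ν * (-(t / μ) * G t) - G' t)) t := by
    intro t
    exact ((hpow t).mul (hexp1 ν t)).mul (((hF t).const_mul (μ / ν)).sub (hG t))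
  have hEd' : ∀ t, 0 < t → t ≤ ν → 0 ≤ F t →
      0 ≤ ((μ * t ^ (d + 1) * Real.exp (-(t ^ 2 / (2 * ν))) +
      t ^ (d + 2) * (Real.exp (-(t ^ 2 / (2 * ν))) * (-(t / ν)))) * (μ / ν * F t - G t) +
      t ^ (d + 2) * Real.exp (-(t ^ 2 / (2 * ν))) * (μ / ν * (-(t / μ) * G t) - G' t)) := by
    intro t ht htν hFt
    have h1 : G' t = μ * (F t - G t) / t := by
      rw [eq_div_iff ht.ne', mul_comm]; exact hG' t
    have h2 : ((μ * t ^ (d + 1) * Real.exp (-(t ^ 2 / (2 * ν))) +
      t ^ (d + 2) * (Real.exp (-(t ^ 2 / (2 * ν))) * (-(t / ν)))) * (μ / ν * F t - G t) +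
      t ^ (d + 2) * Real.exp (-(t ^ 2 / (2 * ν))) * (μ / ν * (-(t / μ) * G t) - G' t)) =
      t ^ (d + 1) * Real.exp (-(t ^ 2 / (2 * ν))) * (F t * (μ * (1 + 2 / ν - t ^ 2 / ν ^ 2))) := by
      rw [h1, hμν]
      field_simp
      ring
    rw [h2]
    have h3 : t ^ 2 / ν ^ 2 ≤ 1 := by
      rw [div_le_one (by positivity)]
      exact pow_le_pow_left₀ ht.le htν 2
    have h4 : 0 ≤ 1 + 2 / ν - t ^ 2 / ν ^ 2 := by
      have : 0 ≤ 2 / ν := by positivity
      linarith
    positivity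
  have hDpos : ∀ T, T ≤ ν → (∀ t, 0 ≤ t → t < T → 0 ≤ F t) → ∀ t, 0 < t → t ≤ T →
      0 ≤ μ / ν * F t - G t := by
    intro T hT hFT t ht htT
    have h1 := mono_of E _ 0 T hEd (fun s hs => hEd' s hs.1 (hs.2.le.trans hT)
      (hFT s hs.1.le hs.2)) 0 t le_rfl ht.le htT
    have h2 : E 0 = 0 := by rw [hE]; simp
    rw [h2] at h1
    have h3 : 0 < t ^ (d + 2) * Real.exp (-(t ^ 2 / (2 * ν))) := by positivity
    exact nonneg_of_mul_nonneg_right h1 h3
  set M : ℝ → ℝ := fun t => Real.exp (t ^ 2 / (2 * ν)) * F t with hM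
  have hMd : ∀ t, HasDerivAt M (Real.exp (t ^ 2 / (2 * ν)) * (t / ν) * F t +
      Real.exp (t ^ 2 / (2 * ν)) * (-(t / μ) * G t)) t := by
    intro t
    exact (hexp2 ν t).mul (hF t)
  have hFpos : ∀ t, 0 ≤ t → t ≤ ν → 0 < F t := by
    by_contra hcon
    push Not at hcon
    obtain ⟨t0, ht0, ht0', hFt0⟩ := hcon
    have hFc : Continuous F := continuous_iff_continuousAt.2 fun t => (hF t).continuousAt
    have hZc : IsCompact (Icc 0 ν ∩ {t | F t ≤ 0}) :=
      isCompact_Icc.inter_right (isClosed_le hFc continuous_const)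
    obtain ⟨T, hTZ, hTl⟩ := hZc.exists_isLeast ⟨t0, ⟨ht0, ht0'⟩, hFt0⟩
    have hFT : ∀ t, 0 ≤ t → t < T → 0 ≤ F t := by
      intro t ht htT
      by_contra h
      push Not at h
      have := hTl ⟨⟨ht, htT.le.trans hTZ.1.2⟩, h.le⟩
      linarith
    have hD := hDpos T hTZ.1.2 hFT
    have h1 := mono_of M _ 0 T hMd (fun s hs => by
      have h2 := hD s hs.1 hs.2.le
      have h3 : Real.exp (s ^ 2 / (2 * ν)) * (s / ν) * F s +
          Real.exp (s ^ 2 / (2 * ν)) * (-(s / μ) * G s) =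
          Real.exp (s ^ 2 / (2 * ν)) * (s / μ) * (μ / ν * F s - G s) := by
        field_simp
        ring
      rw [h3]
      have := hs.1
      positivity) 0 T le_rfl hTZ.1.1 le_rfl
    have h2 : M 0 = 1 := by rw [hM]; simp [h0]
    rw [h2] at h1
    have h3 : M T ≤ 0 := by
      rw [hM]
      exact mul_nonpos_of_nonneg_of_nonpos (Real.exp_pos _).le hTZ.2
    linarith
  have hD := hDpos ν le_rfl (fun t ht htν => (hFpos t ht htν.le).le)
  -- `G ≥ 0`
  have hGpos : ∀ t, 0 < t → t ≤ ν → 0 ≤ G t := by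
    intro t ht htν
    have h1 := mono_of (fun t => t ^ (d + 2) * G t) (fun t => μ * t ^ (d + 1) * G t +
      t ^ (d + 2) * G' t) 0 ν (fun t => (hpow t).mul (hG t)) (fun s hs => by
        have h2 : μ * s ^ (d + 1) * G s + s ^ (d + 2) * G' s = s ^ (d + 1) * (μ * F s) := by
          have h3 := hG' s
          have h4 : s ^ (d + 2) * G' s = s ^ (d + 1) * (s * G' s) := by rw [pow_succ]; ring
          rw [h4, h3]
          ring
        rw [h2]
        have := hFpos s hs.1.le hs.2.le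
        have := hs.1
        positivity) 0 t le_rfl ht.le htν
    simp only [ne_eq, Nat.add_eq_zero_iff, OfNat.ofNat_ne_zero, and_false, not_false_eq_true,
      zero_pow, zero_mul] at h1
    exact nonneg_of_mul_nonneg_right h1 (by positivity)
  have hd2 : (0 : ℝ) < (d : ℝ) + 2 := by linarith
  have hd4 : (0 : ℝ) < (d : ℝ) + 4 := by linarith
  have hd6 : (0 : ℝ) < (d : ℝ) + 6 := by linarith
  set P : ℝ → ℝ := fun t => t / (d + 2) + t ^ 3 / ((d + 2) ^ 2 * (d + 4)) +
    2 * t ^ 5 / ((d + 2) ^ 3 * (d + 4) * (d + 6)) with hP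
  set R : ℝ → ℝ := fun t => 1 + t ^ 2 / ((d + 2) * (d + 4)) +
    2 * t ^ 4 / ((d + 2) ^ 2 * (d + 4) * (d + 6)) with hR
  set R' : ℝ → ℝ := fun t => 2 * t / ((d + 2) * (d + 4)) +
    8 * t ^ 3 / ((d + 2) ^ 2 * (d + 4) * (d + 6)) with hR'
  have hΦd : ∀ t, HasDerivAt (Phi d) (P t) t := by
    intro t
    have h1 := (((hasDerivAt_pow 2 t).div_const (2 * ((d : ℝ) + 2))).add
      ((hasDerivAt_pow 4 t).div_const (4 * ((d : ℝ) + 2) ^ 2 * (d + 4)))).add
      ((hasDerivAt_pow 6 t).div_const (3 * ((d : ℝ) + 2) ^ 3 * (d + 4) * (d + 6)))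
    refine h1.congr_deriv ?_
    rw [hP]
    norm_num
    field_simp
    ring
  have hRd : ∀ t, HasDerivAt R (R' t) t := by
    intro t
    have h1 := (((hasDerivAt_pow 2 t).div_const (((d : ℝ) + 2) * (d + 4))).const_add 1).add
      (((hasDerivAt_pow 4 t).const_mul 2).div_const (((d : ℝ) + 2) ^ 2 * (d + 4) * (d + 6)))
    refine h1.congr_deriv ?_
    rw [hR']
    norm_num
    field_simp
    ring
  have hexpm : ∀ t : ℝ, HasDerivAt (fun t : ℝ => Real.exp (-Phi d t))
      (Real.exp (-Phi d t) * (-P t)) t := fun t => (hΦd t).neg.exp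
  have hexpp : ∀ t : ℝ, HasDerivAt (fun t : ℝ => Real.exp (Phi d t))
      (Real.exp (Phi d t) * P t) t := fun t => (hΦd t).exp
  have hGF : ∀ t, 0 < t → t ≤ ν → R t * F t ≤ G t := by
    intro t ht htν
    have h1 := mono_of (fun t => t ^ (d + 2) * Real.exp (-Phi d t) * (G t - R t * F t))
      (fun t => (μ * t ^ (d + 1) * Real.exp (-Phi d t) +
        t ^ (d + 2) * (Real.exp (-Phi d t) * (-P t))) * (G t - R t * F t) +
        t ^ (d + 2) * Real.exp (-Phi d t) * (G' t - (R' t * F t + R t * (-(t / μ) * G t)))) 0 ν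
      (fun t => ((hpow t).mul (hexpm t)).mul ((hG t).sub ((hRd t).mul (hF t))))
      (fun s hs => by
        have hs0 := hs.1
        have h2 : G' s = μ * (F s - G s) / s := by
          rw [eq_div_iff hs0.ne', mul_comm]; exact hG' s
        have h3 : ((μ * s ^ (d + 1) * Real.exp (-Phi d s) +
            s ^ (d + 2) * (Real.exp (-Phi d s) * (-P s))) * (G s - R s * F s) +
            s ^ (d + 2) * Real.exp (-Phi d s) * (G' s - (R' s * F s + R s * (-(s / μ) * G s)))) =
            s ^ (d + 1) * Real.exp (-Phi d s) * (F s * (s ^ 2 / μ * ((R s - 1) ^ 2 +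
              4 * s ^ 4 / (μ ^ 2 * (μ + 2) * (μ + 4))))) := by
          rw [h2, hP, hR, hR', hμ]
          dsimp only
          have e1 : (d : ℝ) + 2 + 2 = d + 4 := by ring
          have e2 : (d : ℝ) + 2 + 4 = d + 6 := by ring
          rw [e1, e2]
          rw [pow_succ s (d + 1)]
          field_simp
          ring
        rw [h3]
        have := hFpos s hs.1.le hs.2.le
        positivity) 0 t le_rfl ht.le htν
    simp only [ne_eq, Nat.add_eq_zero_iff, OfNat.ofNat_ne_zero, and_false, not_false_eq_true,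
      zero_pow, zero_mul] at h1
    have := nonneg_of_mul_nonneg_right h1 (by positivity)
    linarith
  have hFν : F ν ≤ Real.exp (-Phi d ν) := by
    have h1 := mono_of (fun t => -(Real.exp (Phi d t) * F t))
      (fun t => -(Real.exp (Phi d t) * P t * F t +
      Real.exp (Phi d t) * (-(t / μ) * G t))) 0 ν
      (fun t => ((hexpp t).mul (hF t)).neg)
      (fun s hs => by
        have h2 : -(Real.exp (Phi d s) * P s * F s +
            Real.exp (Phi d s) * (-(s / μ) * G s)) =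
            Real.exp (Phi d s) * (s / μ) * (G s - R s * F s) := by
          rw [hP, hR, hμ]
          dsimp only
          field_simp
          ring
        rw [h2]
        have h3 := hGF s hs.1 hs.2.le
        have h4 : 0 ≤ G s - R s * F s := by linarith
        have := hs.1
        positivity) 0 ν le_rfl hν0.le le_rfl
    have h0' : Phi d 0 = 0 := by unfold Phi; simp
    simp only [h0', Real.exp_zero, one_mul, h0] at h1
    have h2 : Real.exp (Phi d ν) * F ν ≤ 1 := by linarith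
    rw [Real.exp_neg, ← one_div, le_div_iff₀ (Real.exp_pos _)]
    linarith
  set H : ℝ → ℝ := fun t => F t ^ 2 + (t * G t / μ) ^ 2 with hH
  have hHd : ∀ t, HasDerivAt H (2 * F t * (-(t / μ) * G t) +
      2 * (t * G t / μ) * ((1 * G t + t * G' t) / μ)) t := by
    intro t
    have h1 := (hF t).pow 2
    have h2 := (((hasDerivAt_id' t).mul (hG t)).div_const μ).pow 2
    refine (h1.add h2).congr_deriv ?_
    simp only [Nat.cast_ofNat, Nat.add_one_sub_one, pow_one]
    rfl
  have hHν : H ν ≤ 2 * Real.exp (-Phi d ν) ^ 2 := by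
    have h1 := hD ν hν0 le_rfl
    have h2 := hGpos ν hν0 le_rfl
    have h3 := hFpos ν hν0.le le_rfl
    have h4 : ν * G ν / μ ≤ F ν := by
      rw [div_le_iff₀ hμ0]
      have : ν * (μ / ν * F ν - G ν) = F ν * μ - ν * G ν := by field_simp
      nlinarith [mul_nonneg hν0.le h1]
    have h5 : 0 ≤ ν * G ν / μ := by positivity
    have h6 : (ν * G ν / μ) ^ 2 ≤ F ν ^ 2 := pow_le_pow_left₀ h5 h4 2
    have h7 : F ν ^ 2 ≤ Real.exp (-Phi d ν) ^ 2 := pow_le_pow_left₀ h3.le hFν 2
    rw [hH]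
    dsimp only
    linarith
  have heps : eps d = 3 / 2 * Real.exp (-Phi d ν) := rfl
  intro t ht
  by_cases htν : t ≤ ν
  · have h1 := hFpos t ht htν
    have h2 : 0 < eps d := by unfold eps; positivity
    linarith
  · push Not at htν
    have h1 := mono_of (fun t => -H t) (fun t => -(2 * F t * (-(t / μ) * G t) +
      2 * (t * G t / μ) * ((1 * G t + t * G' t) / μ))) ν t (fun t => (hHd t).neg) (fun s hs => by
        have hs0 : 0 < s := hν0.trans hs.1
        rw [hG' s]
        have h2 : -(2 * F s * (-(s / μ) * G s) +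
          2 * (s * G s / μ) * ((1 * G s + μ * (F s - G s)) / μ)) =
          2 * s * G s ^ 2 * ((μ - 1) / μ ^ 2) := by
          field_simp
          ring
        rw [h2]
        have h3 : 0 ≤ μ - 1 := by rw [hμ]; linarith
        positivity) ν t le_rfl htν.le le_rfl
    have h2 : H t ≤ 2 * Real.exp (-Phi d ν) ^ 2 := by linarith
    have h3 : F t ^ 2 ≤ H t := by
      rw [hH]
      dsimp only
      have : 0 ≤ (t * G t / μ) ^ 2 := by positivity
      linarith
    have h4 : F t ^ 2 ≤ eps d ^ 2 := by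
      rw [heps, mul_pow]
      have : 0 ≤ Real.exp (-Phi d ν) ^ 2 := by positivity
      linarith
    have h5 : 0 ≤ eps d := by unfold eps; positivity
    exact (abs_le.1 (abs_le_of_sq_le_sq h4 h5)).1

end Pool.Agent.K4H61.HS
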