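import Pool.Agent.K4H61.HS.Comb

/-!
The counting method of Kleitman and Winston with weights.
-/

set_option autoImplicit false
open Finset

namespace Pool.Agent.K4H61.HS

variable {X : Type}

open Classical in
/-- the weighted number of independent subsets of `U` with `k` elements -/
noncomputable def icw (R : X → X → Prop) (w : X → ℝ) (U : Finset X) (k : ℕ) : ℝ :=
  ∑ I ∈ (U.powersetCard k).filter (Ind R), ∏ v ∈ I, w v

lemma icw_nonneg (R : X → X → Prop) {w : X → ℝ} (hw : ∀ v, 0 ≤ w v) (U : Finset X) (k : ℕ) :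
    0 ≤ icw R w U k := by
  classical
  unfold icw
  exact sum_nonneg fun I _ => prod_nonneg fun v _ => hw v

open Classical in
lemma icw_rec (R : X → X → Prop) {w : X → ℝ} (hw : ∀ v, 0 ≤ w v) (U : Finset X) (v : X) (M : ℕ) :
    icw R w U (M + 1) ≤ icw R w (U.erase v) (M + 1) +
      w v * icw R w (U.filter (fun u => ¬ R v u)) M := by
  unfold icw
  have hP : ∀ I : Finset X, 0 ≤ ∏ v ∈ I, w v := fun I => prod_nonneg fun v _ => hw v
  rw [← sum_filter_add_sum_filter_not ((U.powersetCard (M + 1)).filter (Ind R))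
    (fun I => v ∉ I)]
  refine add_le_add ?_ ?_
  · refine sum_le_sum_of_subset_of_nonneg ?_ fun I _ _ => hP I
    intro I hI
    rw [mem_filter, mem_filter, mem_powersetCard] at hI
    obtain ⟨⟨⟨hIU, hIc⟩, hI2⟩, hv⟩ := hI
    rw [mem_filter, mem_powersetCard]
    exact ⟨⟨fun u hu => mem_erase.2 ⟨fun h => hv (h ▸ hu), hIU hu⟩, hIc⟩, hI2⟩
  · rw [mul_sum]
    have hmap : ∀ I ∈ ((U.powersetCard (M + 1)).filter (Ind R)).filter (fun I => ¬ v ∉ I),
        I.erase v ∈ ((U.filter (fun u => ¬ R v u)).powersetCard M).filter (Ind R) := by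
      intro I hI
      rw [mem_filter, mem_filter, mem_powersetCard, not_not] at hI
      obtain ⟨⟨⟨hIU, hIc⟩, hI2⟩, hv⟩ := hI
      rw [mem_filter, mem_powersetCard]
      refine ⟨⟨fun u hu => ?_, ?_⟩,
        fun u hu w hw => hI2 u (mem_of_mem_erase hu) w (mem_of_mem_erase hw)⟩
      · rw [mem_filter]
        exact ⟨hIU (mem_of_mem_erase hu),
          hI2 v hv u (mem_of_mem_erase hu) (ne_of_mem_erase hu).symm⟩
      · rw [card_erase_of_mem hv, hIc]; rfl
    have hinj : Set.InjOn (fun I : Finset X => I.erase v)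
        (((U.powersetCard (M + 1)).filter (Ind R)).filter (fun I => ¬ v ∉ I)) := by
      intro I hI J hJ hIJ
      rw [mem_coe, mem_filter, not_not] at hI hJ
      rw [← insert_erase hI.2, ← insert_erase hJ.2]
      exact congrArg (insert v) hIJ
    have h1 : ∑ I ∈ ((U.powersetCard (M + 1)).filter (Ind R)).filter (fun I => ¬ v ∉ I),
        ∏ x ∈ I, w x = ∑ J ∈ (((U.powersetCard (M + 1)).filter (Ind R)).filter
          (fun I => ¬ v ∉ I)).image (fun I => I.erase v), w v * ∏ x ∈ J, w x := by
      rw [sum_image hinj]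
      refine sum_congr rfl fun I hI => ?_
      rw [mem_filter, not_not] at hI
      rw [mul_prod_erase I w hI.2]
    rw [h1]
    refine sum_le_sum_of_subset_of_nonneg ?_ fun I _ _ => mul_nonneg (hw v) (hP I)
    intro J hJ
    rw [mem_image] at hJ
    obtain ⟨I, hI, rfl⟩ := hJ
    exact hmap I hI

lemma add_pow_aux (b w : ℝ) (hb : 0 ≤ b) (hw : 0 ≤ w) (n : ℕ) :
    b ^ (n + 1) + (n + 1 : ℝ) * w * b ^ n ≤ (b + w) ^ (n + 1) := by
  induction n with
  | zero => simp
  | succ n ih =>
    have h1 : (b + w) ^ (n + 1 + 1) = (b + w) * (b + w) ^ (n + 1) := by ring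
    rw [h1]
    have h2 : (b + w) * (b ^ (n + 1) + (n + 1 : ℝ) * w * b ^ n) ≤ (b + w) * (b + w) ^ (n + 1) := by
      gcongr
    refine le_trans ?_ h2
    have h3 : (b + w) * (b ^ (n + 1) + (n + 1 : ℝ) * w * b ^ n) =
        b ^ (n + 1 + 1) + ((n : ℝ) + 1 + 1) * w * b ^ (n + 1) + (n + 1 : ℝ) * w ^ 2 * b ^ n := by
      ring
    rw [h3]
    push_cast
    have : 0 ≤ (n + 1 : ℝ) * w ^ 2 * b ^ n := by positivity
    linarith

open Classical in
/-- **Kleitman–Winston with weights.** -/
theorem kww (R : X → X → Prop) (w : X → ℝ) (hw : ∀ v, 0 ≤ w v)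
    (hw1 : ∀ v, w v ≤ 1) (q s : ℝ) (hq : 0 < q) (hs : 0 ≤ s)
    (h : ∀ U : Finset X, U.Nonempty → ∃ v ∈ U, (1 - q) * (∑ u ∈ U, w u) - s ≤
      ∑ u ∈ U.filter (fun u => R v u), w u) :
    ∀ j : ℕ, ∀ U : Finset X, icw R w U j ≤
      q ^ (j.choose 2) * ((∑ u ∈ U, w u) + th q s j) ^ j / (j.factorial : ℝ) := by
  intro j
  induction j with
  | zero =>
    intro U
    unfold icw
    rw [powersetCard_zero]
    have : ({∅} : Finset (Finset X)).filter (Ind R) = {∅} := by
      rw [filter_eq_self]
      intro I hI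
      rw [mem_singleton] at hI
      rw [hI]
      intro u hu
      simp at hu
    rw [this]
    simp
  | succ j ih =>
    intro U
    induction hU : U.card using Nat.strong_induction_on generalizing U with
    | _ n ihn =>
      have hS0 : ∀ U : Finset X, 0 ≤ ∑ u ∈ U, w u := fun U => sum_nonneg fun u _ => hw u
      rcases U.eq_empty_or_nonempty with rfl | hne
      · have h0 : icw R w ∅ (j + 1) = 0 := by
          unfold icw
          rw [powersetCard_eq_empty.2 (by simp)]
          simp
        rw [h0]
        have := th_nonneg hq hs (j + 1)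
        rw [sum_empty]
        positivity
      obtain ⟨v, hv, hdeg⟩ := h U hne
      have hrec := icw_rec R hw U v j
      have hcard1 : (U.erase v).card < n := by
        rw [← hU]; exact card_erase_lt_of_mem hv
      have h1 := ihn _ hcard1 (U.erase v) rfl
      have h2 := ih (U.filter (fun u => ¬ R v u))
      set W : ℝ := ∑ u ∈ U, w u with hW
      set b : ℝ := (∑ u ∈ U.erase v, w u) + th q s (j + 1) with hb
      have hWv : W = w v + ∑ u ∈ U.erase v, w u := by
        rw [hW]; exact (add_sum_erase U w hv).symm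
      have hth := th_succ_ge hq hs j
      have hth0 := th_nonneg hq hs j
      have hb0 : 0 ≤ b := by
        have := hS0 (U.erase v)
        linarith
      have hwv := hw v
      have hwv1 := hw1 v
      have hcard : ∑ u ∈ U.filter (fun u => ¬ R v u), w u ≤ q * W + s := by
        have h3 := sum_filter_add_sum_filter_not U (fun u => R v u) w
        linarith
      have hE : (j + 1).choose 2 = j.choose 2 + j := by
        rw [Nat.choose_succ_succ' j 1, Nat.choose_one_right]; ring
      have h3 : icw R w (U.filter (fun u => ¬ R v u)) j ≤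
          q ^ ((j + 1).choose 2) * b ^ j / (j.factorial : ℝ) := by
        refine h2.trans ?_
        have h5 : (∑ u ∈ U.filter (fun u => ¬ R v u), w u) + th q s j ≤ q * b := by
          have h6 : q * b = q * (W - w v) + q + s + th q s j := by
            rw [hb, hWv]
            simp only [th]
            field_simp
            ring
          rw [h6]
          nlinarith
        have h6 : ((∑ u ∈ U.filter (fun u => ¬ R v u), w u) + th q s j) ^ j ≤ q ^ j * b ^ j := by
          rw [← mul_pow]
          exact pow_le_pow_left₀ (add_nonneg (hS0 _) hth0) h5 _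
        have h7 : q ^ ((j + 1).choose 2) * b ^ j = q ^ (j.choose 2) * (q ^ j * b ^ j) := by
          rw [hE, pow_add, mul_assoc]
        rw [h7]
        exact div_le_div_of_nonneg_right (mul_le_mul_of_nonneg_left h6 (by positivity))
          (by positivity)
      have h5 : icw R w U (j + 1) ≤
          q ^ ((j + 1).choose 2) * b ^ (j + 1) / ((j + 1).factorial : ℝ) +
          w v * (q ^ ((j + 1).choose 2) * b ^ j / (j.factorial : ℝ)) := by
        refine hrec.trans (add_le_add h1 ?_)
        exact mul_le_mul_of_nonneg_left h3 hwv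
      refine h5.trans ?_
      have hfac : ((j + 1).factorial : ℝ) = (j + 1 : ℝ) * (j.factorial : ℝ) := by
        rw [Nat.factorial_succ]; push_cast; ring
      have hF : (0 : ℝ) < (j.factorial : ℝ) := by positivity
      have hF1 : (0 : ℝ) < (j + 1 : ℝ) := by positivity
      have hkey : b ^ (j + 1) + (j + 1 : ℝ) * w v * b ^ j ≤ (W + th q s (j + 1)) ^ (j + 1) := by
        have e : W + th q s (j + 1) = b + w v := by rw [hWv, hb]; ring
        rw [e]
        exact add_pow_aux b (w v) hb0 hwv j
      have hqp : 0 ≤ q ^ ((j + 1).choose 2) := by positivity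
      rw [hfac]
      have e1 : q ^ ((j + 1).choose 2) * b ^ (j + 1) / ((j + 1 : ℝ) * (j.factorial : ℝ)) +
          w v * (q ^ ((j + 1).choose 2) * b ^ j / (j.factorial : ℝ)) =
          q ^ ((j + 1).choose 2) * (b ^ (j + 1) + (j + 1 : ℝ) * w v * b ^ j) /
            ((j + 1 : ℝ) * (j.factorial : ℝ)) := by
        field_simp
      rw [e1]
      gcongr

end Pool.Agent.K4H61.HS
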