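import Pool.Agent.K4H61.HS.Large

/-!
Some closed neighbourhood is large: weighted form.
-/

set_option autoImplicit false
open MeasureTheory Set

namespace Pool.Agent.K4H61.HS

variable {d m : ℕ}

/-- the weighted sum of the indicator functions of the cells -/
noncomputable def fw (h : ℝ) (w : (Fin d → Fin m) → ℝ) (U : Finset (Fin d → Fin m)) :
    ES d → ℝ := fun x => ∑ c ∈ U, w c * i1 (cell h c) x

lemma fw_nonneg {h : ℝ} {w : (Fin d → Fin m) → ℝ} (hw : ∀ c, 0 ≤ w c)
    (U : Finset (Fin d → Fin m)) (x : ES d) : 0 ≤ fw h w U x :=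
  Finset.sum_nonneg fun c _ => mul_nonneg (hw c) (i1_nonneg _ _)

lemma fw_zero {h : ℝ} (w : (Fin d → Fin m) → ℝ) (U : Finset (Fin d → Fin m)) {x : ES d}
    (hx : x ∉ cells h U) : fw h w U x = 0 := by
  refine Finset.sum_eq_zero fun c hc => ?_
  rw [i1_nmem, mul_zero]
  intro h'
  exact hx (by unfold cells; rw [mem_iUnion₂]; exact ⟨c, hc, h'⟩)

lemma fw_le_one {h : ℝ} (hh : 0 < h) {w : (Fin d → Fin m) → ℝ} (hw : ∀ c, 0 ≤ w c)
    (hw1 : ∀ c, w c ≤ 1) (U : Finset (Fin d → Fin m)) (x : ES d) : fw h w U x ≤ 1 := by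
  by_cases hx : x ∈ cells h U
  · unfold cells at hx
    rw [mem_iUnion₂] at hx
    obtain ⟨c, hc, hxc⟩ := hx
    unfold fw
    rw [Finset.sum_eq_single_of_mem c hc]
    · rw [i1_mem hxc, mul_one]; exact hw1 c
    · intro b _ hb
      rw [i1_nmem, mul_zero]
      exact fun h' => (cell_disj hh hb).le_bot ⟨h', hxc⟩
  · rw [fw_zero w U hx]; norm_num

lemma cell_int {h : ℝ} (hh : 0 < h) (c : Fin d → Fin m) : Integrable (i1 (cell h c)) :=
  i1_integrable _ (cell_meas h c) (by rw [cell_vol hh]; exact ENNReal.ofReal_lt_top)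

lemma cell_integral {h : ℝ} (hh : 0 < h) (c : Fin d → Fin m) :
    ∫ x, i1 (cell h c) x = h ^ d := by
  rw [i1_integral _ (cell_meas h c), cell_vol hh, ENNReal.toReal_ofReal (by positivity)]

lemma fw_integrable {h : ℝ} (hh : 0 < h) (w : (Fin d → Fin m) → ℝ)
    (U : Finset (Fin d → Fin m)) : Integrable (fw h w U) :=
  integrable_finsetSum _ fun c _ => (cell_int hh c).const_mul _

lemma fw_integral {h : ℝ} (hh : 0 < h) (w : (Fin d → Fin m) → ℝ)
    (U : Finset (Fin d → Fin m)) : ∫ x, fw h w U x = h ^ d * ∑ c ∈ U, w c := by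
  unfold fw
  rw [integral_finsetSum _ fun c _ => (cell_int hh c).const_mul _, Finset.mul_sum]
  refine Finset.sum_congr rfl fun c _ => ?_
  rw [integral_const_mul, cell_integral hh]
  ring

lemma fw_memLp {h : ℝ} (hh : 0 < h) (w : (Fin d → Fin m) → ℝ)
    (U : Finset (Fin d → Fin m)) : MemLp (fw h w U) 2 volume := by
  refine memLp_finsetSum _ fun c _ => ?_
  exact (i1_memLp _ (cell_meas h c) (by rw [cell_vol hh]; exact ENNReal.ofReal_lt_top)).const_mul _

lemma AA_fw (r : ℝ) {f : ES d → ℝ} (hf : Integrable f) (T : Set (ES d))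
    (hball : ∀ x, f x ≠ 0 → Metric.ball x r ⊆ T) :
    AA r f (i1 T) = (volume (Metric.ball (0 : ES d) r)).toReal * ∫ x, f x := by
  rw [← (kr_mul_left r f hf).2]
  unfold AA
  refine integral_congr_ae (Filter.Eventually.of_forall fun p => ?_)
  dsimp only
  by_cases hp : f p.1 = 0
  · rw [hp, zero_mul]
  · unfold kr
    by_cases hk : dist p.1 p.2 < r
    · rw [if_pos hk, i1_mem (hball _ hp (by rw [Metric.mem_ball']; exact hk)), mul_one]
    · rw [if_neg hk, zero_mul, zero_mul]

lemma AA_fw' (r : ℝ) {f : ES d → ℝ} (hf : Integrable f) (T : Set (ES d))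
    (hball : ∀ x, f x ≠ 0 → Metric.ball x r ⊆ T) :
    AA r (i1 T) f = (volume (Metric.ball (0 : ES d) r)).toReal * ∫ x, f x := by
  rw [← (kr_mul_right r f hf).2]
  unfold AA
  refine integral_congr_ae (Filter.Eventually.of_forall fun p => ?_)
  dsimp only
  by_cases hp : f p.2 = 0
  · rw [hp, mul_zero]
  · unfold kr
    by_cases hk : dist p.1 p.2 < r
    · rw [if_pos hk, i1_mem (hball _ hp (by rw [Metric.mem_ball]; exact hk)), one_mul]
    · rw [if_neg hk, zero_mul, zero_mul]

lemma AA_cellsw (s h : ℝ) (hh : 0 < h) (hs : √d * h < s) (w : (Fin d → Fin m) → ℝ)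
    (hw : ∀ c, 0 ≤ w c) (U : Finset (Fin d → Fin m))
    (P : Finset ((Fin d → Fin m) × (Fin d → Fin m)))
    (hP : ∀ q ∈ P, q.1 ∈ U ∧ q.2 ∈ U ∧ near h s q.1 q.2)
    (hP' : ∀ v ∈ U, ∀ u ∈ U, near h s v u → (v, u) ∈ P) :
    AA (s - √d * h) (fw h w U) (fw h w U) ≤ (∑ q ∈ P, w q.1 * w q.2) * (h ^ d) ^ 2 := by
  have hUm := fw_memLp hh w U
  have hs0 : 0 < s := lt_of_le_of_lt (by positivity) hs
  have hprod : ∀ q : (Fin d → Fin m) × (Fin d → Fin m), Integrable
      (fun p : ES d × ES d => (w q.1 * i1 (cell h q.1) p.1) * (w q.2 * i1 (cell h q.2) p.2))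
        (volume.prod volume) :=
    fun q => ((cell_int hh q.1).const_mul _).mul_prod ((cell_int hh q.2).const_mul _)
  have h1 : (∑ q ∈ P, w q.1 * w q.2) * (h ^ d) ^ 2 = ∫ p : ES d × ES d, ∑ q ∈ P,
      (w q.1 * i1 (cell h q.1) p.1) * (w q.2 * i1 (cell h q.2) p.2) ∂(volume.prod volume) := by
    rw [integral_finsetSum _ fun q _ => hprod q, Finset.sum_mul]
    refine Finset.sum_congr rfl fun q _ => ?_
    rw [integral_prod_mul (fun x => w q.1 * i1 (cell h q.1) x)
      (fun x => w q.2 * i1 (cell h q.2) x), integral_const_mul, integral_const_mul,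
      cell_integral hh, cell_integral hh]
    ring
  rw [h1]
  unfold AA
  refine integral_mono (AA_integrable _ _ _ hUm hUm) (integrable_finsetSum _ fun q _ => hprod q)
    fun p => ?_
  dsimp only
  have hnn : ∀ q : (Fin d → Fin m) × (Fin d → Fin m),
      0 ≤ (w q.1 * i1 (cell h q.1) p.1) * (w q.2 * i1 (cell h q.2) p.2) := fun q =>
    mul_nonneg (mul_nonneg (hw _) (i1_nonneg _ _)) (mul_nonneg (hw _) (i1_nonneg _ _))
  have hexp : fw h w U p.1 * fw h w U p.2 = ∑ q ∈ U ×ˢ U,
      (w q.1 * i1 (cell h q.1) p.1) * (w q.2 * i1 (cell h q.2) p.2) := by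
    unfold fw
    rw [Finset.sum_mul_sum, Finset.sum_product]
  by_cases hk : dist p.1 p.2 < s - √d * h
  · unfold kr
    rw [if_pos hk, one_mul, hexp]
    have hz : ∀ q ∈ U ×ˢ U, q ∉ P →
        (w q.1 * i1 (cell h q.1) p.1) * (w q.2 * i1 (cell h q.2) p.2) = 0 := by
      intro q hq hqP
      by_cases h1 : p.1 ∈ cell h q.1
      · by_cases h2 : p.2 ∈ cell h q.2
        · exfalso
          apply hqP
          rw [Finset.mem_product] at hq
          refine hP' q.1 hq.1 q.2 hq.2 ?_
          rw [near_iff hs0]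
          have h3 := cell_dist hh h1 h2
          rw [dist_eq_norm] at hk
          have h4 : corner h q.1 - corner h q.2 =
            (p.1 - p.2) - ((p.1 - p.2) - (corner h q.1 - corner h q.2)) := by abel
          calc ‖corner h q.1 - corner h q.2‖ ≤
              ‖p.1 - p.2‖ + ‖(p.1 - p.2) - (corner h q.1 - corner h q.2)‖ := by
                conv_lhs => rw [h4]
                exact norm_sub_le _ _
            _ < s := by linarith
        · rw [i1_nmem h2]; ring
      · rw [i1_nmem h1]; ring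
    rw [← Finset.sum_subset (s₁ := P) (s₂ := U ×ˢ U) (fun q hq => ?_) hz]
    rw [Finset.mem_product]
    exact ⟨(hP q hq).1, (hP q hq).2.1⟩
  · unfold kr
    rw [if_neg hk, zero_mul]
    exact Finset.sum_nonneg fun q _ => hnn q

open Classical in
theorem exists_largew (hd : 1 ≤ d) (s h : ℝ) (hh : 0 < h) (hs : √d * h < s)
    (w : (Fin d → Fin m) → ℝ) (hw : ∀ c, 0 ≤ w c) (hw1 : ∀ c, w c ≤ 1)
    (U : Finset (Fin d → Fin m)) (hU : U.Nonempty) : ∃ v ∈ U,
      bv d (s - √d * h) * ((∑ u ∈ U, w u) / (m * h + 2 * s) ^ d - eps d / h ^ d) ≤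
        ∑ u ∈ U.filter (fun u => near h s v u), w u := by
  have hs0 : 0 < s - √d * h := by linarith
  have hsp : 0 < s := lt_of_le_of_lt (by positivity) hs
  set s0 := s - √d * h with hs0'
  set V := bv d s0 with hV
  have hVe : V = (volume (Metric.ball (0 : ES d) s0)).toReal := bv_eq d hs0
  have hV0 : 0 < V := bv_pos d hs0
  have heps : 0 < eps d := by unfold eps; positivity
  have hhd : 0 < h ^ d := by positivity
  have hmh : 0 ≤ (m : ℝ) * h := by positivity
  rcases (Finset.sum_nonneg (fun u (_ : u ∈ U) => hw u)).eq_or_lt with h0 | hpos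
  · obtain ⟨v, hv⟩ := hU
    refine ⟨v, hv, ?_⟩
    rw [← h0, zero_div, zero_sub]
    refine le_trans ?_ (Finset.sum_nonneg fun u _ => hw u)
    have : 0 ≤ V * (eps d / h ^ d) := by positivity
    linarith
  set f := fw h w U with hf
  set W : Set (ES d) := bigW d m h s0 with hW
  have hWm : MeasurableSet W := bigW_meas h s0
  have hWv' : volume W = ENNReal.ofReal ((m * h + 2 * s0) ^ d) := bigW_vol hh hs0
  have hWv : volume W < ⊤ := by rw [hWv']; exact ENNReal.ofReal_lt_top
  set a : ℝ := h ^ d * ∑ u ∈ U, w u with ha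
  have hfa : ∫ x, f x = a := fw_integral hh w U
  set b : ℝ := (m * h + 2 * s0) ^ d with hb
  have hb0 : 0 < b := by rw [hb]; positivity
  have hWb : (volume W).toReal = b := by rw [hWv', ENNReal.toReal_ofReal hb0.le]
  have ha0 : 0 < a := by rw [ha]; positivity
  set α := a / b with hα
  have hf2 := fw_memLp (m := m) hh w U
  rw [← hf] at hf2
  have hfi : Integrable f := fw_integrable hh w U
  have hW2 := i1_memLp W hWm hWv
  have hsupp : ∀ x, f x ≠ 0 → x ∈ cells h U := by
    intro x hx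
    by_contra hcon
    exact hx (fw_zero w U hcon)
  have hball : ∀ x, f x ≠ 0 → Metric.ball x s0 ⊆ W := fun x hx =>
    cells_ball hh U x (hsupp x hx)
  have hAW : ∀ x, f x ≠ 0 → x ∈ W := fun x hx => hball x hx (Metric.mem_ball_self hs0)
  set g : ES d → ℝ := fun x => f x - α * i1 W x with hg
  have hg2 : MemLp g 2 volume := hf2.sub (hW2.const_mul α)
  have hq := quad_L2 s0 (eps d * V) (by positivity) (fun ξ => by
    have := ball_cos d hd s0 hs0 ξ
    linarith) g hg2
  have hgg : AA s0 g g = AA s0 f f - α * AA s0 f (i1 W) - α * AA s0 (i1 W) f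
      + α ^ 2 * AA s0 (i1 W) (i1 W) := by
    unfold AA
    rw [← integral_const_mul, ← integral_const_mul, ← integral_const_mul, ← integral_sub,
      ← integral_sub, ← integral_add]
    · refine integral_congr_ae (Filter.Eventually.of_forall fun p => ?_)
      rw [hg]
      dsimp only
      ring
    · exact ((AA_integrable s0 _ _ hf2 hf2).sub ((AA_integrable s0 _ _ hf2 hW2).const_mul _)).sub
        ((AA_integrable s0 _ _ hW2 hf2).const_mul _)
    · exact (AA_integrable s0 _ _ hW2 hW2).const_mul _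
    · exact (AA_integrable s0 _ _ hf2 hf2).sub ((AA_integrable s0 _ _ hf2 hW2).const_mul _)
    · exact (AA_integrable s0 _ _ hW2 hf2).const_mul _
    · exact (AA_integrable s0 _ _ hf2 hf2)
    · exact (AA_integrable s0 _ _ hf2 hW2).const_mul _
  have hsq : ∫ x, g x ^ 2 ≤ a - a ^ 2 / b := by
    have h1 : ∀ x, g x ^ 2 ≤ (1 - 2 * α) * f x + α ^ 2 * i1 W x := by
      intro x
      rw [hg]
      dsimp only
      have hf0 := fw_nonneg (h := h) hw U x
      have hf1 := fw_le_one hh hw hw1 U x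
      rw [← hf] at hf0 hf1
      by_cases hx : f x = 0
      · rw [hx]
        by_cases hx' : x ∈ W
        · rw [i1_mem hx']; nlinarith
        · rw [i1_nmem hx']; nlinarith
      · rw [i1_mem (hAW x hx)]
        nlinarith
    have hi : Integrable (fun x => (1 - 2 * α) * f x + α ^ 2 * i1 W x) :=
      (hfi.const_mul _).add ((i1_integrable W hWm hWv).const_mul _)
    refine (integral_mono hg2.integrable_sq hi h1).trans (le_of_eq ?_)
    rw [integral_add (hfi.const_mul _)
      ((i1_integrable W hWm hWv).const_mul _), integral_const_mul, integral_const_mul,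
      hfa, i1_integral W hWm, hWb, hα]
    field_simp
    ring
  have e1 := AA_fw s0 hfi W hball
  have e2 := AA_fw' s0 hfi W hball
  have e3 := AA_ind_le s0 W hWm hWv
  rw [← hVe, hfa] at e1 e2
  rw [← hVe, hWb] at e3
  rw [hgg, e1, e2] at hq
  have hq' : -(eps d * V) * (a - a ^ 2 / b) ≤ -(eps d * V) * ∫ x, g x ^ 2 := by
    have h0 : 0 ≤ eps d * V := by positivity
    have := mul_le_mul_of_nonneg_left hsq h0
    linarith
  set P : Finset ((Fin d → Fin m) × (Fin d → Fin m)) :=
    (U ×ˢ U).filter (fun p => near h s p.1 p.2) with hP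
  have e4 := AA_cellsw s h hh hs w hw U P (fun q hq => by
      rw [hP, Finset.mem_filter, Finset.mem_product] at hq
      exact ⟨hq.1.1, hq.1.2, hq.2⟩) (fun v hv u hu hn => by
    rw [hP, Finset.mem_filter, Finset.mem_product]
    exact ⟨⟨hv, hu⟩, hn⟩)
  rw [← hs0', ← hf] at e4
  set SP : ℝ := ∑ q ∈ P, w q.1 * w q.2 with hSP
  have hα2 : α ^ 2 * AA s0 (i1 W) (i1 W) ≤ α ^ 2 * (V * b) :=
    mul_le_mul_of_nonneg_left e3 (by positivity)
  have h5 : α ^ 2 * (V * b) = V * (a ^ 2 / b) := by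
    rw [hα]; field_simp
  have h6 : α * (V * a) = V * (a ^ 2 / b) := by
    rw [hα]; field_simp
  rw [h6] at hq
  have h7 : V * (a ^ 2 / b) - eps d * V * a ≤ SP * (h ^ d) ^ 2 := by
    have h8 : 0 ≤ eps d * V * (a ^ 2 / b) := by positivity
    have h9 : -(eps d * V) * (a - a ^ 2 / b) = -(eps d * V * a) + eps d * V * (a ^ 2 / b) := by ring
    rw [h9] at hq'
    linarith
  have hbb : b ≤ (m * h + 2 * s) ^ d := by
    rw [hb]
    refine pow_le_pow_left₀ (by positivity) ?_ d
    have : s0 ≤ s := by rw [hs0']; have : 0 ≤ √d * h := by positivity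
                        linarith
    linarith
  set b' := (m * h + 2 * s) ^ d with hb'
  have hb'0 : 0 < b' := lt_of_lt_of_le hb0 hbb
  have h10 : V * (a ^ 2 / b') ≤ V * (a ^ 2 / b) := by gcongr
  have hPc : SP = ∑ v ∈ U, w v * ∑ u ∈ U.filter (fun u => near h s v u), w u := by
    rw [hSP, hP, Finset.sum_filter, Finset.sum_product]
    refine Finset.sum_congr rfl fun v _ => ?_
    rw [Finset.mul_sum, Finset.sum_filter]
  set C := V * ((∑ u ∈ U, w u) / b' - eps d / h ^ d) with hC
  by_contra hcon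
  push Not at hcon
  have h11 : SP ≤ ∑ v ∈ U, w v * C := by
    rw [hPc]
    refine Finset.sum_le_sum fun v hv => ?_
    exact mul_le_mul_of_nonneg_left (hcon v hv).le (hw v)
  have h13 : ∑ v ∈ U, w v * (∑ u ∈ U.filter (fun u => near h s v u), w u) < ∑ v ∈ U, w v * C := by
    obtain ⟨v0, hv0, hv0p⟩ : ∃ v ∈ U, 0 < w v := by
      by_contra hno
      push Not at hno
      have := Finset.sum_nonpos hno
      linarith
    refine Finset.sum_lt_sum (fun v hv => mul_le_mul_of_nonneg_left (hcon v hv).le (hw v))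
      ⟨v0, hv0, mul_lt_mul_of_pos_left (hcon v0 hv0) hv0p⟩
  rw [← hPc, ← Finset.sum_mul] at h13
  have h14 : (∑ u ∈ U, w u) * C * (h ^ d) ^ 2 = V * (a ^ 2 / b') - eps d * V * a := by
    rw [hC, ha]
    field_simp
  have h15 := mul_lt_mul_of_pos_right h13 (by positivity : 0 < (h ^ d) ^ 2)
  rw [h14] at h15
  linarith

end Pool.Agent.K4H61.HS
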