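import Pool.Agent.K4H61.HS.W1
import Pool.Agent.K4H61.HS.Conf

/-!
Discretisation with weights.
-/

set_option autoImplicit false
open MeasureTheory Set

namespace Pool.Agent.K4H61.HS

open Classical in
/-- weighted independent tuples and independent sets -/
lemma tuples_sum {X : Type} [Fintype X] (R : X → X → Prop) (hrefl : ∀ u, R u u)
    (w : X → ℝ) (N : ℕ) :
    ∑ c ∈ Finset.univ.filter (fun c : Fin N → X => ∀ i j, i ≠ j → ¬ R (c i) (c j)),
      ∏ i, w (c i) = N.factorial * icw R w Finset.univ N := by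
  set T := Finset.univ.filter (fun c : Fin N → X => ∀ i j, i ≠ j → ¬ R (c i) (c j)) with hT
  have hinj : ∀ c ∈ T, Function.Injective c := by
    intro c hc i j hij
    by_contra hne
    rw [hT, Finset.mem_filter] at hc
    exact hc.2 i j hne (hij ▸ hrefl _)
  have h1 : ∀ c ∈ T, Finset.univ.image c ∈ (Finset.powersetCard N Finset.univ).filter (Ind R) := by
    intro c hc
    rw [Finset.mem_filter, Finset.mem_powersetCard]
    refine ⟨⟨Finset.subset_univ _, ?_⟩, ?_⟩
    · rw [Finset.card_image_of_injective _ (hinj c hc), Finset.card_univ, Fintype.card_fin]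
    · intro u hu v hv huv
      rw [Finset.mem_image] at hu hv
      obtain ⟨i, _, rfl⟩ := hu
      obtain ⟨j, _, rfl⟩ := hv
      rw [hT, Finset.mem_filter] at hc
      exact hc.2 i j (fun h => huv (by rw [h]))
  rw [← Finset.sum_fiberwise_of_maps_to (g := fun c : Fin N → X => Finset.univ.image c) h1]
  unfold icw
  rw [Finset.mul_sum]
  refine Finset.sum_congr rfl fun I hI => ?_
  have h2 : (T.filter (fun c => Finset.univ.image c = I)).card = N.factorial := by
    rw [Finset.mem_filter, Finset.mem_powersetCard] at hI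
    obtain ⟨⟨_, hIc⟩, hI2⟩ := hI
    have h3 : (Finset.univ : Finset (Fin N ↪ I)).card = N.factorial := by
      rw [Finset.card_univ, Fintype.card_embedding_eq, Fintype.card_coe, hIc, Fintype.card_fin,
        Nat.descFactorial_self]
    rw [← h3]
    symm
    refine Finset.card_bij (fun e _ => fun i => ((e i : I) : X)) ?_ ?_ ?_
    · intro e _
      rw [Finset.mem_filter, hT, Finset.mem_filter]
      have hcinj : Function.Injective (fun i => ((e i : I) : X)) :=
        Subtype.val_injective.comp e.injective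
      refine ⟨⟨Finset.mem_univ _, fun i j hij => ?_⟩, ?_⟩
      · exact hI2 _ (e i).2 _ (e j).2 (fun h => hij (hcinj h))
      · refine Finset.eq_of_subset_of_card_le ?_ ?_
        · intro x hx
          rw [Finset.mem_image] at hx
          obtain ⟨i, _, rfl⟩ := hx
          exact (e i).2
        · rw [hIc, Finset.card_image_of_injective _ hcinj, Finset.card_univ, Fintype.card_fin]
    · intro e _ e' _ he
      ext i
      exact congrFun he i
    · intro c hc
      rw [Finset.mem_filter] at hc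
      have hmem : ∀ i, c i ∈ I := fun i => by
        rw [← hc.2]
        exact Finset.mem_image_of_mem _ (Finset.mem_univ _)
      refine ⟨⟨fun i => ⟨c i, hmem i⟩, fun i j hij => hinj c hc.1 (congrArg Subtype.val hij)⟩,
        Finset.mem_univ _, rfl⟩
  have h3 : ∀ c ∈ T.filter (fun c => Finset.univ.image c = I), ∏ i, w (c i) = ∏ v ∈ I, w v := by
    intro c hc
    rw [Finset.mem_filter] at hc
    rw [← hc.2, Finset.prod_image fun i _ j _ hij => hinj c hc.1 hij]
  rw [Finset.sum_congr rfl h3, Finset.sum_const, h2, nsmul_eq_mul]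

lemma icw_smul {X : Type} (R : X → X → Prop) (w : X → ℝ) (a : ℝ) (U : Finset X) (N : ℕ) :
    icw R (fun v => a * w v) U N = a ^ N * icw R w U N := by
  classical
  unfold icw
  rw [Finset.mul_sum]
  refine Finset.sum_congr rfl fun I hI => ?_
  rw [Finset.mem_filter, Finset.mem_powersetCard] at hI
  rw [Finset.prod_mul_distrib, Finset.prod_const, hI.1.2]

variable {d m : ℕ}

open Classical in
/-- the restriction of a function to a cell -/
noncomputable def gc (h : ℝ) (ψ : (Fin d → ℝ) → ℝ) (c : Fin d → Fin m) (y : Fin d → ℝ) : ℝ :=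
  if (WithLp.toLp 2 y : ES d) ∈ cell h c then ψ y else 0

/-- the weight of a cell -/
noncomputable def wc (h : ℝ) (ψ : (Fin d → ℝ) → ℝ) (c : Fin d → Fin m) : ℝ := ∫ y, gc h ψ c y

lemma cellset_meas (h : ℝ) (c : Fin d → Fin m) :
    MeasurableSet {y : Fin d → ℝ | (WithLp.toLp 2 y : ES d) ∈ cell h c} := by
  have : {y : Fin d → ℝ | (WithLp.toLp 2 y : ES d) ∈ cell h c} =
      Set.univ.pi fun k => Ico (((c k : ℕ) : ℝ) * h) (((c k : ℕ) : ℝ) * h + h) := by
    ext y
    simp [cell, Set.mem_pi]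
  rw [this]
  exact MeasurableSet.univ_pi fun _ => measurableSet_Ico

lemma cellset_vol {h : ℝ} (hh : 0 < h) (c : Fin d → Fin m) :
    volume {y : Fin d → ℝ | (WithLp.toLp 2 y : ES d) ∈ cell h c} = ENNReal.ofReal (h ^ d) := by
  have : {y : Fin d → ℝ | (WithLp.toLp 2 y : ES d) ∈ cell h c} =
      Set.univ.pi fun k => Ico (((c k : ℕ) : ℝ) * h) (((c k : ℕ) : ℝ) * h + h) := by
    ext y
    simp [cell, Set.mem_pi]
  rw [this, Real.volume_pi_Ico]
  simp only [add_sub_cancel_left, Finset.prod_const, Finset.card_univ, Fintype.card_fin]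
  rw [ENNReal.ofReal_pow hh.le]

lemma gc_eq (h : ℝ) (ψ : (Fin d → ℝ) → ℝ) (c : Fin d → Fin m) :
    gc h ψ c = {y : Fin d → ℝ | (WithLp.toLp 2 y : ES d) ∈ cell h c}.indicator ψ := by
  funext y
  unfold gc
  by_cases hy : (WithLp.toLp 2 y : ES d) ∈ cell h c
  · rw [if_pos hy, Set.indicator_of_mem (by exact hy)]
  · rw [if_neg hy, Set.indicator_of_notMem (by exact hy)]

lemma gc_nonneg {h : ℝ} {ψ : (Fin d → ℝ) → ℝ} (hψ : ∀ y, 0 ≤ ψ y) (c : Fin d → Fin m)
    (y : Fin d → ℝ) : 0 ≤ gc h ψ c y := by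
  unfold gc
  split_ifs
  · exact hψ y
  · exact le_rfl

lemma gc_integrable {h : ℝ} {ψ : (Fin d → ℝ) → ℝ} (hψi : Integrable ψ) (c : Fin d → Fin m) :
    Integrable (gc h ψ c) := by
  rw [gc_eq]
  exact hψi.indicator (cellset_meas h c)

lemma wc_nonneg {h : ℝ} {ψ : (Fin d → ℝ) → ℝ} (hψ : ∀ y, 0 ≤ ψ y) (c : Fin d → Fin m) :
    0 ≤ wc h ψ c := integral_nonneg fun y => gc_nonneg hψ c y

lemma wc_le {h M : ℝ} (hh : 0 < h) {ψ : (Fin d → ℝ) → ℝ} (hψi : Integrable ψ)
    (hM : ∀ y, ψ y ≤ M) (c : Fin d → Fin m) :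
    wc h ψ c ≤ M * h ^ d := by
  unfold wc
  rw [gc_eq, integral_indicator (cellset_meas h c)]
  have h1 : ∫ y in {y : Fin d → ℝ | (WithLp.toLp 2 y : ES d) ∈ cell h c}, ψ y ≤
      ∫ y in {y : Fin d → ℝ | (WithLp.toLp 2 y : ES d) ∈ cell h c}, M := by
    refine integral_mono hψi.integrableOn ?_ fun y => hM y
    exact integrable_const_iff.2 (Or.inr ⟨by
      rw [Measure.restrict_apply_univ, cellset_vol hh]; exact ENNReal.ofReal_lt_top⟩)
  refine h1.trans (le_of_eq ?_)
  rw [setIntegral_const, Measure.real, cellset_vol hh, ENNReal.toReal_ofReal (by positivity),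
    smul_eq_mul, mul_comm]

/-- the weights of the cells sum up to the integral -/
lemma wc_sum {h : ℝ} (hh : 0 < h) {ψ : (Fin d → ℝ) → ℝ} (hψ : ∀ y, 0 ≤ ψ y)
    (hψi : Integrable ψ) : ∑ c : Fin d → Fin m, wc h ψ c ≤ ∫ y, ψ y := by
  unfold wc
  rw [← integral_finsetSum _ fun c _ => gc_integrable hψi c]
  refine integral_mono (integrable_finsetSum _ fun c _ => gc_integrable hψi c) hψi fun y => ?_
  dsimp only
  by_cases hy : ∃ c : Fin d → Fin m, (WithLp.toLp 2 y : ES d) ∈ cell h c
  · obtain ⟨c, hc⟩ := hy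
    rw [Finset.sum_eq_single_of_mem c (Finset.mem_univ c)]
    · unfold gc
      rw [if_pos hc]
    · intro b _ hb
      unfold gc
      rw [if_neg]
      exact fun h' => (cell_disj hh hb).le_bot ⟨h', hc⟩
  · push Not at hy
    rw [Finset.sum_eq_zero]
    · exact hψ y
    · intro c _
      unfold gc
      rw [if_neg (hy c)]

lemma config_meas (d : ℕ) (r L : ℝ) (N : ℕ) : MeasurableSet (config d r L N) := by
  have : config d r L N = (⋂ i : Fin N, ⋂ k : Fin d, {x | x i k ∈ Icc (0 : ℝ) L}) ∩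
      ⋂ i : Fin N, ⋂ j : Fin N, ⋂ _ : i ≠ j,
        {x : Fin N → Fin d → ℝ | r ^ 2 ≤ ∑ k, (x i k - x j k) ^ 2} := by
    ext x
    simp only [config, mem_inter_iff, mem_iInter, Set.mem_ofPred_eq]
  rw [this]
  refine MeasurableSet.inter ?_ ?_
  · refine MeasurableSet.iInter fun i => MeasurableSet.iInter fun k => ?_
    have hm : Measurable fun x : Fin N → Fin d → ℝ => x i k := by fun_prop
    exact hm measurableSet_Icc
  · refine MeasurableSet.iInter fun i => MeasurableSet.iInter fun j =>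
      MeasurableSet.iInter fun _ => ?_
    exact measurableSet_le measurable_const (by fun_prop)

lemma prod_integrable {N : ℕ} {ψ : (Fin d → ℝ) → ℝ} (hψi : Integrable ψ) :
    Integrable (fun x : Fin N → Fin d → ℝ => ∏ i, ψ (x i)) :=
  Integrable.fintype_prod (f := fun _ => ψ) fun _ => hψi

theorem int_le_icw (r L h : ℝ) (N : ℕ) (hh : 0 < h)
    (hm : L < m * h) (hr : √d * h < r) (ψ : (Fin d → ℝ) → ℝ) (hψ : ∀ y, 0 ≤ ψ y)
    (hψi : Integrable ψ) :
    ∫ x in config d r L N, ∏ i, ψ (x i) ≤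
      (N.factorial : ℝ) * icw (near (d := d) (m := m) h (r - √d * h)) (wc h ψ) Finset.univ N := by
  classical
  have hr0 : 0 < r := lt_of_le_of_lt (by positivity) hr
  set T := Finset.univ.filter (fun c : Fin N → Fin d → Fin m =>
    ∀ i j, i ≠ j → ¬ near h (r - √d * h) (c i) (c j)) with hT
  have hTc := tuples_sum (near (d := d) (m := m) h (r - √d * h)) (near_refl _ _) (wc h ψ) N
  rw [← hTc, ← hT]
  set F : (Fin N → Fin d → ℝ) → ℝ := fun x => ∑ c ∈ T, ∏ i, gc h ψ (c i) (x i) with hF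
  have hFi1 : ∀ c : Fin N → Fin d → Fin m, Integrable
      (fun x : Fin N → Fin d → ℝ => ∏ i, gc h ψ (c i) (x i)) := fun c =>
    Integrable.fintype_prod (f := fun i => gc h ψ (c i)) fun i => gc_integrable hψi (c i)
  have hFi : Integrable F := integrable_finsetSum _ fun c _ => hFi1 c
  have hF0 : ∀ x, 0 ≤ F x := fun x => Finset.sum_nonneg fun c _ =>
    Finset.prod_nonneg fun i _ => gc_nonneg hψ (c i) (x i)
  have hint : ∫ x, F x = ∑ c ∈ T, ∏ i, wc h ψ (c i) := by
    rw [hF, integral_finsetSum _ fun c _ => hFi1 c]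
    refine Finset.sum_congr rfl fun c _ => ?_
    rw [integral_fintype_prod_volume_eq_prod (fun i => gc h ψ (c i))]
    rfl
  rw [← hint]
  have hle : ∀ x ∈ config d r L N, ∏ i, ψ (x i) ≤ F x := by
    intro x hxS
    obtain ⟨hx1, hx2⟩ := hxS
    have hfl : ∀ i k, ⌊x i k / h⌋₊ < m := by
      intro i k
      rw [Nat.floor_lt (div_nonneg (hx1 i k).1 hh.le), div_lt_iff₀ hh]
      exact lt_of_le_of_lt (hx1 i k).2 hm
    set c : Fin N → Fin d → Fin m := fun i k => ⟨⌊x i k / h⌋₊, hfl i k⟩ with hc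
    have hxc : ∀ i, (WithLp.toLp 2 (x i) : ES d) ∈ cell h (c i) := by
      intro i k
      have h1 : (⌊x i k / h⌋₊ : ℝ) ≤ x i k / h := Nat.floor_le (div_nonneg (hx1 i k).1 hh.le)
      have h2 : x i k / h < ⌊x i k / h⌋₊ + 1 := Nat.lt_floor_add_one _
      rw [le_div_iff₀ hh] at h1
      rw [div_lt_iff₀ hh] at h2
      refine ⟨h1, ?_⟩
      have : ((⌊x i k / h⌋₊ : ℝ) + 1) * h = (⌊x i k / h⌋₊ : ℝ) * h + h := by ring
      rw [this] at h2
      exact h2
    have hcT : c ∈ T := by
      rw [hT, Finset.mem_filter]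
      refine ⟨Finset.mem_univ _, fun i j hij => ?_⟩
      rw [near_iff (by linarith)]
      have h3 := hx2 i j hij
      rw [sum_eq_norm] at h3
      have h4 : r ≤ ‖(WithLp.toLp 2 (x i) : ES d) - WithLp.toLp 2 (x j)‖ :=
        le_of_sq_le_sq h3 (norm_nonneg _)
      have h5 := cell_dist hh (hxc i) (hxc j)
      set a := (WithLp.toLp 2 (x i) : ES d) - WithLp.toLp 2 (x j) with ha
      set b := corner h (c i) - corner h (c j) with hb
      have h6 : ‖a‖ ≤ ‖a - b‖ + ‖b‖ := by
        have := norm_add_le (a - b) b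
        rwa [sub_add_cancel] at this
      push Not
      linarith
    have h7 := Finset.single_le_sum (f := fun c : Fin N → Fin d → Fin m =>
      ∏ i, gc h ψ (c i) (x i)) (fun c _ => Finset.prod_nonneg fun i _ =>
        gc_nonneg hψ (c i) (x i)) hcT
    refine le_trans (le_of_eq ?_) h7
    refine Finset.prod_congr rfl fun i _ => ?_
    unfold gc
    rw [if_pos (hxc i)]
  have h1 : ∫ x in config d r L N, ∏ i, ψ (x i) ≤ ∫ x in config d r L N, F x :=
    setIntegral_mono_on (prod_integrable hψi).integrableOn hFi.integrableOn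
      (config_meas d r L N) hle
  exact h1.trans (setIntegral_le_integral hFi (Filter.Eventually.of_forall hF0))

end Pool.Agent.K4H61.HS
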