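import Pool.Agent.K4H61.HS.W2
import Pool.Agent.K4H61.HS.W3

/-!
The upper bound for weighted volumes of sets of configurations.
-/

set_option autoImplicit false
open MeasureTheory Set

namespace Pool.Agent.K4H61.HS

lemma th_boundw {q s T : ℝ} (hq0 : 0 < q) (hq1 : q < 1) (hs : 0 ≤ s) (M : ℕ)
    (hM : M * ((1 - q) / q) ≤ T) : th q s M ≤ (1 + s) / (1 - q) * Real.exp T := by
  rw [th_eq hq0 hq1]
  have h1 : (1 / q) ^ M ≤ Real.exp T := by
    have h2 : 1 / q ≤ Real.exp ((1 - q) / q) := by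
      have := Real.add_one_le_exp ((1 - q) / q)
      have h3 : (1 - q) / q + 1 = 1 / q := by field_simp; ring
      linarith
    calc (1 / q) ^ M ≤ Real.exp ((1 - q) / q) ^ M := pow_le_pow_left₀ (by positivity) h2 M
      _ = Real.exp (M * ((1 - q) / q)) := by rw [← Real.exp_nat_mul]
      _ ≤ Real.exp T := Real.exp_le_exp.2 hM
  have h0 : 0 < 1 - q := by linarith
  rw [div_mul_eq_mul_div]
  refine div_le_div_of_nonneg_right ?_ h0.le
  calc (q + s) * ((1 / q) ^ M - 1) ≤ (q + s) * Real.exp T := by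
        refine mul_le_mul_of_nonneg_left (by linarith) (by linarith)
    _ ≤ (1 + s) * Real.exp T := by
        refine mul_le_mul_of_nonneg_right (by linarith) (Real.exp_pos _).le

theorem upper_w {d m N : ℕ} (hd : 1 ≤ d) (r L h M T : ℝ) (hh : 0 < h)
    (hm : L < m * h) (hr : 2 * (√d * h) < r) (ψ : (Fin d → ℝ) → ℝ) (hψ : ∀ y, 0 ≤ ψ y)
    (hψi : Integrable ψ) (hM0 : 0 < M) (hM : ∀ y, ψ y ≤ M) (V b : ℝ)
    (hV : V = bv d (r - 2 * (√d * h))) (hb : b = (m * h + 2 * (r - √d * h)) ^ d)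
    (hVb : V / b < 1) (hT : N * ((V / b) / (1 - V / b)) ≤ T) :
    ∫ x in config d r L N, ∏ i, ψ (x i) ≤ (1 - V / b) ^ (N.choose 2) *
      ((∫ y, ψ y) + M * b * (h ^ d / V + eps d) * Real.exp T) ^ N := by
  classical
  have hdh : 0 ≤ √d * h := by positivity
  have hV0 : 0 < V := by rw [hV]; exact bv_pos d (by linarith)
  have hs1 : √d * h < r - √d * h := by linarith
  have hmh : 0 ≤ (m : ℝ) * h := by positivity
  have hb0 : 0 < b := by rw [hb]; exact pow_pos (by linarith) d
  have hhd : 0 < h ^ d := by positivity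
  have heps : 0 < eps d := by unfold eps; positivity
  have hMh : 0 < M * h ^ d := by positivity
  have h1 := int_le_icw (m := m) r L h N hh hm (by linarith) ψ hψ hψi
  refine h1.trans ?_
  set R := near (d := d) (m := m) h (r - √d * h) with hR
  set w : (Fin d → Fin m) → ℝ := fun c => wc h ψ c / (M * h ^ d) with hw
  have hw0 : ∀ c, 0 ≤ w c := fun c => div_nonneg (wc_nonneg hψ c) hMh.le
  have hw1 : ∀ c, w c ≤ 1 := fun c => by
    rw [hw]
    dsimp only
    rw [div_le_one hMh]
    exact wc_le hh hψi hM c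
  have hwc : wc h ψ = fun c : Fin d → Fin m => (M * h ^ d) * w c := by
    funext c
    rw [hw]
    dsimp only
    field_simp
  rw [hwc, icw_smul]
  set κ := V / b with hκ
  have hκ0 : 0 < κ := by positivity
  have hq0 : 0 < 1 - κ := by linarith
  have hK := kww R w hw0 hw1 (1 - κ) (V * (eps d / h ^ d)) hq0 (by positivity) (fun U hU => by
    obtain ⟨v, hv, hv2⟩ := exists_largew hd (r - √d * h) h hh hs1 w hw0 hw1 U hU
    refine ⟨v, hv, ?_⟩
    have e1 : r - √d * h - √d * h = r - 2 * (√d * h) := by ring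
    rw [e1, ← hV, ← hb] at hv2
    have e2 : (1 - (1 - κ)) * (∑ u ∈ U, w u) - V * (eps d / h ^ d) =
        V * ((∑ u ∈ U, w u) / b - eps d / h ^ d) := by
      rw [hκ]; field_simp; ring
    rw [e2]
    exact hv2) N Finset.univ
  have hth := th_boundw (q := 1 - κ) (s := V * (eps d / h ^ d)) (T := T) hq0 (by linarith)
    (by positivity) N (by
      have : (1 - (1 - κ)) / (1 - κ) = κ / (1 - κ) := by ring
      rw [this]; exact hT)
  have e3 : 1 - (1 - κ) = κ := by ring
  rw [e3] at hth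
  have hth0 := th_nonneg hq0 (by positivity : 0 ≤ V * (eps d / h ^ d)) N
  have hsum : (M * h ^ d) * ∑ c : Fin d → Fin m, w c ≤ ∫ y, ψ y := by
    have h2 := wc_sum (m := m) hh hψ hψi
    rw [hwc] at h2
    rw [Finset.mul_sum]
    exact h2
  have hsum0 : 0 ≤ ∑ c : Fin d → Fin m, w c := Finset.sum_nonneg fun c _ => hw0 c
  have hfac : (0 : ℝ) < (N.factorial : ℝ) := by positivity
  have h3 : (N.factorial : ℝ) * ((M * h ^ d) ^ N * icw R w Finset.univ N) ≤
      (1 - κ) ^ (N.choose 2) * ((M * h ^ d) * ((∑ c : Fin d → Fin m, w c) +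
        th (1 - κ) (V * (eps d / h ^ d)) N)) ^ N := by
    rw [mul_pow (M * h ^ d)]
    calc (N.factorial : ℝ) * ((M * h ^ d) ^ N * icw R w Finset.univ N) ≤
        (N.factorial : ℝ) * ((M * h ^ d) ^ N * ((1 - κ) ^ (N.choose 2) *
          ((∑ c : Fin d → Fin m, w c) + th (1 - κ) (V * (eps d / h ^ d)) N) ^ N /
            (N.factorial : ℝ))) := by gcongr
      _ = _ := by field_simp
  refine h3.trans ?_
  refine mul_le_mul_of_nonneg_left (pow_le_pow_left₀ (by positivity) ?_ N) (by positivity)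
  rw [mul_add]
  refine add_le_add hsum ?_
  refine (mul_le_mul_of_nonneg_left hth hMh.le).trans (le_of_eq ?_)
  rw [hκ]
  field_simp

end Pool.Agent.K4H61.HS
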