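import Pool.Agent.K4H61.HS.W4
import Pool.Agent.K4H61.HS.Asym

/-!
The upper bound for weighted volumes: asymptotic form.
-/

set_option autoImplicit false
set_option maxHeartbeats 4000000
open Filter Topology MeasureTheory

namespace Pool.Agent.K4H61.HS

variable {d : ℕ} {L : ℕ → ℝ} {N : ℕ → ℕ} {ρ h : ℝ}

theorem upper_asym (hd : 1 ≤ d) (r M C : ℝ) (hh : 0 < h) (hρ : 0 < ρ) (hr : 2 * (√d * h) < r)
    (hM0 : 0 < M) (y : ℝ) (hy : y = ρ * bv d (r - 2 * (√d * h)))
    (hL : Tendsto L atTop atTop) (hN : Tendsto (fun k => (N k : ℝ) / L k ^ d) atTop (𝓝 ρ))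
    (hC : -(y / 2) + M * (h ^ d / bv d (r - 2 * (√d * h)) + eps d) * Real.exp (y + 1) < C) :
    ∀ᶠ k in atTop, ∀ ψ : (Fin d → ℝ) → ℝ, (∀ x, 0 ≤ ψ x) → Integrable ψ → (∀ x, ψ x ≤ M) →
      L k ^ d ≤ ∫ x, ψ x →
      ∫ x in config d r (L k) (N k), ∏ i, ψ (x i) ≤ (∫ x, ψ x) ^ N k * Real.exp (N k * C) := by
  have hdh : 0 ≤ √d * h := by positivity
  set V := bv d (r - 2 * (√d * h)) with hV
  have hV0 : 0 < V := by rw [hV]; exact bv_pos d (by linarith)
  have hy0 : 0 < y := by rw [hy]; positivity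
  have hhd : 0 < h ^ d := by positivity
  have heps : 0 < eps d := by unfold eps; positivity
  set s : ℝ := r - √d * h with hs
  have hs0 : 0 < s := by rw [hs]; linarith
  set m : ℕ → ℕ := fun k => ⌊L k / h⌋₊ + 1 with hm
  have hmL : Tendsto (fun k => (m k : ℝ) * h / L k) atTop (𝓝 1) := lim_floor' hh hL
  have hminf := lim_m hh hL hmL
  have hNinf : Tendsto (fun k => (N k : ℝ)) atTop atTop := lim_N hd hρ hL hN
  set b : ℕ → ℝ := fun k => (m k * h + 2 * s) ^ d with hb
  have hbL : Tendsto (fun k => b k / L k ^ d) atTop (𝓝 1) := by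
    have h1 := hmL.add (hL.const_div_atTop (2 * s))
    have h2 := h1.pow d
    rw [add_zero, one_pow] at h2
    refine h2.congr fun k => ?_
    simp only [hb]
    rw [← add_div, div_pow]
  set κ : ℕ → ℝ := fun k => V / b k with hκ
  have hκ0 : Tendsto κ atTop (𝓝 0) := lim_k hd V hh hminf
  have hNκ : Tendsto (fun k => N k * κ k) atTop (𝓝 y) := by
    have h1 := (hN.mul_const V).mul (hbL.inv₀ one_ne_zero)
    rw [inv_one, mul_one, ← hy] at h1
    refine h1.congr' ?_
    filter_upwards [hL.eventually_gt_atTop 0, hminf.eventually_gt_atTop 0] with k hk hk2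
    have : 0 < b k := by simp only [hb]; positivity
    simp only [hκ]
    field_simp
  have c1 : ∀ᶠ k in atTop, κ k < 1 := hκ0.eventually_lt_const one_pos
  have c2 : ∀ᶠ k in atTop, N k * (κ k / (1 - κ k)) ≤ y + 1 := by
    have l1 := hNκ.div (hκ0.const_sub 1) (by norm_num)
    rw [sub_zero, div_one] at l1
    filter_upwards [l1.eventually_lt_const (by linarith : y < y + 1)] with k hk
    have : N k * (κ k / (1 - κ k)) = N k * κ k / (1 - κ k) := by ring
    rw [this]
    exact hk.le
  set E : ℝ := (h ^ d / V + eps d) * Real.exp (y + 1) with hE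
  have hE0 : 0 < E := by rw [hE]; positivity
  have c3 : ∀ᶠ k in atTop, -(N k * κ k / 2) + κ k / 2 + M * (b k / L k ^ d) * E ≤ C := by
    have l1 := (((hNκ.div_const 2).neg).add (hκ0.div_const 2)).add ((hbL.const_mul M).mul_const E)
    have l2 : -(y / 2) + 0 / 2 + M * 1 * E < C := by
      have : -(y / 2) + 0 / 2 + M * 1 * E = -(y / 2) + M * (h ^ d / V + eps d) *
          Real.exp (y + 1) := by rw [hE]; ring
      rw [this]
      exact hC
    filter_upwards [l1.eventually_lt_const l2] with k hk using hk.le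
  filter_upwards [c1, c2, c3, hL.eventually_gt_atTop 0, hminf.eventually_gt_atTop 0] with
    k k1 k2 k3 k4 k5
  intro ψ hψ hψi hM hP
  have hmk : L k < m k * h := by
    have h1 := Nat.lt_floor_add_one (L k / h)
    rw [div_lt_iff₀ hh] at h1
    have h2 : (m k : ℝ) = ⌊L k / h⌋₊ + 1 := by simp only [hm]; push_cast; ring
    rw [h2]
    exact h1
  have hbk : 0 < b k := by simp only [hb]; positivity
  have hLk : 0 < L k ^ d := by positivity
  have hκk : 0 < κ k := by simp only [hκ]; positivity
  have h1 := upper_w (m := m k) (N := N k) hd r (L k) h M (y + 1) hh hmk hr ψ hψ hψi hM0 hM V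
    (b k) hV rfl k1 k2
  refine h1.trans ?_
  set P := ∫ x, ψ x with hPdef
  have hP0 : 0 < P := lt_of_lt_of_le hLk hP
  have h2 : (1 - V / b k) ^ ((N k).choose 2) ≤ Real.exp (-(κ k * (N k * (N k - 1) / 2))) := by
    have h3 : 1 - V / b k ≤ Real.exp (-κ k) := by
      have := Real.add_one_le_exp (-κ k)
      simp only [hκ] at this ⊢
      linarith
    have h4 : 0 ≤ 1 - V / b k := by
      have : κ k < 1 := k1
      simp only [hκ] at this
      linarith
    calc (1 - V / b k) ^ ((N k).choose 2) ≤ Real.exp (-κ k) ^ ((N k).choose 2) :=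
          pow_le_pow_left₀ h4 h3 _
      _ = Real.exp (-(κ k * (N k * (N k - 1) / 2))) := by
        rw [← Real.exp_nat_mul, Nat.cast_choose_two]
        congr 1; ring
  have h5 : P + M * b k * (h ^ d / V + eps d) * Real.exp (y + 1) ≤
      P * Real.exp (M * (b k / L k ^ d) * E) := by
    have h6 := Real.add_one_le_exp (M * (b k / L k ^ d) * E)
    have h7 : M * b k * (h ^ d / V + eps d) * Real.exp (y + 1) = L k ^ d *
        (M * (b k / L k ^ d) * E) := by
      rw [hE]; field_simp
    rw [h7]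
    have h8 : L k ^ d * (M * (b k / L k ^ d) * E) ≤ P * (M * (b k / L k ^ d) * E) :=
      mul_le_mul_of_nonneg_right hP (by positivity)
    have h9 := mul_le_mul_of_nonneg_left h6 hP0.le
    linarith
  have h6 : 0 ≤ P + M * b k * (h ^ d / V + eps d) * Real.exp (y + 1) := by positivity
  calc (1 - V / b k) ^ ((N k).choose 2) *
        (P + M * b k * (h ^ d / V + eps d) * Real.exp (y + 1)) ^ N k ≤
      Real.exp (-(κ k * (N k * (N k - 1) / 2))) *
        (P * Real.exp (M * (b k / L k ^ d) * E)) ^ N k :=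
        mul_le_mul h2 (pow_le_pow_left₀ h6 h5 _) (by positivity) (by positivity)
    _ = P ^ N k * Real.exp (N k * (-(N k * κ k / 2) + κ k / 2 + M * (b k / L k ^ d) * E)) := by
        rw [mul_pow, ← Real.exp_nat_mul]
        have : Real.exp (-(κ k * (N k * (N k - 1) / 2))) *
            (P ^ N k * Real.exp (N k * (M * (b k / L k ^ d) * E))) =
            P ^ N k * (Real.exp (-(κ k * (N k * (N k - 1) / 2))) *
              Real.exp (N k * (M * (b k / L k ^ d) * E))) := by ring
        rw [this, ← Real.exp_add]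
        congr 2
        ring
    _ ≤ P ^ N k * Real.exp (N k * C) := by
        refine mul_le_mul_of_nonneg_left (Real.exp_le_exp.2 ?_) (by positivity)
        exact mul_le_mul_of_nonneg_left k3 (Nat.cast_nonneg _)

end Pool.Agent.K4H61.HS
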