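import Pool.Agent.K4H61.HS.W5
import Pool.Agent.K4H61.HS.Main

/-!
Test functions on the cube, and the choice of the size of the cells.
-/

set_option autoImplicit false
set_option maxHeartbeats 4000000
open Filter Topology MeasureTheory ProbabilityTheory

namespace Pool.Agent.K4H61.HS

/-- the cube -/
def cube (d : ℕ) (L : ℝ) : Set (Fin d → ℝ) := {y | ∀ k, y k ∈ Set.Icc (0 : ℝ) L}

lemma cube_eq (d : ℕ) (L : ℝ) : cube d L = Set.univ.pi fun _ => Set.Icc (0 : ℝ) L := by
  ext y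
  simp only [cube, Set.mem_ofPred_eq, Set.mem_univ_pi]

lemma cube_meas (d : ℕ) (L : ℝ) : MeasurableSet (cube d L) := by
  rw [cube_eq]
  exact MeasurableSet.univ_pi fun _ => measurableSet_Icc

lemma cube_vol (d : ℕ) {L : ℝ} (hL : 0 ≤ L) : volume (cube d L) = ENNReal.ofReal (L ^ d) := by
  rw [cube_eq, volume_pi_pi]
  simp_rw [Real.volume_Icc]
  simp only [sub_zero, Finset.prod_const, Finset.card_univ, Fintype.card_fin]
  rw [ENNReal.ofReal_pow hL]

/-- Hoeffding's lemma on the cube -/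
lemma cube_hoeff (d : ℕ) {L : ℝ} (hL : 0 < L) (φ : (Fin d → ℝ) → ℝ) (hφ : Measurable φ)
    (h01 : ∀ y, φ y ∈ Set.Icc (0 : ℝ) 1) (t : ℝ) :
    ∫ y in cube d L, Real.exp (t * φ y) ≤
      L ^ d * Real.exp (t * ((∫ y in cube d L, φ y) / L ^ d) + t ^ 2 / 8) := by
  have hLd : 0 < L ^ d := by positivity
  have hv := cube_vol d hL.le
  have hv0 : volume (cube d L) ≠ 0 := by
    rw [hv]
    exact (ENNReal.ofReal_pos.2 hLd).ne'
  have hvt : volume (cube d L) ≠ ⊤ := by rw [hv]; exact ENNReal.ofReal_ne_top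
  set μ : Measure (Fin d → ℝ) := (volume (cube d L))⁻¹ • volume.restrict (cube d L) with hμ
  have hprob : IsProbabilityMeasure μ := by
    constructor
    rw [hμ, Measure.smul_apply, Measure.restrict_apply_univ, smul_eq_mul,
      ENNReal.inv_mul_cancel hv0 hvt]
  have hint : ∀ f : (Fin d → ℝ) → ℝ, ∫ y, f y ∂μ = (∫ y in cube d L, f y) / L ^ d := by
    intro f
    rw [hμ, integral_smul_measure, hv, ENNReal.toReal_inv, ENNReal.toReal_ofReal hLd.le,
      smul_eq_mul]
    ring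
  have h1 := (hasSubgaussianMGF_of_mem_Icc (μ := μ) (X := φ) (a := 0) (b := 1) hφ.aemeasurable
    (Eventually.of_forall h01)).mgf_le t
  unfold mgf at h1
  set m := ∫ y, φ y ∂μ with hm
  have h2 : ∫ y, Real.exp (t * (φ y - m)) ∂μ =
      Real.exp (-(t * m)) * ((∫ y in cube d L, Real.exp (t * φ y)) / L ^ d) := by
    rw [← hint, ← integral_const_mul]
    refine integral_congr_ae (Eventually.of_forall fun y => ?_)
    dsimp only
    rw [← Real.exp_add]
    congr 1
    ring
  rw [h2] at h1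
  have h3 : ((((‖(1:ℝ) - 0‖₊ / 2) ^ 2 : NNReal)) : ℝ) * t ^ 2 / 2 = t ^ 2 / 8 := by
    push_cast
    norm_num
    ring
  rw [h3, Real.exp_neg, inv_mul_le_iff₀ (Real.exp_pos _), ← Real.exp_add, div_le_iff₀ hLd] at h1
  rw [← hint, ← hm]
  linarith

/-- the test function -/
noncomputable def tf (d : ℕ) (L t : ℝ) (φ : (Fin d → ℝ) → ℝ) : (Fin d → ℝ) → ℝ :=
  (cube d L).indicator fun y => Real.exp (t * φ y)

lemma tf_nonneg (d : ℕ) (L t : ℝ) (φ : (Fin d → ℝ) → ℝ) (y : Fin d → ℝ) : 0 ≤ tf d L t φ y :=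
  Set.indicator_nonneg (fun _ _ => (Real.exp_pos _).le) y

lemma tf_le (d : ℕ) (L : ℝ) {t : ℝ} (ht : 0 ≤ t) (ht4 : t ≤ 4) (φ : (Fin d → ℝ) → ℝ)
    (h01 : ∀ y, φ y ∈ Set.Icc (0 : ℝ) 1) (y : Fin d → ℝ) : tf d L t φ y ≤ Real.exp 4 := by
  unfold tf
  by_cases hy : y ∈ cube d L
  · rw [Set.indicator_of_mem hy]
    refine Real.exp_le_exp.2 ?_
    have := (h01 y).2
    have := (h01 y).1
    nlinarith
  · rw [Set.indicator_of_notMem hy]
    exact (Real.exp_pos _).le

lemma tf_integral (d : ℕ) (L t : ℝ) (φ : (Fin d → ℝ) → ℝ) :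
    ∫ y, tf d L t φ y = ∫ y in cube d L, Real.exp (t * φ y) :=
  integral_indicator (cube_meas d L)

lemma tf_integrableOn (d : ℕ) {L t : ℝ} (hL : 0 ≤ L) (φ : (Fin d → ℝ) → ℝ)
    (hφ : Measurable φ) (h01 : ∀ y, φ y ∈ Set.Icc (0 : ℝ) 1) :
    IntegrableOn (fun y => Real.exp (t * φ y)) (cube d L) := by
  have hvt : volume (cube d L) < ⊤ := by rw [cube_vol d hL]; exact ENNReal.ofReal_lt_top
  have hfin : IsFiniteMeasure (volume.restrict (cube d L)) := ⟨by
    rw [Measure.restrict_apply_univ]; exact hvt⟩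
  refine Integrable.of_bound (C := Real.exp |t|) ?_ (Eventually.of_forall fun y => ?_)
  · exact (Real.measurable_exp.comp (hφ.const_mul t)).aestronglyMeasurable
  · rw [Real.norm_eq_abs, abs_of_pos (Real.exp_pos _)]
    refine Real.exp_le_exp.2 ?_
    have h1 := (h01 y).1
    have h2 := (h01 y).2
    calc t * φ y ≤ |t| * φ y := mul_le_mul_of_nonneg_right (le_abs_self t) h1
      _ ≤ |t| * 1 := mul_le_mul_of_nonneg_left h2 (abs_nonneg t)
      _ = |t| := mul_one _

lemma tf_integrable (d : ℕ) {L t : ℝ} (hL : 0 ≤ L) (φ : (Fin d → ℝ) → ℝ)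
    (hφ : Measurable φ) (h01 : ∀ y, φ y ∈ Set.Icc (0 : ℝ) 1) : Integrable (tf d L t φ) :=
  (integrable_indicator_iff (cube_meas d L)).2 (tf_integrableOn d hL φ hφ h01)

lemma tf_ge (d : ℕ) {L t : ℝ} (hL : 0 ≤ L) (ht : 0 ≤ t) (φ : (Fin d → ℝ) → ℝ)
    (hφ : Measurable φ) (h01 : ∀ y, φ y ∈ Set.Icc (0 : ℝ) 1) :
    L ^ d ≤ ∫ y, tf d L t φ y := by
  have hv := cube_vol d hL
  have hvt : volume (cube d L) < ⊤ := by rw [hv]; exact ENNReal.ofReal_lt_top
  rw [tf_integral]
  have h1 : ∫ _y in cube d L, (1 : ℝ) = L ^ d := by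
    rw [setIntegral_const, Measure.real, hv, ENNReal.toReal_ofReal (by positivity), smul_eq_mul,
      mul_one]
  rw [← h1]
  refine setIntegral_mono (integrableOn_const hvt.ne) (tf_integrableOn d hL φ hφ h01) fun y => ?_
  exact Real.one_le_exp (mul_nonneg ht (h01 y).1)

/-- the choice of the cells -/
theorem param (ε : ℝ) (hε : 0 < ε) : ∀ᶠ d : ℕ in atTop, ∀ r : ℝ, 0 < r → ∀ ρ : ℝ, 0 < ρ →
    ρ * bv d r ≤ (eta - ε) * d → ∃ h : ℝ, 0 < h ∧ 2 * (√d * h) < r ∧
      -(ρ * bv d (r - 2 * (√d * h)) / 2) + Real.exp 4 *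
        (h ^ d / bv d (r - 2 * (√d * h)) + eps d) *
          Real.exp (ρ * bv d (r - 2 * (√d * h)) + 1) <
        -(ρ * bv d r / 2) + Real.exp (-(ε / 6 * (d : ℝ))) / 4 := by
  have heta := eta_le
  have heta0 := eta_pos
  by_cases hε1 : eta < ε
  · filter_upwards [eventually_ge_atTop 1] with d hd
    intro r hr ρ hρ hlam
    exfalso
    have h1 : 0 < ρ * bv d r := mul_pos hρ (bv_pos d hr)
    have h2 : (eta - ε) * d ≤ 0 :=
      mul_nonpos_of_nonpos_of_nonneg (by linarith) (Nat.cast_nonneg d)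
    linarith
  push Not at hε1
  filter_upwards [eventually_ge_atTop 20,
    exp_small 1 1 (ε / 5) 1 (by linarith),
    exp_small (Real.exp 4 * (5 * Real.exp 1)) ε (ε / 5) 0 (by linarith),
    exp_small 1024 (ε / 5) (ε / 6) 0 (by linarith),
    exp_small 64 (ε / 5) 0 0 (by linarith)] with d hd E6 E7 E8 E9
  intro r hr ρ hρ hlam
  have hd1 : 1 ≤ d := by omega
  have hdr : (20 : ℝ) ≤ d := by exact_mod_cast hd
  have hd0 : (0 : ℝ) < d := by linarith
  set τ := Real.exp (-(ε / 5 * (d : ℝ))) with hτ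
  set u := Real.exp (-(1 * (d : ℝ))) with hu
  set v := Real.exp (-(7 / 48 * (d : ℝ))) with hv
  set e := Real.exp (-(ε / 6 * (d : ℝ))) with he
  set z := Real.exp (-(ε * (d : ℝ))) with hz
  have hτ0 : 0 < τ := Real.exp_pos _
  have hu0 : 0 < u := Real.exp_pos _
  have hv0 : 0 < v := Real.exp_pos _
  have hz0 : 0 < z := Real.exp_pos _
  have he0 : 0 < e := Real.exp_pos _
  simp only [pow_one, pow_zero, mul_one, one_mul] at E6 E7 E8 E9
  have hτ64 : τ ≤ 1 / 64 := by
    rw [zero_mul, neg_zero, Real.exp_zero] at E9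
    linarith
  have huv : u ≤ v := by
    rw [hu, hv]
    refine Real.exp_le_exp.2 ?_
    linarith
  have hudτ : d * u ≤ τ := E6
  have huτ : u ≤ τ := by
    have h1 : 1 * u ≤ d * u := mul_le_mul_of_nonneg_right (by linarith) hu0.le
    linarith
  have heps := eps_le d
  rw [← hv] at heps
  have heps0 := eps_pos d
  set B := bv d r with hB
  have hB0 : 0 < B := bv_pos d hr
  have hb1 := bv_pos d one_pos
  set lam := ρ * B with hlam'
  have hlam0 : 0 < lam := by positivity
  set K : ℝ := (eta - ε) * d with hK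
  have hKd : K ≤ d / 6 := by
    rw [hK]
    have : eta - ε ≤ 1 / 6 := by linarith
    have := mul_le_mul_of_nonneg_right this hd0.le
    linarith
  have hvK : Real.exp K * v ≤ z := by
    rw [hv, hz, ← Real.exp_add]
    refine Real.exp_le_exp.2 ?_
    rw [hK]
    have := mul_le_mul_of_nonneg_right heta hd0.le
    linarith
  set ω := u / d with hω
  have hω0 : 0 < ω := by positivity
  have hωd : d * ω = u := by rw [hω]; field_simp
  have hωu : ω ≤ u := by
    rw [hω]
    exact div_le_self hu0.le (by linarith)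
  have hω1 : ω ≤ 1 := by linarith
  set h := r * ω / √d with hh'
  have hsd : 0 < √(d : ℝ) := Real.sqrt_pos.2 hd0
  have hh : 0 < h := by positivity
  have hdh : √d * h = r * ω := by rw [hh']; field_simp
  have hscale : ∀ c : ℝ, 0 < c → bv d (r * c) = c ^ d * B := by
    intro c hc
    rw [hB, bv_scale d (by positivity : 0 < r * c), bv_scale d hr]
    ring
  set p' := (1 - 2 * ω) ^ d with hp'
  have hB2 : bv d (r - 2 * (√d * h)) = p' * B := by
    rw [hdh, hp', ← hscale _ (by linarith)]; congr 1; ring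
  have hp'1 : 1 - 2 * u ≤ p' := by
    have h1 := one_add_mul_le_pow (a := -(2 * ω)) (by linarith) d
    have h2 : 1 + (d : ℝ) * -(2 * ω) = 1 - 2 * u := by rw [← hωd]; ring
    rw [h2] at h1
    rw [hp']
    refine h1.trans (le_of_eq ?_)
    congr 1
  have hp'2 : p' ≤ 1 := pow_le_one₀ (by linarith) (by linarith)
  have hhB : h ^ d ≤ u * B := by
    have h1 : h ^ d = ω ^ d * (1 / √d) ^ d * r ^ d := by
      rw [hh', ← mul_pow, ← mul_pow]; congr 1; ring
    have h2 : ω ^ d ≤ u := (pow_le_of_le_one hω0.le hω1 (by omega)).trans hωu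
    have h3 := bv_one_ge d hd1
    have h4 : u * B = u * bv d 1 * r ^ d := by rw [hB, bv_scale d hr]; ring
    rw [h1, h4]
    gcongr
  have hlamd : lam ≤ K := hlam
  refine ⟨h, hh, ?_, ?_⟩
  · rw [hdh]
    have := mul_le_mul_of_nonneg_left (by linarith : ω ≤ 1 / 64) hr.le
    linarith
  set y := ρ * bv d (r - 2 * (√d * h)) with hy
  have hyp : y = lam * p' := by rw [hy, hB2, hlam']; ring
  have hyl : lam - τ ≤ y := by
    rw [hyp]
    have h1 : lam * (1 - 2 * u) ≤ lam * p' := mul_le_mul_of_nonneg_left hp'1 hlam0.le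
    have h2 : lam * (2 * u) ≤ d / 6 * (2 * u) :=
      mul_le_mul_of_nonneg_right (hlamd.trans hKd) (by positivity)
    have h3 : 0 ≤ d * u := by positivity
    have h4 : lam * (1 - 2 * u) = lam - lam * (2 * u) := by ring
    linarith
  have hyu : y ≤ K := by
    rw [hyp]
    have := mul_le_mul_of_nonneg_left hp'2 hlam0.le
    linarith
  have h1 : h ^ d / bv d (r - 2 * (√d * h)) ≤ 2 * u := by
    rw [hB2, div_le_iff₀ (by
      have : 0 < p' := by linarith
      positivity)]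
    have h2 : u * B ≤ 2 * u * (p' * B) := by
      have h3 : 1 ≤ 2 * p' := by linarith
      have h4 : 0 < u * B := by positivity
      have := mul_le_mul_of_nonneg_left h3 h4.le
      linarith
    linarith
  have h2 : h ^ d / bv d (r - 2 * (√d * h)) + eps d ≤ 5 * v := by linarith
  have h3 : Real.exp (y + 1) ≤ Real.exp (K + 1) := Real.exp_le_exp.2 (by linarith)
  have h4 : (h ^ d / bv d (r - 2 * (√d * h)) + eps d) * Real.exp (y + 1) ≤
      5 * v * Real.exp (K + 1) :=
    mul_le_mul h2 h3 (Real.exp_pos _).le (by positivity)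
  have h5 : 5 * v * Real.exp (K + 1) ≤ 5 * Real.exp 1 * z := by
    have h6 : 5 * v * Real.exp (K + 1) = 5 * Real.exp 1 * (Real.exp K * v) := by
      rw [Real.exp_add]; ring
    rw [h6]
    gcongr
  have h6 : Real.exp 4 * ((h ^ d / bv d (r - 2 * (√d * h)) + eps d) * Real.exp (y + 1)) ≤ τ := by
    have h7 := mul_le_mul_of_nonneg_left (h4.trans h5) (Real.exp_pos 4).le
    refine h7.trans (le_trans (le_of_eq ?_) E7)
    ring
  have h8 : Real.exp 4 * (h ^ d / bv d (r - 2 * (√d * h)) + eps d) * Real.exp (y + 1) =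
      Real.exp 4 * ((h ^ d / bv d (r - 2 * (√d * h)) + eps d) * Real.exp (y + 1)) := by ring
  rw [h8]
  linarith

end Pool.Agent.K4H61.HS
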