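import Pool.Agent.K4H61.HS.W6

/-!
Concentration of the averages of test functions, for all boundary conditions.
-/

set_option autoImplicit false
set_option maxHeartbeats 4000000
open Filter Topology MeasureTheory

namespace Pool.Agent.K4H61.HS

/-- the configurations compatible with the boundary condition `Y` -/
def cfgb (d : ℕ) (r L : ℝ) (N : ℕ) (Y : Set (Fin d → ℝ)) : Set (Fin N → Fin d → ℝ) :=
  {x | x ∈ config d r L N ∧ ∀ i, ∀ y ∈ Y, r ^ 2 ≤ ∑ k, (x i k - y k) ^ 2}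

lemma cfgb_sub {d : ℕ} {r L : ℝ} (hr : 0 < r) (N : ℕ) (Y : Set (Fin d → ℝ))
    (hY : ∀ y ∈ Y, ∃ i, y i ≤ 0 ∨ L ≤ y i) :
    (volume (config d r (L - 2 * r) N)).toReal ≤ (volume (cfgb d r L N Y)).toReal := by
  set c : Fin N → Fin d → ℝ := fun _ _ => r with hc
  have h1 : config d r (L - 2 * r) N ⊆
      (fun x : Fin N → Fin d → ℝ => x + c) ⁻¹' (cfgb d r L N Y) := by
    intro x hx
    obtain ⟨hx1, hx2⟩ := hx
    refine ⟨⟨fun i k => ?_, fun i j hij => ?_⟩, fun i y hy => ?_⟩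
    · have h := hx1 i k
      simp only [Pi.add_apply, hc]
      constructor <;> linarith [h.1, h.2]
    · refine (hx2 i j hij).trans (le_of_eq (Finset.sum_congr rfl fun k _ => ?_))
      simp only [Pi.add_apply, hc]
      ring
    · obtain ⟨k, hk⟩ := hY y hy
      have h2 : r ^ 2 ≤ ((x + c) i k - y k) ^ 2 := by
        have h := hx1 i k
        simp only [Pi.add_apply, hc]
        rcases hk with hk | hk
        · have h3 : r ≤ x i k + r - y k := by linarith [h.1]
          exact pow_le_pow_left₀ hr.le h3 2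
        · have h3 : r ≤ y k - (x i k + r) := by linarith [h.2]
          have h4 := pow_le_pow_left₀ hr.le h3 2
          have h5 : (y k - (x i k + r)) ^ 2 = (x i k + r - y k) ^ 2 := by ring
          rw [← h5]
          exact h4
      refine h2.trans ?_
      exact Finset.single_le_sum (f := fun k => ((x + c) i k - y k) ^ 2)
        (fun k _ => sq_nonneg _) (Finset.mem_univ k)
  have h2 : volume ((fun x : Fin N → Fin d → ℝ => x + c) ⁻¹' (cfgb d r L N Y)) =
      volume (cfgb d r L N Y) := measure_preimage_add_right volume _ _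
  refine ENNReal.toReal_mono ?_ ((measure_mono h1).trans h2.le)
  exact ((measure_mono fun x hx => hx.1).trans_lt (config_lt_top r L N)).ne

theorem lower_bc (ε : ℝ) (hε : 0 < ε) : ∀ᶠ d : ℕ in atTop, ∀ r : ℝ, 0 < r → ∀ ρ : ℝ, 0 < ρ →
    ρ * bv d r ≤ (eta - ε) * d → ∀ (L : ℕ → ℝ) (N : ℕ → ℕ), Tendsto L atTop atTop →
    Tendsto (fun k => (N k : ℝ) / L k ^ d) atTop (𝓝 ρ) →
    ∀ᶠ k in atTop, ∀ Y : Set (Fin d → ℝ), (∀ y ∈ Y, ∃ i, y i ≤ 0 ∨ L k ≤ y i) →
      (L k ^ d) ^ N k * Real.exp (-(N k * (ρ * bv d r / 2 +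
        Real.exp (-(ε / 6 * (d : ℝ))) / 32))) ≤ (volume (cfgb d r (L k) (N k) Y)).toReal := by
  filter_upwards [free_energy ε hε, eventually_ge_atTop 1] with d hfe hd
  intro r hr ρ hρ hlam L N hL hN
  set e := Real.exp (-(ε / 6 * (d : ℝ))) with he
  have he0 : 0 < e := Real.exp_pos _
  set lam := ρ * bv d r with hlam'
  have hL' : Tendsto (fun k => L k - 2 * r) atTop atTop := tendsto_atTop_add_const_right _ _ hL
  have hrat : Tendsto (fun k => L k / (L k - 2 * r)) atTop (𝓝 1) := by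
    have h1 : Tendsto (fun k => 1 / (1 - 2 * r / L k)) atTop (𝓝 (1 / (1 - 0))) :=
      tendsto_const_nhds.div ((hL.const_div_atTop (2 * r)).const_sub 1) (by norm_num)
    rw [sub_zero, div_one] at h1
    refine h1.congr' ?_
    filter_upwards [hL.eventually_gt_atTop 0] with k hk
    field_simp
  have hN' : Tendsto (fun k => (N k : ℝ) / (L k - 2 * r) ^ d) atTop (𝓝 ρ) := by
    have h1 := hN.mul (hrat.pow d)
    rw [one_pow, mul_one] at h1
    refine h1.congr' ?_
    filter_upwards [hL.eventually_gt_atTop 0] with k hk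
    rw [div_pow]
    field_simp
  have hf := hfe r hr ρ hρ hlam (fun k => L k - 2 * r) N hL' hN'
  have hNinf : Tendsto (fun k => (N k : ℝ)) atTop atTop := lim_N hd hρ hL hN
  have hc : ∀ᶠ k in atTop, ρ * Real.exp (-(e / 64)) ≤ N k / L k ^ d := by
    have h1 : ρ * Real.exp (-(e / 64)) < ρ := by
      have : Real.exp (-(e / 64)) < 1 := by
        rw [← Real.exp_zero]; exact Real.exp_lt_exp.2 (by linarith)
      nlinarith
    filter_upwards [hN.eventually_const_lt h1] with k hk using hk.le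
  filter_upwards [hf, hc, hL.eventually_gt_atTop 0, hNinf.eventually_gt_atTop 0] with k k1 k2 k3 k4
  intro Y hY
  refine le_trans ?_ (cfgb_sub hr (N k) Y hY)
  obtain ⟨hZ, hab⟩ := k1
  rw [← hlam'] at hab
  set n := N k with hn
  set v := (volume (config d r (L k - 2 * r) n)).toReal with hv
  have hZv : ZZ d r (L k - 2 * r) n = v / (n.factorial : ℝ) := rfl
  have hfac : (0 : ℝ) < (n.factorial : ℝ) := by positivity
  have h1 := (abs_le.1 hab).2
  have h2 : -(n * (Real.log ρ - 1 + lam / 2 + e / 64)) ≤ Real.log (ZZ d r (L k - 2 * r) n) := by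
    have h3 : -(1 / (n : ℝ)) * Real.log (ZZ d r (L k - 2 * r) n) ≤
      Real.log ρ - 1 + lam / 2 + e / 64 := by linarith
    have h4 := mul_le_mul_of_nonneg_left h3 k4.le
    have h5 : (n : ℝ) * (-(1 / (n : ℝ)) * Real.log (ZZ d r (L k - 2 * r) n)) =
        -Real.log (ZZ d r (L k - 2 * r) n) := by field_simp
    rw [h5] at h4
    linarith
  have h3 : Real.exp (-(n * (Real.log ρ - 1 + lam / 2 + e / 64))) ≤ v / (n.factorial : ℝ) := by
    rw [← hZv, ← Real.exp_log hZ]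
    exact Real.exp_le_exp.2 h2
  have h4 := Real.pow_div_factorial_le_exp (n : ℝ) k4.le n
  rw [div_le_iff₀ hfac] at h4
  rw [le_div_iff₀ hfac] at h3
  refine le_trans ?_ h3
  have h5 : (n : ℝ) ^ n * Real.exp (-n) ≤ (n.factorial : ℝ) := by
    rw [Real.exp_neg, ← div_eq_mul_inv, div_le_iff₀ (Real.exp_pos _)]
    linarith
  have h6 := mul_le_mul_of_nonneg_left h5
    (Real.exp_pos (-(n * (Real.log ρ - 1 + lam / 2 + e / 64)))).le
  refine le_trans ?_ h6
  have hLd : 0 < L k ^ d := by positivity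
  have h7 : L k ^ d * (ρ * Real.exp (-(e / 64))) ≤ n := by
    rw [le_div_iff₀ hLd] at k2
    linarith
  have h8 : (L k ^ d) ^ n * (ρ * Real.exp (-(e / 64))) ^ n ≤ (n : ℝ) ^ n := by
    rw [← mul_pow]
    exact pow_le_pow_left₀ (by positivity) h7 n
  have h9 : (ρ * Real.exp (-(e / 64))) ^ n = Real.exp (n * (Real.log ρ - e / 64)) := by
    rw [Real.exp_nat_mul, sub_eq_add_neg, Real.exp_add, Real.exp_log hρ]
  rw [h9] at h8
  have h10 : (L k ^ d) ^ n * Real.exp (-(n * (lam / 2 + e / 32))) =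
      Real.exp (-(n * (Real.log ρ - 1 + lam / 2 + e / 64))) *
        (((L k ^ d) ^ n * Real.exp (n * (Real.log ρ - e / 64))) * Real.exp (-n)) := by
    have : Real.exp (-(n * (lam / 2 + e / 32))) =
        Real.exp (-(n * (Real.log ρ - 1 + lam / 2 + e / 64))) *
        Real.exp (n * (Real.log ρ - e / 64)) * Real.exp (-n) := by
      rw [← Real.exp_add, ← Real.exp_add]
      congr 1
      ring
    rw [this]
    ring
  rw [h10]
  gcongr

lemma up_exp {d n : ℕ} {r ℓ C : ℝ} (hℓ : 0 < ℓ)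
    (hup : ∀ ψ : (Fin d → ℝ) → ℝ, (∀ x, 0 ≤ ψ x) → Integrable ψ → (∀ x, ψ x ≤ Real.exp 4) →
      ℓ ^ d ≤ ∫ x, ψ x →
      ∫ x in config d r ℓ n, ∏ i, ψ (x i) ≤ (∫ x, ψ x) ^ n * Real.exp (n * C))
    (φ : (Fin d → ℝ) → ℝ) (hφ : Measurable φ) (h01 : ∀ y, φ y ∈ Set.Icc (0 : ℝ) 1)
    (t : ℝ) (ht0 : 0 ≤ t) (ht4 : t ≤ 4) :
    IntegrableOn (fun x : Fin n → Fin d → ℝ => Real.exp (t * ∑ i, φ (x i))) (config d r ℓ n) ∧
    ∫ x in config d r ℓ n, Real.exp (t * ∑ i, φ (x i)) ≤ (ℓ ^ d) ^ n *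
      Real.exp (n * (t * ((∫ y in cube d ℓ, φ y) / ℓ ^ d) + t ^ 2 / 8 + C)) := by
  set mφ := (∫ y in cube d ℓ, φ y) / ℓ ^ d with hm
  have hint := tf_integrable d (t := t) hℓ.le φ hφ h01
  have h1 := hup (tf d ℓ t φ) (tf_nonneg d ℓ t φ) hint
    (tf_le d ℓ ht0 ht4 φ h01) (tf_ge d hℓ.le ht0 φ hφ h01)
  have heq : ∀ x ∈ config d r ℓ n, ∏ i, tf d ℓ t φ (x i) = Real.exp (t * ∑ i, φ (x i)) := by
    intro x hx
    rw [Finset.mul_sum, Real.exp_sum]
    refine Finset.prod_congr rfl fun i _ => ?_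
    unfold tf
    rw [Set.indicator_of_mem]
    exact fun k => hx.1 i k
  have hcm := config_meas d r ℓ n
  constructor
  · exact ((prod_integrable hint).integrableOn).congr_fun heq hcm
  rw [setIntegral_congr_fun hcm heq] at h1
  have h2 := cube_hoeff d hℓ φ hφ h01 t
  rw [← tf_integral, ← hm] at h2
  have hℓd : 0 < ℓ ^ d := by positivity
  have h3 : 0 ≤ ∫ y, tf d ℓ t φ y := integral_nonneg (tf_nonneg d ℓ t φ)
  have h4 : (∫ y, tf d ℓ t φ y) ^ n ≤ (ℓ ^ d) ^ n * Real.exp (n * (t * mφ + t ^ 2 / 8)) := by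
    rw [Real.exp_nat_mul, ← mul_pow]
    exact pow_le_pow_left₀ h3 h2 n
  refine (h1.trans (mul_le_mul_of_nonneg_right h4 (Real.exp_pos (n * C)).le)).trans (le_of_eq ?_)
  rw [mul_assoc, ← Real.exp_add]
  congr 2
  ring

lemma one_sided {d n : ℕ} {r ℓ C : ℝ} (hℓ : 0 < ℓ)
    (hup : ∀ ψ : (Fin d → ℝ) → ℝ, (∀ x, 0 ≤ ψ x) → Integrable ψ → (∀ x, ψ x ≤ Real.exp 4) →
      ℓ ^ d ≤ ∫ x, ψ x →
      ∫ x in config d r ℓ n, ∏ i, ψ (x i) ≤ (∫ x, ψ x) ^ n * Real.exp (n * C))
    (φ : (Fin d → ℝ) → ℝ) (hφ : Measurable φ) (h01 : ∀ y, φ y ∈ Set.Icc (0 : ℝ) 1)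
    (δ : ℝ) (hδ0 : 0 ≤ δ) (hδ1 : δ ≤ 1) (S : Set (Fin n → Fin d → ℝ))
    (hS : ∀ x ∈ S, x ∈ config d r ℓ n ∧
      n * ((∫ y in cube d ℓ, φ y) / ℓ ^ d + δ) ≤ ∑ i, φ (x i)) :
    (volume S).toReal ≤ (ℓ ^ d) ^ n * Real.exp (n * (C - 2 * δ ^ 2)) := by
  set mφ := (∫ y in cube d ℓ, φ y) / ℓ ^ d with hm
  set t := 4 * δ with ht
  have ht0 : 0 ≤ t := by positivity
  have ht4 : t ≤ 4 := by rw [ht]; linarith
  obtain ⟨hi, h1⟩ := up_exp hℓ hup φ hφ h01 t ht0 ht4
  rw [← hm] at h1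
  have hcm := config_meas d r ℓ n
  set K := Real.exp (t * (n * (mφ + δ))) with hK
  have hK0 : 0 < K := Real.exp_pos _
  set f : (Fin n → Fin d → ℝ) → ℝ := (config d r ℓ n).indicator
    fun x => Real.exp (t * ∑ i, φ (x i)) with hf
  have hfi : Integrable f := (integrable_indicator_iff hcm).2 hi
  have hf0 : ∀ x, 0 ≤ f x := fun x => Set.indicator_nonneg (fun _ _ => (Real.exp_pos _).le) x
  have hmk := mul_meas_ge_le_integral_of_nonneg (Eventually.of_forall hf0) hfi K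
  rw [hf, integral_indicator hcm, ← hf] at hmk
  have hsub : S ⊆ {x | K ≤ f x} := by
    intro x hx
    obtain ⟨hx1, hx2⟩ := hS x hx
    show K ≤ f x
    rw [hf, Set.indicator_of_mem hx1]
    exact Real.exp_le_exp.2 (mul_le_mul_of_nonneg_left hx2 ht0)
  have h5 : K * (volume S).toReal ≤ K * ((ℓ ^ d) ^ n * Real.exp (n * (C - 2 * δ ^ 2))) := by
    calc K * (volume S).toReal ≤ K * volume.real {x | K ≤ f x} :=
          mul_le_mul_of_nonneg_left (ENNReal.toReal_mono
            (Integrable.measure_ge_lt_top hfi hK0).ne (measure_mono hsub)) hK0.le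
      _ ≤ (ℓ ^ d) ^ n * Real.exp (n * (t * mφ + t ^ 2 / 8 + C)) := hmk.trans h1
      _ = K * ((ℓ ^ d) ^ n * Real.exp (n * (C - 2 * δ ^ 2))) := by
        have : Real.exp (n * (t * mφ + t ^ 2 / 8 + C)) = K * Real.exp (n * (C - 2 * δ ^ 2)) := by
          rw [hK, ← Real.exp_add]
          congr 1
          rw [ht]
          ring
        rw [this]
        ring
  exact le_of_mul_le_mul_left h5 hK0

theorem conc (ε : ℝ) (hε : 0 < ε) : ∀ᶠ d : ℕ in atTop, ∀ r : ℝ, 0 < r → ∀ ρ : ℝ, 0 < ρ →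
    ρ * bv d r ≤ (eta - ε) * d → ∀ (L : ℕ → ℝ) (N : ℕ → ℕ), Tendsto L atTop atTop →
    Tendsto (fun k => (N k : ℝ) / L k ^ d) atTop (𝓝 ρ) →
    ∀ᶠ k in atTop, ∀ Y : Set (Fin d → ℝ), (∀ y ∈ Y, ∃ i, y i ≤ 0 ∨ L k ≤ y i) →
      0 < (volume (cfgb d r (L k) (N k) Y)).toReal ∧
      ∀ φ : (Fin d → ℝ) → ℝ, Measurable φ → (∀ y, φ y ∈ Set.Icc (0 : ℝ) 1) → ∀ δ : ℝ, 0 ≤ δ →
        (volume {x | x ∈ cfgb d r (L k) (N k) Y ∧
          δ ≤ |(∑ i, φ (x i)) / N k - (∫ y in cube d (L k), φ y) / L k ^ d|}).toReal ≤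
        2 * Real.exp (-((2 * δ ^ 2 - Real.exp (-(ε / 6 * (d : ℝ)))) * N k)) *
          (volume (cfgb d r (L k) (N k) Y)).toReal := by
  filter_upwards [lower_bc ε hε, param ε hε, eventually_ge_atTop 1] with d hlb hpar hd
  intro r hr ρ hρ hlam L N hL hN
  set e := Real.exp (-(ε / 6 * (d : ℝ))) with he
  have he0 : 0 < e := Real.exp_pos _
  obtain ⟨h, hh, hhr, hC⟩ := hpar r hr ρ hρ hlam
  have hup := upper_asym hd r (Real.exp 4) (-(ρ * bv d r / 2) + e / 4) hh hρ hhr (Real.exp_pos 4)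
    (ρ * bv d (r - 2 * (√d * h))) rfl hL hN hC
  have hNinf : Tendsto (fun k => (N k : ℝ)) atTop atTop := lim_N hd hρ hL hN
  filter_upwards [hlb r hr ρ hρ hlam L N hL hN, hup, hL.eventually_gt_atTop 0,
    hNinf.eventually_gt_atTop 0] with k k1 k2 k3 k4
  intro Y hY
  have hlow := k1 Y hY
  set lam := ρ * bv d r with hlam'
  set v := (volume (cfgb d r (L k) (N k) Y)).toReal with hv
  have hLd : 0 < L k ^ d := by positivity
  have hv0 : 0 < v := lt_of_lt_of_le (by positivity) hlow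
  refine ⟨hv0, ?_⟩
  intro φ hφ h01 δ hδ0
  set n := N k with hn
  set mφ := (∫ y in cube d (L k), φ y) / L k ^ d with hm
  have hvol := cube_vol d k3.le
  have hvt : volume (cube d (L k)) < ⊤ := by rw [hvol]; exact ENNReal.ofReal_lt_top
  have hfin : IsFiniteMeasure (volume.restrict (cube d (L k))) := ⟨by
    rw [Measure.restrict_apply_univ]; exact hvt⟩
  have hφi : IntegrableOn φ (cube d (L k)) := by
    refine Integrable.of_bound (C := 1) hφ.aestronglyMeasurable (Eventually.of_forall fun y => ?_)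
    rw [Real.norm_eq_abs, abs_of_nonneg (h01 y).1]
    exact (h01 y).2
  have hone : ∫ _y in cube d (L k), (1 : ℝ) = L k ^ d := by
    rw [setIntegral_const, Measure.real, hvol, ENNReal.toReal_ofReal (by positivity), smul_eq_mul,
      mul_one]
  have hmφ' : (∫ y in cube d (L k), (1 - φ y)) / L k ^ d = 1 - mφ := by
    rw [integral_sub (integrable_const _) hφi, hone, hm]
    field_simp
  have hm0 : 0 ≤ mφ := div_nonneg (integral_nonneg fun y => (h01 y).1) hLd.le
  have hm1 : mφ ≤ 1 := by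
    have : 0 ≤ (∫ y in cube d (L k), (1 - φ y)) / L k ^ d :=
      div_nonneg (integral_nonneg fun y => sub_nonneg.2 (h01 y).2) hLd.le
    rw [hmφ'] at this
    linarith
  set S : Set (Fin n → Fin d → ℝ) := {x | x ∈ cfgb d r (L k) n Y ∧
    δ ≤ |(∑ i, φ (x i)) / n - mφ|} with hS
  rcases le_or_gt δ 1 with hδ1 | hδ1
  · set S1 : Set (Fin n → Fin d → ℝ) := {x | x ∈ config d r (L k) n ∧
      n * (mφ + δ) ≤ ∑ i, φ (x i)} with hS1
    set S2 : Set (Fin n → Fin d → ℝ) := {x | x ∈ config d r (L k) n ∧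
      n * ((1 - mφ) + δ) ≤ ∑ i, (1 - φ (x i))} with hS2
    have b1 := one_sided k3 k2 φ hφ h01 δ hδ0 hδ1 S1 (fun x hx => hx)
    have b2 := one_sided k3 k2 (fun y => 1 - φ y) (hφ.const_sub 1) (fun y =>
      ⟨by linarith [(h01 y).2], by linarith [(h01 y).1]⟩) δ hδ0 hδ1 S2 (fun x hx => by
        rw [hmφ']; exact hx)
    have hsub : S ⊆ S1 ∪ S2 := by
      intro x hx
      obtain ⟨hx1, hx2⟩ := hx
      rcases le_abs.1 hx2 with h1 | h1
      · left
        refine ⟨hx1.1, ?_⟩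
        have h2 : mφ + δ ≤ (∑ i, φ (x i)) / n := by linarith
        rw [le_div_iff₀ k4] at h2
        linarith
      · right
        refine ⟨hx1.1, ?_⟩
        have h2 : (∑ i, φ (x i)) / n ≤ mφ - δ := by linarith
        rw [div_le_iff₀ k4] at h2
        rw [Finset.sum_sub_distrib, Finset.sum_const, Finset.card_univ, Fintype.card_fin,
          nsmul_eq_mul, mul_one]
        linarith
    have hlt : ∀ T : Set (Fin n → Fin d → ℝ), T ⊆ config d r (L k) n → volume T < ⊤ :=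
      fun T hT => (measure_mono hT).trans_lt (config_lt_top r (L k) n)
    have hS1t := hlt S1 fun x hx => hx.1
    have hS2t := hlt S2 fun x hx => hx.1
    have h1 : (volume S).toReal ≤ (volume S1).toReal + (volume S2).toReal := by
      rw [← ENNReal.toReal_add hS1t.ne hS2t.ne]
      exact ENNReal.toReal_mono (ENNReal.add_lt_top.2 ⟨hS1t, hS2t⟩).ne
        ((measure_mono hsub).trans (measure_union_le _ _))
    refine (h1.trans (add_le_add b1 b2)).trans ?_
    have h2 : (L k ^ d) ^ n * Real.exp (n * (-(lam / 2) + e / 4 - 2 * δ ^ 2)) =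
        Real.exp (n * (e / 4 + e / 32 - 2 * δ ^ 2)) *
          ((L k ^ d) ^ n * Real.exp (-(n * (lam / 2 + e / 32)))) := by
      have : Real.exp (n * (-(lam / 2) + e / 4 - 2 * δ ^ 2)) =
          Real.exp (n * (e / 4 + e / 32 - 2 * δ ^ 2)) * Real.exp (-(n * (lam / 2 + e / 32))) := by
        rw [← Real.exp_add]
        congr 1
        ring
      rw [this]
      ring
    have h3 : Real.exp (n * (e / 4 + e / 32 - 2 * δ ^ 2)) ≤
        Real.exp (-((2 * δ ^ 2 - e) * n)) := by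
      refine Real.exp_le_exp.2 ?_
      have : 0 ≤ (n : ℝ) * e := by positivity
      nlinarith
    have h4 : (L k ^ d) ^ n * Real.exp (n * (-(lam / 2) + e / 4 - 2 * δ ^ 2)) ≤
        Real.exp (-((2 * δ ^ 2 - e) * n)) * v := by
      rw [h2]
      exact mul_le_mul h3 hlow (by positivity) (Real.exp_pos _).le
    linarith
  · have hempty : S = ∅ := by
      rw [Set.eq_empty_iff_forall_notMem]
      intro x hx
      obtain ⟨-, hx2⟩ := hx
      have h1 : 0 ≤ (∑ i, φ (x i)) / n :=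
        div_nonneg (Finset.sum_nonneg fun i _ => (h01 (x i)).1) k4.le
      have h2 : (∑ i, φ (x i)) / n ≤ 1 := by
        rw [div_le_one k4]
        have := Finset.sum_le_card_nsmul Finset.univ (fun i => φ (x i)) 1
          (fun i _ => (h01 (x i)).2)
        simpa using this
      have h3 : |(∑ i, φ (x i)) / n - mφ| ≤ 1 := by
        rw [abs_le]
        constructor <;> linarith
      linarith
    rw [hempty, measure_empty, ENNReal.toReal_zero]
    positivity

end Pool.Agent.K4H61.HS
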