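import Pool.Agent.K4H61.HS.W7

/-!
The free energy in an external field, for all boundary conditions.
-/

set_option autoImplicit false
set_option maxHeartbeats 4000000
open Filter Topology MeasureTheory

namespace Pool.Agent.K4H61.HS

lemma cfgb_meas (d : ℕ) (r L : ℝ) (N : ℕ) (Y : Set (Fin d → ℝ)) :
    MeasurableSet (cfgb d r L N Y) := by
  have h1 : cfgb d r L N Y = config d r L N ∩ ⋂ i : Fin N, ⋂ y ∈ Y,
      {x : Fin N → Fin d → ℝ | r ^ 2 ≤ ∑ k, (x i k - y k) ^ 2} := by
    ext x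
    simp only [cfgb, Set.mem_inter_iff, Set.mem_iInter, Set.mem_ofPred_eq]
  rw [h1]
  refine (config_meas d r L N).inter (IsClosed.measurableSet ?_)
  refine isClosed_iInter fun i => isClosed_biInter fun y _ => ?_
  exact isClosed_le continuous_const (by fun_prop)

/-- the partition function in the external field `s u` -/
noncomputable def Zf (d : ℕ) (r L : ℝ) (N : ℕ) (Y : Set (Fin d → ℝ)) (s : ℝ)
    (u : (Fin d → ℝ) → ℝ) : ℝ :=
  (∫ x in cfgb d r L N Y, Real.exp (-(s * ∑ i, u (x i)))) / (N.factorial : ℝ)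

/-- uniform constants -/
lemma good_k (ε : ℝ) (hε : 0 < ε) : ∀ᶠ d : ℕ in atTop, ∀ r : ℝ, 0 < r → ∀ ρ : ℝ, 0 < ρ →
    ρ * bv d r ≤ (eta - ε) * d → ∀ (L : ℕ → ℝ) (N : ℕ → ℕ), Tendsto L atTop atTop →
    Tendsto (fun k => (N k : ℝ) / L k ^ d) atTop (𝓝 ρ) →
    ∀ᶠ k in atTop, ∀ ψ : (Fin d → ℝ) → ℝ, (∀ x, 0 ≤ ψ x) → Integrable ψ →
      (∀ x, ψ x ≤ Real.exp 4) → L k ^ d ≤ ∫ x, ψ x →
      ∫ x in config d r (L k) (N k), ∏ i, ψ (x i) ≤ (∫ x, ψ x) ^ N k *
        Real.exp (N k * (-(ρ * bv d r / 2) + Real.exp (-(ε / 6 * (d : ℝ))) / 4)) := by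
  filter_upwards [param ε hε, eventually_ge_atTop 1] with d hpar hd
  intro r hr ρ hρ hlam L N hL hN
  obtain ⟨h, hh, hhr, hC⟩ := hpar r hr ρ hρ hlam
  exact upper_asym hd r (Real.exp 4) _ hh hρ hhr (Real.exp_pos 4)
    (ρ * bv d (r - 2 * (√d * h))) rfl hL hN hC

theorem field (ε : ℝ) (hε : 0 < ε) : ∀ᶠ d : ℕ in atTop, ∀ r : ℝ, 0 < r → ∀ ρ : ℝ, 0 < ρ →
    ρ * bv d r ≤ (eta - ε) * d → ∀ (L : ℕ → ℝ) (N : ℕ → ℕ), Tendsto L atTop atTop →
    Tendsto (fun k => (N k : ℝ) / L k ^ d) atTop (𝓝 ρ) →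
    ∀ᶠ k in atTop, ∀ Y : Set (Fin d → ℝ), (∀ y ∈ Y, ∃ i, y i ≤ 0 ∨ L k ≤ y i) →
      ∀ u : (Fin d → ℝ) → ℝ, Measurable u → (∀ y, u y ∈ Set.Icc (0 : ℝ) 1) →
      ∀ s : ℝ, 0 ≤ s → s ≤ 1 → 0 < Zf d r (L k) (N k) Y s u ∧
        |-(1 / (N k : ℝ)) * Real.log (Zf d r (L k) (N k) Y s u) -
          (Real.log ρ - 1 + ρ * bv d r / 2 + s * ((∫ y in cube d (L k), u y) / L k ^ d))| ≤
        s ^ 2 / 8 + Real.exp (-(ε / 13 * (d : ℝ))) := by
  filter_upwards [lower_bc ε hε, conc ε hε, good_k ε hε, eventually_ge_atTop 1,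
    exp_small 4 (ε / 12) (ε / 13) 0 (by linarith)] with d hlb hco hgk hd hE
  intro r hr ρ hρ hlam L N hL hN
  simp only [pow_zero, mul_one] at hE
  set e := Real.exp (-(ε / 6 * (d : ℝ))) with he
  set δ := Real.exp (-(ε / 12 * (d : ℝ))) with hδ
  set E := Real.exp (-(ε / 13 * (d : ℝ))) with hEE
  have he0 : 0 < e := Real.exp_pos _
  have hδ0 : 0 < δ := Real.exp_pos _
  have hδ2 : δ ^ 2 = e := by
    rw [hδ, he, ← Real.exp_nat_mul]
    congr 1
    push_cast
    ring
  have hδ1 : δ ≤ 1 := by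
    rw [hδ, ← Real.exp_zero]
    refine Real.exp_le_exp.2 ?_
    have : 0 ≤ ε / 12 * (d : ℝ) := by positivity
    linarith
  have heδ : e ≤ δ := by rw [← hδ2, sq]; nlinarith
  have hNinf : Tendsto (fun k => (N k : ℝ)) atTop atTop := lim_N hd hρ hL hN
  have c1 : ∀ᶠ k in atTop, 2 * Real.exp (-(e * N k)) ≤ 1 / 2 := by
    have h1 : Tendsto (fun k => Real.exp (-(e * N k))) atTop (𝓝 0) :=
      Real.tendsto_exp_neg_atTop_nhds_zero.comp (hNinf.const_mul_atTop he0)
    filter_upwards [h1.eventually_lt_const (by norm_num : (0:ℝ) < 1 / 4)] with k hk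
    linarith
  have c2 : ∀ᶠ k in atTop, |Real.log (N k / L k ^ d) - Real.log ρ| ≤ δ / 4 := by
    have h1 : Tendsto (fun k => Real.log (N k / L k ^ d)) atTop (𝓝 (Real.log ρ)) :=
      (Real.continuousAt_log hρ.ne').tendsto.comp hN
    filter_upwards [(Metric.tendsto_nhds.1 h1) (δ / 4) (by positivity)] with k hk
    rw [Real.dist_eq] at hk
    exact hk.le
  have c3 : ∀ᶠ k in atTop, (1 + Real.log (N k)) / N k + Real.log 2 / N k ≤ δ / 4 := by
    have h1 := (lim_logN hNinf).add (hNinf.const_div_atTop (Real.log 2))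
    rw [add_zero] at h1
    filter_upwards [h1.eventually_lt_const (by positivity : 0 < δ / 4)] with k hk using hk.le
  filter_upwards [hlb r hr ρ hρ hlam L N hL hN, hco r hr ρ hρ hlam L N hL hN,
    hgk r hr ρ hρ hlam L N hL hN, hL.eventually_gt_atTop 0, hNinf.eventually_gt_atTop 0,
    c1, c2, c3] with k k1 k2 k3 k4 k5 k6 k7 k8
  intro Y hY u hu hu01 s hs0 hs1
  have hlow := k1 Y hY
  obtain ⟨hv0, hcon⟩ := k2 Y hY
  set lam := ρ * bv d r with hlam'
  set n := N k with hn
  set ℓ := L k with hℓ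
  set v := (volume (cfgb d r ℓ n Y)).toReal with hv
  set mu := (∫ y in cube d ℓ, u y) / ℓ ^ d with hmu
  have hLd : 0 < ℓ ^ d := by positivity
  have hcm := cfgb_meas d r ℓ n Y
  have hsub0 : cfgb d r ℓ n Y ⊆ config d r ℓ n := fun x hx => hx.1
  have hcfm := config_meas d r ℓ n
  set F : (Fin n → Fin d → ℝ) → ℝ := fun x => Real.exp (-(s * ∑ i, u (x i))) with hF
  have hFm : Measurable F := by
    rw [hF]
    have : Measurable fun x : Fin n → Fin d → ℝ => ∑ i, u (x i) :=
      Finset.measurable_fun_sum _ fun i _ => hu.comp (measurable_pi_apply i)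
    exact Real.measurable_exp.comp ((this.const_mul s).neg)
  -- upper bound for the integral
  obtain ⟨hi, hup⟩ := up_exp k4 k3 (fun y => 1 - u y) (hu.const_sub 1) (fun y =>
      ⟨by linarith [(hu01 y).2], by linarith [(hu01 y).1]⟩) s hs0 (by linarith)
  have hvol := cube_vol d k4.le
  have hvt : volume (cube d ℓ) < ⊤ := by rw [hvol]; exact ENNReal.ofReal_lt_top
  have hfin : IsFiniteMeasure (volume.restrict (cube d ℓ)) := ⟨by
    rw [Measure.restrict_apply_univ]; exact hvt⟩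
  have hui : IntegrableOn u (cube d ℓ) := by
    refine Integrable.of_bound (C := 1) hu.aestronglyMeasurable (Eventually.of_forall fun y => ?_)
    rw [Real.norm_eq_abs, abs_of_nonneg (hu01 y).1]
    exact (hu01 y).2
  have hone : ∫ _y in cube d ℓ, (1 : ℝ) = ℓ ^ d := by
    rw [setIntegral_const, Measure.real, hvol, ENNReal.toReal_ofReal (by positivity), smul_eq_mul,
      mul_one]
  have hmu' : (∫ y in cube d ℓ, (1 - u y)) / ℓ ^ d = 1 - mu := by
    rw [integral_sub (integrable_const _) hui, hone, hmu]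
    field_simp
  rw [hmu'] at hup
  have hFe : ∀ x : Fin n → Fin d → ℝ, Real.exp (s * ∑ i, (1 - u (x i))) =
      Real.exp (s * n) * F x := by
    intro x
    rw [hF]
    dsimp only
    rw [← Real.exp_add, Finset.sum_sub_distrib, Finset.sum_const, Finset.card_univ,
      Fintype.card_fin, nsmul_eq_mul, mul_one]
    congr 1
    ring
  simp_rw [hFe] at hup hi
  rw [integral_const_mul] at hup
  have hiF : IntegrableOn F (config d r ℓ n) := by
    have h1 := hi.const_mul (Real.exp (s * n))⁻¹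
    refine h1.congr (Eventually.of_forall fun x => ?_)
    have := Real.exp_pos (s * n)
    dsimp only
    field_simp
  have hF0 : ∀ x, 0 < F x := fun x => Real.exp_pos _
  have hA : ∫ x in cfgb d r ℓ n Y, F x ≤
      (ℓ ^ d) ^ n * Real.exp (n * (-(s * mu) + s ^ 2 / 8 + (-(lam / 2) + e / 4))) := by
    have h1 : ∫ x in cfgb d r ℓ n Y, F x ≤ ∫ x in config d r ℓ n, F x :=
      setIntegral_mono_set hiF (Eventually.of_forall fun x => (hF0 x).le)
        (Eventually.of_forall hsub0)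
    refine h1.trans ?_
    have h2 : Real.exp (n * (s * (1 - mu) + s ^ 2 / 8 + (-(lam / 2) + e / 4))) =
        Real.exp (s * n) * Real.exp (n * (-(s * mu) + s ^ 2 / 8 + (-(lam / 2) + e / 4))) := by
      rw [← Real.exp_add]
      congr 1
      ring
    rw [h2] at hup
    have h3 : (ℓ ^ d) ^ n * (Real.exp (s * n) *
        Real.exp (n * (-(s * mu) + s ^ 2 / 8 + (-(lam / 2) + e / 4)))) = Real.exp (s * n) *
        ((ℓ ^ d) ^ n * Real.exp (n * (-(s * mu) + s ^ 2 / 8 + (-(lam / 2) + e / 4)))) := by ring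
    rw [h3] at hup
    exact le_of_mul_le_mul_left hup (Real.exp_pos _)
  -- lower bound for the integral
  have hbad := hcon u hu hu01 δ hδ0.le
  set Bd : Set (Fin n → Fin d → ℝ) := {x | x ∈ cfgb d r ℓ n Y ∧
    δ ≤ |(∑ i, u (x i)) / n - mu|} with hBd
  have hBdm : MeasurableSet Bd := by
    have h1 : Measurable fun x : Fin n → Fin d → ℝ => |(∑ i, u (x i)) / n - mu| := by
      have : Measurable fun x : Fin n → Fin d → ℝ => ∑ i, u (x i) :=
        Finset.measurable_fun_sum _ fun i _ => hu.comp (measurable_pi_apply i)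
      exact ((this.div_const _).sub_const _).abs
    exact hcm.inter (measurableSet_le measurable_const h1)
  have hcft : volume (cfgb d r ℓ n Y) < ⊤ := (measure_mono hsub0).trans_lt (config_lt_top r ℓ n)
  have hbad2 : (volume Bd).toReal ≤ v / 2 := by
    have h1 : 2 * δ ^ 2 - e = e := by rw [hδ2]; ring
    rw [h1] at hbad
    have h2 := mul_le_mul_of_nonneg_right k6 hv0.le
    linarith
  have hgood : v / 2 ≤ (volume (cfgb d r ℓ n Y \ Bd)).toReal := by
    have h1 : Bd ⊆ cfgb d r ℓ n Y := fun x hx => hx.1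
    have hBt : volume Bd < ⊤ := (measure_mono h1).trans_lt hcft
    rw [measure_sdiff h1 hBdm.nullMeasurableSet hBt.ne,
      ENNReal.toReal_sub_of_le (measure_mono h1) hcft.ne]
    linarith
  have hB : Real.exp (-(s * (n * (mu + δ)))) * (v / 2) ≤ ∫ x in cfgb d r ℓ n Y, F x := by
    have hgm : MeasurableSet (cfgb d r ℓ n Y \ Bd) := hcm.diff hBdm
    have hgt : volume (cfgb d r ℓ n Y \ Bd) < ⊤ := (measure_mono Set.sdiff_subset).trans_lt hcft
    have h1 : ∫ x in cfgb d r ℓ n Y \ Bd, F x ≤ ∫ x in cfgb d r ℓ n Y, F x :=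
      setIntegral_mono_set (hiF.mono_set hsub0) (Eventually.of_forall fun x => (hF0 x).le)
        (Eventually.of_forall Set.sdiff_subset)
    refine le_trans ?_ h1
    have h2 : ∫ _x in cfgb d r ℓ n Y \ Bd, Real.exp (-(s * (n * (mu + δ)))) ≤
        ∫ x in cfgb d r ℓ n Y \ Bd, F x := by
      refine setIntegral_mono_on (integrableOn_const hgt.ne)
        (hiF.mono_set (Set.sdiff_subset.trans hsub0)) hgm fun x hx => ?_
      refine Real.exp_le_exp.2 (neg_le_neg (mul_le_mul_of_nonneg_left ?_ hs0))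
      have h3 : ¬ δ ≤ |(∑ i, u (x i)) / n - mu| := fun h => hx.2 ⟨hx.1, h⟩
      push Not at h3
      have h4 := (abs_lt.1 h3).2
      have h5 : (∑ i, u (x i)) / n ≤ mu + δ := by linarith
      rw [div_le_iff₀ k5] at h5
      linarith
    refine le_trans ?_ h2
    rw [setIntegral_const, smul_eq_mul, mul_comm]
    exact mul_le_mul_of_nonneg_right hgood (Real.exp_pos _).le
  -- conclusion
  set I := ∫ x in cfgb d r ℓ n Y, F x with hI
  have hI0 : 0 < I := lt_of_lt_of_le (by positivity) hB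
  have hfac : (0 : ℝ) < (n.factorial : ℝ) := by positivity
  have hZe : Zf d r ℓ n Y s u = I / (n.factorial : ℝ) := rfl
  have hZ0 : 0 < Zf d r ℓ n Y s u := by rw [hZe]; positivity
  refine ⟨hZ0, ?_⟩
  have hlogA : Real.log I ≤ n * Real.log (ℓ ^ d) +
      n * (-(s * mu) + s ^ 2 / 8 + (-(lam / 2) + e / 4)) := by
    have h1 := Real.log_le_log hI0 hA
    rwa [Real.log_mul (by positivity) (by positivity), Real.log_pow, Real.log_exp] at h1
  have hlogB : -(s * (n * (mu + δ))) + (n * Real.log (ℓ ^ d) - n * (lam / 2 + e / 32)) -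
      Real.log 2 ≤ Real.log I := by
    have h1 : Real.exp (-(s * (n * (mu + δ)))) *
        (((ℓ ^ d) ^ n * Real.exp (-(n * (lam / 2 + e / 32)))) / 2) ≤ I := by
      refine le_trans ?_ hB
      gcongr
    have h2 := Real.log_le_log (by positivity) h1
    rw [Real.log_mul (by positivity) (by positivity), Real.log_exp,
      Real.log_div (by positivity) (by norm_num), Real.log_mul (by positivity) (by positivity),
      Real.log_pow, Real.log_exp] at h2
    linarith
  have hn1 : 1 ≤ n := by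
    have : (0 : ℝ) < n := k5
    exact_mod_cast this
  have hf1 := log_factorial_le n hn1
  have hf2 : n * Real.log n - n ≤ Real.log (n.factorial : ℝ) := by
    have h4 := Real.pow_div_factorial_le_exp (n : ℝ) k5.le n
    rw [div_le_iff₀ hfac] at h4
    have h5 := Real.log_le_log (by positivity) h4
    rw [Real.log_pow, Real.log_mul (Real.exp_pos _).ne' hfac.ne', Real.log_exp] at h5
    linarith
  have hlogn : Real.log (n / ℓ ^ d) = Real.log n - Real.log (ℓ ^ d) :=
    Real.log_div k5.ne' hLd.ne'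
  rw [hlogn] at k7
  have hk7 := abs_le.1 k7
  have hlogZ : Real.log (Zf d r ℓ n Y s u) = Real.log I - Real.log (n.factorial : ℝ) := by
    rw [hZe, Real.log_div hI0.ne' hfac.ne']
  have hdiv : -(1 / (n : ℝ)) * Real.log (Zf d r ℓ n Y s u) =
      (Real.log (n.factorial : ℝ) - Real.log I) / n := by
    rw [hlogZ]; ring
  rw [hdiv, abs_le]
  have hsδ : s * δ ≤ δ := by nlinarith
  have hsum : (1 + Real.log n) / n + Real.log 2 / n = (1 + Real.log n + Real.log 2) / n := by ring
  rw [hsum, div_le_iff₀ k5] at k8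
  constructor
  · have h1 : (Real.log n - 1 - Real.log (ℓ ^ d) + s * mu - s ^ 2 / 8 + lam / 2 - e / 4) ≤
        (Real.log (n.factorial : ℝ) - Real.log I) / n := by
      rw [le_div_iff₀ k5]
      nlinarith
    have h2 := hk7.1
    linarith
  · have h1 : (Real.log (n.factorial : ℝ) - Real.log I) / n ≤
        Real.log n - 1 - Real.log (ℓ ^ d) + s * (mu + δ) + lam / 2 + e / 32 + δ / 4 := by
      rw [div_le_iff₀ k5]
      nlinarith
    have h2 := hk7.2
    have h3 : 0 ≤ s ^ 2 / 8 := by positivity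
    linarith

end Pool.Agent.K4H61.HS
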